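import Pool.Agent.TW.Defs

/-!
# Project TW: the involution of the ultraproduct, elements of the ring

PROOFS.  `exists_st`: `st (U.cls a) = U.cls (fun V => (a V)ᵀ)`: well defined because `rank aᵀ = rank a` (`Matrix.rank_transpose`) and `U.ker`
(use `U.surj`; for instance `st x = U.cls (fun V => ((U.surj x).choose V)ᵀ)` and the lemma that `U.cls a = U.cls b` implies
`U.cls (fun V => (a V)ᵀ) = U.cls (fun V => (b V)ᵀ)`); `Matrix.transpose_mul`.  `(rg V h)ᵀ = rg V h⁻¹`: `y = x * h ↔ x = y * h⁻¹`.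
`nontrivial`: `U.cls 1 = 0` contradicts `U.ker` for `ε = 1 / 2` (`Matrix.rank_one`, `card > 0`, the ultrafilter is not trivial).
`cls_eq`: `U.cls a = U.cls b` if `a V = b V` for almost all `V` (`U.ker` for `a - b`, rank `0`).
-/

set_option autoImplicit false
set_option linter.unusedSectionVars false

namespace Pool.Agent.TW

section

variable {H : Type} [Group H] (U : UR H)

private theorem cls_tr {a b : ∀ V : Idx H, Matrix (H ⧸ V.1) (H ⧸ V.1) (ZMod 2)} (h : U.cls a = U.cls b) :
    U.cls (fun V => (a V).transpose) = U.cls (fun V => (b V).transpose) := by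
  have h1 : U.cls (a - b) = 0 := by rw [map_sub, h, sub_self]
  have h2 : U.cls ((fun V => (a V).transpose) - fun V => (b V).transpose) = 0 := by
    refine (U.ker _).2 fun ε hε => ((U.ker _).1 h1 ε hε).mono fun V hV => ?_
    have h3 : ((fun V => (a V).transpose) - fun V => (b V).transpose : ∀ V : Idx H, Matrix (H ⧸ V.1) (H ⧸ V.1) (ZMod 2)) V
        = ((a - b) V).transpose := by
      rw [Pi.sub_apply, Pi.sub_apply, Matrix.transpose_sub]
    rw [h3, Matrix.rank_transpose]
    exact hV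
  rw [map_sub] at h2
  exact sub_eq_zero.1 h2

private noncomputable def stf (x : U.E) : U.E := U.cls fun V => ((U.surj x).choose V).transpose

private theorem stf_cls (a : ∀ V : Idx H, Matrix (H ⧸ V.1) (H ⧸ V.1) (ZMod 2)) :
    stf U (U.cls a) = U.cls fun V => (a V).transpose :=
  cls_tr U (U.surj (U.cls a)).choose_spec

private theorem rg_tr (V : Idx H) (h : H) : (rg V h).transpose = rg V h⁻¹ := by
  ext x y
  change (if x = y * (h : H ⧸ V.1) then (1 : ZMod 2) else 0) = if y = x * ((h⁻¹ : H) : H ⧸ V.1) then 1 else 0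
  have h1 : x = y * (h : H ⧸ V.1) ↔ y = x * ((h⁻¹ : H) : H ⧸ V.1) := by
    rw [QuotientGroup.mk_inv]
    constructor
    · rintro rfl
      rw [mul_inv_cancel_right]
    · rintro rfl
      rw [inv_mul_cancel_right]
  simp only [h1]

/-- **The involution** -/
theorem exists_st : Nonempty (StR U.u) := by
  refine ⟨⟨⟨⟨stf U, ?_⟩, ?_⟩, ?_, ?_, ?_⟩⟩
  · have h0 := stf_cls U 0
    rw [map_zero] at h0
    rw [h0]
    rw [show (fun V : Idx H => ((0 : ∀ V : Idx H, Matrix (H ⧸ V.1) (H ⧸ V.1) (ZMod 2)) V).transpose) = 0 from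
      funext fun V => Matrix.transpose_zero, map_zero]
  · intro x y
    obtain ⟨a, rfl⟩ := U.surj x
    obtain ⟨b, rfl⟩ := U.surj y
    change stf U (U.cls a + U.cls b) = stf U (U.cls a) + stf U (U.cls b)
    rw [← map_add, stf_cls, stf_cls, stf_cls, ← map_add]
    congr 1
  · intro x y
    obtain ⟨a, rfl⟩ := U.surj x
    obtain ⟨b, rfl⟩ := U.surj y
    change stf U (U.cls a * U.cls b) = stf U (U.cls b) * stf U (U.cls a)
    rw [← map_mul, stf_cls, stf_cls, stf_cls, ← map_mul]
    congr 1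
    funext V
    exact Matrix.transpose_mul _ _
  · intro x
    obtain ⟨a, rfl⟩ := U.surj x
    change stf U (stf U (U.cls a)) = U.cls a
    rw [stf_cls, stf_cls]
    rfl
  · intro h
    change stf U (U.u h) = U.u h⁻¹
    rw [U.u_apply, U.u_apply, stf_cls]
    congr 1
    funext V
    exact rg_tr V h

theorem UR.nontrivial : Nontrivial U.E := by
  refine ⟨⟨1, 0, fun h => ?_⟩⟩
  have h1 : U.cls 1 = 0 := by rw [map_one]; exact h
  have h2 := (U.ker _).1 h1 (1 / 2) (by norm_num)
  obtain ⟨V, hV⟩ := h2.exists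
  have h3 : ((1 : ∀ V : Idx H, Matrix (H ⧸ V.1) (H ⧸ V.1) (ZMod 2)) V).rank = Fintype.card (H ⧸ V.1) :=
    Matrix.rank_one
  rw [h3] at hV
  have h4 : (0 : ℝ) < Fintype.card (H ⧸ V.1) := by exact_mod_cast Fintype.card_pos
  linarith

theorem UR.cls_eq {a b : ∀ V : Idx H, Matrix (H ⧸ V.1) (H ⧸ V.1) (ZMod 2)}
    (h : ∀ᶠ V in (U.F : Filter (Idx H)), a V = b V) : U.cls a = U.cls b := by
  have h1 : U.cls (a - b) = 0 := by
    refine (U.ker _).2 fun ε hε => h.mono fun V hV => ?_
    rw [Pi.sub_apply, hV, sub_self, Matrix.rank_zero, Nat.cast_zero]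
    positivity
  rw [map_sub] at h1
  exact sub_eq_zero.1 h1

end

end Pool.Agent.TW
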