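import Pool.Agent.TW.DC
import Pool.Agent.TW.URs
import Pool.Agent.S11.FL.Chain

/-!
# Project TW: the trivial subgroup

PROOF.  `U.D ⊥ = ⊥` (the subalgebra of the scalars `0`, `1`): `range (U.uJ ⊥) = {1} ⊆ ⊥`, and `⊥` is closed under inverses (`a = algebraMap r`; `r = 0` is impossible
since `U.E` is not trivial, `UR.nontrivial`; `r = 1` gives `b = 1`); so every element different from zero is `1`.  `flat`: the group `↥⊥` is trivial, so
`act j ρ g = id` for all `g` and `II j ρ ⊤ = ⊥`; the map `mapX i` is injective because `i` is injective and the tensor products over the field `ZMod 2` are flat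
(`Module.Flat`: `TensorProduct.map_injective_of_flat_flat` as in `JJ_inj` of `S14/PairF.lean`).
-/

set_option autoImplicit false
set_option linter.unusedSectionVars false

namespace Pool.Agent.TW

open Pool.Agent.S11.FL

/-- an element of the smallest subalgebra is `0` or `1` -/
private theorem bot_cases {E : Type} [Ring E] [Algebra (ZMod 2) E] {a : E}
    (ha : a ∈ (⊥ : Subalgebra (ZMod 2) E)) : a = 0 ∨ a = 1 := by
  obtain ⟨r, rfl⟩ := Algebra.mem_bot.1 ha
  have hd : ∀ r : ZMod 2, r = 0 ∨ r = 1 := by decide
  rcases hd r with rfl | rfl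
  · exact Or.inl (map_zero _)
  · exact Or.inr (map_one _)

/-- the smallest subalgebra is closed under inverses -/
private theorem invC_bot {E : Type} [Ring E] [Algebra (ZMod 2) E] [Nontrivial E] :
    InvC (⊥ : Subalgebra (ZMod 2) E) := by
  intro a ha b h1 _
  rcases bot_cases ha with rfl | rfl
  · rw [zero_mul] at h1
    exact absurd h1 zero_ne_one
  · rw [one_mul] at h1
    rw [h1]
    exact one_mem _

/-- **The trivial subgroup** -/
theorem ok_bot {H : Type} [Group H] (U : UR H) : U.Ok ⊥ := by
  have := U.nontrivial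
  refine ⟨?_, ?_⟩
  · have hle : U.D ⊥ ≤ ⊥ := by
      refine dcl_le ?_ invC_bot
      rintro _ ⟨h, rfl⟩
      rw [Subsingleton.elim h 1, map_one]
      exact one_mem _
    intro a ha h0
    rcases bot_cases (hle ha) with rfl | rfl
    · exact absurd rfl h0
    · exact ⟨1, ha, mul_one 1, mul_one 1⟩
  · rw [Subsingleton.elim (⊤ : Subgroup ↥(⊥ : Subgroup H)) ⊥]
    exact flatOn_bot

end Pool.Agent.TW
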