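import Pool.Agent.TW.OR

/-!
# Project TW: elementary properties of towers

PROOFS.  `Tower.comap`: induction; `⊥.comap f = ⊥` (`f` injective); step: `J.comap f`, `N.comap f`, the homomorphisms `φ ∘ f`, the subgroups
`V.comap f` (finite index: `Subgroup.FiniteIndex` of a comap).  `Tower.res`: induction; `x ∈ J`, `x ∉ N`: `φ x ≠ 1` has an entry above the diagonal
different from zero, not divisible by `2 ^ t` for large `t`, so `x ∉ V`.  `Tower.lo`: induction with `StepT.exists_apx`: `x` is positive iff `1 < p x`, or
`p x = 1` and `x` is positive in `N`: a left order (left orders of extensions: `x < y` iff `1 < x⁻¹ * y`; positivity is closed under products because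
conjugation is not needed: for `p x = 1`, `1 < p y` one has `1 < p (x * y)`; both in `N`: fine).
-/

set_option autoImplicit false
set_option linter.unusedSectionVars false

namespace Pool.Agent.TW

open Pool.Agent.S11

theorem Tower.comap {H H' : Type} [Group H] [Group H'] (f : H' →* H) (hf : Function.Injective f) {J : Subgroup H}
    (h : Tower J) : Tower (J.comap f) := by
  induction h with
  | bot =>
    have e : (⊥ : Subgroup H).comap f = ⊥ := by
      rw [eq_bot_iff]
      intro x hx
      rw [Subgroup.mem_comap, Subgroup.mem_bot] at hx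
      rw [Subgroup.mem_bot]
      exact hf (by rw [hx, map_one])
    rw [e]
    exact Tower.bot
  | step J N hN hs ih =>
    refine Tower.step _ _ ih ⟨Subgroup.comap_mono hs.le, ?_, ?_⟩
    · intro h hh n hn
      rw [Subgroup.mem_comap] at hh hn ⊢
      rw [map_mul, map_mul, map_inv]
      exact hs.conj _ hh _ hn
    · intro x hx
      let fJ : ↥(J.comap f) →* ↥J := (f.comp (J.comap f).subtype).codRestrict J (fun y => y.2)
      obtain ⟨n, φ, hut, htr, hne, hV⟩ := hs.sep (fJ x) hx
      refine ⟨n, φ.comp fJ, fun y => hut _, fun y hy => htr _ hy, hne, fun t => ?_⟩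
      obtain ⟨V, hVf, hV'⟩ := hV t
      have hVc : (V.comap f).FiniteIndex := by
        refine ⟨?_⟩
        rw [Subgroup.index_comap]
        exact (Subgroup.instFiniteIndex_subgroupOf V f.range).index_ne_zero
      exact ⟨V.comap f, hVc, fun y hy a b hab => hV' (fJ y) hy a b hab⟩

theorem Tower.res {H : Type} [Group H] {J : Subgroup H} (h : Tower J) (x : H) (hx : x ∈ J) (h1 : x ≠ 1) :
    ∃ V : Subgroup H, V.FiniteIndex ∧ x ∉ V := by
  induction h with
  | bot => exact absurd (Subgroup.mem_bot.mp hx) h1
  | step J N hN hs ih =>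
    by_cases hxN : x ∈ N
    · exact ih hxN
    · obtain ⟨n, φ, hut, htr, hne, hV⟩ := hs.sep ⟨x, hx⟩ hxN
      have hex : ∃ a b, a < b ∧ φ ⟨x, hx⟩ a b ≠ 0 := by
        by_contra hc
        push Not at hc
        apply hne
        ext a b
        rcases lt_trichotomy a b with hab | hab | hab
        · rw [hc a b hab, Matrix.one_apply_ne hab.ne]
        · subst hab
          rw [(hut _).1, Matrix.one_apply_eq]
        · rw [(hut _).2 a b hab, Matrix.one_apply_ne hab.ne']
      obtain ⟨a, b, hab, h0⟩ := hex
      obtain ⟨V, hVf, hV'⟩ := hV ((φ ⟨x, hx⟩ a b).natAbs)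
      refine ⟨V, hVf, fun hxV => ?_⟩
      have hd := hV' ⟨x, hx⟩ hxV a b hab.ne
      have hd' := Int.natAbs_dvd_natAbs.mpr hd
      rw [Int.natAbs_pow] at hd'
      have hle := Nat.le_of_dvd (Int.natAbs_pos.mpr h0) hd'
      have hlt : (φ ⟨x, hx⟩ a b).natAbs < 2 ^ (φ ⟨x, hx⟩ a b).natAbs := Nat.lt_two_pow_self
      exact absurd hle (not_le.mpr hlt)

/-- a left order from a positive cone -/
private theorem lo_of_cone {G : Type} [Group G] (P : G → Prop) (hmul : ∀ x y, P x → P y → P (x * y))
    (h1 : ¬ P 1) (htot : ∀ x, x ≠ 1 → P x ∨ P x⁻¹) : Nonempty (S14.LO G) := by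
  classical
  have htr : ∀ x y z : G, P (x⁻¹ * y) → P (y⁻¹ * z) → P (x⁻¹ * z) := by
    intro x y z h h'
    have e : x⁻¹ * z = (x⁻¹ * y) * (y⁻¹ * z) := by group
    rw [e]
    exact hmul _ _ h h'
  have hir : ∀ x : G, ¬ P (x⁻¹ * x) := by
    intro x h
    rw [inv_mul_cancel] at h
    exact h1 h
  let L : LinearOrder G :=
    { le := fun x y => x = y ∨ P (x⁻¹ * y)
      lt := fun x y => P (x⁻¹ * y)
      le_refl := fun x => Or.inl rfl
      le_trans := by
        rintro x y z (rfl | hxy) (rfl | hyz)
        · exact Or.inl rfl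
        · exact Or.inr hyz
        · exact Or.inr hxy
        · exact Or.inr (htr _ _ _ hxy hyz)
      lt_iff_le_not_ge := by
        intro x y
        constructor
        · intro h
          refine ⟨Or.inr h, ?_⟩
          rintro (rfl | h')
          · exact hir _ h
          · exact hir _ (htr _ _ _ h h')
        · rintro ⟨h | h, h'⟩
          · exact absurd (Or.inl h.symm) h'
          · exact h
      le_antisymm := by
        rintro x y (rfl | hxy) (h | hyx)
        · rfl
        · rfl
        · exact h.symm
        · exact absurd (htr _ _ _ hxy hyx) (hir _)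
      le_total := by
        intro x y
        by_cases hxy : x = y
        · exact Or.inl (Or.inl hxy)
        · have hne : x⁻¹ * y ≠ 1 := by
            intro h
            exact hxy (inv_mul_eq_one.mp h)
          rcases htot _ hne with h | h
          · exact Or.inl (Or.inr h)
          · rw [mul_inv_rev, inv_inv] at h
            exact Or.inr (Or.inr h)
      toDecidableLE := Classical.decRel _ }
  refine ⟨{ toLinearOrder := L, lt_l := ?_ }⟩
  intro a b c h
  change P ((c * a)⁻¹ * (c * b))
  have e : (c * a)⁻¹ * (c * b) = a⁻¹ * b := by group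
  rw [e]
  exact h

theorem Tower.lo {H : Type} [Group H] [Countable H] {J : Subgroup H} (h : Tower J) : Nonempty (S14.LO ↥J) := by
  induction h with
  | bot =>
    refine lo_of_cone (fun _ => False) (fun _ _ h _ => h) id ?_
    intro x hx
    exact absurd (Subsingleton.elim x 1) hx
  | step J N hN hs ih =>
    obtain ⟨LN⟩ := ih
    obtain ⟨Q, hQg, hQo, p, Γ, _, _, q, hsurj, hker, -⟩ := hs.exists_apx
    refine lo_of_cone (fun x : ↥J => 1 < p x ∨ ∃ hx : (x : H) ∈ N, (1 : ↥N) < ⟨(x : H), hx⟩) ?_ ?_ ?_
    · rintro x y (hx | ⟨hx, hx'⟩) (hy | ⟨hy, hy'⟩)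
      · left
        rw [map_mul]
        have h2 := BO.lt_l 1 (p y) (p x) hy
        rw [mul_one] at h2
        exact lt_trans hx h2
      · left
        rw [map_mul, (hker y).mpr hy, mul_one]
        exact hx
      · left
        rw [map_mul, (hker x).mpr hx, one_mul]
        exact hy
      · right
        refine ⟨N.mul_mem hx hy, ?_⟩
        have h2 := LN.lt_l 1 ⟨(y : H), hy⟩ ⟨(x : H), hx⟩ hy'
        rw [mul_one] at h2
        exact lt_trans hx' h2
    · rintro (h | ⟨h, h'⟩)
      · rw [map_one] at h
        exact lt_irrefl _ h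
      · exact lt_irrefl _ h'
    · intro x hx1
      by_cases hxN : (x : H) ∈ N
      · have hne : (⟨(x : H), hxN⟩ : ↥N) ≠ 1 := by
          intro h
          apply hx1
          have h2 := congrArg Subtype.val h
          exact Subtype.ext h2
        rcases lt_or_gt_of_ne hne with h | h
        · right
          right
          refine ⟨N.inv_mem hxN, ?_⟩
          have h2 := LN.lt_l _ _ (⟨(x : H), hxN⟩ : ↥N)⁻¹ h
          rw [inv_mul_cancel, mul_one] at h2
          exact h2
        · exact Or.inl (Or.inr ⟨hxN, h⟩)
      · have hne : p x ≠ 1 := fun h => hxN ((hker x).mp h)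
        rcases lt_or_gt_of_ne hne with h | h
        · right
          left
          rw [map_inv]
          have h2 := BO.lt_l _ _ (p x)⁻¹ h
          rw [inv_mul_cancel, mul_one] at h2
          exact h2
        · exact Or.inl (Or.inl h)

end Pool.Agent.TW
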