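import Pool.Agent.TW.Defs

/-!
# Project TW: the division closure (elementary properties)

`dcl S` = the intersection of all subalgebras `A` of `E` with `S ⊆ A` which are closed under inverses (`InvC A`).
PROOFS.  `Algebra.mem_sInf`.  `dcl_le_ring`: a subring is a subalgebra over `ZMod 2` (`algebraMap (ZMod 2) E r` is `0` or `1`;
`Fin 2` cases, or `r = 0 ∨ r = 1` by `decide`).  `conj_dcl`: the preimage `{a | g * a * g' ∈ dcl S}` is a subalgebra closed under
inverses (`g * a * g' * (g * b * g') = g * (a * b) * g'`).  `st_dcl`: the preimage `{a | st a ∈ dcl S}` likewise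
(`st 1 = 1` follows from `mul` and `inv`: `st 1 = st (1 * st 1)`... `= st (st 1) * st 1 = 1 * st 1`...; the derivation:
`st 1 = st 1 * 1 = st 1 * st (st 1) = st (st 1 * 1) = st (st 1) = 1`).
-/

set_option autoImplicit false
set_option linter.unusedSectionVars false

namespace Pool.Agent.TW

variable {E : Type} [Ring E] [Algebra (ZMod 2) E]

theorem subset_dcl (S : Set E) : S ⊆ dcl S := by
  intro a ha
  exact Algebra.mem_sInf.2 fun A hA => hA.1 ha

theorem invC_dcl (S : Set E) : InvC (dcl S) := by
  intro a ha b h1 h2
  exact Algebra.mem_sInf.2 fun A hA => hA.2 a (Algebra.mem_sInf.1 ha A hA) b h1 h2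

theorem dcl_le {S : Set E} {A : Subalgebra (ZMod 2) E} (h : S ⊆ A) (hA : InvC A) : dcl S ≤ A :=
  sInf_le ⟨h, hA⟩

theorem dcl_mono {S T : Set E} (h : S ⊆ T) : dcl S ≤ dcl T :=
  dcl_le (h.trans (subset_dcl T)) (invC_dcl T)

private theorem alg_zero_or_one (r : ZMod 2) : algebraMap (ZMod 2) E r = 0 ∨ algebraMap (ZMod 2) E r = 1 := by
  have h : r = 0 ∨ r = 1 := by revert r; decide
  rcases h with rfl | rfl
  · exact Or.inl (map_zero _)
  · exact Or.inr (map_one _)

/-- the same with subrings -/
theorem dcl_le_ring {S : Set E} (A : Subring E) (h : S ⊆ A) (hA : ∀ a ∈ A, ∀ b, a * b = 1 → b * a = 1 → b ∈ A) :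
    ∀ a ∈ dcl S, a ∈ A := by
  have key : dcl S ≤ ({ A with
      algebraMap_mem' := fun r => by
        rcases alg_zero_or_one (E := E) r with h | h
        · rw [h]
          exact A.zero_mem
        · rw [h]
          exact A.one_mem } : Subalgebra (ZMod 2) E) := by
    refine dcl_le ?_ ?_
    · exact h
    · intro a ha b h1 h2
      exact hA a ha b h1 h2
  intro a ha
  exact key ha

/-- conjugation -/
theorem conj_dcl {S : Set E} {g g' : E} (h1 : g * g' = 1) (h2 : g' * g = 1) (hS : ∀ s ∈ S, g * s * g' ∈ dcl S) :
    ∀ a ∈ dcl S, g * a * g' ∈ dcl S := by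
  have hm : ∀ a b : E, g * (a * b) * g' = (g * a * g') * (g * b * g') := by
    intro a b
    have : (g * a * g') * (g * b * g') = g * a * (g' * g) * b * g' := by simp only [mul_assoc]
    rw [this, h2, mul_one, mul_assoc g a b]
  let A : Subalgebra (ZMod 2) E :=
    { carrier := {a | g * a * g' ∈ dcl S}
      mul_mem' := by
        intro a b ha hb
        show g * (a * b) * g' ∈ dcl S
        rw [hm]
        exact mul_mem ha hb
      add_mem' := by
        intro a b ha hb
        show g * (a + b) * g' ∈ dcl S
        rw [mul_add, add_mul]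
        exact add_mem ha hb
      algebraMap_mem' := by
        intro r
        show g * algebraMap (ZMod 2) E r * g' ∈ dcl S
        rw [← Algebra.commutes, mul_assoc, h1, mul_one]
        exact (dcl S).algebraMap_mem r }
  have key : dcl S ≤ A := by
    refine dcl_le hS ?_
    intro a ha b e1 e2
    refine invC_dcl S (g * a * g') ha (g * b * g') ?_ ?_
    · rw [← hm, e1, mul_one, h1]
    · rw [← hm, e2, mul_one, h1]
  intro a ha
  exact key ha

/-- involutions -/
theorem st_dcl {S : Set E} (st : E →+ E) (mul : ∀ a b, st (a * b) = st b * st a) (inv : ∀ a, st (st a) = a)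
    (hS : ∀ s ∈ S, st s ∈ dcl S) : ∀ a ∈ dcl S, st a ∈ dcl S := by
  have hst1 : st 1 = 1 := by
    have e := mul (st 1) 1
    rw [mul_one, inv, mul_one] at e
    exact e.symm
  let A : Subalgebra (ZMod 2) E :=
    { carrier := {a | st a ∈ dcl S}
      mul_mem' := by
        intro a b ha hb
        show st (a * b) ∈ dcl S
        rw [mul]
        exact mul_mem hb ha
      add_mem' := by
        intro a b ha hb
        show st (a + b) ∈ dcl S
        rw [map_add]
        exact add_mem ha hb
      algebraMap_mem' := by
        intro r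
        show st (algebraMap (ZMod 2) E r) ∈ dcl S
        rcases alg_zero_or_one (E := E) r with h | h
        · rw [h, map_zero]
          exact zero_mem _
        · rw [h, hst1]
          exact one_mem _ }
  have key : dcl S ≤ A := by
    refine dcl_le hS ?_
    intro a ha b e1 e2
    refine invC_dcl S (st a) ha (st b) ?_ ?_
    · rw [← mul, e2, hst1]
    · rw [← mul, e1, hst1]
  intro a ha
  exact key ha

/-- all elements different from zero are units: then they are invertible in the division closure -/
theorem divA_of_isUnit {S : Set E} (h : ∀ a ∈ dcl S, a ≠ 0 → IsUnit a) : DivA (dcl S) := by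
  intro a ha h0
  obtain ⟨u, rfl⟩ := h a ha h0
  exact ⟨↑u⁻¹, invC_dcl S (u : E) ha _ u.mul_inv u.inv_mul, u.mul_inv, u.inv_mul⟩

end Pool.Agent.TW
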