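import Mathlib

/-!
# Project TW: ranks of square matrices

PROOFS.  `rank_add_le'`, `rank_neg'`: through `Matrix.mulVecLin` (`LinearMap.range_add_le` or `Submodule.finrank_sup_le...`:
the range of `f + g` is contained in `range f ⊔ range g`, `Submodule.finrank_add_le_finrank_add_finrank`).
`exists_unit_near`: `f = a.mulVecLin`, `K = ker f`, `C` a complement of the range of `f` (`Submodule.exists_isCompl`), `P` a projection onto `K`;
`finrank K = finrank C` (rank-nullity), `e : K ≃ₗ C`; `g = f + e ∘ P` is injective: `f x + e (P x) = 0` gives `f x = 0`, `P x = 0`, so `x ∈ K`, `x = P x = 0`.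
So `g` is bijective, `b` its matrix, `a - b` = the matrix of `-(e ∘ P)`, rank `≤ finrank K = card n - rank a`.
`rank_block_ge`: the block matrix of `M * N` is the product of the block matrices; it differs from `1` by a sum of `r * r` block matrices of rank
`≤ d`; so `r * card X - r * r * d ≤ rank (M N) ≤ rank M`.
-/

set_option autoImplicit false
set_option linter.unusedSectionVars false

namespace Pool.Agent.TW

section

variable {K : Type} [Field K]

theorem rank_add_le' {m n : Type} [Fintype m] [Fintype n] (a b : Matrix m n K) : (a + b).rank ≤ a.rank + b.rank := by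
  classical
  unfold Matrix.rank
  rw [Matrix.mulVecLin_add]
  refine le_trans (Submodule.finrank_mono (t := LinearMap.range a.mulVecLin ⊔ LinearMap.range b.mulVecLin) ?_)
    (Submodule.finrank_add_le_finrank_add_finrank _ _)
  rintro _ ⟨x, rfl⟩
  rw [LinearMap.add_apply]
  exact Submodule.add_mem_sup ⟨x, rfl⟩ ⟨x, rfl⟩

theorem rank_neg' {m n : Type} [Fintype m] [Fintype n] (a : Matrix m n K) : (-a).rank = a.rank := by
  classical
  have h : ∀ b : Matrix m n K, (-b).rank ≤ b.rank := by
    intro b
    have e : -b = b * (-1 : Matrix n n K) := by simp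
    rw [e]
    exact Matrix.rank_mul_le_left _ _
  refine le_antisymm (h a) ?_
  have := h (-a)
  rwa [neg_neg] at this

/-- **An invertible matrix close to a given one** -/
theorem exists_unit_near {n : Type} [Fintype n] [DecidableEq n] (a : Matrix n n K) :
    ∃ b : Matrix n n K, IsUnit b ∧ a.rank + (a - b).rank ≤ Fintype.card n := by
  obtain ⟨f, hf⟩ : ∃ f : (n → K) →ₗ[K] (n → K), f = a.mulVecLin := ⟨_, rfl⟩
  obtain ⟨C, hC⟩ := Submodule.exists_isCompl (LinearMap.range f)
  obtain ⟨D, hD⟩ := Submodule.exists_isCompl (LinearMap.ker f)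
  have h1 : Module.finrank K (LinearMap.range f) + Module.finrank K (LinearMap.ker f) = Module.finrank K (n → K) :=
    LinearMap.finrank_range_add_finrank_ker f
  have h2 : Module.finrank K (LinearMap.range f) + Module.finrank K C = Module.finrank K (n → K) :=
    Submodule.finrank_add_eq_of_isCompl hC
  have h3 : Module.finrank K (LinearMap.ker f) = Module.finrank K C := by omega
  let e : LinearMap.ker f ≃ₗ[K] C := LinearEquiv.ofFinrankEq _ _ h3
  let P : (n → K) →ₗ[K] LinearMap.ker f := Submodule.projectionOnto _ _ hD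
  let t : (n → K) →ₗ[K] (n → K) := C.subtype ∘ₗ e.toLinearMap ∘ₗ P
  let g : (n → K) →ₗ[K] (n → K) := f + t
  have hinj : Function.Injective g := by
    rw [← LinearMap.ker_eq_bot, LinearMap.ker_eq_bot']
    intro x hx
    have hx1 : f x + ((e (P x) : C) : n → K) = 0 := hx
    have hx2 : f x ∈ LinearMap.range f ⊓ C := by
      refine ⟨⟨x, rfl⟩, ?_⟩
      have : f x = -((e (P x) : C) : n → K) := eq_neg_of_add_eq_zero_left hx1
      rw [this]
      exact C.neg_mem (e (P x)).2
    rw [hC.inf_eq_bot, Submodule.mem_bot] at hx2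
    rw [hx2, zero_add] at hx1
    have hx3 : e (P x) = 0 := Subtype.ext hx1
    have hx4 : P x = 0 := by
      have := e.map_eq_zero_iff.1 hx3
      exact this
    have hx5 : P x = ⟨x, LinearMap.mem_ker.2 hx2⟩ :=
      Submodule.projectionOnto_apply_left hD ⟨x, LinearMap.mem_ker.2 hx2⟩
    rw [hx4] at hx5
    exact (congrArg Subtype.val hx5).symm
  have hunit : IsUnit g := (LinearMap.isUnit_iff_ker_eq_bot g).2 (LinearMap.ker_eq_bot.2 hinj)
  have hb : ∀ x : Matrix n n K, Matrix.toLin' x = x.mulVecLin := fun x => rfl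
  refine ⟨LinearMap.toMatrix' g, ?_, ?_⟩
  · have := hunit.map (LinearMap.toMatrixAlgEquiv' (R := K) (n := n))
    exact this
  · have e1 : (a - LinearMap.toMatrix' g).mulVecLin = -t := by
      rw [← hb, map_sub, Matrix.toLin'_toMatrix', hb, ← hf]
      show f - (f + t) = -t
      abel
    have e2 : (a - LinearMap.toMatrix' g).rank ≤ Module.finrank K (LinearMap.ker f) := by
      rw [Matrix.rank, e1, LinearMap.range_neg]
      have e3 : LinearMap.range t ≤ C := by
        rintro _ ⟨x, rfl⟩
        exact (e (P x)).2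
      rw [h3]
      exact Submodule.finrank_mono e3
    have e4 : a.rank = Module.finrank K (LinearMap.range f) := by
      rw [Matrix.rank, hf]
    have e5 : Module.finrank K (n → K) = Fintype.card n := Module.finrank_fintype_fun_eq_card K
    omega

/-- the block matrix -/
private def Bl {X : Type} {r c : ℕ} (M : Matrix (Fin r) (Fin c) (Matrix X X K)) : Matrix (Fin r × X) (Fin c × X) K :=
  Matrix.of fun (p : Fin r × X) (q : Fin c × X) => M p.1 q.1 p.2 q.2

private theorem Bl_mul {X : Type} [Fintype X] {r c s : ℕ} (M : Matrix (Fin r) (Fin c) (Matrix X X K))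
    (N : Matrix (Fin c) (Fin s) (Matrix X X K)) : Bl (M * N) = Bl M * Bl N := by
  ext ⟨i, x⟩ ⟨k, y⟩
  simp only [Bl, Matrix.of_apply, Matrix.mul_apply, Matrix.sum_apply, Fintype.sum_prod_type]

private theorem Bl_one {X : Type} [Fintype X] [DecidableEq X] {r : ℕ} :
    Bl (1 : Matrix (Fin r) (Fin r) (Matrix X X K)) = 1 := by
  ext ⟨i, x⟩ ⟨k, y⟩
  simp only [Bl, Matrix.of_apply, Matrix.one_apply, Prod.mk.injEq]
  by_cases h : i = k
  · subst h
    simp [Matrix.one_apply]
  · simp [h]

private def rowE {X : Type} [DecidableEq X] {r : ℕ} (i : Fin r) : Matrix (Fin r × X) X K :=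
  Matrix.of fun p x => if p.1 = i ∧ p.2 = x then 1 else 0

private def colE {X : Type} [DecidableEq X] {r : ℕ} (i : Fin r) : Matrix X (Fin r × X) K :=
  Matrix.of fun x p => if p.1 = i ∧ p.2 = x then 1 else 0

private theorem Bl_sum {X : Type} [Fintype X] [DecidableEq X] {r : ℕ} (D : Matrix (Fin r) (Fin r) (Matrix X X K)) :
    Bl D = ∑ i : Fin r, ∑ k : Fin r, ((rowE (K := K) (X := X) i : Matrix (Fin r × X) X K) * (D i k : Matrix X X K) *
      (colE (K := K) (X := X) k : Matrix X (Fin r × X) K) : Matrix (Fin r × X) (Fin r × X) K) := by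
  ext ⟨i, x⟩ ⟨k, y⟩
  simp only [Matrix.sum_apply, Matrix.mul_apply, Bl, rowE, colE, Matrix.of_apply]
  rw [Finset.sum_eq_single i, Finset.sum_eq_single k]
  · simp
  · intro k' _ hk
    simp [Ne.symm hk]
  · simp
  · intro i' _ hi
    simp [Ne.symm hi]
  · simp

private theorem rank_sum_le {m n ι : Type} [Fintype m] [Fintype n] (s : Finset ι) (f : ι → Matrix m n K) :
    (∑ i ∈ s, f i).rank ≤ ∑ i ∈ s, (f i).rank := by
  classical
  induction s using Finset.induction_on with
  | empty => simp
  | insert i s hi ih =>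
    rw [Finset.sum_insert hi, Finset.sum_insert hi]
    exact le_trans (rank_add_le' _ _) (Nat.add_le_add_left ih _)

/-- **Block matrices with an approximate right inverse** -/
theorem rank_block_ge {X : Type} [Fintype X] [DecidableEq X] {r c : ℕ} (M : Matrix (Fin r) (Fin c) (Matrix X X K))
    (N : Matrix (Fin c) (Fin r) (Matrix X X K)) (d : ℝ)
    (h : ∀ i k, (((M * N) i k - (1 : Matrix (Fin r) (Fin r) (Matrix X X K)) i k).rank : ℝ) ≤ d) :
    (r : ℝ) * Fintype.card X - r * r * d ≤
      ((Matrix.of fun (p : Fin r × X) (q : Fin c × X) => M p.1 q.1 p.2 q.2).rank : ℝ) := by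
  have key : (Bl (M * N - 1)).rank ≤ ∑ i, ∑ k, ((M * N) i k - (1 : Matrix (Fin r) (Fin r) (Matrix X X K)) i k).rank := by
    rw [Bl_sum]
    refine le_trans (rank_sum_le _ _) (Finset.sum_le_sum fun i _ => ?_)
    refine le_trans (rank_sum_le _ _) (Finset.sum_le_sum fun k _ => ?_)
    refine le_trans (Matrix.rank_mul_le_left _ _) (le_trans (Matrix.rank_mul_le_right _ _) ?_)
    rfl
  have key2 : ((Bl (M * N - 1)).rank : ℝ) ≤ r * r * d := by
    have k1 : ((Bl (M * N - 1)).rank : ℝ) ≤
        ∑ i : Fin r, ∑ k : Fin r, (((M * N) i k - (1 : Matrix (Fin r) (Fin r) (Matrix X X K)) i k).rank : ℝ) := by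
      exact_mod_cast key
    refine le_trans k1 ?_
    refine le_trans (Finset.sum_le_sum fun i _ => Finset.sum_le_sum fun k _ => h i k) ?_
    simp only [Finset.sum_const, Finset.card_univ, Fintype.card_fin, nsmul_eq_mul]
    linarith [mul_assoc (r : ℝ) (r : ℝ) d]
  have e1 : (1 : Matrix (Fin r × X) (Fin r × X) K) = Bl M * Bl N + -(Bl (M * N - 1)) := by
    rw [← Bl_mul, ← Bl_one]
    ext p q
    simp [Bl]
  have e2 : r * Fintype.card X ≤ (Bl M).rank + (Bl (M * N - 1)).rank := by
    have e3 : (1 : Matrix (Fin r × X) (Fin r × X) K).rank = r * Fintype.card X := by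
      rw [Matrix.rank_one, Fintype.card_prod, Fintype.card_fin]
    rw [← e3, e1]
    refine le_trans (rank_add_le' _ _) ?_
    rw [rank_neg']
    exact Nat.add_le_add_right (Matrix.rank_mul_le_left _ _) _
  have e4 : (r : ℝ) * Fintype.card X ≤ ((Bl M).rank : ℝ) + ((Bl (M * N - 1)).rank : ℝ) := by exact_mod_cast e2
  show (r : ℝ) * Fintype.card X - r * r * d ≤ ((Bl M).rank : ℝ)
  linarith

end

end Pool.Agent.TW
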