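import Pool.Agent.TW.FA
import Pool.Agent.TW.RkL
import Pool.Agent.S14.ApR

/-!
# Project TW: growth of the ranks from the ultraproduct

PROOF of `grow_UR`.  `A.map ι` has a right inverse `B` over `D` (`S14.exists_rinv`).  Choose sequences `b m k` with `U.cls (b m k) = e (B m k)`
(`U.surj`).  For `x ∈ K[H]` let `rgA V x = x.coeff.sum (fun h k => k • rg V h)` (the ring homomorphism `MonoidAlgebra.lift`); `U.cls (fun V => rgA V x) =
e (ι x)` (both sides are ring homomorphisms or additive and agree on `single h 1`; the coefficients are `0` or `1`).  So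
`U.cls (∑ m, rgA (A i m) * b m k - δ i k) = 0`: by `U.ker` its rank is `≤ ε' * card` for almost all `V` (`ε' = ε / (r * r + 1)`, finitely many `i, k`);
`rank_block_ge` gives rank of the block matrix of the `rgA V (A i m)` `≥ (r - ε) * card`.  This block matrix is
`cmp univ univ (A.map (mapDomainRingHom (mk' V)))` up to the reindexing of `univ` by `H ⧸ V` (entry: `(A i j).coeff.mapDomain (x⁻¹ * y)`;
`y = x * h ↔ h = x⁻¹ * y` in `H ⧸ V`), `Matrix.rank_reindex` or `Matrix.rank_submatrix` with equivalences.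
`finAppr_of_UR`: for `T` finite, `hres` gives a subgroup `V₀` of finite index which contains no `x⁻¹ * y`, `x ≠ y` in `T` (finite intersection), so `mk' V` is
injective on `T` for `V ≤ V₀`; take a `V` with all properties (`Filter.Eventually.exists`), `Q = H ⧸ V.1`.
-/

set_option autoImplicit false
set_option linter.unusedSectionVars false

open Matrix Finset

namespace Pool.Agent.TW

open Pool.Agent.S14

section

variable {H : Type} [Group H]

/-- the regular representation of the group algebra -/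
private noncomputable def rgA (V : Idx H) :
    MonoidAlgebra (ZMod 2) H →ₐ[ZMod 2] Matrix (H ⧸ V.1) (H ⧸ V.1) (ZMod 2) :=
  MonoidAlgebra.lift (ZMod 2) (Matrix (H ⧸ V.1) (H ⧸ V.1) (ZMod 2)) H (rg V)

private theorem rgA_single (V : Idx H) (h : H) (k : ZMod 2) :
    rgA V (MonoidAlgebra.single h k) = k • rg V h := MonoidAlgebra.lift_single _ _ _

private theorem rgA_apply (V : Idx H) (x : MonoidAlgebra (ZMod 2) H) (a b : H ⧸ V.1) :
    rgA V x a b =
      (MonoidAlgebra.mapDomainRingHom (ZMod 2) (QuotientGroup.mk' V.1) x).coeff (a⁻¹ * b) := by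
  induction x using MonoidAlgebra.induction_linear with
  | zero => simp
  | add x y hx hy =>
    rw [map_add, map_add, Matrix.add_apply, hx, hy, MonoidAlgebra.coeff_add, Finsupp.add_apply]
  | single h k =>
    rw [rgA_single, Matrix.smul_apply]
    have h1 : MonoidAlgebra.mapDomainRingHom (ZMod 2) (QuotientGroup.mk' V.1)
        (MonoidAlgebra.single h k) = MonoidAlgebra.single (QuotientGroup.mk' V.1 h) k := by
      simp
    rw [h1, MonoidAlgebra.coeff_single, Finsupp.single_apply]
    have h2 : rg V h a b = if b = a * (h : H ⧸ V.1) then 1 else 0 := rfl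
    rw [h2]
    by_cases h3 : b = a * (h : H ⧸ V.1)
    · rw [if_pos h3, if_pos]
      · rw [smul_eq_mul, mul_one]
      · rw [h3, inv_mul_cancel_left]
        rfl
    · rw [if_neg h3, if_neg]
      · rw [smul_zero]
      · intro h4
        apply h3
        have h5 : (h : H ⧸ V.1) = a⁻¹ * b := h4
        rw [h5, mul_inv_cancel_left]

variable (U : UR H) {D : Type} [DivisionRing D] (e : D →+* U.E)
  (ι : MonoidAlgebra (ZMod 2) H →+* D) (hι : ∀ h : H, e (ι (MonoidAlgebra.single h 1)) = U.u h)

include hι in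
private theorem cls_rgA (x : MonoidAlgebra (ZMod 2) H) : U.cls (fun V => rgA V x) = e (ι x) := by
  induction x using MonoidAlgebra.induction_linear with
  | zero =>
    have h1 : (fun V : Idx H => rgA V (0 : MonoidAlgebra (ZMod 2) H)) = 0 := by
      funext V
      exact map_zero _
    rw [h1, map_zero, map_zero, map_zero]
  | add x y hx hy =>
    have h1 : (fun V : Idx H => rgA V (x + y)) = (fun V => rgA V x) + fun V => rgA V y := by
      funext V
      exact map_add _ _ _
    rw [h1, map_add, hx, hy, map_add, map_add]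
  | single h k =>
    rcases (by decide : ∀ k : ZMod 2, k = 0 ∨ k = 1) k with hk | hk
    · rw [hk]
      have h1 : (fun V : Idx H => rgA V (MonoidAlgebra.single h (0 : ZMod 2))) = 0 := by
        funext V
        rw [rgA_single, zero_smul]
        rfl
      rw [h1, map_zero, MonoidAlgebra.single_zero, map_zero, map_zero]
    · rw [hk, hι, UR.u_apply]
      congr 1
      funext V
      rw [rgA_single, one_smul]

include hι in
/-- **Growth of the ranks** -/
theorem grow_UR {r c : ℕ} (A : Matrix (Fin r) (Fin c) (MonoidAlgebra (ZMod 2) H))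
    (hA : ∀ v : Fin r → D, v ᵥ* (A.map ι) = 0 → v = 0) {ε : ℝ} (hε : 0 < ε) :
    ∀ᶠ V in (U.F : Filter (Idx H)), ((r : ℝ) - ε) * Fintype.card (H ⧸ V.1) ≤
      ((cmp (univ : Finset (H ⧸ V.1)) (univ : Finset (H ⧸ V.1))
        (A.map (MonoidAlgebra.mapDomainRingHom (ZMod 2) (QuotientGroup.mk' V.1)))).rank : ℝ) := by
  obtain ⟨B, hB⟩ := exists_rinv (A.map ι) hA
  choose b hb using fun (m : Fin c) (k : Fin r) => U.surj (e (B m k))
  obtain ⟨ε', hε'⟩ : ∃ ε' : ℝ, ε' = ε / ((r : ℝ) * r + 1) := ⟨_, rfl⟩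
  have hε0 : 0 < ε' := by
    rw [hε']
    positivity
  have h1 : ∀ i k : Fin r, ∀ᶠ V in (U.F : Filter (Idx H)),
      (((∑ m, rgA V (A i m) * b m k V) -
        (1 : Matrix (Fin r) (Fin r) (Matrix (H ⧸ V.1) (H ⧸ V.1) (ZMod 2))) i k).rank : ℝ) ≤
        ε' * Fintype.card (H ⧸ V.1) := by
    intro i k
    have h2 : U.cls ((∑ m, (fun V : Idx H => rgA V (A i m)) * b m k) -
        (fun V : Idx H =>
          (1 : Matrix (Fin r) (Fin r) (Matrix (H ⧸ V.1) (H ⧸ V.1) (ZMod 2))) i k)) = 0 := by
      rw [map_sub, map_sum, sub_eq_zero]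
      have h3 : ∀ m, U.cls ((fun V : Idx H => rgA V (A i m)) * b m k) =
          e (ι (A i m) * B m k) := by
        intro m
        rw [map_mul, map_mul, hb, cls_rgA U e ι hι]
      rw [Finset.sum_congr rfl fun m _ => h3 m, ← map_sum]
      have h4 : ∑ m, ι (A i m) * B m k = (1 : Matrix (Fin r) (Fin r) D) i k := by
        rw [← hB]
        rfl
      rw [h4, Matrix.one_apply]
      by_cases hik : i = k
      · rw [if_pos hik, map_one]
        have h5 : (fun V : Idx H => (1 : Matrix (Fin r) (Fin r)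
            (Matrix (H ⧸ V.1) (H ⧸ V.1) (ZMod 2))) i k) = 1 := by
          funext V
          rw [Matrix.one_apply, if_pos hik]
          rfl
        rw [h5, map_one]
      · rw [if_neg hik, map_zero]
        have h5 : (fun V : Idx H => (1 : Matrix (Fin r) (Fin r)
            (Matrix (H ⧸ V.1) (H ⧸ V.1) (ZMod 2))) i k) = 0 := by
          funext V
          rw [Matrix.one_apply, if_neg hik]
          rfl
        rw [h5, map_zero]
    filter_upwards [(U.ker _).1 h2 ε' hε0] with V hV
    rw [Pi.sub_apply, Finset.sum_apply] at hV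
    exact hV
  have h2 : ∀ᶠ V in (U.F : Filter (Idx H)), ∀ i k : Fin r,
      (((∑ m, rgA V (A i m) * b m k V) -
        (1 : Matrix (Fin r) (Fin r) (Matrix (H ⧸ V.1) (H ⧸ V.1) (ZMod 2))) i k).rank : ℝ) ≤
        ε' * Fintype.card (H ⧸ V.1) := by
    rw [Filter.eventually_all]
    intro i
    rw [Filter.eventually_all]
    exact h1 i
  filter_upwards [h2] with V hV
  have h3 := rank_block_ge (K := ZMod 2) (X := H ⧸ V.1)
    (Matrix.of fun (i : Fin r) (m : Fin c) => (rgA V (A i m) : Matrix (H ⧸ V.1) (H ⧸ V.1) (ZMod 2)))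
    (Matrix.of fun (m : Fin c) (k : Fin r) => b m k V) (ε' * Fintype.card (H ⧸ V.1))
    (fun i k => hV i k)
  have h4 : (cmp (univ : Finset (H ⧸ V.1)) (univ : Finset (H ⧸ V.1))
      (A.map (MonoidAlgebra.mapDomainRingHom (ZMod 2) (QuotientGroup.mk' V.1)))).rank =
      (Matrix.of fun (p : Fin r × (H ⧸ V.1)) (q : Fin c × (H ⧸ V.1)) =>
        (Matrix.of fun (i : Fin r) (m : Fin c) =>
          (rgA V (A i m) : Matrix (H ⧸ V.1) (H ⧸ V.1) (ZMod 2))) p.1 q.1 p.2 q.2).rank := by
    rw [← Matrix.rank_submatrix (Matrix.of fun (p : Fin r × (H ⧸ V.1)) (q : Fin c × (H ⧸ V.1)) =>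
        (Matrix.of fun (i : Fin r) (m : Fin c) =>
          (rgA V (A i m) : Matrix (H ⧸ V.1) (H ⧸ V.1) (ZMod 2))) p.1 q.1 p.2 q.2)
      (Equiv.prodCongr (Equiv.refl (Fin r))
        (Equiv.subtypeUnivEquiv (p := fun x => x ∈ (univ : Finset (H ⧸ V.1))) mem_univ))
      (Equiv.prodCongr (Equiv.refl (Fin c))
        (Equiv.subtypeUnivEquiv (p := fun x => x ∈ (univ : Finset (H ⧸ V.1))) mem_univ))]
    congr 1
    ext x y
    exact (rgA_apply V (A x.1 y.1) x.2 y.2).symm
  rw [h4]
  refine le_trans ?_ h3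
  have h5 : (r : ℝ) * r * ε' ≤ ε := by
    rw [hε', mul_div_assoc', div_le_iff₀ (by positivity)]
    nlinarith [hε.le, mul_self_nonneg (r : ℝ)]
  have h6 : (0 : ℝ) ≤ Fintype.card (H ⧸ V.1) := Nat.cast_nonneg _
  have h7 := mul_le_mul_of_nonneg_right h5 h6
  linarith

include hι in
/-- **Approximation by finite quotients** -/
theorem finAppr_of_UR (hres : ∀ x : H, x ≠ 1 → ∃ V : Subgroup H, V.FiniteIndex ∧ x ∉ V) : FinAppr ι := by
  classical
  intro r c r' c' A B hA hB T ε hε
  have h1 : ∀ᶠ V in (U.F : Filter (Idx H)), ∀ p ∈ T ×ˢ T, p.1 ≠ p.2 → p.1⁻¹ * p.2 ∉ V.1 := by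
    rw [Filter.eventually_all_finset]
    intro p _
    by_cases hne : p.1 = p.2
    · exact Filter.Eventually.of_forall fun V hc => absurd hne hc
    · have hne' : p.1⁻¹ * p.2 ≠ 1 := fun hc => hne (inv_mul_eq_one.1 hc)
      obtain ⟨V₀, hV₀, hx⟩ := hres _ hne'
      filter_upwards [U.small V₀ hV₀] with V hV _ hc
      exact hx (hV hc)
  obtain ⟨V, hV, hVA, hVB⟩ :=
    (h1.and ((grow_UR U e ι hι A hA hε).and (grow_UR U e ι hι B hB hε))).exists
  refine ⟨H ⧸ V.1, inferInstance, inferInstance, QuotientGroup.mk' V.1, fun x hx y hy hxy => ?_,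
    hVA, hVB⟩
  by_contra hne
  refine hV (x, y) (Finset.mk_mem_product hx hy) hne ?_
  exact QuotientGroup.eq.1 hxy

end

end Pool.Agent.TW
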