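import Pool.Agent.TW.FA

/-!
# Project TW: the property `L2P` from approximations by finite quotients

PROOF.  Copy of `S14/E2` (`rank_cmp_ge`), `S14/E3` (`l2_of_foel`), `S14/E4` (`l2_of_exactA`, `l2P_of_foel`) with `Q` finite, `E = E' = F = univ`: for
`D₁ : Matrix (Fin c) (Fin a)`, `D₂ : Matrix (Fin b) (Fin c)` over `ℤ[Q]`, `D₂ * D₁ = 0`, and rows `r₁`, `r₂` with `c ≤ r₁ + r₂`:
`cmp univ univ D₂ * cmp univ univ D₁ = 0` (`cmp_mul`), `H93.S11.rank_add_le` over `ℂ` gives
`rank (cmp D₁) + rank (cmp D₂) ≤ rank (fromCols ..)` as in `rank_cmp_ge`, and the ranks over `ℂ` are `≥` the ranks over `ZMod 2` (`rank_int_le`) of the whole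
matrices `≥` the ranks of the selected rows (`Matrix.rank_submatrix_le`) `≥ (r₁ - ε) card Q`, `(r₂ - ε) card Q` (from `FinAppr` with `ε = η / 2`).
Then `vnDim_nonpos_cmp` (`S14/E1`) with `E = E' = F = univ` and `l2ker_trivial_of_vnDim` as in `l2_of_foel`, and the last step as in `l2P_of_foel`.
-/

set_option autoImplicit false
set_option linter.unusedSectionVars false

open Matrix Finset

namespace Pool.Agent.TW

open Pool.Agent.S14
open Pool.Agent.H4.Atiyah Pool.Agent.H4.Singer Pool.Agent.H93.S11 Pool.Agent.S11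

/-- the ranks of the selected rows over a field -/
private theorem rows_le_fin {K Q : Type} [Field K] [Group Q] [Fintype Q] {c a r : ℕ}
    (A : Matrix (Fin c) (Fin a) (MonoidAlgebra ℤ Q)) (rows : Fin r → Fin c) :
    (cmp univ univ ((toK K A).submatrix rows id)).rank ≤ (cmp univ univ (toC A) :
      Matrix (Fin c × (univ : Finset Q)) (Fin a × (univ : Finset Q)) ℂ).rank := by
  classical
  have h1 : (cmp univ univ ((toK K A).submatrix rows id) :
      Matrix (Fin r × (univ : Finset Q)) (Fin a × (univ : Finset Q)) K) =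
      (cmp univ univ (toK K A)).submatrix (fun p : Fin r × (univ : Finset Q) => (rows p.1, p.2)) id := rfl
  rw [h1]
  refine (Matrix.rank_submatrix_le _ _ _).trans ?_
  rw [cmp_toK, cmp_toC]
  exact rank_int_le _ _

/-- the ranks of the matrices of a complex over a finite group -/
private theorem rank_cmp_fin {Q : Type} [Group Q] [Fintype Q] (K : Type) [Field K] {a b c : ℕ}
    (D₁ : Matrix (Fin c) (Fin a) (MonoidAlgebra ℤ Q)) (D₂ : Matrix (Fin b) (Fin c) (MonoidAlgebra ℤ Q)) (hD : D₂ * D₁ = 0)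
    {r₁ r₂ : ℕ} (rows₁ : Fin r₁ → Fin c) (rows₂ : Fin r₂ → Fin b) {ε : ℝ}
    (h₁ : ((r₁ : ℝ) - ε) * Fintype.card Q ≤ ((cmp univ univ ((toK K D₁).submatrix rows₁ id)).rank : ℝ))
    (h₂ : ((r₂ : ℝ) - ε) * Fintype.card Q ≤ ((cmp univ univ ((toK K D₂).submatrix rows₂ id)).rank : ℝ))
    (hc : c ≤ r₁ + r₂) :
    (c : ℝ) * (univ : Finset Q).card - (cmp (univ : Finset Q) (univ : Finset Q)
      (toC ((Matrix.fromCols D₁ (adj D₂)).submatrix id finSumFinEquiv.symm))).rank ≤
        2 * ε * (univ : Finset Q).card := by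
  classical
  have h3 : cmp (univ : Finset Q) (univ : Finset Q) (toC D₂) * cmp (univ : Finset Q) (univ : Finset Q) (toC D₁) = 0 := by
    rw [cmp_mul (toC D₂) (toC D₁)]
    · have h4 : toC D₂ * toC D₁ = toC (D₂ * D₁) := by
        unfold toC
        rw [Matrix.map_mul]
      rw [h4, hD]
      ext x y
      simp [Pool.Agent.S14.cmp, toC]
    · intro g hg i j s hs
      exact mem_univ _
  have h4 := rank_add_le _ _ h3
  have h5 : Matrix.fromCols (cmp (univ : Finset Q) (univ : Finset Q) (toC D₁))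
      (cmp (univ : Finset Q) (univ : Finset Q) (toC D₂)).conjTranspose =
      (cmp (univ : Finset Q) (univ : Finset Q)
        (toC ((Matrix.fromCols D₁ (adj D₂)).submatrix id finSumFinEquiv.symm))).submatrix id
        (Sum.elim (fun p : Fin a × (univ : Finset Q) => (finSumFinEquiv (Sum.inl p.1), p.2))
          (fun p : Fin b × (univ : Finset Q) => (finSumFinEquiv (Sum.inr p.1), p.2))) := by
    ext ⟨i, g⟩ y
    rcases y with ⟨j, x⟩ | ⟨j, x⟩
    · show (toC D₁ i j).coeff ((g : Q)⁻¹ * (x : Q)) = ((toC ((Matrix.fromCols D₁ (adj D₂)).submatrix id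
        finSumFinEquiv.symm)) i (finSumFinEquiv (Sum.inl j))).coeff ((g : Q)⁻¹ * (x : Q))
      simp [toC]
    · show (starRingEnd ℂ) ((toC D₂ j i).coeff ((x : Q)⁻¹ * (g : Q))) = ((toC ((Matrix.fromCols D₁ (adj D₂)).submatrix id
        finSumFinEquiv.symm)) i (finSumFinEquiv (Sum.inr j))).coeff ((g : Q)⁻¹ * (x : Q))
      simp [toC, coeff_adj]
  have h6 := Matrix.rank_submatrix_le (cmp (univ : Finset Q) (univ : Finset Q)
    (toC ((Matrix.fromCols D₁ (adj D₂)).submatrix id finSumFinEquiv.symm)))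
    id (Sum.elim (fun p : Fin a × (univ : Finset Q) => (finSumFinEquiv (Sum.inl p.1), p.2))
          (fun p : Fin b × (univ : Finset Q) => (finSumFinEquiv (Sum.inr p.1), p.2)))
  rw [← h5] at h6
  have h7 := rows_le_fin (K := K) D₁ rows₁
  have h8 := rows_le_fin (K := K) D₂ rows₂
  have h9 : ((cmp univ univ ((toK K D₁).submatrix rows₁ id)).rank : ℝ) +
      ((cmp univ univ ((toK K D₂).submatrix rows₂ id)).rank : ℝ) ≤
      (cmp (univ : Finset Q) (univ : Finset Q)
        (toC ((Matrix.fromCols D₁ (adj D₂)).submatrix id finSumFinEquiv.symm))).rank := by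
    exact_mod_cast (add_le_add h7 h8).trans (h4.trans h6)
  have h10 : (c : ℝ) ≤ r₁ + r₂ := by exact_mod_cast hc
  rw [Finset.card_univ]
  have hQ : (0 : ℝ) ≤ Fintype.card Q := Nat.cast_nonneg _
  have h11 : (c : ℝ) * Fintype.card Q ≤ (r₁ + r₂) * Fintype.card Q := mul_le_mul_of_nonneg_right h10 hQ
  linarith

/-- vanishing of the `ℓ²`-kernel from finite quotients -/
private theorem l2_of_fin {H : Type} [Group H] [DecidableEq H] (K : Type) [Field K] {a b c : ℕ}
    (D₁ : Matrix (Fin c) (Fin a) (MonoidAlgebra ℤ H)) (D₂ : Matrix (Fin b) (Fin c) (MonoidAlgebra ℤ H)) (hD : D₂ * D₁ = 0)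
    {r₁ r₂ : ℕ} (rows₁ : Fin r₁ → Fin c) (rows₂ : Fin r₂ → Fin b) (hc : c ≤ r₁ + r₂)
    (h : ∀ (T : Finset H) (ε : ℝ), 0 < ε → ∃ (Q : Type) (_ : Group Q) (_ : Fintype Q) (ψ : H →* Q), Set.InjOn ψ T ∧
      ((r₁ : ℝ) - ε) * Fintype.card Q ≤ ((cmp univ univ (((toK K D₁).submatrix rows₁ id).map
        (MonoidAlgebra.mapDomainRingHom K ψ))).rank : ℝ) ∧
      ((r₂ : ℝ) - ε) * Fintype.card Q ≤ ((cmp univ univ (((toK K D₂).submatrix rows₂ id).map
        (MonoidAlgebra.mapDomainRingHom K ψ))).rank : ℝ)) :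
    ∀ x ∈ l2ker (toC ((Matrix.fromCols D₁ (adj D₂)).submatrix id finSumFinEquiv.symm)), x = 0 := by
  classical
  apply l2ker_trivial_of_vnDim
  apply vnDim_nonpos_cmp
  intro η hη T
  obtain ⟨Q, gQ, fQ, ψ, hψ, h₁, h₂⟩ := h T (η / 2) (by positivity)
  refine ⟨Q, gQ, ψ, hψ, fun U => ?_⟩
  have e : ((Matrix.fromCols D₁ (adj D₂)).submatrix id finSumFinEquiv.symm).map (MonoidAlgebra.mapDomainRingHom ℤ ψ) =
      (Matrix.fromCols (D₁.map (MonoidAlgebra.mapDomainRingHom ℤ ψ))
        (adj (D₂.map (MonoidAlgebra.mapDomainRingHom ℤ ψ)))).submatrix id (finSumFinEquiv (m := a) (n := b)).symm := by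
    rw [← map_adj]
    ext i j : 2
    obtain ⟨j, rfl⟩ := (finSumFinEquiv (m := a) (n := b)).surjective j
    rcases j with j | j
    · simp
    · simp
  have hD' : D₂.map (MonoidAlgebra.mapDomainRingHom ℤ ψ) * D₁.map (MonoidAlgebra.mapDomainRingHom ℤ ψ) = 0 := by
    rw [← Matrix.map_mul, hD]
    ext i j : 2
    simp
  have hrank := rank_cmp_fin K (D₁.map (MonoidAlgebra.mapDomainRingHom ℤ ψ))
    (D₂.map (MonoidAlgebra.mapDomainRingHom ℤ ψ)) hD' rows₁ rows₂ (ε := η / 2) (by rw [← map_toK]; exact h₁)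
    (by rw [← map_toK]; exact h₂) hc
  refine ⟨univ, univ, univ, ⟨1, mem_univ _⟩, Finset.Subset.refl _, fun _ _ _ _ => mem_univ _, ?_,
    fun _ _ _ _ _ _ => mem_univ _, ?_⟩
  · have h3 : (0 : ℝ) ≤ (univ : Finset Q).card := Nat.cast_nonneg _
    nlinarith
  · rw [e]
    refine hrank.trans (le_of_eq ?_)
    ring

private theorem l2_of_exactF {H D : Type} [Group H] [DivisionRing D] (ι : MonoidAlgebra (ZMod 2) H →+* D)
    (hF : FinAppr ι) {a b c : ℕ}
    (D₁ : Matrix (Fin c) (Fin a) (MonoidAlgebra ℤ H)) (D₂ : Matrix (Fin b) (Fin c) (MonoidAlgebra ℤ H)) (hD : D₂ * D₁ = 0)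
    (hex : ∀ v : Fin c → D, v ᵥ* ((toK (ZMod 2) D₁).map ι) = 0 → ∃ u : Fin b → D,
      u ᵥ* ((toK (ZMod 2) D₂).map ι) = v) :
    ∀ x ∈ l2ker (toC ((Matrix.fromCols D₁ (adj D₂)).submatrix id finSumFinEquiv.symm)), x = 0 := by
  classical
  have h0 : (toK (ZMod 2) D₂).map ι * (toK (ZMod 2) D₁).map ι = 0 := by
    have h1 : (toK (ZMod 2) D₂) * (toK (ZMod 2) D₁) = 0 := by
      unfold toK
      rw [← Matrix.map_mul, hD]
      ext i j
      simp
    rw [← Matrix.map_mul, h1]
    ext i j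
    simp
  obtain ⟨p, q, r₁, r₂, h1, h2, h3⟩ := exists_rows _ _ h0 hex
  refine l2_of_fin (ZMod 2) D₁ D₂ hD r₂ r₁ (by omega) fun T ε hε => ?_
  exact hF q a p c ((toK (ZMod 2) D₁).submatrix r₂ id) ((toK (ZMod 2) D₂).submatrix r₁ id) h2 h1 T ε hε

/-- **No harmonic chains** -/
theorem l2P_of_fin {H D : Type} [Group H] [DivisionRing D] (ι : MonoidAlgebra (ZMod 2) H →+* D) (h : FinAppr ι) :
    L2P ι := by
  classical
  intro a b c A B hAB hex x hx hz hc
  have edk_coeff : ∀ {m n : Type} (M : Matrix m n (MonoidAlgebra ℤ H)) (i : m) (j : n) (h : H),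
      (toC M i j).coeff h = (((M i j).coeff h : ℤ) : ℂ) := fun M i j h => rfl
  have edk_supp : ∀ {m n : Type} (M : Matrix m n (MonoidAlgebra ℤ H)) (i : m) (j : n),
      (toC M i j).coeff.support = (M i j).coeff.support := by
    intro m n M i j
    ext h
    rw [Finsupp.mem_support_iff, Finsupp.mem_support_iff, edk_coeff, Ne, Int.cast_eq_zero]
  have edk_memlp : Memℓp (fun p : Fin b × H => (x p.1 p.2 : ℂ)) 2 := by
    refine memℓp_gen ?_
    have h1 : (fun p : Fin b × H => ‖(x p.1 p.2 : ℂ)‖ ^ (2 : ENNReal).toReal) =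
        fun p : Fin b × H => x p.1 p.2 ^ 2 := by
      funext p
      rw [Complex.norm_real, ENNReal.toReal_ofNat, Real.rpow_ofNat, Real.norm_eq_abs, sq_abs]
    rw [h1, summable_prod_of_nonneg (fun p => sq_nonneg _)]
    exact ⟨hx, Summable.of_finite⟩
  have h1 := row_of_col ((mod2 A).map ι) ((mod2 B).map ι) hex
  have key := l2_of_exactF ι h B A hAB h1 ⟨_, edk_memlp⟩ ?_
  · intro j h
    have h2 := congrFun (congrArg (fun y : lp (fun _ : Fin b × H => ℂ) 2 => (y : Fin b × H → ℂ)) key) (j, h)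
    have h3 : (x j h : ℂ) = 0 := h2
    exact Complex.ofReal_eq_zero.1 h3
  · intro i g
    show ∑ j : Fin b, ∑ h ∈ (toC ((Matrix.fromCols B (adj A)).submatrix id finSumFinEquiv.symm) j i).coeff.support,
      (x j (g * h⁻¹) : ℂ) *
        (toC ((Matrix.fromCols B (adj A)).submatrix id finSumFinEquiv.symm) j i).coeff h = 0
    obtain ⟨i, rfl⟩ := (finSumFinEquiv (m := c) (n := a)).surjective i
    have h4 : ∀ j, ((Matrix.fromCols B (adj A)).submatrix id finSumFinEquiv.symm) j (finSumFinEquiv i) =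
        Matrix.fromCols B (adj A) j i := by
      intro j
      rw [Matrix.submatrix_apply, Equiv.symm_apply_apply, id]
    rcases i with l | l
    · have h5 : (((∑ j, ∑ h ∈ (B j l).coeff.support, ((B j l).coeff h : ℝ) * x j (g * h⁻¹) : ℝ)) : ℂ) = 0 := by
        rw [hc l g, Complex.ofReal_zero]
      refine Eq.trans ?_ h5
      rw [Complex.ofReal_sum]
      refine Finset.sum_congr rfl fun j _ => ?_
      rw [edk_supp, h4, Matrix.fromCols_apply_inl, Complex.ofReal_sum]
      refine Finset.sum_congr rfl fun h _ => ?_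
      rw [edk_coeff, h4, Matrix.fromCols_apply_inl, Complex.ofReal_mul, Complex.ofReal_intCast, mul_comm]
    · have h5 : (((∑ j, ∑ h ∈ (A l j).coeff.support, ((A l j).coeff h : ℝ) * x j (g * h) : ℝ)) : ℂ) = 0 := by
        rw [hz l g, Complex.ofReal_zero]
      refine Eq.trans ?_ h5
      rw [Complex.ofReal_sum]
      refine Finset.sum_congr rfl fun j _ => ?_
      rw [edk_supp, h4, Matrix.fromCols_apply_inr, Complex.ofReal_sum]
      refine Finset.sum_equiv (Equiv.inv H) ?_ ?_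
      · intro h
        rw [Finsupp.mem_support_iff, Finsupp.mem_support_iff, coeff_adj, Equiv.inv_apply]
      · intro h _
        rw [edk_coeff, h4, Matrix.fromCols_apply_inr, coeff_adj, Equiv.inv_apply, Complex.ofReal_mul,
          Complex.ofReal_intCast, mul_comm]

end Pool.Agent.TW
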