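import Pool.Agent.TW.TR
import Pool.Agent.TW.DC
import Pool.Agent.TW.URs
import Pool.Agent.TW.FAg
import Pool.Agent.TW.FAl
import Pool.Agent.S14.FlatF

/-!
# Project TW: the package for the whole group

PROOF.  `D = ↥(U.D ⊤)` with the division ring structure from `hU.div` (`DivisionRing.ofIsUnitOrEqZero`; `Nontrivial` from `UR.nontrivial`) and the given
algebra structure.  `ι` = the algebra homomorphism `MonoidAlgebra.lift` of `h ↦ U.w ⊤ ⟨h, _⟩`; `uh ι h = U.w ⊤ ⟨h, _⟩`.  `FlatOn (uh ι) ⊤`: `flatOn_transport` with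
`e : ↥⊤ ≃* H` (`Subgroup.topEquiv`) and `κ = AlgEquiv.refl`.  The involution: `exists_st U`, restricted to `D` by `st_dcl` (`st (u h) = u h⁻¹`), gives
`σ : S14.Inv ι`.  `flat`: the last part of the proof of `S14.Frac.flat` (`S14/FlatF.lean`): `flat_star ... (flat_tauD hflat)`.  `l2`: `l2P_of_fin ι
(finAppr_of_UR U e ι _ hres)` with `e` = the inclusion of `D` in `U.E`.
-/

set_option autoImplicit false
set_option linter.unusedSectionVars false

namespace Pool.Agent.TW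

open Pool.Agent.S11 Pool.Agent.S11.FL

private theorem tt_main {H : Type} [Group H] (U : UR H) {D : Type} [DivisionRing D] [Algebra (ZMod 2) D] (e : D →+* U.E)
    (w : H →* D) (hw : ∀ h, e (w h) = U.u h) (st : D →+ D) (st_mul : ∀ a b, st (a * b) = st b * st a)
    (st_st : ∀ a, st (st a) = a) (st_w : ∀ h, st (w h) = w h⁻¹)
    (hflat : FlatOn.{0} (K := ZMod 2) w (⊤ : Subgroup H))
    (hres : ∀ x : H, x ≠ 1 → ∃ V : Subgroup H, V.FiniteIndex ∧ x ∉ V) : Nonempty (S14.LPack H) := by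
  let ι : MonoidAlgebra (ZMod 2) H →+* D := (MonoidAlgebra.lift (ZMod 2) D H w).toRingHom
  have hι : ∀ h, ι (MonoidAlgebra.single h 1) = w h := by
    intro h
    have h1 : MonoidAlgebra.lift (ZMod 2) D H w (MonoidAlgebra.single h 1) = w h := by
      rw [MonoidAlgebra.lift_single, one_smul]
    exact h1
  have hu : ∀ h, S14.uh ι h = w h := hι
  have huw : S14.uh ι = w := MonoidHom.ext hu
  have hflat' : FlatOn.{0} (K := ZMod 2) (S14.uh ι) (⊤ : Subgroup H) := by
    rw [huw]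
    exact hflat
  refine ⟨{ D := D, div := inferInstance, alg := inferInstance, ι := ι, flat := ?_, l2 := ?_ }⟩
  · exact flat_star (R := S14.rigR ι) (L := S14.lefR ι) (T := lft ι) (j := fun g => S14.uh ι g)
      (k := fun g => ι (MonoidAlgebra.single g 1)) (RingHom.id D) (fun g => rfl) (fun g v => rfl) (fun g v => rfl)
      (fun g d => rfl) st (map_add st) st_mul st_st (fun g => by rw [hι, hι, st_w]) (S14.flat_tauD hflat')
  · exact l2P_of_fin ι (finAppr_of_UR U e ι (fun h => by rw [hι, hw]) hres)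

/-- **The package** -/
theorem exists_lpack_of_ok {H : Type} [Group H] (U : UR H) (hU : U.Ok ⊤)
    (hres : ∀ x : H, x ≠ 1 → ∃ V : Subgroup H, V.FiniteIndex ∧ x ∉ V) : Nonempty (S14.LPack H) := by
  have hn : Nontrivial U.E := U.nontrivial
  have hnt : Nontrivial ↥(U.D ⊤) := inferInstance
  have hunit : ∀ a : ↥(U.D ⊤), IsUnit a ∨ a = 0 := by
    intro a
    by_cases h0 : a = 0
    · exact Or.inr h0
    · obtain ⟨b, hb, h1, h2⟩ := hU.div a a.2 fun h => h0 (Subtype.ext h)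
      exact Or.inl ⟨⟨a, ⟨b, hb⟩, Subtype.ext h1, Subtype.ext h2⟩, rfl⟩
  letI dv : DivisionRing ↥(U.D ⊤) := DivisionRing.ofIsUnitOrEqZero hunit
  obtain ⟨σ⟩ := exists_st U
  have hst : ∀ a ∈ U.D ⊤, σ.st a ∈ U.D ⊤ := by
    refine st_dcl σ.st σ.mul σ.inv ?_
    rintro _ ⟨h, rfl⟩
    have h1 : σ.st (U.uJ ⊤ h) = U.uJ ⊤ h⁻¹ := σ.u h
    rw [h1]
    exact U.uJ_mem ⊤ h⁻¹
  let w : H →* ↥(U.D ⊤) := (U.w ⊤).comp (Subgroup.topEquiv (G := H)).symm.toMonoidHom
  let st : ↥(U.D ⊤) →+ ↥(U.D ⊤) :=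
    { toFun := fun a => ⟨σ.st a, hst a a.2⟩
      map_zero' := Subtype.ext (map_zero σ.st)
      map_add' := fun a b => Subtype.ext (map_add σ.st _ _) }
  refine tt_main U (D := ↥(U.D ⊤)) (U.D ⊤).val.toRingHom w (fun h => rfl) st (fun a b => Subtype.ext (σ.mul _ _))
    (fun a => Subtype.ext (σ.inv _)) (fun h => Subtype.ext (σ.u h)) ?_ hres
  exact flatOn_transport (U.w ⊤) w Subgroup.topEquiv AlgEquiv.refl (fun g => rfl) hU.flat

end Pool.Agent.TW
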