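import Pool.Agent.TW.Defs
import Pool.Agent.TW.RkL

/-!
# Project TW: the limit of the normalized ranks

PROOF.  For a sequence `a` put `L a = {ε : ℝ | 0 ≤ ε ∧ ∀ᶠ V in F, ((a V).rank : ℝ) ≤ ε * card}` (`1 ∈ L a`: `Matrix.rank_le_card_width`), `ρ a = sInf (L a)`.
`L a` is closed upwards, so `ρ a < ε` implies `ε ∈ L a`.  `ρ (a + b) ≤ ρ a + ρ b` (`rank_add_le'`), `ρ (a b) ≤ ρ a`, `ρ b` (`Matrix.rank_mul_le_left`,
`rank_mul_le_right`), `ρ (-a) = ρ a`.  `U.cls a = U.cls b` implies `ρ (a - b) ≤ 0` (`U.ker`), so `ρ a ≤ ρ b` and conversely: `rk x = ρ a` for any `a` with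
`U.cls a = x` (`U.surj`).  `zero`: `ρ 0 = 0`.  `one`: the rank of `1` is `card > 0` (`Matrix.rank_one`), so no `ε < 1` is in `L 1` (the ultrafilter is not
trivial).  `eq_zero`: `ρ a = 0` gives `U.cls a = 0` by `U.ker`.  `unit`: `rk (U.cls a) = 1`; for `ε > 0`: `1 - ε ∉ L a` (for `ε ≤ 1`), so by the ultrafilter property
(`Ultrafilter.eventually_not`) `(1 - ε) * card < rank (a V)` for almost all `V`; let `b V` be the matrix of `exists_unit_near (a V)`:
`rank (a V - b V) ≤ card - rank (a V) ≤ ε * card`; so `U.cls a = U.cls b` (`U.ker`), and `U.cls b` is a unit with inverse `U.cls (fun V => (b V)⁻¹)`.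
-/

set_option autoImplicit false
set_option linter.unusedSectionVars false

namespace Pool.Agent.TW

section

variable {H : Type} [Group H] (U : UR H)

/-- the sequences of matrices -/
private abbrev Sq (H : Type) [Group H] : Type := ∀ V : Idx H, Matrix (H ⧸ V.1) (H ⧸ V.1) (ZMod 2)

private theorem card_pos' (V : Idx H) : (0 : ℝ) < Fintype.card (H ⧸ V.1) := by
  have : 0 < Fintype.card (H ⧸ V.1) := Fintype.card_pos
  exact_mod_cast this

private def LL (a : Sq H) : Set ℝ :=
  {ε : ℝ | 0 ≤ ε ∧ ∀ᶠ V in (U.F : Filter (Idx H)), ((a V).rank : ℝ) ≤ ε * Fintype.card (H ⧸ V.1)}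

private noncomputable def rho (a : Sq H) : ℝ := sInf (LL U a)

private theorem one_mem (a : Sq H) : (1 : ℝ) ∈ LL U a := by
  refine ⟨zero_le_one, Filter.Eventually.of_forall fun V => ?_⟩
  rw [one_mul]
  exact_mod_cast (a V).rank_le_card_width

private theorem bdd (a : Sq H) : BddBelow (LL U a) := ⟨0, fun _ h => h.1⟩

private theorem mem_of_lt {a : Sq H} {ε : ℝ} (h : rho U a < ε) : ε ∈ LL U a := by
  obtain ⟨δ, hδ, hlt⟩ := exists_lt_of_csInf_lt ⟨1, one_mem U a⟩ h
  refine ⟨hδ.1.trans hlt.le, hδ.2.mono fun V hV => hV.trans ?_⟩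
  exact mul_le_mul_of_nonneg_right hlt.le (card_pos' V).le

private theorem le_of_mem {a : Sq H} {ε : ℝ} (h : ε ∈ LL U a) : rho U a ≤ ε := csInf_le (bdd U a) h

private theorem rho_nonneg (a : Sq H) : 0 ≤ rho U a := le_csInf ⟨1, one_mem U a⟩ fun _ h => h.1

private theorem rho_mono {a b : Sq H} (h : ∀ V, (a V).rank ≤ (b V).rank) : rho U a ≤ rho U b := by
  refine csInf_le_csInf (bdd U a) ⟨1, one_mem U b⟩ fun ε hε => ⟨hε.1, hε.2.mono fun V hV => ?_⟩
  refine le_trans ?_ hV
  exact_mod_cast h V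

private theorem rho_add (a b : Sq H) : rho U (a + b) ≤ rho U a + rho U b := by
  refine le_of_forall_pos_le_add fun ε hε => ?_
  have h1 : rho U a + ε / 2 ∈ LL U a := mem_of_lt U (by linarith)
  have h2 : rho U b + ε / 2 ∈ LL U b := mem_of_lt U (by linarith)
  refine le_of_mem U ⟨by linarith [h1.1, h2.1], ?_⟩
  filter_upwards [h1.2, h2.2] with V hV1 hV2
  have h3 : (((a + b) V).rank : ℝ) ≤ (a V).rank + (b V).rank := by
    exact_mod_cast rank_add_le' (a V) (b V)
  calc (((a + b) V).rank : ℝ) ≤ (a V).rank + (b V).rank := h3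
    _ ≤ (rho U a + ε / 2) * Fintype.card (H ⧸ V.1) + (rho U b + ε / 2) * Fintype.card (H ⧸ V.1) :=
      add_le_add hV1 hV2
    _ = (rho U a + rho U b + ε) * Fintype.card (H ⧸ V.1) := by ring

private theorem rho_neg (a : Sq H) : rho U (-a) = rho U a := by
  refine le_antisymm (rho_mono U fun V => ?_) (rho_mono U fun V => ?_)
  · exact (rank_neg' (a V)).le
  · exact (rank_neg' (a V)).ge

private theorem rho_zero_of {a : Sq H} (h : U.cls a = 0) : rho U a = 0 := by
  refine le_antisymm (le_of_forall_pos_le_add fun ε hε => ?_) (rho_nonneg U a)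
  rw [zero_add]
  exact le_of_mem U ⟨hε.le, (U.ker a).1 h ε hε⟩

private theorem rho_congr_le {a b : Sq H} (h : U.cls a = U.cls b) : rho U a ≤ rho U b := by
  have h1 : rho U (a - b) = 0 := rho_zero_of U (by rw [map_sub, h, sub_self])
  have h2 := rho_add U (a - b) b
  rwa [sub_add_cancel, h1, zero_add] at h2

private theorem rho_congr {a b : Sq H} (h : U.cls a = U.cls b) : rho U a = rho U b :=
  le_antisymm (rho_congr_le U h) (rho_congr_le U h.symm)

private theorem rho_one : rho U (1 : Sq H) = 1 := by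
  refine le_antisymm (le_of_mem U (one_mem U _)) (le_csInf ⟨1, one_mem U _⟩ fun ε hε => ?_)
  obtain ⟨V, hV⟩ := hε.2.exists
  rw [Pi.one_apply, Matrix.rank_one] at hV
  by_contra hlt
  push Not at hlt
  have := mul_lt_mul_of_pos_right hlt (card_pos' V)
  linarith

private noncomputable def rk' (x : U.E) : ℝ := rho U (U.surj x).choose

private theorem rk_cls (a : Sq H) : rk' U (U.cls a) = rho U a :=
  rho_congr U (U.surj (U.cls a)).choose_spec

private theorem unit_of {a : Sq H} (h : rho U a = 1) : IsUnit (U.cls a) := by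
  choose b hb using fun V : Idx H => exists_unit_near (a V)
  have hab : U.cls a = U.cls b := by
    rw [← sub_eq_zero, ← map_sub, U.ker]
    intro ε hε
    by_contra hcon
    rw [← Ultrafilter.eventually_not] at hcon
    have hmem : max 0 (1 - ε) ∈ LL U a := by
      refine ⟨le_max_left _ _, hcon.mono fun V hV => ?_⟩
      push Not at hV
      have h1 : ((a V).rank : ℝ) + ((a V - b V).rank : ℝ) ≤ Fintype.card (H ⧸ V.1) := by
        exact_mod_cast (hb V).2
      have h2 : (1 - ε) * Fintype.card (H ⧸ V.1) ≤ max 0 (1 - ε) * Fintype.card (H ⧸ V.1) :=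
        mul_le_mul_of_nonneg_right (le_max_right _ _) (card_pos' V).le
      have h3 : ε * Fintype.card (H ⧸ V.1) < ((a V - b V).rank : ℝ) := hV
      linarith
    have hle := le_of_mem U hmem
    rw [h] at hle
    rcases le_max_iff.1 hle with h4 | h4
    · linarith
    · linarith
  rw [hab]
  refine IsUnit.map U.cls ?_
  rw [Pi.isUnit_iff]
  exact fun V => (hb V).1

/-- **The limit of the normalized ranks is a rank function** -/
theorem exists_lim {H : Type} [Group H] (U : UR H) : ∃ R : RkR U.E, U.Lim R := by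
  refine ⟨{ rk := rk' U
            nonneg := fun x => rho_nonneg U _
            zero := ?_
            one := ?_
            neg := ?_
            add := ?_
            mul_l := ?_
            mul_r := ?_
            eq_zero := ?_
            unit := ?_ }, ?_⟩
  · rw [← map_zero U.cls, rk_cls]
    exact rho_zero_of U (map_zero _)
  · rw [← map_one U.cls, rk_cls]
    exact rho_one U
  · intro x
    obtain ⟨a, rfl⟩ := U.surj x
    rw [← map_neg, rk_cls, rk_cls, rho_neg]
  · intro x y
    obtain ⟨a, rfl⟩ := U.surj x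
    obtain ⟨b, rfl⟩ := U.surj y
    rw [← map_add, rk_cls, rk_cls, rk_cls]
    exact rho_add U a b
  · intro x y
    obtain ⟨a, rfl⟩ := U.surj x
    obtain ⟨b, rfl⟩ := U.surj y
    rw [← map_mul, rk_cls, rk_cls]
    exact rho_mono U fun V => Matrix.rank_mul_le_left (a V) (b V)
  · intro x y
    obtain ⟨a, rfl⟩ := U.surj x
    obtain ⟨b, rfl⟩ := U.surj y
    rw [← map_mul, rk_cls, rk_cls]
    exact rho_mono U fun V => Matrix.rank_mul_le_right (a V) (b V)
  · intro x hx
    obtain ⟨a, rfl⟩ := U.surj x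
    rw [rk_cls] at hx
    rw [U.ker]
    exact fun ε hε => (mem_of_lt U (hx.trans_lt hε)).2
  · intro x hx
    obtain ⟨a, rfl⟩ := U.surj x
    rw [rk_cls] at hx
    exact unit_of U hx
  · constructor
    · intro a ε h
      show rk' U (U.cls a) ≤ ε
      rw [rk_cls]
      refine le_of_mem U ⟨?_, h⟩
      obtain ⟨V, hV⟩ := h.exists
      have h0 : (0 : ℝ) ≤ ε * Fintype.card (H ⧸ V.1) := (Nat.cast_nonneg _).trans hV
      exact nonneg_of_mul_nonneg_left h0 (card_pos' V)
    · intro a ε h
      replace h : rk' U (U.cls a) < ε := h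
      rw [rk_cls] at h
      exact (mem_of_lt U h).2

end

end Pool.Agent.TW
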