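import Pool.Agent.TW.Defs
import Pool.Agent.TW.RkL

/-!
# Project TW: existence of the ultraproduct

PROOF.  `Idx H` (a subtype of `Subgroup H`, ordered by inclusion) is not empty (`⊤`) and codirected (`V ⊓ V'`), so `Filter.atBot` is not trivial;
`F = Ultrafilter.of Filter.atBot`.  `small`: `V₀` of finite index contains its normal core `V₀.normalCore`, which is normal of finite index
(`Subgroup.normalCore_le`, `Subgroup.finiteIndex_normalCore`), and `Filter.eventually_le_atBot`.
`E` = the quotient of the product ring `∀ V : Idx H, Matrix ..` by the ring congruence (`RingCon`)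
`r a b := ∀ ε > 0, ∀ᶠ V in F, ((a V - b V).rank : ℝ) ≤ ε * card`: reflexive (rank `0`), symmetric (`rank_neg'`), transitive and additive (`rank_add_le'`),
multiplicative: `a a' - b b' = (a - b) a' + b (a' - b')` and `Matrix.rank_mul_le_left`, `Matrix.rank_mul_le_right`.  The ring and algebra structures are
the instances of `RingCon.Quotient`; `cls = RingCon.mk'`; `ker`: `RingCon.eq` with `b = 0`.
-/

set_option autoImplicit false
set_option linter.unusedSectionVars false

namespace Pool.Agent.TW

section

variable {H : Type} [Group H]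

/-- the congruence of the sequences which differ by matrices of small rank -/
noncomputable def clo (F : Ultrafilter (Idx H)) : RingCon (∀ V : Idx H, Matrix (H ⧸ V.1) (H ⧸ V.1) (ZMod 2)) where
  r a b := ∀ ε : ℝ, 0 < ε → ∀ᶠ V in (F : Filter (Idx H)), ((a V - b V).rank : ℝ) ≤ ε * Fintype.card (H ⧸ V.1)
  iseqv :=
    { refl := fun a ε hε => Filter.Eventually.of_forall fun V => by
        rw [sub_self, Matrix.rank_zero, Nat.cast_zero]
        positivity
      symm := fun {a b} h ε hε => by
        filter_upwards [h ε hε] with V hV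
        rwa [← neg_sub, rank_neg']
      trans := fun {a b c} h h' ε hε => by
        filter_upwards [h (ε / 2) (half_pos hε), h' (ε / 2) (half_pos hε)] with V h1 h2
        have h3 := rank_add_le' (a V - b V) (b V - c V)
        rw [sub_add_sub_cancel] at h3
        have h4 : ((a V - c V).rank : ℝ) ≤ (a V - b V).rank + (b V - c V).rank := by exact_mod_cast h3
        linarith }
  add' := fun {a b c d} h h' ε hε => by
    filter_upwards [h (ε / 2) (half_pos hε), h' (ε / 2) (half_pos hε)] with V h1 h2
    have h3 := rank_add_le' (a V - b V) (c V - d V)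
    rw [← add_sub_add_comm] at h3
    have h4 : ((a V + c V - (b V + d V)).rank : ℝ) ≤ (a V - b V).rank + (c V - d V).rank := by exact_mod_cast h3
    rw [Pi.add_apply, Pi.add_apply]
    linarith
  mul' := fun {a b c d} h h' ε hε => by
    filter_upwards [h (ε / 2) (half_pos hε), h' (ε / 2) (half_pos hε)] with V h1 h2
    have h3 := rank_add_le' ((a V - b V) * c V) (b V * (c V - d V))
    have h5 : (a V - b V) * c V + b V * (c V - d V) = a V * c V - b V * d V := by noncomm_ring
    rw [h5] at h3
    have h6 := Matrix.rank_mul_le_left (a V - b V) (c V)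
    have h7 := Matrix.rank_mul_le_right (b V) (c V - d V)
    have h4 : ((a V * c V - b V * d V).rank : ℝ) ≤ (a V - b V).rank + (c V - d V).rank := by
      exact_mod_cast h3.trans (add_le_add h6 h7)
    rw [Pi.mul_apply, Pi.mul_apply]
    linarith

theorem clo_iff (F : Ultrafilter (Idx H)) (a b : ∀ V : Idx H, Matrix (H ⧸ V.1) (H ⧸ V.1) (ZMod 2)) :
    clo F a b ↔ ∀ ε : ℝ, 0 < ε → ∀ᶠ V in (F : Filter (Idx H)), ((a V - b V).rank : ℝ) ≤ ε * Fintype.card (H ⧸ V.1) :=
  Iff.rfl

theorem exists_small (H : Type) [Group H] : ∃ F : Ultrafilter (Idx H),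
    ∀ V₀ : Subgroup H, V₀.FiniteIndex → ∀ᶠ V in (F : Filter (Idx H)), V.1 ≤ V₀ := by
  have h1 : Nonempty (Idx H) := ⟨⟨⊤, inferInstance, inferInstance⟩⟩
  have h2 : IsCodirectedOrder (Idx H) := ⟨fun V W => ⟨⟨V.1 ⊓ W.1, inferInstance, inferInstance⟩,
    (inf_le_left : V.1 ⊓ W.1 ≤ V.1), (inf_le_right : V.1 ⊓ W.1 ≤ W.1)⟩⟩
  refine ⟨Ultrafilter.of Filter.atBot, fun V₀ h => ?_⟩
  have h3 := Filter.eventually_le_atBot (⟨V₀.normalCore, inferInstance, inferInstance⟩ : Idx H)
  refine Filter.Eventually.mono (h3.filter_mono (Ultrafilter.of_le _)) fun V hV => ?_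
  exact le_trans (show V.1 ≤ V₀.normalCore from hV) V₀.normalCore_le

end

/-- **Existence of the ultraproduct** -/
theorem exists_UR (H : Type) [Group H] : Nonempty (UR H) := by
  obtain ⟨F, hF⟩ := exists_small H
  exact ⟨{ F := F
           small := hF
           E := (clo F).Quotient
           ring := inferInstance
           alg := inferInstance
           cls := (clo F).mk'
           surj := (clo F).mk'_surjective
           ker := fun a => by
             have h1 : (clo F).mk' a = 0 ↔ clo F a 0 := by
               rw [← map_zero (clo F).mk']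
               exact (clo F).eq
             rw [h1, clo_iff]
             simp only [Pi.zero_apply, sub_zero] }⟩

end Pool.Agent.TW
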