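import Pool.Agent.TW.TS
import Pool.Agent.TW.TB
import Pool.Agent.TW.TT
import Pool.Agent.TW.TC
import Pool.Agent.TW.URx
import Pool.Agent.TW.URk
import Pool.Agent.S14.Final

/-!
# Project TW: the theorem for groups with a residually (amenable and left-orderable) subgroup of finite index, or with a
subgroup of finite index which has a tower
-/

set_option autoImplicit false
set_option linter.unusedSectionVars false

open Finset Pointwise

namespace Pool.Agent.TW

open Pool.Agent.H37.TM Pool.Agent.H65.RM Pool.Agent.S10 Pool.Agent.S11 Pool.Agent.S14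

theorem Tower.ok {H : Type} [Group H] [Countable H] (U : UR H) {R : RkR U.E} (hR : U.Lim R) {J : Subgroup H}
    (h : Tower J) : U.Ok J := by
  induction h with
  | bot => exact ok_bot U
  | step J N _ h ih => exact ok_step U hR h ih

/-- a left order from an injective homomorphism -/
noncomputable def loComap {G H : Type} [Group G] [Group H] (f : G →* H) (hf : Function.Injective f) (lo : LO H) : LO G :=
  { @LinearOrder.lift' G H lo.toLinearOrder f hf with
    lt_l := fun a b c h => by
      have h1 : lo.lt (f c * f a) (f c * f b) := lo.lt_l (f a) (f b) (f c) h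
      rw [← map_mul, ← map_mul] at h1
      exact h1 }

/-- **The division ring of a tower** -/
theorem Tower.exists_lpack {H : Type} [Group H] [Countable H] (h : Tower (⊤ : Subgroup H)) :
    ∃ _ : LO H, Nonempty (LPack H) := by
  obtain ⟨U⟩ := exists_UR H
  obtain ⟨R, hR⟩ := exists_lim U
  obtain ⟨lo⟩ := h.lo
  exact ⟨loComap (Subgroup.topEquiv (G := H)).symm.toMonoidHom (Subgroup.topEquiv (G := H)).symm.injective lo,
    exists_lpack_of_ok U (h.ok U hR) fun x hx => h.res x (Subgroup.mem_top x) hx⟩

/-- the two cases -/
def Cls (H : Type) [Group H] : Prop := RAL H ∨ Tower (⊤ : Subgroup H)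

theorem Cls.comap {H G : Type} [Group H] [Group G] {f : H →* G} (hf : Function.Injective f) (h : Cls G) : Cls H := by
  rcases h with h | h
  · exact Or.inl (h.comap hf)
  · have h1 := h.comap f hf
    rw [Subgroup.comap_top] at h1
    exact Or.inr h1

theorem Cls.exists_lpack {H : Type} [Group H] [Countable H] (h : Cls H) : ∃ _ : LO H, Nonempty (LPack H) := by
  rcases h with h | h
  · exact h.exists_lpack
  · exact h.exists_lpack

section

variable {V U : Type} [DecidableEq V] [DecidableEq U]

/-- the theorem if the whole group acts on both spaces -/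
theorem main_Cls {P : Type} [Group P] [MulAction P V] [MulAction P U] {X : Set (Finset V)} (hG : IsGeomS P X)
    (hac : Acyc X) (J : Subgroup P) [hJ : J.FiniteIndex] (hU : Cls J) {M B : Set (Finset U)} {n : ℕ}
    (hM : ManOrDual P M B n (n + 1)) (hA : PAct P M B) (i : ℕ) (hn : n < 2 * i) : L2ZeroS X i := by
  have hGJ : IsGeomS J X := hG.sub J
  have : Countable J := countable_of_geom hGJ hac
  obtain ⟨lo, ⟨D⟩⟩ := hU.exists_lpack
  exact end_l2 D (hGJ.freeX fun g k hk h => LO.tf hk h) hac (hM.sub J) (PAct.sub hA J) hn

/-- **The theorem.** -/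
theorem tw_main {G : Type} [Group G] [MulAction G V] {X : Set (Finset V)} (hX : Acyc X) (hG : IsGeomS G X)
    (H : Subgroup G) (hH : H.FiniteIndex) (hU : RAL H ∨ Tower (⊤ : Subgroup H))
    (P : Subgroup G) (hP : P.FiniteIndex) [MulAction P U] {M B : Set (Finset U)} {n : ℕ}
    (hM : ManOrDual P M B n (n + 1)) (hA : PAct P M B) (i : ℕ) (hn : n < 2 * i) : L2ZeroS X i := by
  have hJ : (H.subgroupOf P).FiniteIndex := inferInstance
  have hUJ : Cls (H.subgroupOf P) :=
    Cls.comap (f := ({ toFun := fun x => ⟨((x : P) : G), Subgroup.mem_subgroupOf.1 x.2⟩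
                       map_one' := rfl
                       map_mul' := fun _ _ => rfl } : (H.subgroupOf P) →* H)) (by
        intro x y hxy
        apply Subtype.ext
        apply Subtype.ext
        exact congrArg (fun z : H => (z : G)) hxy) hU
  exact main_Cls (hG.sub P) hX (H.subgroupOf P) hUJ hM hA i hn

end

end Pool.Agent.TW
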