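import Pool.Agent.TW.Defs
import Pool.Agent.S11.CuC
import Pool.Agent.S11.CuP

/-!
# Project TW: boxes of finite products of groups of unitriangular integer matrices which the finite quotients see

PROOF of `bxRF_pi`.  First one factor: the proof of `fbox_UT` (`S11/CuC`) gives for `S`, `ε` the explicit `W = Wt n (t * n)`, `B = Bt n t`, `Et n t`,
`Et' n t C` with `G = B * E` and `e * s ∈ E` for `e ∈ E'`, `s ∈ S`.  So the statement `FBoxW`: the conclusion of `FBox` for `UT ℤ n` with `W` of the form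
`Wt n e` (copy of the proof of `fbox_UT`), then products with `W i = Wt (n i) (e i)` (copy of the proof of `fbox_pi`, `S11/CuP`; the group `W` is the
set of the `x` with `x i ∈ Wt (n i) (e i)` for all `i`).  Now take inverses: `Φ = E⁻¹`, `D = (E \ E')⁻¹`, the bijection
`Φ × B → Γ`, `(φ, b) ↦ φ * b` (inverse of `b⁻¹ * φ⁻¹`), invariance: `s * φ = (φ⁻¹ * s⁻¹)⁻¹` (apply the box property to the inverses of the elements of `S`),
`D.card = E.card - E'.card ≤ ε * E.card`.  The subgroup `V` = the finite intersection of the subgroups for `i` and `t = e i`.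
-/

set_option autoImplicit false
set_option linter.unusedSectionVars false

open Finset

namespace Pool.Agent.TW

open Pool.Agent.S11 Pool.Agent.S11.Cu

/-- boxes of one factor -/
private theorem bu_one (n : ℕ) (S : Finset (UT ℤ n)) (ε : ℝ) (hε : 0 < ε) :
    ∃ (t : ℕ) (B : Subgroup (UT ℤ n)) (E E' : Finset (UT ℤ n)), Wt n t ≤ B ∧
      Function.Bijective (fun x : B × E => (x.1 : UT ℤ n) * x.2) ∧ E' ⊆ E ∧
      (∀ e ∈ E', ∀ s ∈ S, e * s ∈ E) ∧ (1 - ε) * E.card ≤ E'.card := by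
  classical
  let C : ℕ := ∑ s ∈ S, ∑ i, ∑ k, (ent s i k).natAbs * n
  have hC : ∀ s ∈ S, ∀ i k, |ent s i k| * n ≤ C := by
    intro s hs i k
    have h1 : (ent s i k).natAbs * n ≤ C := by
      calc _ ≤ ∑ k, (ent s i k).natAbs * n :=
            Finset.single_le_sum (f := fun k => (ent s i k).natAbs * n) (fun _ _ => Nat.zero_le _) (Finset.mem_univ k)
        _ ≤ ∑ i, ∑ k, (ent s i k).natAbs * n :=
            Finset.single_le_sum (f := fun i => ∑ k, (ent s i k).natAbs * n) (fun _ _ => Nat.zero_le _)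
              (Finset.mem_univ i)
        _ ≤ C := Finset.single_le_sum (f := fun s => ∑ i, ∑ k, (ent s i k).natAbs * n) (fun _ _ => Nat.zero_le _) hs
    rw [Int.abs_eq_natAbs]
    exact_mod_cast h1
  obtain ⟨t, ht⟩ : ∃ t : ℕ, (2 * C : ℝ) + 2 * C * Fintype.card (Cu.J n) / ε < 2 ^ t :=
    pow_unbounded_of_one_lt _ (by norm_num)
  have h0 : (0 : ℝ) ≤ 2 * C * Fintype.card (Cu.J n) / ε := by positivity
  have hC0 : (0 : ℝ) ≤ 2 * C := by positivity
  have ht1 : 2 * C ≤ 2 ^ t := by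
    have : (2 * C : ℝ) ≤ 2 ^ t := by linarith
    exact_mod_cast this
  have ht2 : 2 * C * Fintype.card (Cu.J n) / ε ≤ 2 ^ t := by linarith
  have h5 : (0 : ℝ) < 2 ^ t := by positivity
  refine ⟨t * n, Bt n t, Et n t, Et' n t C, Wt_le_Bt t, box_bij t, Et'_sub t C,
    fun e he s hs => Et'_mul (hC s hs) he, ?_⟩
  rw [card_Et, card_Et' ht1, Finset.prod_mul_distrib, Finset.prod_const, Finset.card_univ, mul_comm]
  refine mul_le_mul_of_nonneg_left ?_ (Finset.prod_nonneg fun _ _ => by positivity)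
  have h6 : (-2 : ℝ) ≤ -(2 * C / 2 ^ t) := by
    have : (2 * C : ℝ) / 2 ^ t ≤ 1 := by
      rw [div_le_one h5]
      linarith
    linarith
  have h7 := one_add_mul_le_pow h6 (Fintype.card (Cu.J n))
  have h8 : (Fintype.card (Cu.J n) : ℝ) * -(2 * C / 2 ^ t) ≥ -ε := by
    have : (Fintype.card (Cu.J n) : ℝ) * (2 * C / 2 ^ t) ≤ ε := by
      rw [mul_div_assoc', div_le_iff₀ h5]
      rw [div_le_iff₀ hε] at ht2
      linarith
    linarith
  calc 1 - ε ≤ 1 + (Fintype.card (Cu.J n) : ℝ) * -(2 * C / 2 ^ t) := by linarith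
    _ ≤ _ := h7
    _ = _ := by rw [← sub_eq_add_neg]

/-- boxes of finite products -/
private theorem bu_pi {ι : Type} [Finite ι] (n : ι → ℕ) (S : Finset (∀ i, UT ℤ (n i))) (ε : ℝ) (hε : 0 < ε) :
    ∃ (t : ι → ℕ) (B : Subgroup (∀ i, UT ℤ (n i))) (E E' : Finset (∀ i, UT ℤ (n i))),
      (∀ x : ∀ i, UT ℤ (n i), (∀ i, x i ∈ Wt (n i) (t i)) → x ∈ B) ∧
      Function.Bijective (fun x : B × E => (x.1 : ∀ i, UT ℤ (n i)) * x.2) ∧ E' ⊆ E ∧
      (∀ e ∈ E', ∀ s ∈ S, e * s ∈ E) ∧ (1 - ε) * E.card ≤ E'.card := by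
  classical
  have := Fintype.ofFinite ι
  obtain ⟨δ, hδ0, hδ1, hδ2⟩ : ∃ δ : ℝ, 0 < δ ∧ δ ≤ 1 ∧ (Fintype.card ι : ℝ) * δ ≤ ε := by
    refine ⟨min 1 (ε / (Fintype.card ι + 1)), ?_, min_le_left _ _, ?_⟩
    · apply lt_min one_pos
      positivity
    · have h1 : min 1 (ε / (Fintype.card ι + 1)) ≤ ε / (Fintype.card ι + 1) := min_le_right _ _
      have h2 : (Fintype.card ι : ℝ) * (ε / (Fintype.card ι + 1)) ≤ ε := by
        rw [mul_div_assoc', div_le_iff₀ (by positivity)]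
        nlinarith
      exact (mul_le_mul_of_nonneg_left h1 (by positivity)).trans h2
  choose t B E E' h1 h4 h5 h6 h7 using fun i => bu_one (n i) (S.image fun s => s i) δ hδ0
  refine ⟨t, Subgroup.pi Set.univ B, Fintype.piFinset E, Fintype.piFinset E', ?_, ?_, ?_, ?_, ?_⟩
  · intro x hx
    rw [Subgroup.mem_pi]
    exact fun i _ => h1 i (hx i)
  · constructor
    · rintro ⟨⟨b, hb⟩, ⟨e, he⟩⟩ ⟨⟨b', hb'⟩, ⟨e', he'⟩⟩ h8
      change b * e = b' * e' at h8
      rw [Subgroup.mem_pi] at hb hb'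
      rw [Fintype.mem_piFinset] at he he'
      have h9 : ∀ i, b i = b' i ∧ e i = e' i := by
        intro i
        have h10 := (h4 i).1 (a₁ := (⟨b i, hb i (Set.mem_univ i)⟩, ⟨e i, he i⟩))
          (a₂ := (⟨b' i, hb' i (Set.mem_univ i)⟩, ⟨e' i, he' i⟩)) (congrFun h8 i)
        exact ⟨congrArg Subtype.val (congrArg Prod.fst h10), congrArg Subtype.val (congrArg Prod.snd h10)⟩
      obtain rfl : b = b' := funext fun i => (h9 i).1
      obtain rfl : e = e' := funext fun i => (h9 i).2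
      rfl
    · intro x
      choose y hy using fun i => (h4 i).2 (x i)
      refine ⟨⟨⟨fun i => (y i).1, ?_⟩, ⟨fun i => (y i).2, ?_⟩⟩, ?_⟩
      · rw [Subgroup.mem_pi]
        exact fun i _ => (y i).1.2
      · rw [Fintype.mem_piFinset]
        exact fun i => (y i).2.2
      · funext i
        exact hy i
  · exact Fintype.piFinset_subset _ _ h5
  · intro e he s hs
    rw [Fintype.mem_piFinset] at he ⊢
    exact fun i => h6 i (e i) (he i) (s i) (Finset.mem_image_of_mem _ hs)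
  · rw [Fintype.card_piFinset, Fintype.card_piFinset]
    push_cast
    calc (1 - ε) * ∏ i, ((E i).card : ℝ) ≤ (1 - δ) ^ (Fintype.card ι) * ∏ i, ((E i).card : ℝ) := by
          refine mul_le_mul_of_nonneg_right ?_ (Finset.prod_nonneg fun _ _ => by positivity)
          have h8 := one_add_mul_le_pow (a := -δ) (by linarith) (Fintype.card ι)
          have h9 : (1 : ℝ) - δ = 1 + -δ := by ring
          rw [h9]
          linarith
      _ = ∏ i, ((1 - δ) * (E i).card) := by rw [Finset.prod_mul_distrib, Finset.prod_const, Finset.card_univ]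
      _ ≤ ∏ i, ((E' i).card : ℝ) := by
          refine Finset.prod_le_prod (fun i _ => ?_) fun i _ => h7 i
          exact mul_nonneg (by linarith) (by positivity)

/-- from the right boxes to the left boxes -/
private theorem bu_inv {G : Type} [Group G] {S : Finset G} {ε : ℝ} {B : Subgroup G} {E E' : Finset G}
    (hb : Function.Bijective (fun x : B × E => (x.1 : G) * x.2)) (hE : E' ⊆ E)
    (hS : ∀ e ∈ E', ∀ s ∈ S, e * s⁻¹ ∈ E) (hc : (1 - ε) * E.card ≤ E'.card) :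
    ∃ Φ D : Finset G, Function.Bijective (fun x : Φ × B => (x.1 : G) * x.2) ∧ D ⊆ Φ ∧
      (∀ a ∈ Φ, a ∉ D → ∀ s ∈ S, s * a ∈ Φ) ∧ (D.card : ℝ) ≤ ε * Φ.card := by
  classical
  have hm : ∀ (F : Finset G) (a : G), a ∈ F.map (Equiv.inv G).toEmbedding ↔ a⁻¹ ∈ F := by
    intro F a
    rw [Finset.mem_map_equiv, Equiv.inv_symm, Equiv.inv_apply]
  refine ⟨E.map (Equiv.inv G).toEmbedding, (E \ E').map (Equiv.inv G).toEmbedding, ?_, ?_, ?_, ?_⟩
  · constructor
    · rintro ⟨⟨e, he⟩, ⟨b, hb1⟩⟩ ⟨⟨e', he'⟩, ⟨b', hb1'⟩⟩ h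
      change e * b = e' * b' at h
      rw [hm] at he he'
      have h2 : b⁻¹ * e⁻¹ = b'⁻¹ * e'⁻¹ := by rw [← mul_inv_rev, ← mul_inv_rev, h]
      have h3 := hb.1 (a₁ := (⟨b⁻¹, inv_mem hb1⟩, ⟨e⁻¹, he⟩)) (a₂ := (⟨b'⁻¹, inv_mem hb1'⟩, ⟨e'⁻¹, he'⟩)) h2
      have h4 : b⁻¹ = b'⁻¹ := congrArg Subtype.val (congrArg Prod.fst h3)
      have h5 : e⁻¹ = e'⁻¹ := congrArg Subtype.val (congrArg Prod.snd h3)
      obtain rfl : b = b' := inv_injective h4
      obtain rfl : e = e' := inv_injective h5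
      rfl
    · intro x
      obtain ⟨⟨⟨b, hb1⟩, ⟨e, he⟩⟩, h⟩ := hb.2 x⁻¹
      change b * e = x⁻¹ at h
      refine ⟨⟨⟨e⁻¹, ?_⟩, ⟨b⁻¹, inv_mem hb1⟩⟩, ?_⟩
      · rw [hm, inv_inv]
        exact he
      · change e⁻¹ * b⁻¹ = x
        rw [← mul_inv_rev, h, inv_inv]
  · intro a ha
    rw [hm] at ha ⊢
    exact (Finset.mem_sdiff.1 ha).1
  · intro a ha ha' s hs
    rw [hm] at ha ha' ⊢
    have h1 : a⁻¹ ∈ E' := by
      by_contra hcon
      exact ha' (Finset.mem_sdiff.2 ⟨ha, hcon⟩)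
    rw [mul_inv_rev]
    exact hS _ h1 s hs
  · rw [Finset.card_map, Finset.card_map]
    have h1 : (E \ E').card + E'.card = E.card := Finset.card_sdiff_add_card_eq_card hE
    have h2 : ((E \ E').card : ℝ) + E'.card = E.card := by exact_mod_cast h1
    linarith

/-- **Boxes** -/
theorem bxRF_pi {H : Type} [Group H] (J : Subgroup H) {ι : Type} [Finite ι] (n : ι → ℕ) (φ : ∀ i, ↥J →* UT ℤ (n i))
    (hφ : ∀ i t, ∃ V : Subgroup H, V.FiniteIndex ∧ ∀ y : ↥J, (y : H) ∈ V → φ i y ∈ Wt (n i) t) :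
    BxRF J (MonoidHom.pi φ) := by
  classical
  intro S ε hε
  obtain ⟨t, B, E, E', h1, h2, h3, h4, h5⟩ := bu_pi n (S.image fun s => s⁻¹) ε hε
  obtain ⟨Φ, D, h6, h7, h8, h9⟩ := bu_inv (S := S) h2 h3
    (fun e he s hs => h4 e he s⁻¹ (Finset.mem_image_of_mem _ hs)) h5
  let π : (∀ i, UT ℤ (n i)) →* (∀ i, UT ℤ (n i) ⧸ Wt (n i) (t i)) :=
    MonoidHom.pi fun i => (QuotientGroup.mk' (Wt (n i) (t i))).comp (Pi.evalMonoidHom (fun i => ↥(UT ℤ (n i))) i)
  have hπ : ∀ x, x ∈ π.ker ↔ ∀ i, x i ∈ Wt (n i) (t i) := by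
    intro x
    rw [MonoidHom.mem_ker]
    constructor
    · intro hx i
      have := congrFun hx i
      exact (QuotientGroup.eq_one_iff _).1 this
    · intro hx
      funext i
      exact (QuotientGroup.eq_one_iff _).2 (hx i)
  choose V hV1 hV2 using fun i => hφ i (t i)
  refine ⟨π.ker, B, Φ, D, inferInstance, fun x hx => h1 x ((hπ x).1 hx), ⟨⨅ i, V i, ?_, ?_⟩, h6, h7, h8, h9⟩
  · exact Subgroup.finiteIndex_iInf hV1
  · intro h hh
    rw [hπ]
    intro i
    exact hV2 i h (Subgroup.mem_iInf.1 hh i)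

end Pool.Agent.TW
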