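import Mathlib

/-!
# Project TW, examples: groups whose profinite completion has trivial centre (definition)
-/

set_option autoImplicit false

namespace Pool.Agent.TW

/-- the profinite completion has trivial centre: for every subgroup `V₀` of finite index there is a subgroup `V₁` of finite
index such that the elements which are central modulo `V₁` are in `V₀` -/
def CF (K : Type) [Group K] : Prop :=
  ∀ V₀ : Subgroup K, V₀.FiniteIndex → ∃ V₁ : Subgroup K, V₁.FiniteIndex ∧ ∀ n : K, (∀ m : K, n * m * n⁻¹ * m⁻¹ ∈ V₁) → n ∈ V₀

/-- the group `K` has a presentation with `n` generators and `r` relators -/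
def HasPres (K : Type) [Group K] (n r : ℕ) : Prop :=
  ∃ (ρ : FreeGroup (Fin n) →* K) (R : Fin r → FreeGroup (Fin n)), Function.Surjective ρ ∧
    ρ.ker = Subgroup.normalClosure (Set.range R)

end Pool.Agent.TW
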