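import Pool.Agent.TW.CFDefs

/-!
# Project TW, examples: the first Betti number of a subgroup of finite index, lower bound

`K` has `n` generators and `r` relators, `V` is a subgroup of index `m`: the dimension of the space of homomorphisms `V → ℚ` is at least
`(n - r - 1) m + 1`.
PROOF.  `F = FreeGroup (Fin n)` acts on `Ω = K ⧸ V` by `ρ`.  For `α : Fin n → Ω → ℚ` let `Φ α : F →* Equiv.Perm (Ω × ℚ)` be the lift of
`(ω, s) ↦ (ρ (y i) • ω, s + α i ω)`; `Φ α w (ω, s) = (ρ w • ω, s + c α w ω)` with `c α w ω := (Φ α w (ω, 0)).2` (first show that `Φ α w` commutes with the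
translations of the second coordinate; `FreeGroup.induction_on`, or `Subgroup.closure_induction`), so `c α (w * w') ω = c α w (ρ w' • ω) + c α w' ω`,
`c α 1 ω = 0`, `c α w⁻¹ (ρ w • ω) = - c α w ω`, `c α (FreeGroup.of i) ω = α i ω`, and `α ↦ c α w ω` is linear (two functions with the cocycle identity which agree on
the generators agree).  `Z = {α | ∀ j ω, c α (R j) ω = 0}` = the kernel of a linear map `(Fin n → Ω → ℚ) → (Fin r → Ω → ℚ)`, dimension at least
`n m - r m` (`LinearMap.finrank_range_add_finrank_ker`).  For `α ∈ Z` one has `c α k ω = 0` for all `k ∈ ρ.ker` (the set of `k ∈ ρ.ker` with this property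
is a normal subgroup which contains all `R j`; for `k ∈ ρ.ker`: `c α (g k g⁻¹) (ρ g • ω) = c α k ω`).  So `T : Z → (Additive V →+ ℚ)`,
`T α v = c α w o` for any `w` with `ρ w = v`, `o = (1 : K) : K ⧸ V`, is well defined, additive in `v` (as `v • o = o` for `v ∈ V`) and linear in `α`.  Kernel of `T`:
choose `w ω : F` with `ρ (w ω) • o = ω`; `u α ω = c α (w ω) o` is linear in `α`; if `T α = 0` and `u α = 0` then `α = 0`: apply `T α = 0` to
`(w (ρ (y i) • ω))⁻¹ * y i * w ω`.  And `u α o = 0` if `T α = 0`.  So the kernel of `T` has dimension at most `m - 1`.  The space of homomorphisms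
is finite dimensional (`V` is finitely generated: `Subgroup.fg_of_index_ne_zero` or similar; the evaluation at generators is injective) — needed for `finrank`.
-/

set_option autoImplicit false
set_option linter.unusedSectionVars false

namespace Pool.Agent.TW

section cocycle

variable {K : Type} [Group K] {B : Type} [AddCommGroup B] [Module ℚ B]

private noncomputable def CFa_phi (n : ℕ) (σ : K →* (B →ₗ[ℚ] B)) :
    K →* MulAut (Multiplicative ((Fin n → B) →ₗ[ℚ] B)) where
  toFun k :=
    { toFun := fun f => Multiplicative.ofAdd (σ k ∘ₗ f.toAdd)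
      invFun := fun f => Multiplicative.ofAdd (σ k⁻¹ ∘ₗ f.toAdd)
      left_inv := fun f => by
        apply Multiplicative.toAdd.injective
        rw [toAdd_ofAdd, toAdd_ofAdd, ← LinearMap.comp_assoc, ← Module.End.mul_eq_comp, ← map_mul,
          inv_mul_cancel, map_one, Module.End.one_eq_id, LinearMap.id_comp]
      right_inv := fun f => by
        apply Multiplicative.toAdd.injective
        rw [toAdd_ofAdd, toAdd_ofAdd, ← LinearMap.comp_assoc, ← Module.End.mul_eq_comp, ← map_mul,
          mul_inv_cancel, map_one, Module.End.one_eq_id, LinearMap.id_comp]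
      map_mul' := fun f g => by
        apply Multiplicative.toAdd.injective
        simp only [toAdd_ofAdd, toAdd_mul, LinearMap.comp_add] }
  map_one' := by
    apply MulEquiv.ext
    intro f
    apply Multiplicative.toAdd.injective
    simp [Module.End.one_eq_id]
  map_mul' := fun k l => by
    apply MulEquiv.ext
    intro f
    apply Multiplicative.toAdd.injective
    simp [Module.End.mul_eq_comp, LinearMap.comp_assoc]

private theorem CFa_cocycle {n : ℕ} (σ : K →* (B →ₗ[ℚ] B)) (ρ : FreeGroup (Fin n) →* K) :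
    ∃ c : FreeGroup (Fin n) → ((Fin n → B) →ₗ[ℚ] B),
      (∀ w w', c (w * w') = c w + σ (ρ w) ∘ₗ c w') ∧
      ∀ i, c (FreeGroup.of i) = LinearMap.proj i := by
  let Φ : FreeGroup (Fin n) →* (Multiplicative ((Fin n → B) →ₗ[ℚ] B)) ⋊[CFa_phi n σ] K :=
    FreeGroup.lift (fun i => ⟨Multiplicative.ofAdd (LinearMap.proj i), ρ (FreeGroup.of i)⟩)
  have hof : ∀ i, Φ (FreeGroup.of i) =
      ⟨Multiplicative.ofAdd (LinearMap.proj i), ρ (FreeGroup.of i)⟩ := fun i =>
    FreeGroup.lift_apply_of
  have hr : ∀ w, (Φ w).right = ρ w := by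
    intro w
    have h1 : (SemidirectProduct.rightHom.comp Φ : FreeGroup (Fin n) →* K) = ρ := by
      apply FreeGroup.ext_hom
      intro i
      simp [hof]
    have h2 := DFunLike.congr_fun h1 w
    simpa using h2
  refine ⟨fun w => Multiplicative.toAdd (Φ w).left, fun w w' => ?_, fun i => ?_⟩
  · have h1 : (Φ (w * w')).left = (Φ w).left * (CFa_phi n σ (ρ w)) (Φ w').left := by
      rw [map_mul, SemidirectProduct.mul_left, hr]
    show Multiplicative.toAdd (Φ (w * w')).left = _
    rw [h1, toAdd_mul]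
    rfl
  · show Multiplicative.toAdd (Φ (FreeGroup.of i)).left = _
    rw [hof]
    rfl

end cocycle

/-- The action of `K` on the functions on `K ⧸ V`. -/
private noncomputable def CFa_act {K : Type} [Group K] (V : Subgroup K) :
    K →* ((K ⧸ V → ℚ) →ₗ[ℚ] (K ⧸ V → ℚ)) where
  toFun k := LinearMap.funLeft ℚ ℚ (fun ω => k⁻¹ • ω)
  map_one' := by
    apply LinearMap.ext
    intro f
    funext ω
    simp [LinearMap.funLeft_apply]
  map_mul' k l := by
    apply LinearMap.ext
    intro f
    funext ω
    simp [LinearMap.funLeft_apply, mul_smul]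

private theorem CFa_act_apply {K : Type} [Group K] (V : Subgroup K) (k : K) (f : K ⧸ V → ℚ)
    (ω : K ⧸ V) : CFa_act V k f ω = f (k⁻¹ • ω) := rfl

private theorem CFa_finite {K : Type} [Group K] {n : ℕ} {ρ : FreeGroup (Fin n) →* K}
    (hρ : Function.Surjective ρ) (V : Subgroup K) [V.FiniteIndex] :
    Module.Finite ℚ (Additive ↥V →+ ℚ) := by
  have h1 : Group.FG K := Group.fg_of_surjective hρ
  have h2 : Group.FG ↥V := Subgroup.fg_of_index_ne_zero V
  obtain ⟨S, hS, hfin⟩ := Group.fg_iff.1 h2
  have : Finite S := hfin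
  let ev : (Additive ↥V →+ ℚ) →ₗ[ℚ] (S → ℚ) :=
    { toFun := fun f s => f (Additive.ofMul s.1)
      map_add' := fun f g => rfl
      map_smul' := fun a f => rfl }
  apply Module.Finite.of_injective ev
  intro f g hfg
  apply AddMonoidHom.ext
  intro v
  have key : ∀ v ∈ Subgroup.closure S, f (Additive.ofMul v) = g (Additive.ofMul v) := by
    intro v hv
    induction hv using Subgroup.closure_induction with
    | mem x hx => exact congrFun hfg ⟨x, hx⟩
    | one => rw [ofMul_one, map_zero, map_zero]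
    | mul x y _ _ hx hy => rw [ofMul_mul, map_add, map_add, hx, hy]
    | inv x _ hx => rw [ofMul_inv, map_neg, map_neg, hx]
  exact key v.toMul (by rw [hS]; trivial)

theorem betti_lower {K : Type} [Group K] {n r : ℕ} (h : HasPres K n r) (V : Subgroup K) [V.FiniteIndex] :
    n * V.index + 1 ≤ r * V.index + V.index + Module.finrank ℚ (Additive ↥V →+ ℚ) := by
  classical
  obtain ⟨ρ, R, hρ, hker⟩ := h
  have hHom : Module.Finite ℚ (Additive ↥V →+ ℚ) := CFa_finite hρ V
  obtain ⟨c, hc, hof⟩ := CFa_cocycle (CFa_act V) ρ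
  have hfinK : Finite (K ⧸ V) := inferInstance
  have hft : Fintype (K ⧸ V) := Fintype.ofFinite _
  have hm : Fintype.card (K ⧸ V) = V.index := by
    rw [← Nat.card_eq_fintype_card]; rfl
  have hc' : ∀ w w' α ω, c (w * w') α ω = c w α ω + c w' α ((ρ w)⁻¹ • ω) := by
    intro w w' α ω
    rw [hc]
    rfl
  have hc1 : ∀ α ω, c 1 α ω = 0 := by
    intro α ω
    have h1 := hc' 1 1 α ω
    rw [mul_one, map_one, inv_one, one_smul] at h1
    linarith
  -- the space of the cocycles which vanish on the relators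
  let Rel : (Fin n → K ⧸ V → ℚ) →ₗ[ℚ] (Fin r → K ⧸ V → ℚ) := LinearMap.pi fun j => c (R j)
  have hZ : ∀ α, α ∈ LinearMap.ker Rel → ∀ j, c (R j) α = 0 := by
    intro α hα j
    exact congrFun (LinearMap.mem_ker.1 hα) j
  have hinv : ∀ g α ω, c g⁻¹ α ω = - c g α (ρ g • ω) := by
    intro g α ω
    have h1 := hc' g g⁻¹ α (ρ g • ω)
    rw [mul_inv_cancel, hc1, inv_smul_smul] at h1
    linarith
  have hvan : ∀ α ∈ LinearMap.ker Rel, ∀ k, ρ k = 1 → ∀ ω, c k α ω = 0 := by
    intro α hα
    let N : Subgroup (FreeGroup (Fin n)) :=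
      { carrier := {k | ρ k = 1 ∧ ∀ ω, c k α ω = 0}
        one_mem' := ⟨map_one ρ, fun ω => hc1 α ω⟩
        mul_mem' := by
          rintro a b ⟨ha, ha'⟩ ⟨hb, hb'⟩
          refine ⟨by rw [map_mul, ha, hb, one_mul], fun ω => ?_⟩
          rw [hc', ha', hb', add_zero]
        inv_mem' := by
          rintro a ⟨ha, ha'⟩
          refine ⟨by rw [map_inv, ha, inv_one], fun ω => ?_⟩
          rw [hinv, ha', neg_zero] }
    have hN : N.Normal := by
      constructor
      rintro k ⟨hk, hk'⟩ g
      refine ⟨by rw [map_mul, map_mul, hk, mul_one, map_inv, mul_inv_cancel], fun ω => ?_⟩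
      rw [hc', hc', hk', hinv, map_mul, hk, mul_one, smul_inv_smul]
      ring
    have hle : Subgroup.normalClosure (Set.range R) ≤ N := by
      apply Subgroup.normalClosure_le_normal
      rintro _ ⟨j, rfl⟩
      refine ⟨?_, fun ω => ?_⟩
      · have h1 : R j ∈ ρ.ker := by
          rw [hker]
          exact Subgroup.subset_normalClosure ⟨j, rfl⟩
        exact h1
      · rw [hZ α hα j]
        rfl
    intro k hk
    have h1 : k ∈ ρ.ker := hk
    rw [hker] at h1
    exact (hle h1).2
  have hdep : ∀ α ∈ LinearMap.ker Rel, ∀ w w', ρ w = ρ w' → ∀ ω, c w α ω = c w' α ω := by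
    intro α hα w w' hw ω
    have h1 : w = w' * (w'⁻¹ * w) := by group
    have h2 : ρ (w'⁻¹ * w) = 1 := by rw [map_mul, map_inv, hw, inv_mul_cancel]
    rw [h1, hc', hvan α hα _ h2, add_zero]
  choose s hs using hρ
  let o : K ⧸ V := ((1 : K) : K ⧸ V)
  have ho : ∀ v : ↥V, (v : K)⁻¹ • o = o := by
    intro v
    show ((((v : K)⁻¹ * 1 : K)) : K ⧸ V) = ((1 : K) : K ⧸ V)
    rw [QuotientGroup.eq]
    simp
  let T : LinearMap.ker Rel →ₗ[ℚ] (Additive ↥V →+ ℚ) :=
    { toFun := fun α => AddMonoidHom.mk' (fun v => c (s ((v.toMul : ↥V) : K)) α.1 o) (by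
        intro a b
        have h1 : ρ (s (((a + b).toMul : ↥V) : K)) =
            ρ (s ((a.toMul : ↥V) : K) * s ((b.toMul : ↥V) : K)) := by
          rw [hs, map_mul, hs, hs]
          rfl
        rw [hdep α.1 α.2 _ _ h1, hc', hs, ho])
      map_add' := fun α β => by
        apply AddMonoidHom.ext
        intro v
        show c _ (α.1 + β.1) o = c _ α.1 o + c _ β.1 o
        rw [map_add]
        rfl
      map_smul' := fun a α => by
        apply AddMonoidHom.ext
        intro v
        show c _ (a • α.1) o = a • c _ α.1 o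
        rw [map_smul]
        rfl }
  have hT : ∀ α : LinearMap.ker Rel, ∀ v : ↥V,
      T α (Additive.ofMul v) = c (s (v : K)) α.1 o := fun α v => rfl
  let U : LinearMap.ker T →ₗ[ℚ] ({ω : K ⧸ V // ω ≠ o} → ℚ) :=
    { toFun := fun α ω => c (s (Quotient.out ω.1)) α.1.1 ω.1
      map_add' := fun α β => by
        funext ω
        show c _ (α.1.1 + β.1.1) ω.1 = c _ α.1.1 ω.1 + c _ β.1.1 ω.1
        rw [map_add]
        rfl
      map_smul' := fun a α => by
        funext ω
        show c _ (a • α.1.1) ω.1 = a • c _ α.1.1 ω.1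
        rw [map_smul]
        rfl }
  have hU0 : ∀ α : LinearMap.ker T, U α = 0 → α = 0 := by
    intro α hα
    have hα0 : ∀ v : ↥V, c (s (v : K)) α.1.1 o = 0 := by
      intro v
      rw [← hT α.1 v, LinearMap.mem_ker.1 α.2]
      rfl
    -- `c k (k o) = 0` for all `k`
    have hk : ∀ w : FreeGroup (Fin n), c w α.1.1 (ρ w • o) = 0 := by
      intro w
      by_cases hw : ρ w • o = o
      · have hmem : ρ w ∈ V := by
          have h1 : ((ρ w * 1 : K) : K ⧸ V) = ((1 : K) : K ⧸ V) := hw
          rw [QuotientGroup.eq] at h1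
          simpa using h1
        rw [hw, hdep α.1.1 α.1.2 w (s (ρ w)) (by rw [hs])]
        exact hα0 ⟨ρ w, hmem⟩
      · have h1 : c (s (Quotient.out (ρ w • o))) α.1.1 (ρ w • o) = 0 :=
          congrFun hα ⟨ρ w • o, hw⟩
        have h2 : ((Quotient.out (ρ w • o) : K) : K ⧸ V) = ρ w • o := Quotient.out_eq _
        generalize Quotient.out (ρ w • o) = k at h1 h2
        have h3 : k⁻¹ * ρ w ∈ V := by
          have h4 : ((k : K) : K ⧸ V) = ((ρ w * 1 : K) : K ⧸ V) := h2
          rw [QuotientGroup.eq, mul_one] at h4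
          exact h4
        have h5 : ρ w = ρ (s k * s (k⁻¹ * ρ w)) := by
          rw [map_mul, hs, hs, mul_inv_cancel_left]
        have h6 : k⁻¹ • (ρ w • o) = o := by
          rw [← h2]
          show ((k⁻¹ * k : K) : K ⧸ V) = ((1 : K) : K ⧸ V)
          rw [inv_mul_cancel]
        rw [hdep α.1.1 α.1.2 w _ h5, hc', h1, hs, h6, zero_add]
        exact hα0 ⟨_, h3⟩
    apply Subtype.ext
    apply Subtype.ext
    funext i ω
    -- `ω = y_i k o`
    obtain ⟨x, rfl⟩ := QuotientGroup.mk_surjective ω
    have e1 := hk (s x)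
    have e2 := hk ((FreeGroup.of i)⁻¹ * s x)
    have e3 := hc' (FreeGroup.of i) ((FreeGroup.of i)⁻¹ * s x) α.1.1 (ρ (s x) • o)
    rw [mul_inv_cancel_left, e1, hof, smul_smul, ← map_inv, ← map_mul, e2, add_zero] at e3
    have e4 : ρ (s x) • o = ((x : K) : K ⧸ V) := by
      rw [hs]
      show ((x * 1 : K) : K ⧸ V) = _
      rw [mul_one]
    rw [e4] at e3
    exact e3.symm
  have hU : Function.Injective U := by
    intro α β hαβ
    have h1 : U (α - β) = 0 := by
      have h2 := LinearMap.map_sub U α β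
      rw [h2, hαβ, sub_self]
    exact sub_eq_zero.1 (hU0 _ h1)
  have d1 := LinearMap.finrank_range_add_finrank_ker Rel
  have d2 := LinearMap.finrank_range_add_finrank_ker T
  have d3 : Module.finrank ℚ (LinearMap.ker T) ≤ V.index - 1 := by
    refine (LinearMap.finrank_le_finrank_of_injective hU).trans ?_
    rw [Module.finrank_fintype_fun_eq_card, ← hm]
    simp
  have d4 : Module.finrank ℚ (LinearMap.range Rel) ≤ r * V.index := by
    refine (Submodule.finrank_le _).trans ?_
    rw [Module.finrank_pi_fintype]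
    simp [Module.finrank_fintype_fun_eq_card, hm]
  have d5 : Module.finrank ℚ (Fin n → K ⧸ V → ℚ) = n * V.index := by
    rw [Module.finrank_pi_fintype]
    simp [Module.finrank_fintype_fun_eq_card, hm]
  have d6 : Module.finrank ℚ (LinearMap.range T) ≤ Module.finrank ℚ (Additive ↥V →+ ℚ) :=
    Submodule.finrank_le _
  have d7 : 0 < V.index := Nat.pos_of_ne_zero Subgroup.FiniteIndex.index_ne_zero
  rw [d5] at d1
  omega

end Pool.Agent.TW
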