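import Pool.Agent.TW.CFDefs

/-!
# Project TW, examples: the first Betti number of a subgroup of finite index, upper bound and transfer

PROOFS.  `betti_upper`: `K` is generated by `n` elements, so `L` is generated by at most `L.index * n` elements (Schreier:
`Subgroup.rank_le_index_mul_rank`, `Mathlib/GroupTheory/Schreier.lean`; `Group.rank K ≤ n` from the surjection), and the evaluation at the generators of `L` is an injective linear map
from `Additive ↥L →+ ℚ` to `S → ℚ`.  `exists_transfer`: `MonoidHom.transfer` (`Mathlib/GroupTheory/Transfer.lean`) of `V.subgroupOf L → Multiplicative ℚ`: on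
`v ∈ V` the transfer is the product over the cosets of the values of `lam` at conjugates of `v` by elements of `L`, so it is `q • lam v` with `q` the index; divide by `q`.
(Or by hand if `L / V` is cyclic: but the statement is for all `L`.)
-/

set_option autoImplicit false
set_option linter.unusedSectionVars false

namespace Pool.Agent.TW

private theorem eval_inj {H : Type} [Group H] (S : Finset H) (hS : Subgroup.closure (S : Set H) = ⊤) :
    ∃ f : (Additive H →+ ℚ) →ₗ[ℚ] (S → ℚ), Function.Injective f := by
  refine ⟨{ toFun := fun lam s => lam (Additive.ofMul s.1)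
            map_add' := fun _ _ => rfl
            map_smul' := fun _ _ => rfl }, fun lam mu h => ?_⟩
  have key : ∀ x : H, lam (Additive.ofMul x) = mu (Additive.ofMul x) := by
    intro x
    have hx : x ∈ Subgroup.closure (S : Set H) := by rw [hS]; exact Subgroup.mem_top x
    induction hx using Subgroup.closure_induction with
    | mem y hy => exact congrFun h ⟨y, hy⟩
    | one => rw [ofMul_one, map_zero, map_zero]
    | mul y z _ _ hy hz => rw [ofMul_mul, map_add, map_add, hy, hz]
    | inv y _ hy => rw [ofMul_inv, map_neg, map_neg, hy]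
  exact AddMonoidHom.ext fun x => key x.toMul

private theorem fin_of_fg {H : Type} [Group H] (hH : Group.FG H) : Module.Finite ℚ (Additive H →+ ℚ) := by
  obtain ⟨S, -, hS⟩ := Group.rank_spec H
  obtain ⟨f, hf⟩ := eval_inj S hS
  exact Module.Finite.of_injective f hf

private theorem finrank_le_rank {H : Type} [Group H] [hH : Group.FG H] :
    Module.finrank ℚ (Additive H →+ ℚ) ≤ Group.rank H := by
  obtain ⟨S, hc, hS⟩ := Group.rank_spec H
  obtain ⟨f, hf⟩ := eval_inj S hS
  have h := LinearMap.finrank_le_finrank_of_injective hf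
  rwa [Module.finrank_fintype_fun_eq_card, Fintype.card_coe, hc] at h

theorem betti_fin {K : Type} [Group K] (hK : Group.FG K) (V : Subgroup K) [V.FiniteIndex] :
    Module.Finite ℚ (Additive ↥V →+ ℚ) :=
  fin_of_fg inferInstance

theorem betti_upper {K : Type} [Group K] {n : ℕ} (ρ : FreeGroup (Fin n) →* K) (hρ : Function.Surjective ρ) (L : Subgroup K)
    [L.FiniteIndex] : Module.finrank ℚ (Additive ↥L →+ ℚ) ≤ n * L.index := by
  classical
  have hc : Subgroup.closure ((Finset.univ.image fun i : Fin n => ρ (FreeGroup.of i) : Finset K) : Set K) = ⊤ := by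
    have h1 : ((Finset.univ.image fun i : Fin n => ρ (FreeGroup.of i) : Finset K) : Set K) =
        ρ '' Set.range (FreeGroup.of : Fin n → FreeGroup (Fin n)) := by
      ext x
      simp
    rw [h1, ← MonoidHom.map_closure, FreeGroup.closure_range_of, Subgroup.map_top_of_surjective ρ hρ]
  have hfg : Group.FG K := Group.fg_iff.2 ⟨_, hc, Finset.finite_toSet _⟩
  have h2 : Group.rank K ≤ n := by
    refine (Group.rank_le hc).trans ?_
    exact Finset.card_image_le.trans (by simp)
  refine finrank_le_rank.trans ((Subgroup.rank_le_index_mul_rank (H := L)).trans ?_)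
  rw [mul_comm]
  exact Nat.mul_le_mul_right _ h2

private theorem transfer_inv {G : Type} [Group G] (H : Subgroup G) [H.FiniteIndex] [hH : H.Normal] {A : Type} [CommGroup A]
    (φ : H →* A) (hφ : ∀ (g : G) (v : H), φ ⟨g * v * g⁻¹, hH.conj_mem _ v.2 g⟩ = φ v) (v : H) :
    MonoidHom.transfer φ (v : G) = φ v ^ H.index := by
  let _ := H.fintypeQuotientOfFiniteIndex
  rw [MonoidHom.transfer_def φ default]
  unfold Subgroup.leftTransversals.diff
  have : ∀ q : G ⧸ H, (v : G)⁻¹ • q = q := by
    intro q
    induction q using QuotientGroup.induction_on with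
    | H x =>
      rw [MulAction.Quotient.smul_mk, QuotientGroup.eq, smul_eq_mul, mul_inv_rev, inv_inv]
      have := hH.conj_mem _ v.2 x⁻¹
      rwa [inv_inv] at this
  have h2 : ∀ q : G ⧸ H, φ ⟨((default : H.LeftTransversal).2.leftQuotientEquiv q : G)⁻¹ *
      (((v : G) • (default : H.LeftTransversal)).2.leftQuotientEquiv q : G), QuotientGroup.leftRel_apply.mp <|
          Quotient.exact' (((default : H.LeftTransversal).2.leftQuotientEquiv.symm_apply_apply q).trans
            (((v : G) • (default : H.LeftTransversal)).2.leftQuotientEquiv.symm_apply_apply q).symm)⟩ = φ v := by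
    intro q
    rw [← hφ ((default : H.LeftTransversal).2.leftQuotientEquiv q : G)⁻¹ v]
    congr 1
    apply Subtype.ext
    change ((default : H.LeftTransversal).2.leftQuotientEquiv q : G)⁻¹ *
      (((v : G) • (default : H.LeftTransversal)).2.leftQuotientEquiv q : G) =
      ((default : H.LeftTransversal).2.leftQuotientEquiv q : G)⁻¹ * (v : G) *
      (((default : H.LeftTransversal).2.leftQuotientEquiv q : G)⁻¹)⁻¹
    rw [Subgroup.smul_apply_eq_smul_apply_inv_smul, this, smul_eq_mul, inv_inv, mul_assoc]
  rw [Finset.prod_congr rfl fun q _ => h2 q, Finset.prod_const, Finset.card_univ, ← Nat.card_eq_fintype_card]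
  rfl

/-- an invariant homomorphism extends -/
theorem exists_transfer {K : Type} [Group K] (V L : Subgroup K) [V.FiniteIndex] (hVL : V ≤ L) (hN : V.Normal)
    (lam : Additive ↥V →+ ℚ)
    (hlam : ∀ g : K, g ∈ L → ∀ v : ↥V, lam (Additive.ofMul ⟨g * v * g⁻¹, hN.conj_mem _ v.2 g⟩) = lam (Additive.ofMul v)) :
    ∃ mu : Additive ↥L →+ ℚ, ∀ v : ↥V, mu (Additive.ofMul ⟨v, hVL v.2⟩) = lam (Additive.ofMul v) := by
  classical
  let H : Subgroup L := V.subgroupOf L
  have : H.FiniteIndex := inferInstance
  have hHn : H.Normal := inferInstance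
  let φ : H →* Multiplicative ℚ :=
    { toFun := fun h => Multiplicative.ofAdd (lam (Additive.ofMul ⟨h.1.1, h.2⟩))
      map_one' := by
        have : (⟨((1 : H) : L).1, (1 : H).2⟩ : V) = 1 := rfl
        rw [this, ofMul_one, map_zero, ofAdd_zero]
      map_mul' := fun a b => by
        have : (⟨((a * b : H) : L).1, (a * b : H).2⟩ : V) = ⟨a.1.1, a.2⟩ * ⟨b.1.1, b.2⟩ := rfl
        rw [this, ofMul_mul, map_add, ofAdd_add] }
  have hφ : ∀ (g : L) (v : H), φ ⟨g * v * g⁻¹, hHn.conj_mem _ v.2 g⟩ = φ v := fun g v =>
    congrArg Multiplicative.ofAdd (hlam g.1 g.2 ⟨v.1.1, v.2⟩)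
  have hi : (H.index : ℚ) ≠ 0 := Nat.cast_ne_zero.2 Subgroup.FiniteIndex.index_ne_zero
  refine ⟨AddMonoidHom.mk' (fun x => (H.index : ℚ)⁻¹ * Multiplicative.toAdd (MonoidHom.transfer φ x.toMul))
    fun a b => ?_, fun v => ?_⟩
  · rw [toMul_add, map_mul, toAdd_mul, mul_add]
  · have h1 := transfer_inv H φ hφ ⟨⟨v, hVL v.2⟩, v.2⟩
    change (H.index : ℚ)⁻¹ * Multiplicative.toAdd (MonoidHom.transfer φ (⟨v, hVL v.2⟩ : L)) = lam (Additive.ofMul v)
    rw [show (MonoidHom.transfer φ (⟨v, hVL v.2⟩ : L)) = _ from h1, toAdd_pow, nsmul_eq_mul]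
    rw [← mul_assoc, inv_mul_cancel₀ hi, one_mul]
    rfl

end Pool.Agent.TW
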