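import Pool.Agent.TW.Defs
import Pool.Agent.S12.Ex

/-!
# Project TW, examples: residually unitriangular groups, split extensions with finitely generated kernel

PROOFS.  `Tower.of_rut`: one step `J = ⊤`, `N = ⊥`; `φ` composed with `Subgroup.topEquiv`; the subgroup `V` for `t` is the kernel of the
reduction of `φ` modulo `2 ^ t`: the preimage of a finite index subgroup, for instance of `Wt n t` under `toUT φ` (`S11/CuC`: the quotient is finite), or the
kernel of the homomorphism to the finite monoid `Matrix (Fin n) (Fin n) (ZMod (2 ^ t))`.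
`exists_char`: `K` finitely generated, `V` of finite index in `K`: `P = Equiv.Perm (K ⧸ V)` is finite, the set `K →* P` is finite (a homomorphism is determined
by the values at the generators), `C` = the intersection of the kernels of all homomorphisms `K →* P`: of finite index, contained in `V` (the action on the
cosets: `MulAction.toPermHom`, its kernel is the normal core), and preserved by every automorphism `α` of `K` (`f ∘ α` is again a homomorphism).
`Tower.map_ker` (for `T ≤ ker r`): induction on the tower in `↥(ker r)`; the homomorphism `φ` of a step on `T` is transported to `T.map (ker r).subtype` by the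
isomorphism; `V₀ ≤ ker r` of finite index, `C ≤ V₀` from `exists_char`; `V = {x | x * (s (r x))⁻¹ ∈ C}` (image of `C` in `H`) is a subgroup since `C` is normal in
`H` (conjugation by elements of `H` is an automorphism of `ker r`), of finite index in `H` (index of `C` in `ker r`), and `V ∩ ker r = C`.
`Tower.comap_r` (for `T ≤ Q`): induction; `⊥.comap r = ker r = (⊤ : Subgroup ↥(ker r)).map subtype`; step: `φ ∘ r`, `V.comap r`.
-/

set_option autoImplicit false
set_option linter.unusedSectionVars false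

namespace Pool.Agent.TW

/-- homomorphisms to finite monoids are trivial on subgroups of finite index -/
private theorem exs_fin {H M : Type} [Group H] [Monoid M] [Finite M] (ψ : H →* M) :
    ∃ V : Subgroup H, V.FiniteIndex ∧ ∀ y ∈ V, ψ y = 1 := by
  have h1 : Finite ψ.toHomUnits.range := inferInstance
  refine ⟨ψ.toHomUnits.ker, Subgroup.finiteIndex_ker _, fun y hy => ?_⟩
  have h2 : ψ.toHomUnits y = 1 := hy
  rw [← MonoidHom.coe_toHomUnits, h2, Units.val_one]

/-- reduction modulo `2 ^ t` -/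
private theorem exs_red {H : Type} [Group H] {n : ℕ} (φ : H →* Matrix (Fin n) (Fin n) ℤ) (t : ℕ) :
    ∃ V : Subgroup H, V.FiniteIndex ∧ ∀ y ∈ V, ∀ a b, a ≠ b → (2 : ℤ) ^ t ∣ φ y a b := by
  have hne : NeZero (2 ^ t) := ⟨by positivity⟩
  have hfin : Finite (Matrix (Fin n) (Fin n) (ZMod (2 ^ t))) := by
    unfold Matrix
    infer_instance
  obtain ⟨V, hV, h1⟩ := exs_fin (((Int.castRingHom (ZMod (2 ^ t))).mapMatrix :
    Matrix (Fin n) (Fin n) ℤ →+* Matrix (Fin n) (Fin n) (ZMod (2 ^ t))).toMonoidHom.comp φ)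
  refine ⟨V, hV, fun y hy a b hab => ?_⟩
  have h2 : ((Int.castRingHom (ZMod (2 ^ t))).mapMatrix (φ y)) a b =
      (1 : Matrix (Fin n) (Fin n) (ZMod (2 ^ t))) a b := congrFun (congrFun (h1 y hy) a) b
  rw [Matrix.one_apply_ne hab] at h2
  have h3 : ((φ y a b : ℤ) : ZMod (2 ^ t)) = 0 := h2
  have h4 := (ZMod.intCast_zmod_eq_zero_iff_dvd _ _).1 h3
  push_cast at h4
  exact h4

/-- **Residually unitriangular groups** (for instance subgroups of right-angled Artin groups) have a tower with one step -/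
theorem Tower.of_rut {H : Type} [Group H] (h : S12.RUT H) : Tower (⊤ : Subgroup H) := by
  refine Tower.step ⊤ ⊥ Tower.bot ⟨bot_le, ?_, ?_⟩
  · intro x _ y hy
    rw [Subgroup.mem_bot] at hy ⊢
    rw [hy, mul_one, mul_inv_cancel]
  · intro x hx
    obtain ⟨n, φ, h1, h2⟩ := h (x : H) fun h0 => hx (Subgroup.mem_bot.2 h0)
    refine ⟨n, φ.comp (⊤ : Subgroup H).subtype, fun y => h1 (y : H), ?_, h2, ?_⟩
    · intro y hy
      rw [Subgroup.mem_bot] at hy
      show φ (y : H) = 1
      rw [hy, map_one]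
    · intro t
      obtain ⟨V, hV, h3⟩ := exs_red φ t
      exact ⟨V, hV, fun y hy => h3 (y : H) hy⟩

/-- characteristic subgroups of finite index -/
theorem exists_char {K : Type} [Group K] (hK : Group.FG K) (V : Subgroup K) (hV : V.FiniteIndex) :
    ∃ C : Subgroup K, C.FiniteIndex ∧ C ≤ V ∧ ∀ α : K ≃* K, ∀ x ∈ C, α x ∈ C := by
  obtain ⟨S, hS, hSf⟩ := Group.fg_iff.1 hK
  have hSfin : Finite S := hSf
  have hP : Finite (Equiv.Perm (K ⧸ V)) := inferInstance
  have hfin : Finite (K →* Equiv.Perm (K ⧸ V)) := by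
    refine Finite.of_injective (fun (f : K →* Equiv.Perm (K ⧸ V)) (x : S) => f x) fun f g hfg => ?_
    refine MonoidHom.eq_of_eqOn_dense hS fun x hx => ?_
    exact congrFun hfg ⟨x, hx⟩
  refine ⟨⨅ f : K →* Equiv.Perm (K ⧸ V), f.ker, ?_, ?_, ?_⟩
  · exact Subgroup.finiteIndex_iInf fun f => Subgroup.finiteIndex_ker f
  · refine (iInf_le _ (MulAction.toPermHom K (K ⧸ V))).trans ?_
    rw [← Subgroup.normalCore_eq_ker]
    exact Subgroup.normalCore_le V
  · intro α x hx
    rw [Subgroup.mem_iInf] at hx ⊢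
    intro f
    exact hx (f.comp α.toMonoidHom)

section

variable {H Q : Type} [Group H] [Group Q] (r : H →* Q) (s : Q →* H) (hrs : ∀ q, r (s q) = q)
  (hfg : Group.FG ↥r.ker)

/-- conjugation by elements of `H` on the kernel -/
private def exs_conj (h : H) : ↥r.ker ≃* ↥r.ker where
  toFun k := ⟨h * k * h⁻¹, r.normal_ker.conj_mem _ k.2 h⟩
  invFun k := ⟨h⁻¹ * k * h, by
    have h1 := r.normal_ker.conj_mem _ k.2 h⁻¹
    rwa [inv_inv] at h1⟩
  left_inv k := Subtype.ext (by
    show h⁻¹ * (h * (k : H) * h⁻¹) * h = k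
    group)
  right_inv k := Subtype.ext (by
    show h * (h⁻¹ * (k : H) * h) * h⁻¹ = k
    group)
  map_mul' k l := Subtype.ext (by
    show h * ((k : H) * l) * h⁻¹ = (h * k * h⁻¹) * (h * l * h⁻¹)
    group)

include hrs hfg in
/-- subgroups of finite index of the kernel are traces of subgroups of finite index -/
private theorem exs_lift {V₀ : Subgroup ↥r.ker} (hV₀ : V₀.FiniteIndex) :
    ∃ V : Subgroup H, V.FiniteIndex ∧ ∀ k : ↥r.ker, (k : H) ∈ V → k ∈ V₀ := by
  obtain ⟨C, hCf, hCV, hC⟩ := exists_char hfg V₀ hV₀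
  have hconj : ∀ (h : H) (c : ↥r.ker), c ∈ C → ∃ d : ↥r.ker, d ∈ C ∧ (d : H) = h * c * h⁻¹ :=
    fun h c hc => ⟨exs_conj r h c, hC (exs_conj r h) c hc, rfl⟩
  let V : Subgroup H :=
    { carrier := {x | ∃ c : ↥r.ker, c ∈ C ∧ (c : H) = x * (s (r x))⁻¹}
      mul_mem' := by
        rintro x y ⟨c, hc, hcx⟩ ⟨d, hd, hdy⟩
        obtain ⟨d', hd', hd'y⟩ := hconj x d hd
        refine ⟨d' * c, C.mul_mem hd' hc, ?_⟩
        rw [Subgroup.coe_mul, hd'y, hdy, hcx, map_mul, map_mul]
        group
      one_mem' := ⟨1, C.one_mem, by rw [map_one, map_one, inv_one, mul_one]; rfl⟩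
      inv_mem' := by
        rintro x ⟨c, hc, hcx⟩
        obtain ⟨d, hd, hdx⟩ := hconj x⁻¹ c⁻¹ (C.inv_mem hc)
        refine ⟨d, hd, ?_⟩
        rw [hdx, Subgroup.coe_inv, hcx, map_inv, map_inv]
        group }
  have hsV : ∀ q, s q ∈ V := fun q => ⟨1, C.one_mem, by
    rw [hrs, mul_inv_cancel]
    rfl⟩
  have hkV : ∀ k : ↥r.ker, (s (r (k : H)))⁻¹ = 1 := fun k => by
    have h1 : r (k : H) = 1 := k.2
    rw [h1, map_one, inv_one]
  have hCV' : ∀ c ∈ C, (c : H) ∈ V := fun c hc => ⟨c, hc, by rw [hkV, mul_one]⟩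
  have hfin : Finite (H ⧸ V) := by
    refine Finite.of_surjective (fun q : ↥r.ker ⧸ C => (((Quotient.out q : ↥r.ker) : H) : H ⧸ V)) fun z => ?_
    obtain ⟨h, rfl⟩ := QuotientGroup.mk_surjective z
    have hk : h * (s (r h))⁻¹ ∈ r.ker := by
      rw [MonoidHom.mem_ker, map_mul, map_inv, hrs, mul_inv_cancel]
    refine ⟨((⟨h * (s (r h))⁻¹, hk⟩ : ↥r.ker) : ↥r.ker ⧸ C), ?_⟩
    obtain ⟨c, hc⟩ := QuotientGroup.mk_out_eq_mul C (⟨h * (s (r h))⁻¹, hk⟩ : ↥r.ker)
    show ((((QuotientGroup.mk (⟨h * (s (r h))⁻¹, hk⟩ : ↥r.ker) : ↥r.ker ⧸ C).out : ↥r.ker) : H) : H ⧸ V) = h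
    rw [hc, QuotientGroup.eq]
    have h2 : (((⟨h * (s (r h))⁻¹, hk⟩ : ↥r.ker) * (c : ↥r.ker) : ↥r.ker) : H)⁻¹ * h =
        ((c : ↥r.ker) : H)⁻¹ * s (r h) := by
      rw [Subgroup.coe_mul]
      show (h * (s (r h))⁻¹ * ((c : ↥r.ker) : H))⁻¹ * h = _
      group
    rw [h2]
    exact V.mul_mem (V.inv_mem (hCV' _ c.2)) (hsV _)
  refine ⟨V, Subgroup.finiteIndex_of_finite_quotient, fun k hk => ?_⟩
  obtain ⟨c, hc, hck⟩ := hk
  rw [hkV, mul_one] at hck
  have h3 : c = k := Subtype.ext hck
  rw [← h3]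
  exact hCV hc

include hrs hfg in
theorem Tower.map_ker {T : Subgroup ↥r.ker} (hT : Tower T) : Tower (T.map r.ker.subtype) := by
  induction hT with
  | bot =>
    rw [Subgroup.map_bot]
    exact Tower.bot
  | step J N hN h ih =>
    have hinj : Function.Injective r.ker.subtype := Subtype.val_injective
    have he : ∀ y : ↥(J.map r.ker.subtype),
        (((J.equivMapOfInjective r.ker.subtype hinj).symm y : ↥r.ker) : H) = (y : H) := by
      intro y
      have h1 := Subgroup.coe_equivMapOfInjective_apply J r.ker.subtype hinj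
        ((J.equivMapOfInjective r.ker.subtype hinj).symm y)
      rw [MulEquiv.apply_symm_apply] at h1
      exact h1.symm
    have hmem : ∀ y : ↥(J.map r.ker.subtype), (y : H) ∈ N.map r.ker.subtype ↔
        ((J.equivMapOfInjective r.ker.subtype hinj).symm y : ↥r.ker) ∈ N := by
      intro y
      constructor
      · rintro ⟨k, hk, hky⟩
        have h2 : ((J.equivMapOfInjective r.ker.subtype hinj).symm y : ↥r.ker) = k :=
          Subtype.ext ((he y).trans hky.symm)
        rw [h2]
        exact hk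
      · intro hk
        exact ⟨_, hk, he y⟩
    refine Tower.step _ _ ih ⟨Subgroup.map_mono h.le, ?_, ?_⟩
    · rintro _ ⟨x, hx, rfl⟩ _ ⟨y, hy, rfl⟩
      exact ⟨x * y * x⁻¹, h.conj x hx y hy, rfl⟩
    · intro x hx
      obtain ⟨n, φ, h1, h2, h3, h4⟩ := h.sep ((J.equivMapOfInjective r.ker.subtype hinj).symm x)
        fun h0 => hx ((hmem x).2 h0)
      refine ⟨n, φ.comp (J.equivMapOfInjective r.ker.subtype hinj).symm.toMonoidHom, fun y => h1 _, ?_, h3, ?_⟩
      · intro y hy
        exact h2 _ ((hmem y).1 hy)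
      · intro t
        obtain ⟨V₀, hV₀, h5⟩ := h4 t
        obtain ⟨V, hV, h6⟩ := exs_lift r s hrs hfg hV₀
        refine ⟨V, hV, fun y hy => h5 _ (h6 _ ?_)⟩
        show (((J.equivMapOfInjective r.ker.subtype hinj).symm y : ↥r.ker) : H) ∈ V
        rw [he]
        exact hy

include hrs hfg in
theorem Tower.comap_r (h1 : Tower (⊤ : Subgroup ↥r.ker)) {T : Subgroup Q} (hT : Tower T) : Tower (T.comap r) := by
  induction hT with
  | bot =>
    have h2 := Tower.map_ker r s hrs hfg h1
    rw [← MonoidHom.range_eq_map, Subgroup.range_subtype] at h2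
    exact h2
  | step J N hN h ih =>
    refine Tower.step _ _ ih ⟨Subgroup.comap_mono h.le, ?_, ?_⟩
    · intro x hx y hy
      rw [Subgroup.mem_comap] at hx hy ⊢
      rw [map_mul, map_mul, map_inv]
      exact h.conj _ hx _ hy
    · intro x hx
      obtain ⟨n, φ, h3, h4, h5, h6⟩ := h.sep ⟨r (x : H), x.2⟩ hx
      refine ⟨n, φ.comp (r.subgroupComap J), fun y => h3 _, fun y hy => h4 _ hy, h5, ?_⟩
      intro t
      obtain ⟨V, hV, h7⟩ := h6 t
      have hfin : Finite (H ⧸ V.comap r) := by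
        have hr : ∀ a b : H, QuotientGroup.leftRel (V.comap r) a b → QuotientGroup.leftRel V (r a) (r b) := by
          intro a b hab
          rw [QuotientGroup.leftRel_apply] at hab ⊢
          rw [Subgroup.mem_comap, map_mul, map_inv] at hab
          exact hab
        let f : H ⧸ V.comap r → Q ⧸ V := Quotient.map' r hr
        refine Finite.of_injective f fun a b hab => ?_
        obtain ⟨a, rfl⟩ := QuotientGroup.mk_surjective a
        obtain ⟨b, rfl⟩ := QuotientGroup.mk_surjective b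
        have h8 : ((r a : Q) : Q ⧸ V) = r b := hab
        rw [QuotientGroup.eq] at h8 ⊢
        rw [Subgroup.mem_comap, map_mul, map_inv]
        exact h8
      exact ⟨V.comap r, Subgroup.finiteIndex_of_finite_quotient, fun y hy => h7 _ hy⟩

include hrs hfg in
/-- **Split extensions with finitely generated kernel** -/
theorem Tower.split (h1 : Tower (⊤ : Subgroup ↥r.ker)) (h2 : Tower (⊤ : Subgroup Q)) : Tower (⊤ : Subgroup H) := by
  have h3 := Tower.comap_r r s hrs hfg h1 h2
  rwa [Subgroup.comap_top] at h3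

end

end Pool.Agent.TW
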