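import Pool.Agent.TW.ExE
import Pool.Agent.TW.ExS
import Pool.Agent.TW.TC
import Pool.Agent.TW.CFDefs

/-!
# Project TW, examples: extensions with a finitely generated kernel whose profinite completion has trivial center, products

`CF K`: every subgroup `V₀` of finite index of `K` contains `{n | [n, K] ⊆ V₁}` for a subgroup `V₁` of finite index of `K` (by compactness this says that
the center of the profinite completion of `K` is trivial).  If the kernel `K` of `r : H →* Q` is finitely generated and `CF K` then the profinite topology of `H`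
induces the profinite topology of `K`: `V₁` contains a characteristic subgroup `C` of finite index, and `V` = the kernel of the action of `H` on `K ⧸ C` by
conjugation.
-/

set_option autoImplicit false
set_option linter.unusedSectionVars false

namespace Pool.Agent.TW

/-- preimages of subgroups of finite index -/
theorem exc_comap {G H : Type} [Group G] [Group H] (f : G →* H) (V : Subgroup H) (hV : V.FiniteIndex) : (V.comap f).FiniteIndex := by
  have hfi : V.FiniteIndex := hV
  refine ⟨?_⟩
  rw [Subgroup.index_comap]
  exact (Subgroup.instFiniteIndex_subgroupOf V f.range).index_ne_zero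

section

variable {H Q : Type} [Group H] [Group Q] (r : H →* Q)

/-- the action of `H` on the finite quotient of the kernel -/
noncomputable def exc_act (C : Subgroup ↥r.ker) (hC : ∀ α : ↥r.ker ≃* ↥r.ker, ∀ x ∈ C, α x ∈ C) :
    H →* Equiv.Perm (↥r.ker ⧸ C) where
  toFun h :=
    { toFun := Quotient.map' (MulAut.conjNormal h) (fun a b hab => by
        rw [QuotientGroup.leftRel_apply] at hab ⊢
        rw [← map_inv, ← map_mul]
        exact hC (MulAut.conjNormal h) _ hab)
      invFun := Quotient.map' (MulAut.conjNormal h⁻¹) (fun a b hab => by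
        rw [QuotientGroup.leftRel_apply] at hab ⊢
        rw [← map_inv, ← map_mul]
        exact hC (MulAut.conjNormal h⁻¹) _ hab)
      left_inv := fun z => by
        induction z using QuotientGroup.induction_on with
        | H k =>
          refine congrArg QuotientGroup.mk ?_
          rw [← MulAut.mul_apply, ← map_mul, inv_mul_cancel, map_one, MulAut.one_apply]
      right_inv := fun z => by
        induction z using QuotientGroup.induction_on with
        | H k =>
          refine congrArg QuotientGroup.mk ?_
          rw [← MulAut.mul_apply, ← map_mul, mul_inv_cancel, map_one, MulAut.one_apply] }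
  map_one' := by
    ext z
    induction z using QuotientGroup.induction_on with
    | H k =>
      refine congrArg QuotientGroup.mk ?_
      change (MulAut.conjNormal (1 : H)) k = k
      rw [map_one, MulAut.one_apply]
  map_mul' g h := by
    ext z
    induction z using QuotientGroup.induction_on with
    | H k =>
      refine congrArg QuotientGroup.mk ?_
      rw [map_mul, MulAut.mul_apply]

theorem exc_act_mk (C : Subgroup ↥r.ker) (hC : ∀ α : ↥r.ker ≃* ↥r.ker, ∀ x ∈ C, α x ∈ C) (h : H) (k : ↥r.ker) :
    exc_act r C hC h (k : ↥r.ker ⧸ C) = ((MulAut.conjNormal h k : ↥r.ker) : ↥r.ker ⧸ C) := rfl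

/-- **The topology of the kernel is induced** if the kernel is finitely generated and its profinite completion has trivial center -/
theorem induced_of_center (hfg : Group.FG ↥r.ker) (hcf : CF ↥r.ker) (V₀ : Subgroup ↥r.ker) (hV₀ : V₀.FiniteIndex) :
    ∃ V : Subgroup H, V.FiniteIndex ∧ ∀ x : ↥r.ker, (x : H) ∈ V → x ∈ V₀ := by
  obtain ⟨C₀, hC₀, h1⟩ := hcf V₀ hV₀
  obtain ⟨C, hCf, hCC, hC⟩ := exists_char hfg C₀ hC₀
  have hfin : Finite (Equiv.Perm (↥r.ker ⧸ C)) := inferInstance
  refine ⟨(exc_act r C hC).ker, Subgroup.finiteIndex_ker _, fun n hn => h1 n fun k => hCC ?_⟩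
  have h2 : exc_act r C hC n = 1 := hn
  have h3 : exc_act r C hC n ((k⁻¹ : ↥r.ker) : ↥r.ker ⧸ C) = ((k⁻¹ : ↥r.ker) : ↥r.ker ⧸ C) := by
    rw [h2]
    rfl
  rw [exc_act_mk, QuotientGroup.eq] at h3
  have h4 : (MulAut.conjNormal (n : H) k⁻¹ : ↥r.ker) = n * k⁻¹ * n⁻¹ := Subtype.ext rfl
  rw [h4] at h3
  have h5 : (n * k⁻¹ * n⁻¹)⁻¹ * k⁻¹ = n * k * n⁻¹ * k⁻¹ := by group
  rwa [h5] at h3

/-- **Extensions (split or not) with a finitely generated kernel whose profinite completion has trivial center** -/
theorem Tower.ext_center (hfg : Group.FG ↥r.ker) (hcf : CF ↥r.ker) (h1 : Tower (⊤ : Subgroup ↥r.ker)) {T : Subgroup Q}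
    (hT : Tower T) : Tower (T.comap r) :=
  Tower.ext r (induced_of_center r hfg hcf) h1 hT

end

/-- **Direct products** -/
theorem Tower.prod {G H : Type} [Group G] [Group H] (hG : Tower (⊤ : Subgroup G)) (hH : Tower (⊤ : Subgroup H)) :
    Tower (⊤ : Subgroup (G × H)) := by
  have hinj : Function.Injective ((MonoidHom.snd G H).comp (MonoidHom.fst G H).ker.subtype) := by
    rintro ⟨⟨a, b⟩, ha⟩ ⟨⟨c, d⟩, hc⟩ hab
    have ha' : a = 1 := ha
    have hc' : c = 1 := hc
    have hbd : b = d := hab
    subst ha'
    subst hc'
    subst hbd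
    rfl
  have h1 : Tower (⊤ : Subgroup ↥(MonoidHom.fst G H).ker) := by
    have h2 := hH.comap _ hinj
    rwa [Subgroup.comap_top] at h2
  have h3 := Tower.ext (MonoidHom.fst G H) (fun V₀ hV₀ => ?_) h1 hG
  · rwa [Subgroup.comap_top] at h3
  · refine ⟨(V₀.comap ((MonoidHom.inr G H).codRestrict (MonoidHom.fst G H).ker fun x => rfl)).comap (MonoidHom.snd G H),
      exc_comap _ _ (exc_comap _ V₀ hV₀), ?_⟩
    rintro ⟨⟨a, b⟩, ha⟩ hx
    have ha' : a = 1 := ha
    subst ha'
    exact hx

end Pool.Agent.TW
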