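import Pool.Agent.TW.CFDefs
import Pool.Agent.TW.ExC

/-!
# Project TW, examples: extensions of groups whose profinite completion has trivial centre

PROOF of `CF.ext`.  Let `V₀` have finite index in `G`, `N = r.ker`.  `C₀ = V₀ ∩ N` (in `N`), `C₁ ≤ N` of finite index from `CF N` for `C₀`.  By `CF N` and `exists_char` every subgroup `C` of finite index of `N` contains `V ∩ N` for some `V` of finite index in
`G` (`induced_of_center`).  So there is a normal `W` of finite index in `G` (normal core) with `W ≤ V₀` and `W ∩ N ≤ C₁`.  `Q₀ = W.map r` has finite index in `Q` (`r` surjective); `Q₁` from `CF Q` for `Q₀`.  `V₁ = W ⊓ Q₁.comap r`.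
If `g` is central modulo `V₁`, then `r g` is central modulo `Q₁`, so `r g ∈ Q₀`, `g = w * n` with `w ∈ W`, `n ∈ N`; for `m ∈ N` one has `n m n⁻¹ m⁻¹ = w⁻¹ (g m g⁻¹ m⁻¹) (m w m⁻¹) ∈ W`, so in
`W ∩ N ≤ C₁`; hence `n ∈ C₀ ≤ V₀` and `g ∈ V₀`.
-/

set_option autoImplicit false
set_option linter.unusedSectionVars false

namespace Pool.Agent.TW

private theorem cfe_comap {G H : Type} [Group G] [Group H] (f : G →* H) (V : Subgroup H) (hV : V.FiniteIndex) :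
    (V.comap f).FiniteIndex := by
  have hfi : V.FiniteIndex := hV
  refine ⟨?_⟩
  rw [Subgroup.index_comap]
  exact (Subgroup.instFiniteIndex_subgroupOf V f.range).index_ne_zero

theorem CF.prod {G H : Type} [Group G] [Group H] (hG : CF G) (hH : CF H) : CF (G × H) := by
  intro V₀ hV₀
  obtain ⟨G₁, hG₁, h3⟩ := hG _ (cfe_comap (MonoidHom.inl G H) V₀ hV₀)
  obtain ⟨H₁, hH₁, h4⟩ := hH _ (cfe_comap (MonoidHom.inr G H) V₀ hV₀)
  have h5 : (G₁.comap (MonoidHom.fst G H)).FiniteIndex := cfe_comap _ _ hG₁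
  have h6 : (H₁.comap (MonoidHom.snd G H)).FiniteIndex := cfe_comap _ _ hH₁
  refine ⟨G₁.comap (MonoidHom.fst G H) ⊓ H₁.comap (MonoidHom.snd G H), inferInstance, ?_⟩
  rintro ⟨g, h⟩ hgh
  have h7 : (g, (1 : H)) ∈ V₀ := h3 g fun m => (hgh (m, 1)).1
  have h8 : ((1 : G), h) ∈ V₀ := h4 h fun m => (hgh (1, m)).2
  have h9 := V₀.mul_mem h7 h8
  rwa [Prod.mk_mul_mk, mul_one, one_mul] at h9

theorem CF.of_equiv {G H : Type} [Group G] [Group H] (e : G ≃* H) (hG : CF G) : CF H := by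
  intro V₀ hV₀
  obtain ⟨V₁, hV₁, h1⟩ := hG _ (cfe_comap e.toMonoidHom V₀ hV₀)
  refine ⟨V₁.comap e.symm.toMonoidHom, cfe_comap _ _ hV₁, fun n hn => ?_⟩
  have h2 : e.symm n ∈ V₀.comap e.toMonoidHom := by
    refine h1 _ fun m => ?_
    have h3 := hn (e m)
    rw [Subgroup.mem_comap] at h3
    have h4 : e.symm.toMonoidHom (n * e m * n⁻¹ * (e m)⁻¹) = e.symm n * m * (e.symm n)⁻¹ * m⁻¹ := by
      change e.symm (n * e m * n⁻¹ * (e m)⁻¹) = _
      rw [map_mul, map_mul, map_mul, map_inv, map_inv, e.symm_apply_apply]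
    rwa [h4] at h3
  rw [Subgroup.mem_comap] at h2
  have h5 : e.toMonoidHom (e.symm n) = n := e.apply_symm_apply n
  rwa [h5] at h2

theorem CF.ext {G Q : Type} [Group G] [Group Q] (r : G →* Q) (hr : Function.Surjective r) (hfg : Group.FG ↥r.ker)
    (hN : CF ↥r.ker) (hQ : CF Q) : CF G := by
  intro V₀ hV₀
  obtain ⟨C₁, hC₁, h1⟩ := hN _ (cfe_comap r.ker.subtype V₀ hV₀)
  obtain ⟨V, hV, h2⟩ := induced_of_center r hfg hN C₁ hC₁
  have hfin : (V₀ ⊓ V).FiniteIndex := by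
    have h0 : V₀.FiniteIndex := hV₀
    have h0' : V.FiniteIndex := hV
    infer_instance
  have hWf : (V₀ ⊓ V).normalCore.FiniteIndex := inferInstance
  have hWn : (V₀ ⊓ V).normalCore.Normal := inferInstance
  have hW0 : ∀ x ∈ (V₀ ⊓ V).normalCore, x ∈ V₀ ∧ x ∈ V := fun x hx =>
    Subgroup.mem_inf.1 ((V₀ ⊓ V).normalCore_le hx)
  generalize (V₀ ⊓ V).normalCore = W at hWf hWn hW0
  have hQ0 : (W.map r).FiniteIndex := by
    refine ⟨fun h0 => hWf.index_ne_zero ?_⟩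
    exact Nat.eq_zero_of_zero_dvd (h0 ▸ Subgroup.index_map_dvd W hr)
  obtain ⟨Q₁, hQ₁, h3⟩ := hQ _ hQ0
  have hQ₁c : (Q₁.comap r).FiniteIndex := cfe_comap r Q₁ hQ₁
  refine ⟨W ⊓ Q₁.comap r, inferInstance, fun g hg => ?_⟩
  have h4 : r g ∈ W.map r := by
    refine h3 _ fun m => ?_
    obtain ⟨m', rfl⟩ := hr m
    have h5 := (Subgroup.mem_inf.1 (hg m')).2
    rw [Subgroup.mem_comap, map_mul, map_mul, map_mul, map_inv, map_inv] at h5
    exact h5
  obtain ⟨w, hw, hwg⟩ := h4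
  have hn : w⁻¹ * g ∈ r.ker := by
    rw [MonoidHom.mem_ker, map_mul, map_inv, hwg, inv_mul_cancel]
  have h6 : (⟨w⁻¹ * g, hn⟩ : ↥r.ker) ∈ V₀.comap r.ker.subtype := by
    refine h1 _ fun m => ?_
    refine h2 _ (hW0 _ ?_).2
    have h7 : ((⟨w⁻¹ * g, hn⟩ * m * (⟨w⁻¹ * g, hn⟩ : ↥r.ker)⁻¹ * m⁻¹ : ↥r.ker) : G) =
        w⁻¹ * (g * m * g⁻¹ * (m : G)⁻¹) * (m * w * (m : G)⁻¹) := by
      rw [Subgroup.coe_mul, Subgroup.coe_mul, Subgroup.coe_mul, Subgroup.coe_inv, Subgroup.coe_inv]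
      group
    rw [h7]
    exact W.mul_mem (W.mul_mem (W.inv_mem hw) (Subgroup.mem_inf.1 (hg m)).1) (hWn.conj_mem w hw m)
  have h8 : w⁻¹ * g ∈ V₀ := h6
  have h9 := V₀.mul_mem (hW0 w hw).1 h8
  rwa [mul_inv_cancel_left] at h9

end Pool.Agent.TW
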