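import Pool.Agent.TW.CFa
import Pool.Agent.TW.CFb

/-!
# Project TW, examples: groups with many more generators than relators have a profinite completion with trivial centre

PROOF of `cf_of_pres`.  Let `V₀` have finite index, `V = V₀.normalCore` (normal, finite index).  For every `x ∉ V`: there are `lam : Additive ↥V →+ ℚ` and `v : ↥V` with
`lam (x v x⁻¹) ≠ lam v`.  Otherwise let `L = (Subgroup.zpowers (x : K ⧸ V)).comap (mk' V)`, `V ≤ L`, `m = V.index = q * m'`, `m' = L.index`, `q ≥ 2` (relative index of `V` in `L`, `x ∉ V`);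
`lam` is invariant under conjugation by all elements of `L` (`V` and the powers of `x`), so by `exists_transfer` the restriction `Hom (L, ℚ) → Hom (V, ℚ)` is
surjective, `betti_lower`, `betti_upper`: `n q m' + 1 ≤ (r + 1) q m' + n m'`, which contradicts `2 * r + 2 ≤ n`, `q ≥ 2`, `m' ≥ 1` (nonlinear: write `n = 2 r + 2 + k`).
Since `V` is finitely generated, a positive multiple of `lam` has integer values: `lam : Additive ↥V →+ ℤ`, with `d = lam (x v x⁻¹) - lam v ≠ 0`; let `M = |d| + 1` (does not divide `d`).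
`lam (x' v x'⁻¹) = lam (x v x⁻¹)` for `x' ∈ x V`.  `V₁` = the intersection over representatives `x` of the finitely many nontrivial elements of `K ⧸ V` of the images in `K` of the kernels of
`lam_x` modulo `M_x` (a homomorphism from `V` to `ZMod M_x`, finite), intersected with `V`.  If `n` is central modulo `V₁` and `n ∉ V`, take `x` = the representative of `n V`, `m = v_x`:
`lam_x (n v n⁻¹ v⁻¹) = d_x` is divisible by `M_x`: a contradiction.
-/

set_option autoImplicit false
set_option linter.unusedSectionVars false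

namespace Pool.Agent.TW

/-- a homomorphism of `V` which is not invariant under `x` -/
private theorem CFm_exists {K : Type} [Group K] {n r : ℕ} (h : HasPres K n r) (hn : 2 * r + 2 ≤ n)
    (V : Subgroup K) [V.FiniteIndex] [hN : V.Normal] (x : K) (hx : x ∉ V) :
    ∃ (lam : Additive ↥V →+ ℚ) (v : ↥V),
      lam (Additive.ofMul (MulAut.conjNormal x v)) ≠ lam (Additive.ofMul v) := by
  by_contra hcon
  push Not at hcon
  let L : Subgroup K :=
    { carrier := {g | ∀ (lam : Additive ↥V →+ ℚ) (v : ↥V),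
        lam (Additive.ofMul (MulAut.conjNormal g v)) = lam (Additive.ofMul v)}
      one_mem' := fun lam v => by rw [map_one, MulAut.one_apply]
      mul_mem' := fun {a b} ha hb lam v => by rw [map_mul, MulAut.mul_apply, ha lam, hb lam]
      inv_mem' := fun {a} ha lam v => by
        rw [← ha lam (MulAut.conjNormal a⁻¹ v), ← MulAut.mul_apply, ← map_mul, mul_inv_cancel,
          map_one, MulAut.one_apply] }
  have hVL : V ≤ L := by
    intro g hg lam v
    have h1 : MulAut.conjNormal g v = (⟨g, hg⟩ : ↥V) * v * (⟨g, hg⟩ : ↥V)⁻¹ := Subtype.ext rfl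
    rw [h1, ofMul_mul, ofMul_mul, ofMul_inv, map_add, map_add, map_neg]
    ring
  have hxL : x ∈ L := fun lam v => hcon lam v
  have hLf : L.FiniteIndex := Subgroup.finiteIndex_of_le hVL
  have h' := h
  obtain ⟨ρ, R, hρ, hker⟩ := h
  have hfg : Group.FG K := Group.fg_of_surjective hρ
  have hfin : Module.Finite ℚ (Additive ↥L →+ ℚ) := betti_fin hfg L
  let res : (Additive ↥L →+ ℚ) →ₗ[ℚ] (Additive ↥V →+ ℚ) :=
    { toFun := fun mu => mu.comp (MonoidHom.toAdditive (Subgroup.inclusion hVL))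
      map_add' := fun _ _ => rfl
      map_smul' := fun _ _ => rfl }
  have hres : Function.Surjective res := by
    intro lam
    obtain ⟨mu, hmu⟩ := exists_transfer V L hVL hN lam (fun g hg v => hg lam v)
    exact ⟨mu, AddMonoidHom.ext fun v => hmu v.toMul⟩
  have h1 := LinearMap.finrank_le_finrank_of_surjective hres
  have h2 := betti_upper ρ hρ L
  have h3 := betti_lower h' V
  have h4 : V.relIndex L * L.index = V.index := Subgroup.relIndex_mul_index hVL
  have h5 : 2 ≤ V.relIndex L := by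
    have h6 : V.relIndex L ≠ 0 := fun h0 => by
      rw [h0, zero_mul] at h4
      exact Subgroup.FiniteIndex.index_ne_zero h4.symm
    have h7 : V.relIndex L ≠ 1 := fun h0 => hx (Subgroup.relIndex_eq_one.1 h0 hxL)
    omega
  have a : 2 * L.index ≤ V.index := by
    rw [← h4]
    exact Nat.mul_le_mul_right _ h5
  have b : n * (2 * L.index) ≤ n * V.index := Nat.mul_le_mul_left _ a
  have c : (2 * r + 2) * V.index ≤ n * V.index := Nat.mul_le_mul_right _ hn
  nlinarith

/-- a subgroup of finite index modulo which no element of `x V` is central -/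
private theorem CFm_W {K : Type} [Group K] (hfg : Group.FG K) (V : Subgroup K) [V.FiniteIndex]
    [hN : V.Normal] (x : K) (lam : Additive ↥V →+ ℚ) (v : ↥V)
    (hv : lam (Additive.ofMul (MulAut.conjNormal x v)) ≠ lam (Additive.ofMul v)) :
    ∃ W : Subgroup K, W.FiniteIndex ∧ ∀ n : K, x⁻¹ * n ∈ V → ∃ m : K, n * m * n⁻¹ * m⁻¹ ∉ W := by
  classical
  have hVfg : Group.FG ↥V := Subgroup.fg_of_index_ne_zero V
  obtain ⟨S, hS, hfin⟩ := Group.fg_iff.1 hVfg
  let D : ℕ := ∏ s ∈ hfin.toFinset, (lam (Additive.ofMul s)).den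
  have hD : (D : ℚ) ≠ 0 := by
    have h1 : D ≠ 0 := Finset.prod_ne_zero_iff.2 fun s _ => (lam (Additive.ofMul s)).den_nz
    exact_mod_cast h1
  have hint : ∀ w : ↥V, ∃ z : ℤ, (z : ℚ) = D * lam (Additive.ofMul w) := by
    intro w
    have hw : w ∈ Subgroup.closure S := by rw [hS]; trivial
    induction hw using Subgroup.closure_induction with
    | mem y hy =>
      obtain ⟨k, hk⟩ : (lam (Additive.ofMul y)).den ∣ D :=
        Finset.dvd_prod_of_mem _ (hfin.mem_toFinset.2 hy)
      refine ⟨(lam (Additive.ofMul y)).num * k, ?_⟩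
      rw [hk]
      push_cast
      have h1 := Rat.mul_den_eq_num (lam (Additive.ofMul y))
      rw [← h1]
      ring
    | one => exact ⟨0, by rw [ofMul_one, map_zero]; simp⟩
    | mul y z _ _ hy hz =>
      obtain ⟨a, ha⟩ := hy
      obtain ⟨b, hb⟩ := hz
      exact ⟨a + b, by rw [ofMul_mul, map_add]; push_cast; rw [ha, hb]; ring⟩
    | inv y _ hy =>
      obtain ⟨a, ha⟩ := hy
      exact ⟨-a, by rw [ofMul_inv, map_neg]; push_cast; rw [ha]; ring⟩
  choose f hf using hint
  have hfm : ∀ a b, f (a * b) = f a + f b := by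
    intro a b
    have h1 : ((f (a * b) : ℤ) : ℚ) = ((f a + f b : ℤ) : ℚ) := by
      push_cast
      rw [hf, hf, hf, ofMul_mul, map_add]
      ring
    exact_mod_cast h1
  have hf1 : f 1 = 0 := by
    have h1 := hfm 1 1
    rw [mul_one] at h1
    linarith
  have hfi : ∀ a, f a⁻¹ = - f a := by
    intro a
    have h1 := hfm a a⁻¹
    rw [mul_inv_cancel, hf1] at h1
    linarith
  obtain ⟨d, hd⟩ : ∃ d : ℤ, d = f (MulAut.conjNormal x v) - f v := ⟨_, rfl⟩
  have hd0 : d ≠ 0 := by
    intro h0
    apply hv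
    have h1 : f (MulAut.conjNormal x v) = f v := by linarith
    have h2 : ((f (MulAut.conjNormal x v) : ℤ) : ℚ) = ((f v : ℤ) : ℚ) := by rw [h1]
    rw [hf, hf] at h2
    exact mul_left_cancel₀ hD h2
  obtain ⟨M, hM⟩ : ∃ M : ℕ, M = d.natAbs + 1 := ⟨_, rfl⟩
  have : NeZero M := ⟨by omega⟩
  let θ : ↥V →* Multiplicative (ZMod M) :=
    { toFun := fun w => Multiplicative.ofAdd ((f w : ℤ) : ZMod M)
      map_one' := by rw [hf1, Int.cast_zero, ofAdd_zero]
      map_mul' := fun a b => by rw [hfm, Int.cast_add, ofAdd_add] }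
  have hθ : θ.ker.FiniteIndex := inferInstance
  refine ⟨θ.ker.map V.subtype, ⟨?_⟩, fun n hn => ⟨(v : K), fun hmem => ?_⟩⟩
  · rw [Subgroup.index_map_subtype]
    exact mul_ne_zero Subgroup.FiniteIndex.index_ne_zero Subgroup.FiniteIndex.index_ne_zero
  · obtain ⟨w, hw, hw'⟩ := hmem
    obtain ⟨u, hu⟩ : ∃ u : ↥V, (u : K) = x⁻¹ * n := ⟨⟨_, hn⟩, rfl⟩
    have h1 : w = MulAut.conjNormal x (u * v * u⁻¹) * v⁻¹ := by
      apply Subtype.ext
      rw [Subgroup.coe_mul, MulAut.conjNormal_apply, Subgroup.coe_mul, Subgroup.coe_mul,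
        Subgroup.coe_inv, Subgroup.coe_inv, hu]
      rw [Subgroup.coe_subtype] at hw'
      rw [hw']
      group
    have h2 : f w = d := by
      rw [h1, hfm, map_mul, map_mul, map_inv, hfm, hfm, hfi, hfi, hd]
      ring
    have h3 : ((f w : ℤ) : ZMod M) = 0 := hw
    rw [h2, ZMod.intCast_zmod_eq_zero_iff_dvd] at h3
    have h4 : M ∣ d.natAbs := Int.natCast_dvd.1 h3
    have h5 := Nat.le_of_dvd (Int.natAbs_pos.2 hd0) h4
    omega

/-- **Groups with `n` generators and `r` relators, `n ≥ 2 r + 2`** (for instance free groups of rank at least two, groups of closed surfaces of genus at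
least two), have a profinite completion with trivial centre -/
theorem cf_of_pres {K : Type} [Group K] {n r : ℕ} (h : HasPres K n r) (hn : 2 * r + 2 ≤ n) : CF K := by
  intro V₀ hV₀
  classical
  have h' := h
  obtain ⟨ρ, R, hρ, hker⟩ := h
  have hfg : Group.FG K := Group.fg_of_surjective hρ
  let V : Subgroup K := V₀.normalCore
  have hVf : V.FiniteIndex := inferInstanceAs V₀.normalCore.FiniteIndex
  have hVn : V.Normal := inferInstanceAs V₀.normalCore.Normal
  have hVV : V ≤ V₀ := Subgroup.normalCore_le V₀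
  have key : ∀ x : K, ∃ W : Subgroup K, W.FiniteIndex ∧
      (x ∉ V → ∀ n : K, x⁻¹ * n ∈ V → ∃ m : K, n * m * n⁻¹ * m⁻¹ ∉ W) := by
    intro x
    by_cases hx : x ∈ V
    · exact ⟨V, hVf, fun h => absurd hx h⟩
    · obtain ⟨lam, v, hv⟩ := CFm_exists h' hn V x hx
      obtain ⟨W, hW, hW'⟩ := CFm_W hfg V x lam v hv
      exact ⟨W, hW, fun _ => hW'⟩
  choose W hW hW' using key
  have hfinQ : Finite (K ⧸ V) := inferInstance
  refine ⟨⨅ q : K ⧸ V, W (Quotient.out q), Subgroup.finiteIndex_iInf fun q => hW _, fun n hn' => ?_⟩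
  by_contra hn0
  have hnV : n ∉ V := fun h => hn0 (hVV h)
  obtain ⟨x, hx⟩ : ∃ x : K, x = Quotient.out ((n : K) : K ⧸ V) := ⟨_, rfl⟩
  have h1 : ((x : K) : K ⧸ V) = ((n : K) : K ⧸ V) := by
    rw [hx]
    exact Quotient.out_eq _
  have h2 : x⁻¹ * n ∈ V := QuotientGroup.eq.1 h1
  have h3 : x ∉ V := fun h => hnV (by
    have h4 := V.mul_mem h h2
    rwa [mul_inv_cancel_left] at h4)
  obtain ⟨m, hm⟩ := hW' x h3 n h2
  have h4 := (Subgroup.mem_iInf.1 (hn' m)) ((n : K) : K ⧸ V)
  rw [← hx] at h4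
  exact hm h4

theorem cf_presented {n r : ℕ} (R : Fin r → FreeGroup (Fin n)) (hn : 2 * r + 2 ≤ n) :
    CF (PresentedGroup (Set.range R)) := by
  refine cf_of_pres (n := n) (r := r) ⟨QuotientGroup.mk' _, R, QuotientGroup.mk'_surjective _, ?_⟩ hn
  exact QuotientGroup.ker_mk' _

theorem cf_free {n : ℕ} (hn : 2 ≤ n) : CF (FreeGroup (Fin n)) := by
  refine cf_of_pres (n := n) (r := 0) ⟨MonoidHom.id _, Fin.elim0, fun x => ⟨x, rfl⟩, ?_⟩ (by omega)
  rw [Set.range_eq_empty]
  symm
  rw [show (MonoidHom.id (FreeGroup (Fin n))).ker = ⊥ from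
    (MonoidHom.ker_eq_bot_iff _).2 fun _ _ h => h, Subgroup.normalClosure_eq_bot_iff]
  exact Set.empty_subset _

end Pool.Agent.TW
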