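import Pool.Agent.TW.DefsI

/-!
# Project TW, block I: inverses of the fine series

MAP.  `x0` = least element of the support of `v` (`v.wo.isWF.min`), `c = v x0` is a unit `b` with `b⁻¹ ∈ comp x0⁻¹` (`comp_inv`),
`ξ = 1 - single x0⁻¹ b⁻¹ * v` has positive support, `geom ξ` is a right inverse of `1 - ξ` (`one_sub_mul_geom`, H58/MN/Div); it has
again leading term `1`, so a right inverse itself, hence two-sided.  Fineness: for all large `j` the support of `ξ` is good for
`T.π j` and all its elements have `T.π j x > 1`: by `mono` they are `≥ 1`; those with `T.π j x = 1` form a finite set for one `j`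
(fibre), and each of them is removed for larger `j` (`sep`, `dec`); then `Good.closure`.
-/

set_option autoImplicit false
set_option linter.unusedSectionVars false

open Function

namespace Pool.Agent.TW.I

open Pool.Agent.H58.MN Pool.Agent.H58.MN.Ser Pool.Agent.S11

namespace Step

variable {A J Q : Type} [Ring A] [Group J] [Group Q] (S : Step A J Q) [BO Q] (T : Tw Q)

theorem single_mem_VF {x : Q} {c : A} (hc : c ∈ S.comp x) : (single x c : Ser A Q) ∈ S.VF T := by
  refine ⟨fun q => ?_, 0, fun j _ => single_mem_goodSub (T.π j) x c⟩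
  by_cases h : q = x
  · rw [h, single_self]
    exact hc
  · rw [single_ne h]
    exact (S.comp q).zero_mem

/-- for all large `j` the images of the elements of a fine series with positive support are `> 1` -/
theorem exists_pos {ξ : Ser A Q} (hξ : Fine T ξ) (hpos : ∀ x ∈ support ξ, 1 < x) :
    ∃ j0, ∀ j, j0 ≤ j → Good (T.π j) (support ξ) ∧ ∀ x ∈ support ξ, 1 < T.π j x := by
  obtain ⟨j1, h1⟩ := hξ
  have hfin := (h1 j1 le_rfl).2 1
  choose! f hf using T.sep
  refine ⟨max j1 (hfin.toFinset.sup f), fun j hj => ⟨h1 j (le_trans (le_max_left _ _) hj), fun x hx => ?_⟩⟩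
  refine lt_of_le_of_ne (T.mono j x (hpos x hx)) fun h => ?_
  have h2 : T.π j1 x = 1 := T.dec j1 j x (le_trans (le_max_left _ _) hj) h.symm
  have h3 : f x ≤ j := le_trans (Finset.le_sup (f := f) (hfin.mem_toFinset.2 ⟨hx, h2⟩))
    (le_trans (le_max_right _ _) hj)
  exact hf x (hpos x hx).ne' (T.dec (f x) j x h3 h.symm)

theorem geom_mem_VF {ξ : Ser A Q} (hξ : ξ ∈ S.VF T) (hpos : ∀ x ∈ support ξ, 1 < x) : geom ξ hpos ∈ S.VF T := by
  refine ⟨fun q => ?_, ?_⟩
  · rw [geom_apply]
    refine finsum_induction (· ∈ S.comp q) ?_ ?_ ?_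
    · exact (S.comp q).zero_mem
    · exact fun a b ha hb => (S.comp q).add_mem ha hb
    · exact fun k => (S.VV.pow_mem hξ.1 k) q
  · obtain ⟨j0, h⟩ := exists_pos T hξ.2 hpos
    exact ⟨j0, fun j hj => ((h j hj).1.closure (h j hj).2).mono (support_geom ξ hpos)⟩

theorem exists_right_inv {v : Ser A Q} (hv : v ∈ S.VF T) (h0 : v ≠ 0) : ∃ w ∈ S.VF T, v * w = 1 := by
  have hne := ne_zero_iff.1 h0
  have hx0 : v (v.wo.isWF.min hne) ≠ 0 := v.wo.isWF.min_mem hne
  have hle : ∀ x, v x ≠ 0 → v.wo.isWF.min hne ≤ x := fun x hx => v.wo.isWF.min_le hne hx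
  generalize v.wo.isWF.min hne = x0 at hx0 hle
  obtain ⟨b, hb, hb'⟩ := S.comp_inv (hv.1 x0) hx0
  have hs := S.single_mem_VF T hb'
  set s : Ser A Q := single x0⁻¹ ((b⁻¹ : Aˣ) : A) with hsd
  set ξ : Ser A Q := 1 - s * v with hξd
  have hξ : ξ ∈ S.VF T := (S.VF T).sub_mem (S.VF T).one_mem ((S.VF T).mul_mem hs hv)
  have hap : ∀ x, ξ x = (1 : Ser A Q) x - ((b⁻¹ : Aˣ) : A) * v (x0 * x) := fun x => by
    rw [hξd, Ser.sub_apply, hsd, single_mul_apply, inv_inv]
  have hpos : ∀ x ∈ support ξ, 1 < x := by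
    intro x hx
    rw [mem_support, hap] at hx
    have h1 : x ≠ 1 := by
      rintro rfl
      rw [one_def, single_self, mul_one, ← hb, Units.inv_mul, sub_self] at hx
      exact hx rfl
    have h2 : v (x0 * x) ≠ 0 := by
      intro h2
      rw [one_def, single_ne h1, h2, mul_zero, sub_self] at hx
      exact hx rfl
    refine lt_of_le_of_ne ?_ (Ne.symm h1)
    exact (le_mul_iff_one_le_right' _).1 (hle _ h2)
  refine ⟨geom ξ hpos * s, (S.VF T).mul_mem (S.geom_mem_VF T hξ hpos) hs, ?_⟩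
  have hb1 : (single x0 (b : A) : Ser A Q) * s = 1 := by
    rw [hsd, single_mul_single, mul_inv_cancel, Units.mul_inv, one_def]
  have h3 : v = single x0 (b : A) * (1 - ξ) := by
    rw [hξd, sub_sub_cancel, ← mul_assoc, hb1, one_mul]
  have h4 := one_sub_mul_geom ξ hpos
  calc v * (geom ξ hpos * s) = single x0 (b : A) * (1 - ξ) * (geom ξ hpos * s) := by rw [← h3]
    _ = single x0 (b : A) * ((1 - ξ) * geom ξ hpos) * s := by noncomm_ring
    _ = 1 := by rw [h4, mul_one, hb1]

theorem exists_inv {v : Ser A Q} (hv : v ∈ S.VF T) (h0 : v ≠ 0) :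
    ∃ w ∈ S.VF T, v * w = 1 ∧ w * v = 1 := by
  obtain ⟨w, hw, h1⟩ := S.exists_right_inv T hv h0
  have hw0 : w ≠ 0 := by
    rintro rfl
    rw [mul_zero] at h1
    apply h0
    rw [← mul_one v, ← h1, mul_zero]
  obtain ⟨v', hv', h2⟩ := S.exists_right_inv T hw hw0
  have h3 : v = v' := by
    calc v = v * (w * v') := by rw [h2, mul_one]
      _ = v' := by rw [← mul_assoc, h1, one_mul]
  exact ⟨w, hw, h1, by rw [h3]; exact h2⟩

end Step

end Pool.Agent.TW.I
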