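import Pool.Agent.TW.Th
import Pool.Agent.TW.VInv

/-!
# Project TW, block I: the compatible pairs

`DC` = the ring of all `w` with a compatible fine series `z`.  If there are boxes then `z` is unique (`ι w = z`), `ι` is an injective
ring homomorphism, and every nonzero element of `DC` is a unit of `A` with inverse in `DC`.
-/

set_option autoImplicit false
set_option linter.unusedSectionVars false

open Function

namespace Pool.Agent.TW.I

open Pool.Agent.H58.MN Pool.Agent.H58.MN.Ser Pool.Agent.S11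

namespace Step

variable {A J Q : Type} [Ring A] [RkR A] [Group J] [Group Q] (S : Step A J Q) [BO Q] (T : Tw Q)

/-- a box for more and better -/
def Box.weak {G : Type} [Group G] {π : Q →* G} {F F' : Finset Q} {δ δ' : ℝ} (B : S.Box π F δ) (hF : F' ⊆ F)
    (hδ : δ ≤ δ') : S.Box π F' δ' where
  Φ := B.Φ
  P := B.P
  idem := B.idem
  orth := B.orth
  sum := B.sum
  comm := B.comm
  bd1 := fun q hq => (B.bd1 q (hF hq)).trans hδ
  bd2 := fun q hq => (B.bd2 q (hF hq)).trans hδ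

theorem Box.weak_th {G : Type} [Group G] [BO G] {π : Q →* G} {F F' : Finset Q} {δ δ' : ℝ} (B : S.Box π F δ)
    (hF : F' ⊆ F) (hδ : δ ≤ δ') (v : Ser A Q) : (B.weak S hF hδ).th v = B.th v := rfl

/-- compatible pairs with a fine series -/
def CPr (z : Ser A Q) (w : A) : Prop := z ∈ S.VF T ∧ S.Cmp T z w

variable {S T}

theorem good_mul_of {z y : Ser A Q} {j : ℕ} (hz : Good (T.π j) (support z)) (hy : Good (T.π j) (support y)) :
    Good (T.π j) (support (z * y)) := (goodSub (T.π j) A).mul_mem hz hy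

theorem Cmp.eps {z : Ser A Q} {w : A} (h : S.Cmp T z w) : ∃ j0, ∀ j, j0 ≤ j → ∀ ε : ℝ, 0 < ε → ∃ F : Finset Q,
    ∃ δ : ℝ, 0 < δ ∧ ∀ B : S.Box (T.π j) F δ, ∀ y ∈ S.VV, Good (T.π j) (support y) →
      rk (w * B.th y - B.th (z * y)) ≤ ε := h

open Classical in
/-- two conditions at the same time -/
theorem both {z z' : Ser A Q} {w w' : A} (h : S.Cmp T z w) (h' : S.Cmp T z' w') : ∃ j0, ∀ j, j0 ≤ j → ∀ ε : ℝ,
    0 < ε → ∃ F : Finset Q, ∃ δ : ℝ, 0 < δ ∧ ∀ B : S.Box (T.π j) F δ, ∀ y ∈ S.VV, Good (T.π j) (support y) →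
      rk (w * B.th y - B.th (z * y)) ≤ ε ∧ rk (w' * B.th y - B.th (z' * y)) ≤ ε := by
  obtain ⟨i, hi⟩ := h
  obtain ⟨i', hi'⟩ := h'
  refine ⟨max i i', fun j hj ε hε => ?_⟩
  obtain ⟨F, δ, hδ, h1⟩ := hi j ((le_max_left _ _).trans hj) ε hε
  obtain ⟨F', δ', hδ', h1'⟩ := hi' j ((le_max_right _ _).trans hj) ε hε
  refine ⟨F ∪ F', min δ δ', lt_min hδ hδ', fun B y hy hg => ⟨?_, ?_⟩⟩
  · exact h1 (B.weak S Finset.subset_union_left (min_le_left _ _)) y hy hg
  · exact h1' (B.weak S Finset.subset_union_right (min_le_right _ _)) y hy hg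

theorem CPr.add {z z' : Ser A Q} {w w' : A} (h : S.CPr T z w) (h' : S.CPr T z' w') : S.CPr T (z + z') (w + w') := by
  refine ⟨(S.VF T).add_mem h.1 h'.1, ?_⟩
  obtain ⟨j0, hj0⟩ := both h.2 h'.2
  obtain ⟨i, hi⟩ := h.1.2
  obtain ⟨i', hi'⟩ := h'.1.2
  refine ⟨max j0 (max i i'), fun j hj ε hε => ?_⟩
  obtain ⟨F, δ, hδ, h1⟩ := hj0 j ((le_max_left _ _).trans hj) (ε / 2) (half_pos hε)
  refine ⟨F, δ, hδ, fun B y hy hg => ?_⟩
  have h2 := h1 B y hy hg
  have h3 : B.th ((z + z') * y) = B.th (z * y) + B.th (z' * y) := by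
    rw [add_mul]
    exact B.th_add (good_mul_of (hi j ((le_max_left _ _).trans ((le_max_right _ _).trans hj))) hg)
      (good_mul_of (hi' j ((le_max_right _ _).trans ((le_max_right _ _).trans hj))) hg)
  have h4 : (w + w') * B.th y - B.th ((z + z') * y) =
      (w * B.th y - B.th (z * y)) + (w' * B.th y - B.th (z' * y)) := by
    rw [h3, add_mul]
    abel
  rw [h4]
  have h5 := RkR.rk_add (w * B.th y - B.th (z * y)) (w' * B.th y - B.th (z' * y))
  linarith [h2.1, h2.2]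

theorem CPr.neg {z : Ser A Q} {w : A} (h : S.CPr T z w) : S.CPr T (-z) (-w) := by
  refine ⟨(S.VF T).neg_mem h.1, ?_⟩
  obtain ⟨j0, hj0⟩ := h.2
  refine ⟨j0, fun j hj ε hε => ?_⟩
  obtain ⟨F, δ, hδ, h1⟩ := hj0 j hj ε hε
  refine ⟨F, δ, hδ, fun B y hy hg => ?_⟩
  have h4 : -w * B.th y - B.th (-z * y) = -(w * B.th y - B.th (z * y)) := by
    rw [neg_mul, neg_mul, B.th_neg]
    abel
  rw [h4, RkR.rk_neg]
  exact h1 B y hy hg

theorem CPr.mul {z z' : Ser A Q} {w w' : A} (h : S.CPr T z w) (h' : S.CPr T z' w') : S.CPr T (z * z') (w * w') := by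
  refine ⟨(S.VF T).mul_mem h.1 h'.1, ?_⟩
  obtain ⟨j0, hj0⟩ := both h.2 h'.2
  obtain ⟨i', hi'⟩ := h'.1.2
  refine ⟨max j0 i', fun j hj ε hε => ?_⟩
  obtain ⟨F, δ, hδ, h1⟩ := hj0 j ((le_max_left _ _).trans hj) (ε / 2) (half_pos hε)
  refine ⟨F, δ, hδ, fun B y hy hg => ?_⟩
  have h2 := (h1 B y hy hg).2
  have h3 := (h1 B (z' * y) (S.VV.mul_mem h'.1.1 hy) (good_mul_of (hi' j ((le_max_right _ _).trans hj)) hg)).1
  have h4 : w * w' * B.th y - B.th (z * z' * y) =
      w * (w' * B.th y - B.th (z' * y)) + (w * B.th (z' * y) - B.th (z * (z' * y))) := by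
    rw [mul_assoc z, mul_sub, mul_assoc w]
    abel
  rw [h4]
  have h5 := RkR.rk_add (w * (w' * B.th y - B.th (z' * y))) (w * B.th (z' * y) - B.th (z * (z' * y)))
  have h6 := RkR.rk_mul_le_right w (w' * B.th y - B.th (z' * y))
  linarith

theorem single_mem_VF_of {q : Q} {f : A} (hf : f ∈ S.comp q) : (single q f : Ser A Q) ∈ S.VF T := by
  refine ⟨fun x => ?_, 0, fun j _ => single_mem_goodSub (T.π j) q f⟩
  by_cases h : x = q
  · subst h
    rw [single_self]
    exact hf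
  · rw [single_ne h]
    exact (S.comp x).zero_mem

theorem CPr.single {q : Q} {f : A} (hf : f ∈ S.comp q) : S.CPr T (single q f) f := by
  refine ⟨single_mem_VF_of hf, 0, fun j _ ε hε => ⟨{q}, ε / 2, half_pos hε, fun B y hy hg => ?_⟩⟩
  have h1 := B.th_single (Finset.mem_singleton_self q) hf hg
  linarith

theorem CPr.zero : S.CPr T 0 0 := by
  have h1 := CPr.single (T := T) (S.comp 1).zero_mem
  refine cast ?_ h1
  congr 1
  ext x
  by_cases h : x = 1
  · subst h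
    rw [single_self, Ser.zero_apply]
  · rw [single_ne h, Ser.zero_apply]

theorem CPr.one : S.CPr T 1 1 := CPr.single (T := T) (q := 1) (by rw [S.mem_comp_one]; exact S.E.one_mem)

theorem one_good (j : ℕ) : Good (T.π j) (support (1 : Ser A Q)) := (goodSub (T.π j) A).one_mem

/-- boxes exist: a pair with small ranks -/
theorem CPr.box (hB : S.HasBox T) {z : Ser A Q} {w : A} (h : S.CPr T z w) : ∃ j0, ∀ ε : ℝ, 0 < ε → ∃ j, j0 ≤ j ∧
    ∃ F δ, ∃ B : S.Box (T.π j) F δ, ∀ y ∈ S.VV, Good (T.π j) (support y) → rk (w * B.th y - B.th (z * y)) ≤ ε := by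
  obtain ⟨j0, hj0⟩ := h.2
  obtain ⟨i, hi⟩ := hB
  refine ⟨j0, fun ε hε => ⟨max j0 i, le_max_left _ _, ?_⟩⟩
  obtain ⟨F, δ, hδ, h1⟩ := hj0 (max j0 i) (le_max_left _ _) ε hε
  obtain ⟨B⟩ := hi (max j0 i) (le_max_right _ _) F δ hδ
  exact ⟨F, δ, B, h1 B⟩

/-- a series compatible with `w`, and `z = 0`: `w = 0` -/
theorem CPr.eq_zero (hB : S.HasBox T) {w : A} (h : S.CPr T 0 w) : w = 0 := by
  refine RkR.eq_zero _ (le_antisymm ?_ (rk_nonneg _))
  refine le_of_forall_pos_le_add fun ε hε => ?_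
  obtain ⟨j0, h1⟩ := h.box hB
  obtain ⟨j, -, F, δ, B, h2⟩ := h1 ε hε
  have h3 := h2 1 S.VV.one_mem (one_good j)
  rw [B.th_one, mul_one, zero_mul, B.th_zero, sub_zero] at h3
  linarith

/-- the compatible pair of the inverses -/
theorem CPr.inv (hB : S.HasBox T) {z : Ser A Q} {w : A} (h : S.CPr T z w) (h0 : z ≠ 0) :
    ∃ b : Aˣ, (b : A) = w ∧ ∃ z', S.CPr T z' ((b⁻¹ : Aˣ) : A) := by
  obtain ⟨z', hz', h1, -⟩ := S.exists_inv T h.1 h0
  obtain ⟨i, hi⟩ := hz'.2
  obtain ⟨j0, hj0⟩ := h.2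
  have hw : rk w = 1 := by
    refine le_antisymm (rk_le_one _) ?_
    refine le_of_forall_pos_le_add fun ε hε => ?_
    obtain ⟨i', hi'⟩ := hB
    obtain ⟨F, δ, hδ, h2⟩ := hj0 (max j0 (max i i')) (le_max_left _ _) ε hε
    obtain ⟨B⟩ := hi' (max j0 (max i i')) ((le_max_right _ _).trans (le_max_right _ _)) F δ hδ
    have h3 := h2 B z' hz'.1 (hi _ ((le_max_left _ _).trans (le_max_right _ _)))
    rw [h1, B.th_one] at h3
    have h4 := rk_sub (w * B.th z') (w * B.th z' - 1)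
    rw [sub_sub_cancel, RkR.rk_one] at h4
    have h5 := RkR.rk_mul_le_left w (B.th z')
    linarith
  obtain ⟨b, rfl⟩ := RkR.isUnit w hw
  refine ⟨b, rfl, z', hz', max j0 i, fun j hj ε hε => ?_⟩
  obtain ⟨F, δ, hδ, h2⟩ := hj0 j ((le_max_left _ _).trans hj) ε hε
  refine ⟨F, δ, hδ, fun B y hy hg => ?_⟩
  have h3 := h2 B (z' * y) (S.VV.mul_mem hz'.1 hy) (good_mul_of (hi j ((le_max_right _ _).trans hj)) hg)
  rw [← mul_assoc, h1, one_mul] at h3
  have h4 : ((b⁻¹ : Aˣ) : A) * B.th y - B.th (z' * y) = -(((b⁻¹ : Aˣ) : A) * ((b : A) * B.th (z' * y) - B.th y)) := by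
    rw [mul_sub, ← mul_assoc, ← Units.val_mul, inv_mul_cancel, Units.val_one, one_mul]
    abel
  rw [h4, RkR.rk_neg]
  exact (RkR.rk_mul_le_right _ _).trans h3

/-- `z` is unique -/
theorem CPr.unique (hB : S.HasBox T) {z z' : Ser A Q} {w : A} (h : S.CPr T z w) (h' : S.CPr T z' w) : z = z' := by
  by_contra h0
  have h1 := h.add h'.neg
  rw [add_neg_cancel, ← sub_eq_add_neg] at h1
  obtain ⟨b, hb, -⟩ := h1.inv hB (sub_ne_zero.2 h0)
  have h2 : (1 : A) = 0 := by rw [← b.mul_inv, hb, zero_mul]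
  have h3 : rk (1 : A) = rk (0 : A) := by rw [h2]
  rw [RkR.rk_one, RkR.rk_zero] at h3
  exact one_ne_zero h3

variable (S T)

/-- the ring of the elements with a compatible series -/
def DC : Subring A where
  carrier := {w | ∃ z, S.CPr T z w}
  zero_mem' := ⟨0, CPr.zero⟩
  one_mem' := ⟨1, CPr.one⟩
  add_mem' := by
    rintro w w' ⟨z, h⟩ ⟨z', h'⟩
    exact ⟨_, h.add h'⟩
  neg_mem' := by
    rintro w ⟨z, h⟩
    exact ⟨_, h.neg⟩
  mul_mem' := by
    rintro w w' ⟨z, h⟩ ⟨z', h'⟩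
    exact ⟨_, h.mul h'⟩

/-- THEOREM I: a division ring `D` in `A` which contains the components (in particular `E` and the `u h`), closed under inverses,
and an injective ring homomorphism `ι` to the fine series with `ι f = single q f` for `f` in the component of `q`. -/
theorem stepI (hB : S.HasBox T) : ∃ D : Subring A, InvCl D ∧ IsDiv D ∧ S.E ≤ D ∧ (∀ h, ((S.u h : Aˣ) : A) ∈ D) ∧
    ∃ ι : D →+* Ser A Q, Injective ι ∧ (∀ w, ι w ∈ S.VF T) ∧
      ∀ q, ∀ f : D, (f : A) ∈ S.comp q → ι f = single q (f : A) := by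
  have hinv : ∀ w ∈ S.DC T, w ≠ 0 → ∃ b : Aˣ, (b : A) = w ∧ ((b⁻¹ : Aˣ) : A) ∈ S.DC T := by
    rintro w ⟨z, h⟩ h0
    have hz : z ≠ 0 := by
      rintro rfl
      exact h0 (h.eq_zero hB)
    exact h.inv hB hz
  refine ⟨S.DC T, ?_, ?_, ?_, ?_, ?_⟩
  · intro a ha
    have h0 : (a : A) ≠ 0 := by
      intro h1
      have h2 : (1 : A) = 0 := by rw [← a.mul_inv, h1, zero_mul]
      have h3 : rk (1 : A) = rk (0 : A) := by rw [h2]
      rw [RkR.rk_one, RkR.rk_zero] at h3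
      exact one_ne_zero h3
    obtain ⟨b, hb, h1⟩ := hinv _ ha h0
    have h2 : b = a := Units.ext hb
    rwa [h2] at h1
  · intro a ha h0
    obtain ⟨b, hb, -⟩ := hinv _ ha h0
    exact ⟨b, hb⟩
  · intro e he
    exact ⟨_, CPr.single (q := 1) (S.mem_comp_one.2 he)⟩
  · intro h
    exact ⟨_, CPr.single (S.u_mem_comp h)⟩
  · choose z hz using fun w : S.DC T => w.2
    refine ⟨{ toFun := z, map_one' := ?_, map_mul' := ?_, map_zero' := ?_, map_add' := ?_ }, ?_, ?_, ?_⟩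
    · exact CPr.unique hB (hz 1) CPr.one
    · exact fun a b => CPr.unique hB (hz (a * b)) ((hz a).mul (hz b))
    · exact CPr.unique hB (hz 0) CPr.zero
    · exact fun a b => CPr.unique hB (hz (a + b)) ((hz a).add (hz b))
    · intro a b hab
      have hab' : z a = z b := hab
      have h1 := (hz a).add (hz b).neg
      rw [hab', add_neg_cancel] at h1
      have h2 := h1.eq_zero hB
      exact Subtype.ext (add_neg_eq_zero.1 h2)
    · exact fun w => (hz w).1
    · exact fun q f hf => CPr.unique hB (hz f) (CPr.single hf)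

end Step

end Pool.Agent.TW.I
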