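import Pool.Agent.TW.CP
import Pool.Agent.TW.DC

/-!
# Project TW: the step theorem `cp_main`
-/

set_option autoImplicit false
set_option linter.unusedSectionVars false

open Function

namespace Pool.Agent.TW

open Pool.Agent.S11
open Pool.Agent.H58.MN (Ser)

section

variable {J Q E : Type} [Group J] [Group Q] [BO Q] [Ring E] [Algebra (ZMod 2) E]

/-- the rank function as a class -/
@[reducible] def RkR.cls (R : RkR E) : I.RkR E where
  rk := R.rk
  rk_zero := R.zero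
  rk_one := R.one
  rk_add := R.add
  rk_neg := R.neg
  rk_mul_le_left := R.mul_l
  rk_mul_le_right := R.mul_r
  eq_zero := R.eq_zero
  isUnit := R.unit

theorem toU (u : J →* E) (h : J) : ((MonoidHom.toHomUnits u h : Eˣ) : E) = u h := rfl

theorem toU_inv (u : J →* E) (h : J) : (((MonoidHom.toHomUnits u h)⁻¹ : Eˣ) : E) = u h⁻¹ := by
  rw [← map_inv]
  rfl

/-- the step -/
def stepOf {u : J →* E} {p : J →* Q} {E₀ : Subalgebra (ZMod 2) E} (hK : KerH E₀ u p) : I.Step E J Q where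
  u := MonoidHom.toHomUnits u
  p := p
  surj := hK.surj
  E := E₀.toSubring
  div := fun a ha h0 => by
    obtain ⟨b, -, h1, h2⟩ := hK.div a ha h0
    exact ⟨⟨a, b, h1, h2⟩, rfl⟩
  inv := fun a ha => by
    by_cases h0 : (a : E) = 0
    · have h1 : ((a⁻¹ : Eˣ) : E) = 0 := by
        have h2 : (1 : E) = 0 := by rw [← a.mul_inv, h0, zero_mul]
        rw [← mul_one ((a⁻¹ : Eˣ) : E), h2, mul_zero]
      rw [h1]
      exact zero_mem _
    · obtain ⟨b, hb, h1, h2⟩ := hK.div a ha h0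
      have h3 : ((a⁻¹ : Eˣ) : E) = b := by
        rw [← mul_one ((a⁻¹ : Eˣ) : E), ← h1, ← mul_assoc, a.inv_mul, one_mul]
      rw [h3]
      exact hb
  ker := fun h hh => hK.mem h hh
  conj := fun h e he => by
    rw [toU, toU_inv]
    exact hK.conj h e he

/-- the quotients -/
def twOf {Γ : ℕ → Type} [hG : ∀ j, Group (Γ j)] [hO : ∀ j, BO (Γ j)] {q : ∀ j, Q →* Γ j} (hA : Apx q) : I.Tw Q where
  Γ := Γ
  grp := hG
  bo := hO
  π := q
  mono := hA.pos
  dec := fun i j x hij h => hA.dec i j hij x h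
  sep := hA.sep

/-- the commutant of the projections -/
theorem comm_dcl {Γ : Type} [Group Γ] {u : J →* E} {p : J →* Q} {q : Q →* Γ} (b : Bx u (q.comp p)) :
    ∀ e ∈ dcl (u '' (p.ker : Set J)), ∀ x, e * b.P x = b.P x * e := by
  intro e he x
  have h1 : dcl (u '' (p.ker : Set J)) ≤ Subalgebra.centralizer (ZMod 2) {b.P x} := by
    refine dcl_le ?_ ?_
    · rintro _ ⟨n, hn, rfl⟩
      rw [SetLike.mem_coe, Subalgebra.mem_centralizer_iff]
      intro g hg
      rw [Set.mem_singleton_iff] at hg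
      have hn' : p n = 1 := hn
      rw [hg, b.comm, MonoidHom.comp_apply, hn', map_one, one_mul]
    · intro a ha c h1 h2
      rw [Subalgebra.mem_centralizer_iff] at ha ⊢
      intro g hg
      have h3 := ha g hg
      calc g * c = c * a * g * c := by rw [h2, one_mul]
        _ = c * (a * g) * c := by rw [mul_assoc c a g]
        _ = c * g * (a * c) := by rw [← h3]; simp only [mul_assoc]
        _ = c * g := by rw [h1, mul_one]
  have h2 := (Subalgebra.mem_centralizer_iff (ZMod 2)).1 (h1 he) (b.P x) rfl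
  exact h2.symm

theorem rk_sub_box {Γ : Type} [Group Γ] (R : RkR E) {u : J →* E} {q : J →* Γ} (b : Bx u q) {B D : Finset Γ}
    (hBD : B ⊆ D) (hD : D ⊆ b.Φ) : R.rk (∑ x ∈ B, b.P x) ≤ R.rk (∑ x ∈ D, b.P x) := by
  have h1 : ∑ x ∈ B, b.P x = (∑ x ∈ D, b.P x) * ∑ x ∈ B, b.P x := by
    rw [Finset.mul_sum]
    refine Finset.sum_congr rfl fun x hx => ?_
    rw [Finset.sum_mul, Finset.sum_eq_single_of_mem x (hBD hx)]
    · rw [b.self x (hD (hBD hx))]
    · intro y hy hyx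
      exact b.ne y (hD hy) x (hD (hBD hx)) hyx
  rw [h1]
  exact R.mul_l _ _

open Classical in
/-- the box -/
theorem boxOf {Γ : Type} [Group Γ] (R : RkR E) {u : J →* E} {p : J →* Q} (hK : KerH (dcl (u '' (p.ker : Set J))) u p)
    {q : Q →* Γ} (hB : HasBx R u (q.comp p)) (F : Finset Q) (δ : ℝ) (hδ : 0 < δ) :
    letI := R.cls
    Nonempty ((stepOf hK).Box q F δ) := by
  let := R.cls
  choose l hl using hK.surj
  obtain ⟨b, D, hD, h1, h2⟩ := hB (F.image l ∪ F.image fun x => (l x)⁻¹) δ hδ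
  refine ⟨⟨b.Φ, b.P, b.self, b.ne, b.sum, ?_, ?_, ?_⟩⟩
  · intro y a ha x
    obtain ⟨e, he, h, hh, rfl⟩ := (stepOf hK).exists_of_mem_comp ha
    have he' : e ∈ dcl (u '' (p.ker : Set J)) := he
    have hh' : p h = y := hh
    have h3 : ((stepOf hK).u h : E) = u h := rfl
    rw [h3, mul_assoc, b.comm, ← mul_assoc, comm_dcl b e he', MonoidHom.comp_apply, hh', mul_assoc]
  · intro y hy
    have h3 : ∀ x, b.P (q y * x) = u (l y) * b.P x * u (l y)⁻¹ := by
      intro x
      rw [b.comm, MonoidHom.comp_apply, hl, mul_assoc, ← map_mul, mul_inv_cancel, map_one, mul_one]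
    have h4 : ∑ x ∈ b.Φ.filter (fun x => q y * x ∉ b.Φ), b.P (q y * x) =
        u (l y) * (∑ x ∈ b.Φ.filter (fun x => q y * x ∉ b.Φ), b.P x) * u (l y)⁻¹ := by
      rw [Finset.mul_sum, Finset.sum_mul]
      exact Finset.sum_congr rfl fun x _ => h3 x
    show R.rk _ ≤ δ
    rw [h4]
    refine (R.mul_l _ _).trans ((R.mul_r _ _).trans ((rk_sub_box R b ?_ hD).trans h2))
    intro x hx
    rw [Finset.mem_filter] at hx
    by_contra hxD
    refine hx.2 ?_
    have h5 := h1 x hx.1 hxD (l y) (Finset.mem_union_left _ (Finset.mem_image_of_mem _ hy))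
    rwa [MonoidHom.comp_apply, hl] at h5
  · intro y hy
    show R.rk _ ≤ δ
    refine (rk_sub_box R b ?_ hD).trans h2
    intro x hx
    rw [Finset.mem_filter] at hx
    by_contra hxD
    refine hx.2 ?_
    have h5 := h1 x hx.1 hxD (l y)⁻¹ (Finset.mem_union_right _ (Finset.mem_image_of_mem (fun x => (l x)⁻¹) hy))
    rwa [map_inv, MonoidHom.comp_apply, hl] at h5

/-- **The step theorem** -/
theorem cp_main (R : RkR E) (u : J →* E) (p : J →* Q) (hK : KerH (dcl (u '' (p.ker : Set J))) u p)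
    {Γ : ℕ → Type} [∀ j, Group (Γ j)] [∀ j, BO (Γ j)] (q : ∀ j, Q →* Γ j) (hA : Apx q)
    (hB : ∀ j, HasBx R u ((q j).comp p)) :
    DivA (dcl (Set.range u)) ∧ ∃ ι : ↥(dcl (Set.range u)) →+* Ser E Q, Injective ι ∧
      (∀ w, Gp (dcl (u '' (p.ker : Set J))) u p (ι w)) ∧ (∀ w, ∃ j0, ∀ j, j0 ≤ j → Fn (q j) (ι w)) ∧
      (∀ h (hh : u h ∈ dcl (Set.range u)), ι ⟨u h, hh⟩ = Ser.single (p h) (u h)) ∧
      ∀ e (he : e ∈ dcl (Set.range u)), e ∈ dcl (u '' (p.ker : Set J)) → ι ⟨e, he⟩ = Ser.single 1 e := by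
  let := R.cls
  obtain ⟨D, hinv, hdiv, hED, huD, ι, hι, hVF, hsing⟩ := (stepOf hK).stepI (twOf hA)
    ⟨0, fun j _ F δ hδ => boxOf R hK (hB j) F δ hδ⟩
  have hle : ∀ a ∈ dcl (Set.range u), a ∈ D := by
    refine dcl_le_ring D ?_ ?_
    · rintro _ ⟨h, rfl⟩
      exact huD h
    · intro a ha b h1 h2
      exact hinv ⟨a, b, h1, h2⟩ ha
  refine ⟨divA_of_isUnit fun a ha h0 => hdiv a (hle a ha) h0, ?_⟩
  set i : ↥(dcl (Set.range u)) →+* D :=
    ((dcl (Set.range u)).val.toRingHom).codRestrict D (fun x => hle x.1 x.2) with hi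
  refine ⟨ι.comp i, ?_, ?_, ?_, ?_, ?_⟩
  · intro a b hab
    have h1 : i a = i b := hι hab
    have h2 := congrArg (fun z : D => (z : E)) h1
    exact Subtype.ext h2
  · intro w h
    have h1 := (hVF (i w)).1 (p h) h rfl
    have h2 : ((((stepOf hK).u h)⁻¹ : Eˣ) : E) = u h⁻¹ := toU_inv u h
    rw [h2] at h1
    exact h1
  · intro w
    obtain ⟨j0, h1⟩ := (hVF (i w)).2
    exact ⟨j0, fun j hj y => (h1 j hj).2 y⟩
  · intro h hh
    exact hsing (p h) (i ⟨u h, hh⟩) ((stepOf hK).u_mem_comp h)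
  · intro e he he'
    exact hsing 1 (i ⟨e, he⟩) ((stepOf hK).mem_comp_one.2 he')

end

end Pool.Agent.TW
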