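import Pool.Agent.S14.LDefs
import Pool.Agent.S14.E0
import Pool.Agent.S11.FL.Defs
import Pool.Agent.S11.Ord
import Pool.Agent.H58.MN.Ser

/-!
# Project TW (towers): definitions

`RkR` = rank functions, `StR` = involutions, `dcl` = division closure, `Bx` = boxes (projections), `Bx.th` = the
compression of a series to a box, `Gp`, `Fn` = conditions on series, `KerH` = the division ring of the kernel,
`UR H` = the ultraproduct of the matrix rings of the finite quotients of `H` modulo the matrices of small rank.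
-/

set_option autoImplicit false
set_option linter.unusedSectionVars false

open Finset

namespace Pool.Agent.TW

open Pool.Agent.S11 Pool.Agent.S11.FL
open Pool.Agent.H58.MN (Ser)

/-! ## Rings -/

/-- a rank function -/
structure RkR (E : Type) [Ring E] where
  /-- the rank -/
  rk : E → ℝ
  nonneg : ∀ a, 0 ≤ rk a
  zero : rk 0 = 0
  one : rk 1 = 1
  neg : ∀ a, rk (-a) = rk a
  add : ∀ a b, rk (a + b) ≤ rk a + rk b
  mul_l : ∀ a b, rk (a * b) ≤ rk a
  mul_r : ∀ a b, rk (a * b) ≤ rk b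
  eq_zero : ∀ a, rk a = 0 → a = 0
  unit : ∀ a, rk a = 1 → IsUnit a

/-- an involution -/
structure StR {G E : Type} [Group G] [Ring E] (u : G →* E) where
  /-- the map -/
  st : E →+ E
  mul : ∀ a b, st (a * b) = st b * st a
  inv : ∀ a, st (st a) = a
  u : ∀ h, st (u h) = u h⁻¹

section

variable {E : Type} [Ring E] [Algebra (ZMod 2) E]

/-- closed under inverses -/
def InvC (A : Subalgebra (ZMod 2) E) : Prop := ∀ a ∈ A, ∀ b, a * b = 1 → b * a = 1 → b ∈ A

/-- the division closure -/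
def dcl (S : Set E) : Subalgebra (ZMod 2) E := sInf {A | S ⊆ A ∧ InvC A}

/-- every element different from zero is invertible in `A` -/
def DivA (A : Subalgebra (ZMod 2) E) : Prop := ∀ a ∈ A, a ≠ 0 → ∃ b ∈ A, a * b = 1 ∧ b * a = 1

end

/-! ## Boxes -/

section

variable {J Γ E : Type} [Group J] [Group Γ] [Ring E]

/-- a box: a finite set `Φ` and projections `P` -/
structure Bx (u : J →* E) (q : J →* Γ) where
  /-- the finite set -/
  Φ : Finset Γ
  /-- the projections -/
  P : Γ → E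
  self : ∀ a ∈ Φ, P a * P a = P a
  ne : ∀ a ∈ Φ, ∀ b ∈ Φ, a ≠ b → P a * P b = 0
  sum : ∑ a ∈ Φ, P a = 1
  comm : ∀ h a, u h * P a = P (q h * a) * u h

/-- the box is almost invariant -/
def Bx.Good {u : J →* E} {q : J →* Γ} (R : RkR E) (b : Bx u q) (S : Finset J) (ε : ℝ) : Prop :=
  ∃ D ⊆ b.Φ, (∀ a ∈ b.Φ, a ∉ D → ∀ h ∈ S, q h * a ∈ b.Φ) ∧ R.rk (∑ a ∈ D, b.P a) ≤ ε

/-- there are almost invariant boxes -/
def HasBx (R : RkR E) (u : J →* E) (q : J →* Γ) : Prop :=
  ∀ (S : Finset J) (ε : ℝ), 0 < ε → ∃ b : Bx u q, b.Good R S ε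

/-- the compression of a series to a box -/
def Bx.th {u : J →* E} {q : J →* Γ} (b : Bx u q) (w : Γ → E) : E :=
  ∑ a ∈ b.Φ, ∑ c ∈ b.Φ, b.P a * w (a * c⁻¹) * b.P c

end

/-! ## Series -/

section

variable {J Q Γ E : Type} [Group J] [Group Q] [BO Q] [Ring E]

/-- the push forward of a series, as a function -/
noncomputable def psh (f : Q → Γ) (v : Q → E) (y : Γ) : E := ∑ᶠ (x : Q) (_ : f x = y), v x

/-- finitely many terms over each element -/
def Fn (f : Q → Γ) (v : Ser E Q) : Prop := ∀ y, {x | v x ≠ 0 ∧ f x = y}.Finite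

/-- the coefficients are in the components `E₀ u` -/
def Gp [Algebra (ZMod 2) E] (E₀ : Subalgebra (ZMod 2) E) (u : J →* E) (p : J →* Q) (v : Ser E Q) : Prop :=
  ∀ h : J, v (p h) * u h⁻¹ ∈ E₀

/-- the division ring of the kernel -/
structure KerH [Algebra (ZMod 2) E] (E₀ : Subalgebra (ZMod 2) E) (u : J →* E) (p : J →* Q) : Prop where
  surj : Function.Surjective p
  mem : ∀ n, p n = 1 → u n ∈ E₀
  conj : ∀ h, ∀ e ∈ E₀, u h * e * u h⁻¹ ∈ E₀
  div : DivA E₀

/-- approximations of an ordered group -/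
structure Apx {Γ : ℕ → Type} [∀ j, Group (Γ j)] [∀ j, BO (Γ j)] (q : ∀ j, Q →* Γ j) : Prop where
  pos : ∀ j x, 1 < x → 1 ≤ q j x
  dec : ∀ i j, i ≤ j → ∀ x, q j x = 1 → q i x = 1
  sep : ∀ x, x ≠ 1 → ∃ j, q j x ≠ 1

end

/-! ## The ultraproduct -/

section

/-- the normal subgroups of finite index -/
abbrev Idx (H : Type) [Group H] : Type := {V : Subgroup H // V.Normal ∧ V.FiniteIndex}

instance {H : Type} [Group H] (V : Idx H) : V.1.Normal := V.2.1

instance {H : Type} [Group H] (V : Idx H) : V.1.FiniteIndex := V.2.2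

noncomputable instance {H : Type} [Group H] (V : Idx H) : Fintype (H ⧸ V.1) := Fintype.ofFinite _

noncomputable instance {H : Type} [Group H] (V : Idx H) : DecidableEq (H ⧸ V.1) := Classical.decEq _

/-- the regular representation -/
noncomputable def rg {H : Type} [Group H] (V : Idx H) : H →* Matrix (H ⧸ V.1) (H ⧸ V.1) (ZMod 2) where
  toFun h := Matrix.of fun x y => if y = x * (h : H ⧸ V.1) then 1 else 0
  map_one' := by
    ext x y
    rw [Matrix.of_apply, QuotientGroup.mk_one, mul_one, Matrix.one_apply]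
    by_cases hxy : x = y
    · rw [if_pos hxy, if_pos hxy.symm]
    · rw [if_neg hxy, if_neg (Ne.symm hxy)]
  map_mul' h k := by
    ext x y
    rw [Matrix.mul_apply, Finset.sum_eq_single (x * (h : H ⧸ V.1))]
    · rw [Matrix.of_apply, Matrix.of_apply, Matrix.of_apply, if_pos rfl, one_mul, QuotientGroup.mk_mul, mul_assoc]
    · intro z _ hz
      rw [Matrix.of_apply, if_neg hz, zero_mul]
    · intro h'
      exact absurd (Finset.mem_univ _) h'

/-- the ultraproduct of the matrix rings of the finite quotients, modulo the matrices of small rank -/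
structure UR (H : Type) [Group H] where
  /-- the ultrafilter -/
  F : Ultrafilter (Idx H)
  small : ∀ V₀ : Subgroup H, V₀.FiniteIndex → ∀ᶠ V in (F : Filter (Idx H)), V.1 ≤ V₀
  /-- the ring -/
  E : Type
  /-- it is a ring -/
  ring : Ring E
  /-- it is an algebra -/
  alg : Algebra (ZMod 2) E
  /-- the class of a sequence -/
  cls : (∀ V : Idx H, Matrix (H ⧸ V.1) (H ⧸ V.1) (ZMod 2)) →+* E
  surj : Function.Surjective cls
  ker : ∀ a, cls a = 0 ↔ ∀ ε : ℝ, 0 < ε → ∀ᶠ V in (F : Filter (Idx H)), ((a V).rank : ℝ) ≤ ε * Fintype.card (H ⧸ V.1)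

attribute [instance] UR.ring UR.alg

variable {H : Type} [Group H] (U : UR H)

/-- the group elements -/
noncomputable def UR.u : H →* U.E where
  toFun h := U.cls fun V => rg V h
  map_one' := by
    rw [show (fun V : Idx H => rg V (1 : H)) = 1 from funext fun V => map_one _, map_one]
  map_mul' h k := by
    rw [← map_mul]
    congr 1
    funext V
    exact map_mul _ h k

theorem UR.u_apply (h : H) : U.u h = U.cls fun V => rg V h := rfl

/-- the rank function of the ultraproduct is the limit of the normalized ranks -/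
structure UR.Lim (R : RkR U.E) : Prop where
  le : ∀ a (ε : ℝ), (∀ᶠ V in (U.F : Filter (Idx H)), ((a V).rank : ℝ) ≤ ε * Fintype.card (H ⧸ V.1)) → R.rk (U.cls a) ≤ ε
  ge : ∀ a (ε : ℝ), R.rk (U.cls a) < ε → ∀ᶠ V in (U.F : Filter (Idx H)), ((a V).rank : ℝ) ≤ ε * Fintype.card (H ⧸ V.1)

/-- the group elements of a subgroup -/
noncomputable def UR.uJ (J : Subgroup H) : ↥J →* U.E := U.u.comp J.subtype

/-- the division closure of a subgroup -/
noncomputable def UR.D (J : Subgroup H) : Subalgebra (ZMod 2) U.E := dcl (Set.range (U.uJ J))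

theorem UR.uJ_mem (J : Subgroup H) (h : ↥J) : U.uJ J h ∈ U.D J := by
  refine Algebra.mem_sInf.2 fun A hA => ?_
  exact hA.1 ⟨h, rfl⟩

/-- the group elements of a subgroup in the division closure -/
noncomputable def UR.w (J : Subgroup H) : ↥J →* ↥(U.D J) where
  toFun h := ⟨U.uJ J h, U.uJ_mem J h⟩
  map_one' := Subtype.ext (map_one _)
  map_mul' h k := Subtype.ext (map_mul _ h k)

/-- **the statement of the induction** -/
structure UR.Ok (J : Subgroup H) : Prop where
  div : DivA (U.D J)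
  flat : FlatOn.{0} (K := ZMod 2) (U.w J) (⊤ : Subgroup ↥J)

end

/-! ## Towers -/

/-- unitriangular integer matrices -/
def UTri {n : ℕ} (A : Matrix (Fin n) (Fin n) ℤ) : Prop := (∀ a, A a a = 1) ∧ ∀ a b, b < a → A a b = 0

/-- one step of a tower: `N` is a normal subgroup of `J`, and the elements of `J` which are not in `N` are separated from
`N` by homomorphisms `φ` from `J` to groups of unitriangular integer matrices, trivial on `N`, such that for all `t` a
subgroup `V` of finite index in `H` exists for which `φ` is trivial modulo `2 ^ t` on `V ∩ J` -/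
structure StepT {H : Type} [Group H] (J N : Subgroup H) : Prop where
  le : N ≤ J
  conj : ∀ h ∈ J, ∀ n ∈ N, h * n * h⁻¹ ∈ N
  sep : ∀ x : ↥J, (x : H) ∉ N → ∃ (n : ℕ) (φ : ↥J →* Matrix (Fin n) (Fin n) ℤ), (∀ y, UTri (φ y)) ∧
    (∀ y : ↥J, (y : H) ∈ N → φ y = 1) ∧ φ x ≠ 1 ∧
    ∀ t : ℕ, ∃ V : Subgroup H, V.FiniteIndex ∧ ∀ y : ↥J, (y : H) ∈ V → ∀ a b, a ≠ b → (2 : ℤ) ^ t ∣ φ y a b

/-- the subgroups at the top of a finite tower -/
inductive Tower {H : Type} [Group H] : Subgroup H → Prop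
  | bot : Tower ⊥
  | step (J N : Subgroup H) (hN : Tower N) (h : StepT J N) : Tower J

/-- the group `Γ` has boxes which the finite quotients of `H` see -/
def BxRF {H Γ : Type} [Group H] [Group Γ] (J : Subgroup H) (q : ↥J →* Γ) : Prop :=
  ∀ (S : Finset Γ) (ε : ℝ), 0 < ε → ∃ (W B : Subgroup Γ) (Φ D : Finset Γ), W.Normal ∧ W ≤ B ∧
    (∃ V : Subgroup H, V.FiniteIndex ∧ ∀ h : ↥J, (h : H) ∈ V → q h ∈ W) ∧
    Function.Bijective (fun x : Φ × B => (x.1 : Γ) * x.2) ∧ D ⊆ Φ ∧ (∀ a ∈ Φ, a ∉ D → ∀ s ∈ S, s * a ∈ Φ) ∧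
    (D.card : ℝ) ≤ ε * Φ.card

end Pool.Agent.TW
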