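import Pool.Agent.TW.Push
import Pool.Agent.H58.MN.Div
import Pool.Agent.S11.Ord

/-!
# Project TW, block I: definitions

`RkR A` = a ring with a rank function with values in `[0, 1]`.  `DCl S` = the division closure of `S` (closed under the inverses of
the units of `A`).  `Step A J Q` = one step of a tower: `u : J →* Aˣ`, `p : J →* Q` surjective, `E` a division ring in `A` which
contains the `u h`, `p h = 1`, and is stable under the conjugation by the `u h`.  `comp q = E * u h`, `p h = q`.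
`VV` = the series in `Ser A Q` (H58/MN, coefficient ring `A`) with coefficients `v q` in `comp q`.  `Tw Q` = bi-ordered quotients
`π j : Q →* Γ j` (weakly monotone) which separate.  `VF` = the fine series.  `Box` = idempotents `P x`, `x ∈ Γ`, `th` = the truncation
`∑ P x * v_(x y⁻¹) * P y`.  `Cmp z w` = the compatible pairs.
-/

set_option autoImplicit false
set_option linter.unusedSectionVars false

open Function

namespace Pool.Agent.TW.I

open Pool.Agent.H58.MN Pool.Agent.S11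

/-- a ring with a rank function -/
class RkR (A : Type) [Ring A] where
  /-- the rank -/
  rk : A → ℝ
  rk_zero : rk 0 = 0
  rk_one : rk 1 = 1
  rk_add : ∀ a b, rk (a + b) ≤ rk a + rk b
  rk_neg : ∀ a, rk (-a) = rk a
  rk_mul_le_left : ∀ a b, rk (a * b) ≤ rk a
  rk_mul_le_right : ∀ a b, rk (a * b) ≤ rk b
  eq_zero : ∀ a, rk a = 0 → a = 0
  isUnit : ∀ a, rk a = 1 → IsUnit a

export RkR (rk)

section

variable {A : Type} [Ring A]

/-- closed under the inverses of the units -/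
def InvCl (D : Subring A) : Prop := ∀ a : Aˣ, (a : A) ∈ D → ((a⁻¹ : Aˣ) : A) ∈ D

/-- the division closure of a set -/
def DCl (S : Set A) : Subring A := sInf {D | S ⊆ (D : Set A) ∧ InvCl D}

/-- all nonzero elements are units of `A` -/
def IsDiv (D : Subring A) : Prop := ∀ a ∈ D, a ≠ 0 → IsUnit a

theorem subset_DCl (S : Set A) : S ⊆ (DCl S : Set A) := by
  intro a ha
  show a ∈ DCl S
  rw [DCl, Subring.mem_sInf]
  exact fun D hD => hD.1 ha

theorem invCl_DCl (S : Set A) : InvCl (DCl S) := by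
  intro a ha
  rw [DCl, Subring.mem_sInf] at ha ⊢
  exact fun D hD => hD.2 a (ha D hD)

theorem DCl_le {S : Set A} {D : Subring A} (h : S ⊆ (D : Set A)) (hD : InvCl D) : DCl S ≤ D :=
  sInf_le ⟨h, hD⟩

end

/-- one step of a tower -/
structure Step (A J Q : Type) [Ring A] [Group J] [Group Q] where
  /-- the group in the units -/
  u : J →* Aˣ
  /-- the quotient -/
  p : J →* Q
  surj : Surjective p
  /-- the division ring of the kernel -/
  E : Subring A
  div : IsDiv E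
  inv : InvCl E
  ker : ∀ h, p h = 1 → ((u h : Aˣ) : A) ∈ E
  conj : ∀ h, ∀ e ∈ E, ((u h : Aˣ) : A) * e * (((u h)⁻¹ : Aˣ) : A) ∈ E

namespace Step

variable {A J Q : Type} [Ring A] [Group J] [Group Q] (S : Step A J Q)

theorem conj' (h : J) (e : A) (he : e ∈ S.E) : (((S.u h)⁻¹ : Aˣ) : A) * e * ((S.u h : Aˣ) : A) ∈ S.E := by
  have h1 := S.conj h⁻¹ e he
  rwa [map_inv, inv_inv] at h1

/-- the component of `q` -/
def comp (q : Q) : AddSubgroup A where
  carrier := {a | ∀ h, S.p h = q → a * (((S.u h)⁻¹ : Aˣ) : A) ∈ S.E}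
  zero_mem' := fun h _ => by
    rw [zero_mul]
    exact S.E.zero_mem
  add_mem' := fun {a b} ha hb h hh => by
    rw [add_mul]
    exact S.E.add_mem (ha h hh) (hb h hh)
  neg_mem' := fun {a} ha h hh => by
    rw [neg_mul]
    exact S.E.neg_mem (ha h hh)

theorem mem_comp_iff {q : Q} {a : A} {h : J} (hh : S.p h = q) :
    a ∈ S.comp q ↔ a * (((S.u h)⁻¹ : Aˣ) : A) ∈ S.E := by
  constructor
  · intro ha
    exact ha h hh
  · intro ha h' hh'
    have h1 : S.p (h * h'⁻¹) = 1 := by rw [map_mul, map_inv, hh, hh', mul_inv_cancel]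
    have h2 := S.E.mul_mem ha (S.ker _ h1)
    have h3 : a * (((S.u h)⁻¹ : Aˣ) : A) * ((S.u (h * h'⁻¹) : Aˣ) : A) = a * (((S.u h')⁻¹ : Aˣ) : A) := by
      rw [mul_assoc, ← Units.val_mul, map_mul, map_inv, inv_mul_cancel_left]
    rwa [h3] at h2

theorem mul_mem_comp {q : Q} {e : A} (he : e ∈ S.E) {h : J} (hh : S.p h = q) :
    e * ((S.u h : Aˣ) : A) ∈ S.comp q := by
  rw [S.mem_comp_iff hh, mul_assoc, ← Units.val_mul, mul_inv_cancel, Units.val_one, mul_one]
  exact he

theorem exists_of_mem_comp {q : Q} {a : A} (ha : a ∈ S.comp q) :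
    ∃ e ∈ S.E, ∃ h, S.p h = q ∧ a = e * ((S.u h : Aˣ) : A) := by
  obtain ⟨h, hh⟩ := S.surj q
  refine ⟨_, ha h hh, h, hh, ?_⟩
  rw [mul_assoc, ← Units.val_mul, inv_mul_cancel, Units.val_one, mul_one]

theorem u_mem_comp (h : J) : ((S.u h : Aˣ) : A) ∈ S.comp (S.p h) := by
  have h1 := S.mul_mem_comp S.E.one_mem (h := h) rfl
  rwa [one_mul] at h1

theorem mem_comp_one {a : A} : a ∈ S.comp 1 ↔ a ∈ S.E := by
  rw [S.mem_comp_iff (h := 1) (map_one _), map_one, inv_one, Units.val_one, mul_one]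

theorem comp_mul {q q' : Q} {a b : A} (ha : a ∈ S.comp q) (hb : b ∈ S.comp q') :
    a * b ∈ S.comp (q * q') := by
  obtain ⟨e, he, h, hh, rfl⟩ := S.exists_of_mem_comp ha
  obtain ⟨e', he', h', hh', rfl⟩ := S.exists_of_mem_comp hb
  have h1 := S.mul_mem_comp (S.E.mul_mem he (S.conj h e' he')) (q := q * q') (h := h * h')
    (by rw [map_mul, hh, hh'])
  refine cast ?_ h1
  congr 1
  rw [map_mul, Units.val_mul]
  have h2 : (((S.u h)⁻¹ : Aˣ) : A) * (((S.u h : Aˣ) : A) * ((S.u h' : Aˣ) : A)) = ((S.u h' : Aˣ) : A) := by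
    rw [← mul_assoc, ← Units.val_mul, inv_mul_cancel, Units.val_one, one_mul]
  calc e * (((S.u h : Aˣ) : A) * e' * (((S.u h)⁻¹ : Aˣ) : A)) * (((S.u h : Aˣ) : A) * ((S.u h' : Aˣ) : A))
      = e * ((S.u h : Aˣ) : A) * e' * ((((S.u h)⁻¹ : Aˣ) : A) * (((S.u h : Aˣ) : A) * ((S.u h' : Aˣ) : A))) := by
        noncomm_ring
    _ = e * ((S.u h : Aˣ) : A) * (e' * ((S.u h' : Aˣ) : A)) := by rw [h2]; noncomm_ring

/-- nonzero elements of a component are units, and the inverse is in the component of the inverse -/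
theorem comp_inv {q : Q} {a : A} (ha : a ∈ S.comp q) (h0 : a ≠ 0) :
    ∃ b : Aˣ, (b : A) = a ∧ ((b⁻¹ : Aˣ) : A) ∈ S.comp q⁻¹ := by
  obtain ⟨e, he, h, hh, rfl⟩ := S.exists_of_mem_comp ha
  have he0 : e ≠ 0 := fun h1 => h0 (by rw [h1, zero_mul])
  obtain ⟨e', rfl⟩ := S.div e he he0
  refine ⟨e' * S.u h, Units.val_mul _ _, ?_⟩
  have h1 := S.conj' h _ (S.inv e' he)
  have h2 := S.mul_mem_comp h1 (q := q⁻¹) (h := h⁻¹) (by rw [map_inv, hh])
  refine cast ?_ h2
  congr 1
  have h3 : ((S.u h⁻¹ : Aˣ) : A) = (((S.u h)⁻¹ : Aˣ) : A) := by rw [map_inv]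
  rw [h3, mul_assoc _ ((S.u h : Aˣ) : A), ← Units.val_mul (S.u h), mul_inv_cancel, Units.val_one,
    mul_one, mul_inv_rev, Units.val_mul]

variable [BO Q]

/-- the series with coefficients in the components -/
noncomputable def VV : Subring (Ser A Q) where
  carrier := {v | ∀ q, v q ∈ S.comp q}
  zero_mem' := fun q => (S.comp q).zero_mem
  one_mem' := fun q => by
    by_cases h : q = 1
    · subst h
      rw [Ser.one_def, Ser.single_self, S.mem_comp_one]
      exact S.E.one_mem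
    · rw [Ser.one_def, Ser.single_ne h]
      exact (S.comp q).zero_mem
  add_mem' := fun {v w} hv hw q => by
    rw [Ser.add_apply]
    exact (S.comp q).add_mem (hv q) (hw q)
  neg_mem' := fun {v} hv q => by
    rw [Ser.neg_apply]
    exact (S.comp q).neg_mem (hv q)
  mul_mem' := fun {v w} hv hw q => by
    rw [Ser.mul_apply]
    refine finsum_induction (· ∈ S.comp q) ?_ ?_ ?_
    · exact (S.comp q).zero_mem
    · exact fun a b ha hb => (S.comp q).add_mem ha hb
    · intro a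
      have h1 := S.comp_mul (hv a) (hw (a⁻¹ * q))
      rwa [mul_inv_cancel_left] at h1

theorem mem_VV {v : Ser A Q} : v ∈ S.VV ↔ ∀ q, v q ∈ S.comp q := Iff.rfl

end Step

/-- bi-ordered quotients of a bi-ordered group which separate the elements -/
structure Tw (Q : Type) [Group Q] [BO Q] where
  /-- the groups -/
  Γ : ℕ → Type
  /-- they are groups -/
  grp : ∀ j, Group (Γ j)
  /-- they are ordered -/
  bo : ∀ j, BO (Γ j)
  /-- the homomorphisms -/
  π : ∀ j, Q →* Γ j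
  mono : ∀ j x, 1 < x → 1 ≤ π j x
  dec : ∀ i j x, i ≤ j → π j x = 1 → π i x = 1
  sep : ∀ x, x ≠ 1 → ∃ j, π j x ≠ 1

attribute [instance] Tw.grp Tw.bo

/-- the support is good for all large `j` -/
def Fine {Q : Type} [Group Q] [BO Q] (T : Tw Q) {A : Type} [Ring A] (v : Ser A Q) : Prop :=
  ∃ j0, ∀ j, j0 ≤ j → Good (T.π j) (support v)

namespace Step

variable {A J Q : Type} [Ring A] [Group J] [Group Q] (S : Step A J Q) [BO Q] (T : Tw Q)

/-- the fine series with coefficients in the components -/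
noncomputable def VF : Subring (Ser A Q) where
  carrier := {v | v ∈ S.VV ∧ Fine T v}
  zero_mem' := ⟨S.VV.zero_mem, 0, fun j _ => (goodSub (T.π j) A).zero_mem⟩
  one_mem' := ⟨S.VV.one_mem, 0, fun j _ => (goodSub (T.π j) A).one_mem⟩
  add_mem' := by
    rintro v w ⟨hv, i, hi⟩ ⟨hw, j, hj⟩
    exact ⟨S.VV.add_mem hv hw, max i j, fun k hk => (goodSub (T.π k) A).add_mem
      (hi k (le_trans (le_max_left _ _) hk)) (hj k (le_trans (le_max_right _ _) hk))⟩
  neg_mem' := by
    rintro v ⟨hv, i, hi⟩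
    exact ⟨S.VV.neg_mem hv, i, fun k hk => (goodSub (T.π k) A).neg_mem (hi k hk)⟩
  mul_mem' := by
    rintro v w ⟨hv, i, hi⟩ ⟨hw, j, hj⟩
    exact ⟨S.VV.mul_mem hv hw, max i j, fun k hk => (goodSub (T.π k) A).mul_mem
      (hi k (le_trans (le_max_left _ _) hk)) (hj k (le_trans (le_max_right _ _) hk))⟩

theorem mem_VF {v : Ser A Q} : v ∈ S.VF T ↔ v ∈ S.VV ∧ Fine T v := Iff.rfl

open Classical in
/-- A box for `π : Q →* G`: idempotents `P x`, `x ∈ G`, orthogonal with sum `1` for `x ∈ Φ`; the elements of the component of `q`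
carry `P x` to `P (π q * x)`; the boundary of `Φ` in the directions `q ∈ F` has rank at most `δ`. -/
structure Box [RkR A] {G : Type} [Group G] (π : Q →* G) (F : Finset Q) (δ : ℝ) where
  /-- the box -/
  Φ : Finset G
  /-- the idempotents -/
  P : G → A
  idem : ∀ x ∈ Φ, P x * P x = P x
  orth : ∀ x ∈ Φ, ∀ y ∈ Φ, x ≠ y → P x * P y = 0
  sum : ∑ x ∈ Φ, P x = 1
  comm : ∀ q, ∀ a ∈ S.comp q, ∀ x, a * P x = P (π q * x) * a
  bd1 : ∀ q ∈ F, rk (∑ x ∈ Φ.filter (fun x => π q * x ∉ Φ), P (π q * x)) ≤ δ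
  bd2 : ∀ q ∈ F, rk (∑ x ∈ Φ.filter (fun x => (π q)⁻¹ * x ∉ Φ), P x) ≤ δ

variable {S}

/-- the truncation of the series `v` to the box -/
noncomputable def Box.th [RkR A] {G : Type} [Group G] [BO G] {π : Q →* G} {F : Finset Q} {δ : ℝ}
    (B : S.Box π F δ) (v : Ser A Q) : A :=
  ∑ x ∈ B.Φ, ∑ y ∈ B.Φ, B.P x * pushFun π v (x * y⁻¹) * B.P y

variable (S)

/-- compatible pairs: `w * th y` is close to `th (z * y)` for all `y`, uniformly -/
def Cmp [RkR A] (z : Ser A Q) (w : A) : Prop :=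
  ∃ j0, ∀ j, j0 ≤ j → ∀ ε : ℝ, 0 < ε → ∃ F : Finset Q, ∃ δ : ℝ, 0 < δ ∧ ∀ B : S.Box (T.π j) F δ,
    ∀ y ∈ S.VV, Good (T.π j) (support y) → rk (w * B.th y - B.th (z * y)) ≤ ε

/-- there are boxes -/
def HasBox [RkR A] : Prop :=
  ∃ j0, ∀ j, j0 ≤ j → ∀ (F : Finset Q) (δ : ℝ), 0 < δ → Nonempty (S.Box (T.π j) F δ)

end Step

end Pool.Agent.TW.I
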