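import Pool.Agent.TW.Defs

/-!
# Project TW, examples: extensions

`r : H →* Q` surjective with kernel `K`; hypothesis `hP`: every subgroup of finite index of `K` contains `V ∩ K` for some `V` of finite index in `H`
(the profinite topology of `H` induces the profinite topology of `K`; for instance for split extensions with finitely generated kernel, and for
finitely generated `K` and `Q` good in the sense of Serre in degree two).
PROOF.  (1) For `T : Subgroup ↥r.ker` with `Tower T`: `Tower (T.map r.ker.subtype)` (induction): the homomorphism `φ` of a step is transported by the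
isomorphism of `T` and `T.map`, the subgroup `V₀` of `↥r.ker` is replaced by the `V` of `hP`.  (2) For `T : Subgroup Q` with `Tower T`:
`Tower (T.comap r)` (induction): `⊥.comap r = r.ker = ⊤.map r.ker.subtype`; step: `φ ∘ r`, `V.comap r` (finite index).
-/

set_option autoImplicit false
set_option linter.unusedSectionVars false

namespace Pool.Agent.TW

section

variable {H Q : Type} [Group H] [Group Q] (r : H →* Q)
  (hP : ∀ V₀ : Subgroup ↥r.ker, V₀.FiniteIndex → ∃ V : Subgroup H, V.FiniteIndex ∧ ∀ x : ↥r.ker, (x : H) ∈ V → x ∈ V₀)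

include hP in
theorem Tower.mapK {T : Subgroup ↥r.ker} (hT : Tower T) : Tower (T.map r.ker.subtype) := by
  have hf : Function.Injective r.ker.subtype := r.ker.subtype_injective
  induction hT with
  | bot =>
    rw [Subgroup.map_bot]
    exact Tower.bot
  | step J N hN h ih =>
    refine Tower.step _ _ ih ⟨Subgroup.map_mono h.le, ?_, ?_⟩
    · rintro _ ⟨a, ha, rfl⟩ _ ⟨b, hb, rfl⟩
      exact ⟨a * b * a⁻¹, h.conj a ha b hb, by rw [map_mul, map_mul, map_inv]⟩
    · intro x hx
      have hcoe : ∀ y : ↥(J.map r.ker.subtype),
          r.ker.subtype ((J.equivMapOfInjective r.ker.subtype hf).symm y : ↥r.ker) = (y : H) := by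
        intro y
        rw [← Subgroup.coe_equivMapOfInjective_apply J r.ker.subtype hf, MulEquiv.apply_symm_apply]
      have hxN : (((J.equivMapOfInjective r.ker.subtype hf).symm x : ↥J) : ↥r.ker) ∉ N := by
        intro hc
        exact hx ⟨_, hc, hcoe x⟩
      obtain ⟨n, φ, h1, h2, h3, h4⟩ := h.sep _ hxN
      refine ⟨n, φ.comp (J.equivMapOfInjective r.ker.subtype hf).symm.toMonoidHom, fun y => h1 _, ?_, h3, ?_⟩
      · rintro y ⟨b, hb, hby⟩
        apply h2
        have hb' : r.ker.subtype b =
            r.ker.subtype ((J.equivMapOfInjective r.ker.subtype hf).symm y : ↥r.ker) := by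
          rw [hby, hcoe y]
        have := hf hb'
        rw [this] at hb
        exact hb
      · intro t
        obtain ⟨V₀, hV₀, h5⟩ := h4 t
        obtain ⟨V, hV, h6⟩ := hP V₀ hV₀
        refine ⟨V, hV, fun y hy a b hab => ?_⟩
        refine h5 _ (h6 _ ?_) a b hab
        have h7 := hcoe y
        rw [← h7] at hy
        exact hy

include hP in
/-- **Extensions** -/
theorem Tower.ext (h1 : Tower (⊤ : Subgroup ↥r.ker)) {T : Subgroup Q} (hT : Tower T) : Tower (T.comap r) := by
  induction hT with
  | bot =>
    have h2 := Tower.mapK r hP h1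
    rw [← MonoidHom.range_eq_map, Subgroup.range_subtype] at h2
    rw [MonoidHom.comap_bot]
    exact h2
  | step J N hN h ih =>
    refine Tower.step _ _ ih ⟨Subgroup.comap_mono h.le, ?_, ?_⟩
    · intro a ha b hb
      rw [Subgroup.mem_comap] at ha hb ⊢
      rw [map_mul, map_mul, map_inv]
      exact h.conj _ ha _ hb
    · intro x hx
      have hx' : ((r.subgroupComap J x : ↥J) : Q) ∉ N := hx
      obtain ⟨n, φ, h2, h3, h4, h5⟩ := h.sep _ hx'
      refine ⟨n, φ.comp (r.subgroupComap J), fun y => h2 _, fun y hy => h3 _ hy, h4, fun t => ?_⟩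
      obtain ⟨V, hV, h6⟩ := h5 t
      refine ⟨V.comap r, ?_, fun y hy a b hab => h6 (r.subgroupComap J y) hy a b hab⟩
      have hfi : V.FiniteIndex := hV
      refine ⟨?_⟩
      rw [Subgroup.index_comap]
      exact (Subgroup.instFiniteIndex_subgroupOf V r.range).index_ne_zero

end

end Pool.Agent.TW
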