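import Mathlib

/-!
# Project TW, examples: the profinite completion of a free group with at least two generators has trivial center

For every subgroup `V₀` of finite index there is a subgroup `C` of finite index such that `[n, F] ⊆ C` implies `n ∈ V₀`.
PROOF.  For a homomorphism `π` to a finite group `G` and a generator `a` let `Phi π a : F →* Perm (G × ℤ/2)`: a generator `i` sends `(h, s)` to `(π i * h, s)`,
except that `a` sends `(1, s)` to `(π a, s + 1)`.  (1) If `Phi n` commutes with `Phi (a ^ m)`, `m` = the order of `π a`, then `π n` is a power of `π a`.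
(2) If `Phi (a ^ i) = Phi (b ^ j)`, `b ≠ a`, then `π (a ^ i) = 1`.  Apply (1) to `π₂ = Phi π₁ a` with `a` and with `b`, and (2) to `π₁`.
-/

set_option autoImplicit false
set_option linter.unusedSectionVars false

namespace Pool.Agent.TW

namespace ExF

open Classical in
/-- the permutation of a generator -/
noncomputable def gen {G : Type} [Group G] (g : G) (c : Prop) : Equiv.Perm (G × ZMod 2) where
  toFun p := (g * p.1, p.2 + if c ∧ p.1 = 1 then 1 else 0)
  invFun p := (g⁻¹ * p.1, p.2 - if c ∧ g⁻¹ * p.1 = 1 then 1 else 0)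
  left_inv p := by
    refine Prod.ext ?_ ?_
    · exact inv_mul_cancel_left g p.1
    · dsimp only
      rw [inv_mul_cancel_left, add_sub_cancel_right]
  right_inv p := by
    refine Prod.ext ?_ ?_
    · exact mul_inv_cancel_left g p.1
    · dsimp only
      rw [sub_add_cancel]

theorem gen_ne {G : Type} [Group G] (g : G) (c : Prop) (h : G) (s : ZMod 2) (hc : ¬ (c ∧ h = 1)) :
    gen g c (h, s) = (g * h, s) := by
  classical
  refine Prod.ext rfl ?_
  change s + (if c ∧ h = 1 then 1 else 0) = s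
  rw [if_neg hc, add_zero]

theorem gen_one {G : Type} [Group G] (g : G) (c : Prop) (hc : c) (s : ZMod 2) : gen g c (1, s) = (g, s + 1) := by
  classical
  refine Prod.ext ?_ ?_
  · exact mul_one g
  · change s + (if c ∧ (1 : G) = 1 then 1 else 0) = s + 1
    rw [if_pos ⟨hc, rfl⟩]

section

variable {α G : Type} [Group G] (π : FreeGroup α →* G) (a : α)

/-- the homomorphism to the permutations -/
noncomputable def Phi : FreeGroup α →* Equiv.Perm (G × ZMod 2) :=
  FreeGroup.lift fun i => gen (π (FreeGroup.of i)) (i = a)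

theorem Phi_of (i : α) : Phi π a (FreeGroup.of i) = gen (π (FreeGroup.of i)) (i = a) := FreeGroup.lift_apply_of

theorem Phi_fst (x : FreeGroup α) (p : G × ZMod 2) : (Phi π a x p).1 = π x * p.1 := by
  induction x using FreeGroup.induction_on generalizing p with
  | C1 => rw [map_one, map_one, one_mul]; rfl
  | of i => rw [Phi_of]; rfl
  | inv_of i _ =>
    rw [map_inv, map_inv, Phi_of]
    rfl
  | mul x y hx hy => rw [map_mul, Equiv.Perm.mul_apply, hx, hy, map_mul, mul_assoc]

theorem Phi_pow_other {h : G} (hh : h ∉ Subgroup.zpowers (π (FreeGroup.of a))) (k : ℕ) (s : ZMod 2) :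
    (Phi π a (FreeGroup.of a) ^ k) (h, s) = (π (FreeGroup.of a) ^ k * h, s) := by
  induction k with
  | zero => rw [pow_zero, pow_zero, one_mul]; rfl
  | succ k ih =>
    rw [pow_succ', Equiv.Perm.mul_apply, ih, Phi_of, gen_ne, pow_succ', mul_assoc]
    rintro ⟨-, h1⟩
    apply hh
    rw [← inv_mem_iff, ← eq_inv_of_mul_eq_one_left h1]
    exact Subgroup.npow_mem_zpowers _ _

theorem Phi_pow_b {b : α} (hb : b ≠ a) (h : G) (k : ℕ) (s : ZMod 2) :
    (Phi π a (FreeGroup.of b) ^ k) (h, s) = (π (FreeGroup.of b) ^ k * h, s) := by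
  induction k with
  | zero => rw [pow_zero, pow_zero, one_mul]; rfl
  | succ k ih =>
    rw [pow_succ', Equiv.Perm.mul_apply, ih, Phi_of, gen_ne, pow_succ', mul_assoc]
    rintro ⟨h1, -⟩
    exact hb h1

theorem Phi_pow_one (k : ℕ) (h1 : 1 ≤ k) (hk : k ≤ orderOf (π (FreeGroup.of a))) (s : ZMod 2) :
    (Phi π a (FreeGroup.of a) ^ k) (1, s) = (π (FreeGroup.of a) ^ k, s + 1) := by
  induction k, h1 using Nat.le_induction with
  | base => rw [pow_one, pow_one, Phi_of, gen_one _ _ rfl]
  | succ k h1 ih =>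
    rw [pow_succ', Equiv.Perm.mul_apply, ih (by omega), Phi_of, gen_ne, pow_succ']
    rintro ⟨-, h2⟩
    have h3 := orderOf_le_of_pow_eq_one (by omega) h2
    omega

theorem Phi_pow_period [Finite G] (q : ℕ) (s : ZMod 2) :
    (Phi π a (FreeGroup.of a) ^ (q * orderOf (π (FreeGroup.of a)))) (1, s) = (1, s + q) := by
  induction q with
  | zero => rw [zero_mul, pow_zero, Nat.cast_zero, add_zero]; rfl
  | succ q ih =>
    have h0 : 0 < orderOf (π (FreeGroup.of a)) := orderOf_pos _
    rw [add_mul, one_mul, add_comm, pow_add, Equiv.Perm.mul_apply, ih, Phi_pow_one π a _ h0 le_rfl, pow_orderOf_eq_one,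
      Nat.cast_add, Nat.cast_one, add_assoc]

/-- (1) -/
theorem mem_zpowers_of_comm [Finite G] (n : FreeGroup α)
    (h : Phi π a n * Phi π a (FreeGroup.of a ^ orderOf (π (FreeGroup.of a))) =
      Phi π a (FreeGroup.of a ^ orderOf (π (FreeGroup.of a))) * Phi π a n) :
    π n ∈ Subgroup.zpowers (π (FreeGroup.of a)) := by
  by_contra hn
  have h0 : 0 < orderOf (π (FreeGroup.of a)) := orderOf_pos _
  have h1 := congrArg (fun f : Equiv.Perm (G × ZMod 2) => f (1, 0)) h
  simp only [Equiv.Perm.mul_apply, map_pow] at h1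
  rw [Phi_pow_one π a _ h0 le_rfl, pow_orderOf_eq_one, zero_add] at h1
  have h2 : Phi π a n (1, 0) = (π n, (Phi π a n (1, 0)).2) := Prod.ext (by rw [Phi_fst, mul_one]) rfl
  rw [h2, Phi_pow_other π a hn, pow_orderOf_eq_one, one_mul, ← h2] at h1
  have h3 := (Phi π a n).injective h1
  have h4 : (1 : ZMod 2) = 0 := congrArg Prod.snd h3
  exact absurd h4 (by decide)

/-- (2) -/
theorem pow_eq_one_of_eq [Finite G] {b : α} (hb : b ≠ a) (i j : ℕ)
    (h : Phi π a (FreeGroup.of a) ^ i = Phi π a (FreeGroup.of b) ^ j) : π (FreeGroup.of a) ^ i = 1 := by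
  have h0 : 0 < orderOf (π (FreeGroup.of a)) := orderOf_pos _
  by_contra hi
  have hr : i % orderOf (π (FreeGroup.of a)) ≠ 0 := by
    intro hr
    apply hi
    rw [← Nat.dvd_iff_mod_eq_zero] at hr
    exact orderOf_dvd_iff_pow_eq_one.1 hr
  have hlt := Nat.mod_lt i h0
  have hdiv := Nat.mod_add_div' i (orderOf (π (FreeGroup.of a)))
  have hsnd : ∀ (g : G) (s : ZMod 2), ((Phi π a (FreeGroup.of a) ^ i) (g, s)).2 = s := by
    intro g s
    rw [h, Phi_pow_b π a hb]
  have h1 : ((i / orderOf (π (FreeGroup.of a)) : ℕ) : ZMod 2) + 1 = 0 := by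
    have h2 := hsnd 1 0
    rw [← hdiv, pow_add, Equiv.Perm.mul_apply, Phi_pow_period, Phi_pow_one π a _ (by omega) hlt.le] at h2
    rw [zero_add] at h2
    exact h2
  have h3 : ((i / orderOf (π (FreeGroup.of a)) : ℕ) : ZMod 2) = 0 := by
    have h2 := hsnd (π (FreeGroup.of a)) 1
    have h4 : ((π (FreeGroup.of a), 1) : G × ZMod 2) = Phi π a (FreeGroup.of a) (1, 0) := by
      rw [Phi_of, gen_one _ _ rfl, zero_add]
    rw [h4, ← Equiv.Perm.mul_apply, ← pow_succ] at h2
    have h5 : i + 1 = (i % orderOf (π (FreeGroup.of a)) + 1) +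
        i / orderOf (π (FreeGroup.of a)) * orderOf (π (FreeGroup.of a)) := by omega
    rw [h5, pow_add, Equiv.Perm.mul_apply, Phi_pow_period, Phi_pow_one π a _ (by omega) (by omega), zero_add] at h2
    exact add_eq_right.1 h2
  rw [h3, zero_add] at h1
  exact absurd h1 (by decide)

end

/-- **The center of the profinite completion of a free group with at least two generators is trivial** -/
theorem free_center {α : Type} (a b : α) (hab : b ≠ a) (V₀ : Subgroup (FreeGroup α)) (hV₀ : V₀.FiniteIndex) :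
    ∃ C : Subgroup (FreeGroup α), C.FiniteIndex ∧ ∀ n, (∀ k, n * k * n⁻¹ * k⁻¹ ∈ C) → n ∈ V₀ := by
  let π₁ : FreeGroup α →* Equiv.Perm (FreeGroup α ⧸ V₀) := MulAction.toPermHom _ _
  have hf1 : Finite (Equiv.Perm (FreeGroup α ⧸ V₀)) := inferInstance
  let π₂ : FreeGroup α →* Equiv.Perm (Equiv.Perm (FreeGroup α ⧸ V₀) × ZMod 2) := Phi π₁ a
  have hf2 : Finite (Equiv.Perm (Equiv.Perm (FreeGroup α ⧸ V₀) × ZMod 2)) := inferInstance
  have hf3 : Finite (Equiv.Perm (Equiv.Perm (Equiv.Perm (FreeGroup α ⧸ V₀) × ZMod 2) × ZMod 2)) := inferInstance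
  have ha : (Phi π₂ a).ker.FiniteIndex := Subgroup.finiteIndex_ker _
  have hb : (Phi π₂ b).ker.FiniteIndex := Subgroup.finiteIndex_ker _
  refine ⟨(Phi π₂ a).ker ⊓ (Phi π₂ b).ker, inferInstance, fun n hn => ?_⟩
  have hcomm : ∀ (c : α), (∀ k, n * k * n⁻¹ * k⁻¹ ∈ (Phi π₂ c).ker) → ∀ k,
      Phi π₂ c n * Phi π₂ c k = Phi π₂ c k * Phi π₂ c n := by
    intro c hc k
    have h1 : Phi π₂ c (n * k * n⁻¹ * k⁻¹) = 1 := hc k
    rw [map_mul, map_mul, map_mul, map_inv, map_inv, mul_inv_eq_one, mul_inv_eq_iff_eq_mul] at h1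
    exact h1
  have h1 := mem_zpowers_of_comm π₂ a n (hcomm a (fun k => (hn k).1) _)
  have h2 := mem_zpowers_of_comm π₂ b n (hcomm b (fun k => (hn k).2) _)
  rw [← mem_powers_iff_mem_zpowers] at h1 h2
  obtain ⟨i, hi⟩ := h1
  obtain ⟨j, hj⟩ := h2
  have h3 : π₁ (FreeGroup.of a) ^ i = 1 := pow_eq_one_of_eq π₁ a hab i j (hi.trans hj.symm)
  have h4 : π₁ n = 1 := by
    have h5 : (π₂ n (1, 0)).1 = π₁ n := by
      rw [show π₂ n = Phi π₁ a n from rfl, Phi_fst, mul_one]
    have h6 : (π₂ n (1, 0)).1 = π₁ (FreeGroup.of a) ^ i := by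
      have h7 : π₂ n = Phi π₁ a (FreeGroup.of a ^ i) := by
        rw [map_pow]
        exact hi.symm
      rw [h7, Phi_fst, mul_one, map_pow]
    rw [← h5, h6, h3]
  have h8 : n ∈ V₀.normalCore := by
    rw [Subgroup.normalCore_eq_ker]
    exact h4
  exact Subgroup.normalCore_le V₀ h8

end ExF

end Pool.Agent.TW
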