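import Pool.Agent.TW.ExC
import Pool.Agent.TW.CFe
import Pool.Agent.TW.ExF

/-!
# Project TW, examples: extensions (split or not) with a finitely generated nonabelian free kernel
-/

set_option autoImplicit false
set_option linter.unusedSectionVars false

namespace Pool.Agent.TW

/-- free groups are residually unitriangular -/
theorem rut_free (k : ℕ) : S12.RUT (FreeGroup (Fin k)) := by
  refine S12.RUT.of_raag (⊥ : SimpleGraph (Fin k)) (PresentedGroup.mk (H68.Amp.raagRels (⊥ : SimpleGraph (Fin k)))) ?_
  rw [injective_iff_map_eq_one]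
  intro x hx
  rw [PresentedGroup.mk_eq_one_iff] at hx
  have h1 : H68.Amp.raagRels (⊥ : SimpleGraph (Fin k)) = ∅ := by
    ext r
    constructor
    · rintro ⟨u, v, h, -⟩
      exact absurd h (by simp)
    · exact fun h => absurd h (Set.notMem_empty r)
  rw [h1, Subgroup.normalClosure_empty] at hx
  exact hx

theorem rut_of_injective {G H : Type} [Group G] [Group H] (f : G →* H) (hf : Function.Injective f) (h : S12.RUT H) :
    S12.RUT G := by
  intro x hx
  obtain ⟨n, φ, h1, h2⟩ := h (f x) fun h0 => hx (hf (h0.trans (map_one f).symm))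
  exact ⟨n, φ.comp f, fun y => h1 (f y), h2⟩

/-- nonabelian free groups satisfy `CF` -/
theorem CF.free {k : ℕ} (hk : 2 ≤ k) : CF (FreeGroup (Fin k)) := fun V₀ hV₀ =>
  ExF.free_center (⟨0, by omega⟩ : Fin k) ⟨1, by omega⟩ (by simp) V₀ hV₀

/-- **Extensions (split or not) with a finitely generated nonabelian free kernel** -/
theorem Tower.ext_free {H Q : Type} [Group H] [Group Q] (r : H →* Q) {k : ℕ} (hk : 2 ≤ k)
    (e : FreeGroup (Fin k) ≃* ↥r.ker) {T : Subgroup Q} (hT : Tower T) : Tower (T.comap r) :=
  Tower.ext_center r (Group.fg_of_surjective (f := e.toMonoidHom) e.surjective) (CF.of_equiv e (CF.free hk))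
    (Tower.of_rut (rut_of_injective e.symm.toMonoidHom e.symm.injective (rut_free k))) hT

end Pool.Agent.TW
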