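import Pool.Agent.TW.ExS
import Mathlib.GroupTheory.HNNExtension

/-!
# Project TW, examples: HNN extensions along identities of closed subgroups

`FreeGroup S ⋊ A`, where the group `A` acts on the set `S`: the generators `t_x` (`x` in `S`) are permuted by `A`.  Let
`x_i` be representatives of the orbits and `C_i` their stabilizers; the group is the multiple HNN extension of `A` with
stable letters `t_i`, which commute with `C_i`.  It has a tower if `A` has a tower and the subgroups `C_i` are closed in the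
profinite topology of `A` (`Tower.free_semi`); so do all its subgroups (`Tower.of_inj`).  For instance the fundamental group
of a graph of groups is such a subgroup if there is a homomorphism from it to `A` which is injective on the vertex groups
and if the images of the edge groups are closed in `A`: free products, amalgamated products of `A` and `B` along a common
retract, graph products, doubles of `A` along a closed subgroup.
-/

set_option autoImplicit false
set_option linter.unusedSectionVars false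

namespace Pool.Agent.TW

/-- preimages of subgroups of finite index -/
theorem fi_comap {H Q : Type} [Group H] [Group Q] (r : H →* Q) {V : Subgroup Q} (hV : V.FiniteIndex) :
    (V.comap r).FiniteIndex := by
  refine ⟨fun h0 => ?_⟩
  rw [Subgroup.index_comap] at h0
  have h1 : (V.subgroupOf r.range).FiniteIndex := inferInstance
  exact h1.index_ne_zero h0

/-- preimages of towers under homomorphisms whose kernel has a tower -/
theorem Tower.comap_gen {H Q : Type} [Group H] [Group Q] (r : H →* Q) (h1 : Tower r.ker) {T : Subgroup Q}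
    (hT : Tower T) : Tower (T.comap r) := by
  induction hT with
  | bot => exact h1
  | step J N hN h ih =>
    refine Tower.step _ _ ih ⟨Subgroup.comap_mono h.le, ?_, ?_⟩
    · intro x hx y hy
      rw [Subgroup.mem_comap] at hx hy ⊢
      rw [map_mul, map_mul, map_inv]
      exact h.conj _ hx _ hy
    · intro x hx
      obtain ⟨n, φ, h3, h4, h5, h6⟩ := h.sep ⟨r (x : H), x.2⟩ hx
      refine ⟨n, φ.comp (r.subgroupComap J), fun y => h3 _, fun y hy => h4 _ hy, h5, ?_⟩
      intro t
      obtain ⟨V, hV, h7⟩ := h6 t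
      exact ⟨V.comap r, fi_comap r hV, fun y hy => h7 _ hy⟩

/-- subgroups -/
theorem Tower.of_inj {H Q : Type} [Group H] [Group Q] (f : H →* Q) (hf : Function.Injective f)
    (hT : Tower (⊤ : Subgroup Q)) : Tower (⊤ : Subgroup H) := by
  have h1 : Tower f.ker := by
    rw [(MonoidHom.ker_eq_bot_iff f).2 hf]
    exact Tower.bot
  have h2 := Tower.comap_gen f h1 hT
  rwa [Subgroup.comap_top] at h2

/-- reduction modulo `2 ^ t` -/
private theorem exh_red {H : Type} [Group H] {n : ℕ} (φ : H →* Matrix (Fin n) (Fin n) ℤ) (t : ℕ) :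
    ∃ V : Subgroup H, V.FiniteIndex ∧ ∀ y ∈ V, ∀ a b, a ≠ b → (2 : ℤ) ^ t ∣ φ y a b := by
  have hne : NeZero (2 ^ t) := ⟨by positivity⟩
  have hfin : Finite (Matrix (Fin n) (Fin n) (ZMod (2 ^ t))) := by
    unfold Matrix
    infer_instance
  let ψ := (((Int.castRingHom (ZMod (2 ^ t))).mapMatrix :
    Matrix (Fin n) (Fin n) ℤ →+* Matrix (Fin n) (Fin n) (ZMod (2 ^ t))).toMonoidHom.comp φ)
  have h1 : Finite ψ.toHomUnits.range := inferInstance
  refine ⟨ψ.toHomUnits.ker, Subgroup.finiteIndex_ker _, fun y hy a b hab => ?_⟩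
  have h2 : ψ.toHomUnits y = 1 := hy
  have h3 : ψ y = 1 := by
    rw [← MonoidHom.coe_toHomUnits, h2, Units.val_one]
  have h4 : ((Int.castRingHom (ZMod (2 ^ t))).mapMatrix (φ y)) a b =
      (1 : Matrix (Fin n) (Fin n) (ZMod (2 ^ t))) a b := congrFun (congrFun h3 a) b
  rw [Matrix.one_apply_ne hab] at h4
  have h5 : ((φ y a b : ℤ) : ZMod (2 ^ t)) = 0 := h4
  have h6 := (ZMod.intCast_zmod_eq_zero_iff_dvd _ _).1 h5
  push_cast at h6
  exact h6

/-! ## Free groups -/

/-- a word uses finitely many letters -/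
theorem free_supp {S : Type} (w : FreeGroup S) :
    ∃ s : Set S, s.Finite ∧ ∀ (T : Type) (f : S → T), Set.InjOn f s → FreeGroup.map f w = 1 → w = 1 := by
  have key : ∀ w : FreeGroup S, ∃ s : Set S, s.Finite ∧ ∀ s', s ⊆ s' → ∃ w₀ : FreeGroup s',
      FreeGroup.map (Subtype.val : s' → S) w₀ = w := by
    intro w
    induction w using FreeGroup.induction_on with
    | C1 => exact ⟨∅, Set.finite_empty, fun s' _ => ⟨1, map_one _⟩⟩
    | of x =>
      exact ⟨{x}, Set.finite_singleton x, fun s' hs => ⟨FreeGroup.of ⟨x, hs rfl⟩, by simp⟩⟩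
    | inv_of x ih =>
      obtain ⟨s, hs, h⟩ := ih
      exact ⟨s, hs, fun s' hs' => (h s' hs').imp' (fun w₀ => w₀⁻¹) fun w₀ hw => by rw [map_inv, hw]⟩
    | mul x y ihx ihy =>
      obtain ⟨s, hs, h⟩ := ihx
      obtain ⟨s₁, hs₁, h₁⟩ := ihy
      refine ⟨s ∪ s₁, hs.union hs₁, fun s' hs' => ?_⟩
      obtain ⟨a, ha⟩ := h s' (Set.subset_union_left.trans hs')
      obtain ⟨b, hb⟩ := h₁ s' (Set.subset_union_right.trans hs')
      exact ⟨a * b, by rw [map_mul, ha, hb]⟩
  obtain ⟨s, hs, h⟩ := key w
  refine ⟨s, hs, fun T f hf hw => ?_⟩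
  obtain ⟨w₀, rfl⟩ := h s subset_rfl
  have h1 : FreeGroup.map (fun x : s => f x) w₀ = 1 := by
    rw [← hw, FreeGroup.map.comp]
    rfl
  have h2 : Function.Injective (fun x : s => f x) := fun a b hab => Subtype.ext (hf a.2 b.2 hab)
  have h3 : w₀ = 1 := by
    have h4 := FreeGroup.map_injective h2
    exact h4 (h1.trans (map_one _).symm)
  rw [h3, map_one]

open Pool.Agent.H68.Amp in
/-- the free group is the right-angled Artin group of the graph without edges -/
noncomputable def eFR (n : ℕ) : FreeGroup (Fin n) ≃* Raag (⊥ : SimpleGraph (Fin n)) :=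
  MonoidHom.toMulEquiv (FreeGroup.lift (gen ⊥))
    (raagLift ⊥ FreeGroup.of fun _ _ h => absurd h (by simp)) (by
      apply FreeGroup.ext_hom
      intro v
      rw [MonoidHom.comp_apply, FreeGroup.lift_apply_of, raagLift_gen, MonoidHom.id_apply]) (by
      apply raag_hom_ext
      intro v
      rw [MonoidHom.comp_apply, raagLift_gen, FreeGroup.lift_apply_of, MonoidHom.id_apply])

/-- free groups are residually unitriangular -/
theorem rut_free (S : Type) : S12.RUT (FreeGroup S) := by
  classical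
  intro w hw
  obtain ⟨s, hs, h⟩ := free_supp w
  have : Finite s := hs
  obtain ⟨n, ⟨e⟩⟩ := Finite.exists_equiv_fin (Option s)
  let f : S → Fin n := fun x => e (if hx : x ∈ s then some ⟨x, hx⟩ else none)
  have hf : Set.InjOn f s := by
    intro x hx y hy hxy
    have h1 := e.injective hxy
    rw [dif_pos hx, dif_pos hy, Option.some.injEq, Subtype.mk.injEq] at h1
    exact h1
  have h1 : FreeGroup.map f w ≠ 1 := fun h2 => hw (h _ f hf h2)
  have h2 : S12.RUT (FreeGroup (Fin n)) := S12.RUT.of_raag ⊥ (eFR n).toMonoidHom (eFR n).injective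
  obtain ⟨m, φ, h3, h4⟩ := h2 _ h1
  exact ⟨m, φ.comp (FreeGroup.map f), fun x => h3 _, h4⟩

/-! ## The semidirect products -/

/-- permutations act on the free group -/
def pf (S : Type) : Equiv.Perm S →* MulAut (FreeGroup S) where
  toFun σ := FreeGroup.freeGroupCongr σ
  map_one' := by
    ext w
    simp
  map_mul' σ τ := by
    ext w
    simp [FreeGroup.map.comp]

theorem pf_apply {S : Type} (σ : Equiv.Perm S) (w : FreeGroup S) : pf S σ w = FreeGroup.map σ w := rfl

/-- the action of `A` on the free group with the basis `S` -/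
def af (A S : Type) [Group A] [MulAction A S] : A →* MulAut (FreeGroup S) := (pf S).comp (MulAction.toPermHom A S)

theorem af_apply {A S : Type} [Group A] [MulAction A S] (a : A) (w : FreeGroup S) :
    af A S a w = FreeGroup.map (fun x => a • x) w := rfl

/-- the kernels which are residually unitriangular by means of virtually free quotients -/
theorem Tower.ker_free {H A : Type} [Group H] [Group A] (r : H →* A)
    (h : ∀ x, r x = 1 → x ≠ 1 → ∃ (T R : Type) (_ : Group R) (_ : Finite R) (ψ : R →* MulAut (FreeGroup T))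
      (g : H →* FreeGroup T ⋊[ψ] R), (∀ y, r y = 1 → (g y).right = 1) ∧ g x ≠ 1) : Tower r.ker := by
  refine Tower.step r.ker ⊥ Tower.bot ⟨bot_le, ?_, ?_⟩
  · intro x _ y hy
    rw [Subgroup.mem_bot] at hy ⊢
    rw [hy, mul_one, mul_inv_cancel]
  intro x hx
  obtain ⟨T, R, _, _, ψ, g, h1, h2⟩ := h x x.2 fun h0 => hx (Subgroup.mem_bot.2 h0)
  let f : ↥r.ker →* FreeGroup T :=
    { toFun := fun y => (g y).left
      map_one' := by
        rw [Subgroup.coe_one, map_one, SemidirectProduct.one_left]
      map_mul' := fun y z => by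
        rw [Subgroup.coe_mul, map_mul, SemidirectProduct.mul_left, h1 y y.2, map_one, MulAut.one_apply] }
  have hfx : f x ≠ 1 := fun h0 => h2 (SemidirectProduct.ext h0 (h1 x x.2))
  obtain ⟨n, φ, h3, h4⟩ := rut_free T (f x) hfx
  refine ⟨n, φ.comp f, fun y => h3 _, ?_, h4, ?_⟩
  · intro y hy
    have hy1 : y = 1 := Subtype.ext (Subgroup.mem_bot.1 hy)
    rw [hy1, map_one]
  · intro t
    obtain ⟨V₀, hV₀, h5⟩ := exh_red φ t
    have h6 : (V₀.map (SemidirectProduct.inl : FreeGroup T →* FreeGroup T ⋊[ψ] R)).FiniteIndex := by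
      refine ⟨?_⟩
      rw [Subgroup.index_map]
      have h7 : (V₀ ⊔ (SemidirectProduct.inl : FreeGroup T →* FreeGroup T ⋊[ψ] R).ker).FiniteIndex :=
        Subgroup.finiteIndex_of_le le_sup_left
      have h8 : ((SemidirectProduct.inl : FreeGroup T →* FreeGroup T ⋊[ψ] R).range).FiniteIndex := by
        rw [SemidirectProduct.range_inl_eq_ker_rightHom]
        exact Subgroup.finiteIndex_ker _
      exact mul_ne_zero h7.index_ne_zero h8.index_ne_zero
    refine ⟨_, fi_comap g h6, fun y hy => h5 _ ?_⟩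
    obtain ⟨v, hv, hvy⟩ := hy
    have h9 : (g y).left = v := by
      rw [← hvy, SemidirectProduct.left_inl]
    show (g y).left ∈ V₀
    rw [h9]
    exact hv

section

variable {A S : Type} [Group A] [MulAction A S] (V : Subgroup A) [hV : V.Normal]

/-- the action on the orbits of a normal subgroup -/
@[reducible] def actQ : MulAction A (MulAction.orbitRel.Quotient V S) where
  smul a := Quotient.map' (fun x => a • x) (by
    rintro x y ⟨v, rfl⟩
    refine ⟨⟨a * v * a⁻¹, hV.conj_mem _ v.2 a⟩, ?_⟩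
    show (a * (v : A) * a⁻¹) • a • y = a • (v : A) • y
    rw [smul_smul, smul_smul, inv_mul_cancel_right])
  one_smul := by
    rintro ⟨x⟩
    show Quotient.mk'' ((1 : A) • x) = Quotient.mk'' x
    rw [one_smul]
  mul_smul := by
    rintro a b ⟨x⟩
    show Quotient.mk'' ((a * b) • x) = Quotient.mk'' (a • b • x)
    rw [mul_smul]

/-- **HNN extensions** (multiple) along the identities of subgroups which are closed in the profinite topology.  Here `S` is
a set with an action of `A`; the groups along which the extension is taken are the stabilizers of the points of `S`. -/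
theorem Tower.free_semi (hA : Tower (⊤ : Subgroup A))
    (hS : ∀ x y : S, x ≠ y → ∃ V : Subgroup A, V.Normal ∧ V.FiniteIndex ∧ ∀ v ∈ V, v • x ≠ y) :
    Tower (⊤ : Subgroup (FreeGroup S ⋊[af A S] A)) := by
  have h1 : Tower (SemidirectProduct.rightHom : FreeGroup S ⋊[af A S] A →* A).ker := by
    refine Tower.ker_free _ fun x hx hx1 => ?_
    have hxr : x.right = 1 := hx
    have hxl : x.left ≠ 1 := fun h0 => hx1 (SemidirectProduct.ext h0 hxr)
    obtain ⟨s, hs, h2⟩ := free_supp x.left
    -- a subgroup which separates the letters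
    have h3 : ∃ V : Subgroup A, V.Normal ∧ V.FiniteIndex ∧ ∀ a ∈ s, ∀ b ∈ s, ∀ v ∈ V, v • a = b → a = b := by
      classical
      choose W hW1 hW2 hW3 using hS
      have : Finite s := hs
      let W' : s × s → Subgroup A := fun p => if hp : (p.1 : S) ≠ p.2 then W p.1 p.2 hp else ⊤
      refine ⟨⨅ p, W' p, ?_, ?_, ?_⟩
      · refine Subgroup.normal_iInf_normal fun p => ?_
        by_cases hp : (p.1 : S) ≠ p.2
        · simp only [W', dif_pos hp]
          exact hW1 _ _ hp
        · simp only [W', dif_neg hp]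
          infer_instance
      · refine Subgroup.finiteIndex_iInf fun p => ?_
        by_cases hp : (p.1 : S) ≠ p.2
        · simp only [W', dif_pos hp]
          exact hW2 _ _ hp
        · simp only [W', dif_neg hp]
          infer_instance
      · intro a ha b hb v hv hvab
        by_contra hab
        have h4 : v ∈ W' (⟨a, ha⟩, ⟨b, hb⟩) := (Subgroup.mem_iInf.1 hv) _
        have h5 : v ∈ W a b hab := by
          simpa only [W', dif_pos (show ((⟨a, ha⟩ : s) : S) ≠ ((⟨b, hb⟩ : s) : S) from hab)] using h4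
        exact hW3 a b hab v h5 hvab
    obtain ⟨V, hVn, hVf, h4⟩ := h3
    let _ : MulAction A (MulAction.orbitRel.Quotient V S) := actQ V
    let T := MulAction.orbitRel.Quotient V S
    let q : S → T := Quotient.mk''
    let R := (MulAction.toPermHom A T).range
    have hR : Finite R := by
      have h5 : V ≤ (MulAction.toPermHom A T).ker := by
        intro v hv
        refine Equiv.ext ?_
        rintro ⟨y⟩
        show (Quotient.mk'' (v • y) : T) = Quotient.mk'' y
        exact Quotient.sound' ⟨⟨v, hv⟩, rfl⟩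
      have h6 : (MulAction.toPermHom A T).ker.FiniteIndex := Subgroup.finiteIndex_of_le h5
      exact Finite.of_equiv _ (QuotientGroup.quotientKerEquivRange (MulAction.toPermHom A T)).toEquiv
    have hc : ∀ a : A, (FreeGroup.map q).comp (af A S a).toMonoidHom =
        ((((pf T).comp R.subtype) ((MulAction.toPermHom A T).rangeRestrict a)).toMonoidHom).comp (FreeGroup.map q) := by
      intro a
      apply FreeGroup.ext_hom
      intro y
      show FreeGroup.map q (FreeGroup.map (fun x => a • x) (FreeGroup.of y)) =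
        FreeGroup.map (MulAction.toPermHom A T a) (FreeGroup.map q (FreeGroup.of y))
      simp only [FreeGroup.map.of]
      rfl
    refine ⟨T, R, inferInstance, hR, (pf T).comp R.subtype,
      SemidirectProduct.map (FreeGroup.map q) (MulAction.toPermHom A T).rangeRestrict hc, ?_, ?_⟩
    · intro y hy
      have hy1 : y.right = 1 := hy
      rw [SemidirectProduct.map_right, hy1, map_one]
    · intro h0
      have h5 : FreeGroup.map q x.left = 1 := by
        have h6 := congrArg (fun z => z.left) h0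
        simpa only [SemidirectProduct.map_left, SemidirectProduct.one_left] using h6
      refine hxl (h2 T q ?_ h5)
      intro a ha b hb hab
      obtain ⟨v, hv⟩ := Quotient.exact' hab
      exact (h4 b hb a ha v v.2 hv).symm
  have h2 := Tower.comap_gen SemidirectProduct.rightHom h1 hA
  rwa [Subgroup.comap_top] at h2

end

/-- one stable letter: the HNN extension of `A` along the identity of `C`, for `C` closed in the profinite topology -/
theorem Tower.hnn {A : Type} [Group A] (hA : Tower (⊤ : Subgroup A)) (C : Subgroup A)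
    (hC : ∀ x, x ∉ C → ∃ V : Subgroup A, V.Normal ∧ V.FiniteIndex ∧ ∀ v ∈ V, v * x ∉ C) :
    Tower (⊤ : Subgroup (FreeGroup (A ⧸ C) ⋊[af A (A ⧸ C)] A)) := by
  refine Tower.free_semi hA ?_
  rintro ⟨x⟩ ⟨y⟩ hxy
  have h1 : x⁻¹ * y ∉ C := fun h0 => hxy (QuotientGroup.eq.2 h0)
  have h2 : y⁻¹ * x ∉ C := fun h0 => h1 (by simpa using C.inv_mem h0)
  obtain ⟨V, hV1, hV2, hV3⟩ := hC _ h2
  refine ⟨V, hV1, hV2, fun v hv h0 => ?_⟩
  have h3 : ((v * x : A) : A ⧸ C) = (y : A ⧸ C) := h0
  rw [QuotientGroup.eq] at h3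
  have h4 : y⁻¹ * v * y * (y⁻¹ * x) ∈ C := by
    have h5 := C.inv_mem h3
    have h6 : ((v * x)⁻¹ * y)⁻¹ = y⁻¹ * v * y * (y⁻¹ * x) := by group
    rwa [h6] at h5
  have h7 : y⁻¹ * v * y ∈ V := by
    have h8 := hV1.conj_mem v hv y⁻¹
    rwa [inv_inv] at h8
  exact hV3 _ h7 h4

/-- a group with a tower is residually finite -/
theorem Tower.resFin {H : Type} [Group H] {T : Subgroup H} (hT : Tower T) :
    ∀ x ∈ T, x ≠ 1 → ∃ V : Subgroup H, V.Normal ∧ V.FiniteIndex ∧ x ∉ V := by
  induction hT with
  | bot => exact fun x hx hx1 => absurd (Subgroup.mem_bot.1 hx) hx1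
  | step J N hN h ih =>
    intro x hx hx1
    by_cases hxN : x ∈ N
    · exact ih x hxN hx1
    obtain ⟨n, φ, h1, h2, h3, h4⟩ := h.sep ⟨x, hx⟩ hxN
    -- an entry which is not zero
    have h5 : ∃ a b, a ≠ b ∧ φ ⟨x, hx⟩ a b ≠ 0 := by
      by_contra hcon
      push Not at hcon
      refine h3 (Matrix.ext fun a b => ?_)
      by_cases hab : a = b
      · rw [hab, (h1 _).1 b, Matrix.one_apply_eq]
      · rw [hcon a b hab, Matrix.one_apply_ne hab]
    obtain ⟨a, b, hab, h6⟩ := h5
    obtain ⟨t, ht⟩ : ∃ t : ℕ, |φ ⟨x, hx⟩ a b| < 2 ^ t := by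
      obtain ⟨t, ht⟩ := pow_unbounded_of_one_lt |φ ⟨x, hx⟩ a b| (show (1 : ℤ) < 2 by norm_num)
      exact ⟨t, ht⟩
    obtain ⟨V, hV, h7⟩ := h4 t
    refine ⟨V.normalCore, inferInstance, inferInstance, fun h8 => h6 ?_⟩
    have h9 := h7 ⟨x, hx⟩ (Subgroup.normalCore_le V h8) a b hab
    exact Int.eq_zero_of_abs_lt_dvd h9 ht

/-- retracts are closed in the profinite topology -/
theorem Tower.hnn_retract {A : Type} [Group A] (hA : Tower (⊤ : Subgroup A)) (r : A →* A) (hr : ∀ x, r (r x) = r x) :
    Tower (⊤ : Subgroup (FreeGroup (A ⧸ r.range) ⋊[af A (A ⧸ r.range)] A)) := by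
  refine Tower.hnn hA r.range fun x hx => ?_
  have h1 : r x * x⁻¹ ≠ 1 := fun h0 => hx ⟨x, (mul_inv_eq_one.1 h0)⟩
  obtain ⟨V, hV1, hV2, hV3⟩ := hA.resFin _ (Subgroup.mem_top _) h1
  refine ⟨V ⊓ V.comap r, ?_, ?_, ?_⟩
  · infer_instance
  · have h2 := fi_comap r hV2
    infer_instance
  · rintro v ⟨hv1, hv2⟩ ⟨y, hy⟩
    -- `v * x = r y`, so `r v * r x = v * x`
    have h2 : r v * r x = v * x := by
      rw [← map_mul, ← hy, hr]
    refine hV3 ?_
    have h3 : r x * x⁻¹ = (r v)⁻¹ * v := by
      have h4 : r x = (r v)⁻¹ * (v * x) := by rw [← h2, inv_mul_cancel_left]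
      rw [h4]
      group
    rw [h3]
    exact V.mul_mem (V.inv_mem hv2) hv1

/-- a factor of a direct product -/
theorem Tower.snd {G H : Type} [Group G] [Group H] {T : Subgroup H} (hT : Tower T) :
    Tower (Subgroup.prod (⊥ : Subgroup G) T) := by
  induction hT with
  | bot =>
    rw [Subgroup.bot_prod_bot]
    exact Tower.bot
  | step J N hN h ih =>
    refine Tower.step _ _ ih ⟨Subgroup.prod_mono le_rfl h.le, ?_, ?_⟩
    · rintro ⟨a, x⟩ ⟨ha, hx⟩ ⟨b, y⟩ ⟨hb, hy⟩
      have ha1 : a = 1 := ha
      have hb1 : b = 1 := hb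
      refine ⟨?_, h.conj _ hx _ hy⟩
      show a * b * a⁻¹ ∈ (⊥ : Subgroup G)
      rw [ha1, hb1, Subgroup.mem_bot, mul_one, mul_inv_cancel]
    · rintro ⟨⟨a, x⟩, ha, hx⟩ hax
      have hxN : x ∉ N := fun h0 => hax ⟨ha, h0⟩
      obtain ⟨n, φ, h3, h4, h5, h6⟩ := h.sep ⟨x, hx⟩ hxN
      let f : ↥(Subgroup.prod (⊥ : Subgroup G) J) →* ↥J :=
        { toFun := fun y => ⟨y.1.2, y.2.2⟩
          map_one' := rfl
          map_mul' := fun _ _ => rfl }
      refine ⟨n, φ.comp f, fun y => h3 _, fun y hy => h4 _ hy.2, h5, ?_⟩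
      intro t
      obtain ⟨V, hV, h7⟩ := h6 t
      exact ⟨V.comap (MonoidHom.snd G H), fi_comap _ hV, fun y hy => h7 _ hy⟩

/-- direct products -/
theorem Tower.prod {G H : Type} [Group G] [Group H] (hG : Tower (⊤ : Subgroup G)) (hH : Tower (⊤ : Subgroup H)) :
    Tower (⊤ : Subgroup (G × H)) := by
  have h1 : (MonoidHom.fst G H).ker = Subgroup.prod ⊥ ⊤ := by
    ext ⟨a, b⟩
    constructor
    · intro h
      exact ⟨h, Subgroup.mem_top _⟩
    · intro h
      exact h.1
  have h2 := Tower.comap_gen (MonoidHom.fst G H) (h1 ▸ Tower.snd hH) hG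
  rwa [Subgroup.comap_top] at h2

/-- the HNN extension as a semidirect product -/
theorem hnn_inj {A : Type} [Group A] (C : Subgroup A) :
    ∃ f : HNNExtension A C C (MulEquiv.refl C) →* FreeGroup (A ⧸ C) ⋊[af A (A ⧸ C)] A, Function.Injective f := by
  have h1 : ∀ c : C, (SemidirectProduct.inl (FreeGroup.of ((1 : A) : A ⧸ C)) : FreeGroup (A ⧸ C) ⋊[af A (A ⧸ C)] A) *
      SemidirectProduct.inr (c : A) = SemidirectProduct.inr ((MulEquiv.refl C c : C) : A) *
        SemidirectProduct.inl (FreeGroup.of ((1 : A) : A ⧸ C)) := by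
    intro c
    have h2 : af A (A ⧸ C) (c : A) (FreeGroup.of ((1 : A) : A ⧸ C)) = FreeGroup.of ((1 : A) : A ⧸ C) := by
      rw [af_apply, FreeGroup.map.of]
      congr 1
      show (((c : A) * 1 : A) : A ⧸ C) = ((1 : A) : A ⧸ C)
      rw [QuotientGroup.eq, mul_one, mul_one]
      exact C.inv_mem c.2
    refine SemidirectProduct.ext ?_ ?_
    · simp [h2]
    · simp
  let f : HNNExtension A C C (MulEquiv.refl C) →* FreeGroup (A ⧸ C) ⋊[af A (A ⧸ C)] A :=
    HNNExtension.lift SemidirectProduct.inr (SemidirectProduct.inl (FreeGroup.of ((1 : A) : A ⧸ C))) h1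
  let u : A ⧸ C → HNNExtension A C C (MulEquiv.refl C) := fun x =>
    Quotient.liftOn' x (fun a => HNNExtension.of a * HNNExtension.t * (HNNExtension.of a)⁻¹) (by
      intro a b hab
      rw [QuotientGroup.leftRel_apply] at hab
      have h3 : b = a * ((⟨a⁻¹ * b, hab⟩ : C) : A) := by simp
      have h4 := HNNExtension.t_mul_of (φ := MulEquiv.refl C) ⟨a⁻¹ * b, hab⟩
      rw [MulEquiv.refl_apply] at h4
      show HNNExtension.of a * HNNExtension.t * (HNNExtension.of a)⁻¹ =
        HNNExtension.of b * HNNExtension.t * (HNNExtension.of b)⁻¹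
      have h5 : HNNExtension.of ((⟨a⁻¹ * b, hab⟩ : C) : A) * HNNExtension.t *
          (HNNExtension.of ((⟨a⁻¹ * b, hab⟩ : C) : A))⁻¹ = (HNNExtension.t : HNNExtension A C C (MulEquiv.refl C)) := by
        rw [← h4, mul_inv_cancel_right]
      rw [h3, map_mul]
      conv_lhs => rw [← h5]
      group)
  have hu : ∀ (a : A) (x : A ⧸ C), u (a • x) = HNNExtension.of a * u x * (HNNExtension.of a)⁻¹ := by
    rintro a ⟨b⟩
    show HNNExtension.of (a * b) * HNNExtension.t * (HNNExtension.of (a * b))⁻¹ =
      HNNExtension.of a * (HNNExtension.of b * HNNExtension.t * (HNNExtension.of b)⁻¹) * (HNNExtension.of a)⁻¹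
    rw [map_mul]
    group
  let k : FreeGroup (A ⧸ C) ⋊[af A (A ⧸ C)] A →* HNNExtension A C C (MulEquiv.refl C) :=
    SemidirectProduct.lift (FreeGroup.lift u) HNNExtension.of (by
      intro a
      apply FreeGroup.ext_hom
      intro x
      show FreeGroup.lift u (FreeGroup.map (fun x => a • x) (FreeGroup.of x)) =
        HNNExtension.of a * (FreeGroup.lift u (FreeGroup.of x)) * (HNNExtension.of a)⁻¹
      rw [FreeGroup.map.of, FreeGroup.lift_apply_of, FreeGroup.lift_apply_of, hu])
  have hk : k.comp f = MonoidHom.id _ := by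
    refine HNNExtension.hom_ext ?_ ?_
    · ext a
      show k (f (HNNExtension.of a)) = HNNExtension.of a
      rw [HNNExtension.lift_of, SemidirectProduct.lift_inr]
    · show k (f HNNExtension.t) = HNNExtension.t
      rw [HNNExtension.lift_t, SemidirectProduct.lift_inl, FreeGroup.lift_apply_of]
      show HNNExtension.of 1 * HNNExtension.t * (HNNExtension.of 1)⁻¹ = HNNExtension.t
      rw [map_one, one_mul, inv_one, mul_one]
  refine ⟨f, fun x y hxy => ?_⟩
  have h5 : k (f x) = k (f y) := by rw [hxy]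
  rwa [← MonoidHom.comp_apply, ← MonoidHom.comp_apply, hk, MonoidHom.id_apply, MonoidHom.id_apply] at h5

/-- the HNN extension -/
theorem Tower.hnnExt {A : Type} [Group A] (hA : Tower (⊤ : Subgroup A)) (C : Subgroup A)
    (hC : ∀ x, x ∉ C → ∃ V : Subgroup A, V.Normal ∧ V.FiniteIndex ∧ ∀ v ∈ V, v * x ∉ C) :
    Tower (⊤ : Subgroup (HNNExtension A C C (MulEquiv.refl C))) := by
  obtain ⟨f, hf⟩ := hnn_inj C
  exact Tower.of_inj f hf (Tower.hnn hA C hC)

end Pool.Agent.TW
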