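import Pool.Agent.TW.ExH
import Mathlib.GroupTheory.PushoutI
import Mathlib.GroupTheory.Coprod.Basic

/-!
# Project TW, examples: amalgamated products

`Tower.pushout`: let the groups `G i` with the common subgroup `H` have injective homomorphisms `f i` to a group `A` with a
tower, which agree on `H`, such that the image of `H` is closed in the profinite topology of `A`.  Then the amalgamated
product of the groups `G i` has a tower.  For instance doubles (`f i = id`), amalgamated products along a common retract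
(`A` the direct product), hence graph products.

PROOF.  The amalgamated product is a subgroup of the HNN extension of `A` with stable letters `t_i` which commute with the
image of `H`: `g` in `G i` is sent to `t_i (f i g) t_i⁻¹`.
-/

set_option autoImplicit false
set_option linter.unusedSectionVars false

namespace Pool.Agent.TW

open Monoid

section

variable {ι A H : Type} {G : ι → Type} [∀ i, Group (G i)] [Group H] [Group A] {φ : ∀ i, H →* G i} {f : ∀ i, G i →* A}
  {c : H →* A} (hc : ∀ i, (f i).comp (φ i) = c)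

/-- the basis of the free group -/
abbrev SP (ι : Type) {A H : Type} [Group A] [Group H] (c : H →* A) : Type := Σ _ : ι, A ⧸ c.range

/-- the elements of the basis -/
abbrev sp (c : H →* A) (i : ι) (a : A) : SP ι c := ⟨i, (a : A ⧸ c.range)⟩

theorem smul_sp (a b : A) (i : ι) : a • (sp c i b) = sp c i (a * b) := rfl

theorem sp_fix (h : H) (i : ι) : c h • (sp c i 1) = sp c i 1 := by
  rw [smul_sp]
  have h1 : ((c h * 1 : A) : A ⧸ c.range) = ((1 : A) : A ⧸ c.range) := by
    rw [QuotientGroup.eq, mul_one, mul_one]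
    exact c.range.inv_mem ⟨h, rfl⟩
  show (⟨i, ((c h * 1 : A) : A ⧸ c.range)⟩ : SP ι c) = _
  rw [h1]

/-- the homomorphisms of the factors -/
noncomputable def pfac (f : ∀ i, G i →* A) (c : H →* A) (i : ι) : G i →* FreeGroup (SP ι c) ⋊[af A (SP ι c)] A :=
  (MulAut.conj (SemidirectProduct.inl (FreeGroup.of (sp c i 1)) : FreeGroup (SP ι c) ⋊[af A (SP ι c)] A)).toMonoidHom.comp
    (SemidirectProduct.inr.comp (f i))

theorem pfac_apply (i : ι) (g : G i) : pfac f c i g = SemidirectProduct.inl (FreeGroup.of (sp c i 1)) *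
    SemidirectProduct.inr (f i g) * (SemidirectProduct.inl (FreeGroup.of (sp c i 1)))⁻¹ := rfl

/-- the homomorphism of the amalgamated product -/
noncomputable def pto : PushoutI φ →* FreeGroup (SP ι c) ⋊[af A (SP ι c)] A :=
  PushoutI.lift (pfac f c) (SemidirectProduct.inr.comp c) (by
    intro i
    ext1 h
    rw [MonoidHom.comp_apply, pfac_apply, MonoidHom.comp_apply]
    have h1 : f i (φ i h) = c h := by rw [← hc i]; rfl
    have h2 : af A (SP ι c) (c h) (FreeGroup.of (sp c i 1)) = FreeGroup.of (sp c i 1) := by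
      rw [af_apply, FreeGroup.map.of, sp_fix]
    rw [h1, mul_inv_eq_iff_eq_mul]
    refine SemidirectProduct.ext ?_ ?_
    · simp [h2]
    · simp)

/-- the words of the images -/
def lw (f : ∀ i, G i →* A) (c : H →* A) : List (Σ i, G i) → List (SP ι c × Bool)
  | [] => []
  | x :: L => (sp c x.1 1, true) :: (sp c x.1 (f x.1 x.2), false) :: (lw f c L).map fun p => (f x.1 x.2 • p.1, p.2)

theorem pto_left (L : List (Σ i, G i)) :
    (pto hc (L.map fun x => (PushoutI.of x.1 x.2 : PushoutI φ)).prod).left = FreeGroup.mk (lw f c L) := by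
  induction L with
  | nil => rw [List.map_nil, List.prod_nil, map_one]; rfl
  | cons x L ih =>
    rw [List.map_cons, List.prod_cons, map_mul, SemidirectProduct.mul_left, ih]
    have h1 : pto hc (PushoutI.of x.1 x.2) = pfac f c x.1 x.2 := by
      rw [pto, PushoutI.lift_of]
    have h2 : (pfac f c x.1 x.2).right = f x.1 x.2 := by
      rw [pfac_apply]
      simp
    have h3 : (pfac f c x.1 x.2).left = FreeGroup.of (sp c x.1 1) * (FreeGroup.of (sp c x.1 (f x.1 x.2)))⁻¹ := by
      rw [pfac_apply]
      have h4 : af A (SP ι c) (f x.1 x.2) (FreeGroup.of (sp c x.1 1)) = FreeGroup.of (sp c x.1 (f x.1 x.2)) := by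
        rw [af_apply, FreeGroup.map.of, smul_sp, mul_one]
      simp [h4]
    rw [h1, h2, h3, af_apply, FreeGroup.map.mk]
    rfl

include hc in
theorem lw_red (hf : ∀ i, Function.Injective (f i)) (L : List (Σ i, G i))
    (h1 : L.IsChain fun l l' => Sigma.fst l ≠ Sigma.fst l') (h2 : ∀ x ∈ L, x.2 ∉ (φ x.1).range) :
    FreeGroup.IsReduced (lw f c L) := by
  induction L with
  | nil => exact FreeGroup.IsReduced.nil
  | cons x L ih =>
    have ih' := ih h1.tail fun y hy => h2 y (List.mem_cons_of_mem _ hy)
    show FreeGroup.IsReduced ((sp c x.1 1, true) :: (sp c x.1 (f x.1 x.2), false) ::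
      (lw f c L).map fun p => (f x.1 x.2 • p.1, p.2))
    rw [FreeGroup.isReduced_cons_cons]
    refine ⟨fun h3 => ?_, ?_⟩
    · exfalso
      have h4 : ((1 : A) : A ⧸ c.range) = (f x.1 x.2 : A) := by
        have h5 := Sigma.mk.inj_iff.1 h3
        exact eq_of_heq h5.2
      rw [QuotientGroup.eq, inv_one, one_mul] at h4
      obtain ⟨h, hh⟩ := h4
      refine h2 x List.mem_cons_self ⟨h, hf x.1 ?_⟩
      rw [← hh, ← hc x.1]
      rfl
    · have h3 : FreeGroup.IsReduced ((lw f c L).map fun p => (f x.1 x.2 • p.1, p.2)) := by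
        rw [FreeGroup.IsReduced, List.isChain_map]
        exact ih'.imp fun a b hab h4 => hab (MulAction.injective (f x.1 x.2) h4)
      cases L with
      | nil => exact FreeGroup.IsReduced.singleton
      | cons y L =>
        show FreeGroup.IsReduced ((sp c x.1 (f x.1 x.2), false) :: (f x.1 x.2 • sp c y.1 1, true) ::
          ((sp c y.1 (f y.1 y.2), false) :: (lw f c L).map fun p => (f y.1 y.2 • p.1, p.2)).map
            fun p => (f x.1 x.2 • p.1, p.2))
        rw [FreeGroup.isReduced_cons_cons]
        refine ⟨fun h4 => ?_, h3⟩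
        exfalso
        have h5 : x.1 = y.1 := congrArg (fun z : SP ι c => z.1) (show sp c x.1 (f x.1 x.2) = f x.1 x.2 • sp c y.1 1 from h4)
        exact (List.isChain_cons_cons.1 h1).1 h5

theorem pto_inj (hf : ∀ i, Function.Injective (f i)) (hci : Function.Injective c) :
    Function.Injective (pto (φ := φ) (f := f) hc) := by
  classical
  have hφ : ∀ i, Function.Injective (φ i) := by
    intro i x y hxy
    refine hci ?_
    rw [← hc i, MonoidHom.comp_apply, MonoidHom.comp_apply, hxy]
  obtain ⟨d⟩ := PushoutI.NormalWord.transversal_nonempty φ hφ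
  rw [injective_iff_map_eq_one]
  intro x hx
  obtain ⟨w, rfl⟩ : ∃ w : PushoutI.NormalWord d, w.prod = x :=
    ⟨PushoutI.NormalWord.equiv x, PushoutI.NormalWord.equiv.symm_apply_apply x⟩
  have h1 : w.prod = PushoutI.base φ w.head * (w.toList.map fun x => (PushoutI.of x.1 x.2 : PushoutI φ)).prod := by
    rw [PushoutI.NormalWord.prod]
    congr 1
    rw [CoprodI.Word.prod, map_list_prod, List.map_map]
    rfl
  have h2 : pto (f := f) hc (PushoutI.base φ w.head) = SemidirectProduct.inr (c w.head) := by
    rw [pto, PushoutI.lift_base]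
    rfl
  have h3 : FreeGroup.mk (lw f c w.toList) = 1 := by
    have h4 := congrArg (fun z => z.left) hx
    rw [h1, map_mul, h2] at h4
    simp only [SemidirectProduct.mul_left, SemidirectProduct.left_inr, SemidirectProduct.right_inr, one_mul,
      SemidirectProduct.one_left] at h4
    rw [pto_left hc] at h4
    exact (map_eq_one_iff _ (MulEquiv.injective _)).1 h4
  have h4 : FreeGroup.IsReduced (lw f c w.toList) := by
    refine lw_red hc hf _ w.chain_ne fun y hy hyr => ?_
    have h5 := w.normalized y.1 y.2 hy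
    refine w.ne_one y hy ?_
    have h6 := (d.compl y.1).1
    have h7 : ((⟨y.2, hyr⟩, ⟨1, d.one_mem y.1⟩) : (φ y.1).range × d.set y.1) = (⟨1, (φ y.1).range.one_mem⟩, ⟨y.2, h5⟩) := by
      apply h6
      simp
    have h8 := congrArg (fun z => ((z.1 : (φ y.1).range) : G y.1)) h7
    exact h8
  have h5 : w.toList = [] := by
    have h6 : (FreeGroup.mk (lw f c w.toList)).toWord = lw f c w.toList := by
      rw [FreeGroup.toWord_mk]
      exact h4.reduce_eq
    rw [h3, FreeGroup.toWord_one] at h6
    cases hL : w.toList with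
    | nil => rfl
    | cons y L =>
      rw [hL] at h6
      exact absurd h6 (by simp [lw])
  rw [h1, h5, List.map_nil, List.prod_nil, mul_one] at hx ⊢
  rw [h2] at hx
  have h6 : c w.head = 1 := by
    have h7 := congrArg (fun z => z.right) hx
    simpa using h7
  have h7 : w.head = 1 := hci (h6.trans (map_one c).symm)
  rw [h7, map_one]

end

/-- **Amalgamated products** -/
theorem Tower.pushout {ι A H : Type} {G : ι → Type} [∀ i, Group (G i)] [Group H] [Group A] (φ : ∀ i, H →* G i)
    (f : ∀ i, G i →* A) (hf : ∀ i, Function.Injective (f i)) (c : H →* A) (hci : Function.Injective c)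
    (hc : ∀ i, (f i).comp (φ i) = c) (hA : Tower (⊤ : Subgroup A))
    (hC : ∀ x, x ∉ c.range → ∃ V : Subgroup A, V.Normal ∧ V.FiniteIndex ∧ ∀ v ∈ V, v * x ∉ c.range) :
    Tower (⊤ : Subgroup (PushoutI φ)) := by
  refine Tower.of_inj (pto hc) (pto_inj hc hf hci) (Tower.free_semi hA ?_)
  rintro ⟨i, ⟨x⟩⟩ ⟨j, ⟨y⟩⟩ hxy
  by_cases hij : i = j
  · subst hij
    have h0 : ((x : A) : A ⧸ c.range) ≠ (y : A) := fun h => hxy (by
      show (⟨i, ((x : A) : A ⧸ c.range)⟩ : SP ι c) = ⟨i, ((y : A) : A ⧸ c.range)⟩
      rw [h])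
    have h1 : x⁻¹ * y ∉ c.range := fun h => h0 (QuotientGroup.eq.2 h)
    have h2 : y⁻¹ * x ∉ c.range := fun h => h1 (by simpa using c.range.inv_mem h)
    obtain ⟨V, hV1, hV2, hV3⟩ := hC _ h2
    refine ⟨V, hV1, hV2, fun v hv h => ?_⟩
    have h3 : ((v * x : A) : A ⧸ c.range) = (y : A ⧸ c.range) := by
      have h4 := Sigma.mk.inj_iff.1 h
      exact eq_of_heq h4.2
    rw [QuotientGroup.eq] at h3
    have h4 : y⁻¹ * v * y * (y⁻¹ * x) ∈ c.range := by
      have h5 := c.range.inv_mem h3
      have h6 : ((v * x)⁻¹ * y)⁻¹ = y⁻¹ * v * y * (y⁻¹ * x) := by group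
      rwa [h6] at h5
    have h7 : y⁻¹ * v * y ∈ V := by
      have h8 := hV1.conj_mem v hv y⁻¹
      rwa [inv_inv] at h8
    exact hV3 _ h7 h4
  · exact ⟨⊤, inferInstance, inferInstance, fun v _ h => hij (congrArg Sigma.fst h)⟩

/-- doubles, and multiple amalgams of copies of `A` along a closed subgroup -/
theorem Tower.double {A : Type} [Group A] (hA : Tower (⊤ : Subgroup A)) (C : Subgroup A)
    (hC : ∀ x, x ∉ C → ∃ V : Subgroup A, V.Normal ∧ V.FiniteIndex ∧ ∀ v ∈ V, v * x ∉ C) (ι : Type) :
    Tower (⊤ : Subgroup (PushoutI fun _ : ι => C.subtype)) := by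
  refine Tower.pushout (fun _ : ι => C.subtype) (fun _ => MonoidHom.id A) (fun _ => Function.injective_id) C.subtype
    C.subtype_injective (fun _ => rfl) hA ?_
  rw [Subgroup.range_subtype]
  exact hC

/-- retracts are closed -/
theorem Tower.closed_retract {A : Type} [Group A] (hA : Tower (⊤ : Subgroup A)) (r : A →* A) (hr : ∀ x, r (r x) = r x) :
    ∀ x, x ∉ r.range → ∃ V : Subgroup A, V.Normal ∧ V.FiniteIndex ∧ ∀ v ∈ V, v * x ∉ r.range := by
  intro x hx
  have h1 : r x * x⁻¹ ≠ 1 := fun h0 => hx ⟨x, (mul_inv_eq_one.1 h0)⟩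
  obtain ⟨V, hV1, hV2, hV3⟩ := hA.resFin _ (Subgroup.mem_top _) h1
  refine ⟨V ⊓ V.comap r, ?_, ?_, ?_⟩
  · infer_instance
  · have h2 := fi_comap r hV2
    infer_instance
  · rintro v ⟨hv1, hv2⟩ ⟨y, hy⟩
    have h2 : r v * r x = v * x := by
      rw [← map_mul, ← hy, hr]
    refine hV3 ?_
    have h3 : r x * x⁻¹ = (r v)⁻¹ * v := by
      have h4 : r x = (r v)⁻¹ * (v * x) := by rw [← h2, inv_mul_cancel_left]
      rw [h4]
      group
    rw [h3]
    exact V.mul_mem (V.inv_mem hv2) hv1

/-- amalgamated products of two groups along a common retract -/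
theorem Tower.amalg_retract {H : Type} {G : Bool → Type} [∀ i, Group (G i)] [Group H] (φ : ∀ i, H →* G i)
    (ρ : ∀ i, G i →* H) (hρ : ∀ i h, ρ i (φ i h) = h) (hG : ∀ i, Tower (⊤ : Subgroup (G i))) :
    Tower (⊤ : Subgroup (PushoutI φ)) := by
  classical
  -- the direct product
  have hA : Tower (⊤ : Subgroup (∀ i, G i)) := by
    refine Tower.of_inj (MonoidHom.prod (Pi.evalMonoidHom G true) (Pi.evalMonoidHom G false)) ?_
      (Tower.prod (hG true) (hG false))
    intro x y hxy
    have h1 := congrArg Prod.fst hxy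
    have h2 := congrArg Prod.snd hxy
    funext i
    cases i
    · exact h2
    · exact h1
  let f : ∀ i, G i →* (∀ i, G i) := fun i =>
    { toFun := fun g j => if h : i = j then h ▸ g else φ j (ρ i g)
      map_one' := by
        funext j
        by_cases h : i = j
        · subst h
          simp
        · simp [h]
      map_mul' := fun x y => by
        funext j
        by_cases h : i = j
        · subst h
          simp
        · simp [h] }
  have hf : ∀ i (g : G i), f i g i = g := by
    intro i g
    show (if h : i = i then h ▸ g else φ i (ρ i g)) = g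
    rw [dif_pos rfl]
  let c : H →* (∀ i, G i) := MonoidHom.mk' (fun h j => φ j h) fun x y => by
    funext j
    exact map_mul _ _ _
  have hr : ∀ x, (c.comp ((ρ true).comp (Pi.evalMonoidHom G true))) ((c.comp ((ρ true).comp (Pi.evalMonoidHom G true))) x) =
      (c.comp ((ρ true).comp (Pi.evalMonoidHom G true))) x := by
    intro x
    show c (ρ true (φ true (ρ true (x true)))) = c (ρ true (x true))
    rw [hρ]
  have hcr : c.range = (c.comp ((ρ true).comp (Pi.evalMonoidHom G true))).range := by
    apply le_antisymm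
    · rintro _ ⟨h, rfl⟩
      refine ⟨c h, ?_⟩
      show c (ρ true (φ true h)) = c h
      rw [hρ]
    · rintro _ ⟨x, rfl⟩
      exact ⟨_, rfl⟩
  refine Tower.pushout φ f (fun i x y hxy => ?_) c (fun x y hxy => ?_) (fun i => ?_) hA ?_
  · rw [← hf i x, ← hf i y, hxy]
  · have h1 : φ true x = φ true y := congrFun hxy true
    rw [← hρ true x, ← hρ true y, h1]
  · ext1 h
    funext j
    show (if h' : i = j then h' ▸ φ i h else φ j (ρ i (φ i h))) = φ j h
    by_cases h' : i = j
    · subst h'
      rw [dif_pos rfl]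
    · rw [dif_neg h', hρ]
  · rw [hcr]
    exact hA.closed_retract _ hr

/-- free products of two groups -/
theorem Tower.coprod {G K : Type} [Group G] [Group K] (hG : Tower (⊤ : Subgroup G)) (hK : Tower (⊤ : Subgroup K)) :
    Tower (⊤ : Subgroup (Monoid.Coprod G K)) := by
  let X : Bool → Type := fun b => cond b G K
  let hX : ∀ b, Group (X b) := fun b =>
    match b with
    | true => (inferInstance : Group G)
    | false => (inferInstance : Group K)
  have h1 : Tower (⊤ : Subgroup (PushoutI (fun b => (1 : Unit →* X b)))) := by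
    refine Tower.amalg_retract (fun b => (1 : Unit →* X b)) (fun b => (1 : X b →* Unit)) (fun _ _ => rfl) ?_
    intro b
    cases b
    · exact hK
    · exact hG
  let f : Monoid.Coprod G K →* PushoutI (fun b => (1 : Unit →* X b)) :=
    Monoid.Coprod.lift (PushoutI.of (φ := fun b => (1 : Unit →* X b)) true : X true →* _)
      (PushoutI.of (φ := fun b => (1 : Unit →* X b)) false : X false →* _)
  let u : ∀ b, X b →* Monoid.Coprod G K := fun b =>
    match b with
    | true => (Monoid.Coprod.inl : G →* Monoid.Coprod G K)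
    | false => (Monoid.Coprod.inr : K →* Monoid.Coprod G K)
  let k : PushoutI (fun b => (1 : Unit →* X b)) →* Monoid.Coprod G K :=
    PushoutI.lift u 1 (by
      intro b
      ext1 x
      show u b 1 = 1
      exact map_one _)
  have hk : k.comp f = MonoidHom.id _ := by
    apply Monoid.Coprod.hom_ext
    · ext g
      show k (f (Monoid.Coprod.inl g)) = Monoid.Coprod.inl g
      rw [Monoid.Coprod.lift_apply_inl]
      exact PushoutI.lift_of (φ := fun b => (1 : Unit →* X b)) _ _ _ (i := true) g
    · ext g
      show k (f (Monoid.Coprod.inr g)) = Monoid.Coprod.inr g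
      rw [Monoid.Coprod.lift_apply_inr]
      exact PushoutI.lift_of (φ := fun b => (1 : Unit →* X b)) _ _ _ (i := false) g
  refine Tower.of_inj f (fun x y hxy => ?_) h1
  have h5 : k (f x) = k (f y) := by rw [hxy]
  rwa [← MonoidHom.comp_apply, ← MonoidHom.comp_apply, hk, MonoidHom.id_apply, MonoidHom.id_apply] at h5

end Pool.Agent.TW
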