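import Pool.Agent.TW.ExP
import Pool.Agent.S14.ExRS
import Pool.Agent.S14.ExRT

/-!
# Project TW, examples: the class (a) and HNN extensions, amalgamated products

`RUT.rrs`: the rational derived series of a residually unitriangular group (for instance a free group or a subgroup of a
right-angled Artin group) has trivial intersection.  `RAL.free_semi`, `RAL.hnnExt`, `RAL.pushout`, `RAL.double`,
`RAL.amalg_retract`, `RAL.coprod`: the class of the residually (amenable and left-orderable) groups is closed under HNN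
extensions along identities of closed subgroups, doubles along closed subgroups, amalgamated products along common
retracts, hence graph products, and free products.  A subgroup `C` of `A` is closed if for every `x` which is not in `C`
there is a homomorphism `f` from `A` to an amenable left-orderable group such that `f x` is not in `f C`.

PROOF.  `FreeGroup S ⋊ A`, `f : A → L` a homomorphism to an amenable left-orderable group, `V` its kernel: the kernel `K` of
`FreeGroup S ⋊ A → L` has a homomorphism to `FreeGroup (S / V)`, and the quotients of the whole group by the subgroups of the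
rational derived series of `K` are amenable and left-orderable.
-/

set_option autoImplicit false
set_option linter.unusedSectionVars false

namespace Pool.Agent.TW

open Pool.Agent.S14 Monoid

/-! ## The rational derived series -/

theorem dr_uni {H : Type} [Group H] {n : ℕ} (φ : H →* Matrix (Fin n) (Fin n) ℤ) (hφ : ∀ x, UTri (φ x)) (i : ℕ) :
    ∀ x ∈ dr H i, ∀ a b : Fin n, a < b → (b : ℕ) - a ≤ i → φ x a b = 0 := by
  induction i with
  | zero =>
    intro x _ a b hab h
    have h1 : (a : ℕ) < b := hab
    omega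
  | succ i ih =>
    intro x hx a b hab h
    obtain ⟨hx1, hx2⟩ := hx
    by_cases h' : (b : ℕ) - a ≤ i
    · exact ih x hx1 a b hab h'
    have hmul : ∀ y z : dr H i, φ ((y * z : dr H i) : H) a b = φ (y : H) a b + φ (z : H) a b := by
      intro y z
      rw [Subgroup.coe_mul, map_mul, Matrix.mul_apply, Finset.sum_eq_add a b (ne_of_lt hab)]
      · rw [(hφ y).1 a, (hφ z).1 b, one_mul, mul_one, add_comm]
      · rintro c _ ⟨hca, hcb⟩
        rcases lt_trichotomy c a with h1 | h1 | h1
        · rw [(hφ y).2 a c h1, zero_mul]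
        · exact absurd h1 hca
        · rcases lt_trichotomy c b with h2 | h2 | h2
          · have h3 : (c : ℕ) < b := h2
            have h4 : (a : ℕ) < c := h1
            rw [ih y y.2 a c h1 (by omega), zero_mul]
          · exact absurd h2 hcb
          · rw [(hφ z).2 c b h2, mul_zero]
      · exact fun h0 => absurd (Finset.mem_univ _) h0
      · exact fun h0 => absurd (Finset.mem_univ _) h0
    have h2 := hx2 (MonoidHom.mk' (fun y : dr H i => Multiplicative.ofAdd ((φ (y : H) a b : ℤ) : ℚ)) (by
      intro y z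
      rw [hmul, Int.cast_add, ofAdd_add]))
    have h3 : Multiplicative.ofAdd ((φ x a b : ℤ) : ℚ) = 1 := h2
    rw [ofAdd_eq_one] at h3
    exact_mod_cast h3

/-- **Residually unitriangular groups**: the rational derived series has trivial intersection -/
theorem RUT.rrs {H : Type} [Group H] (h : S12.RUT H) : RRS H := by
  intro x hx
  by_contra hcon
  obtain ⟨n, φ, h1, h2⟩ := h x hcon
  refine h2 (Matrix.ext fun a b => ?_)
  rcases lt_trichotomy a b with h3 | h3 | h3
  · rw [Matrix.one_apply_ne (ne_of_lt h3)]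
    exact dr_uni φ h1 n x (hx n) a b h3 (by have := b.2; omega)
  · rw [h3, Matrix.one_apply_eq]
    exact (h1 x).1 b
  · rw [Matrix.one_apply_ne (ne_of_gt h3)]
    exact (h1 x).2 a b h3

/-- the series starting with `K` -/
def drK {H : Type} [Group H] (K : Subgroup H) : ℕ → Subgroup H
  | 0 => K
  | i + 1 => kq (drK K i)

theorem drK_normal {H : Type} [Group H] (K : Subgroup H) [hK : K.Normal] (i : ℕ) : (drK K i).Normal := by
  induction i with
  | zero => exact hK
  | succ i ih => exact kq_normal _

theorem drK_hom {H L : Type} [Group H] [Group L] {K : Subgroup H} (φ : ↥K →* L) (i : ℕ) :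
    ∀ x ∈ drK K i, ∃ h : x ∈ K, φ ⟨x, h⟩ ∈ dr L i := by
  induction i with
  | zero => exact fun x hx => ⟨hx, Subgroup.mem_top _⟩
  | succ i ih =>
    intro x hx
    obtain ⟨hx1, hx2⟩ := hx
    obtain ⟨hK, h1⟩ := ih x hx1
    refine ⟨hK, ⟨h1, fun ψ => ?_⟩⟩
    let g : ↥(drK K i) →* ↥(dr L i) :=
      { toFun := fun y => ⟨φ ⟨y, (ih y y.2).1⟩, (ih y y.2).2⟩
        map_one' := Subtype.ext (map_one φ)
        map_mul' := fun y z => Subtype.ext (map_mul φ ⟨y, (ih y y.2).1⟩ ⟨z, (ih z z.2).1⟩) }
    exact hx2 (ψ.comp g)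

/-- extensions: the kernel is residually a group whose rational derived series has trivial intersection -/
theorem ral_of_ker {H M L : Type} [Group H] [Group M] [Group L] (g : H →* M) (hM : Foel M) (hO : LeftOrd M) (x : H)
    (hx : g x = 1) (hL : RRS L) (φ : ↥g.ker →* L) (hφ : φ ⟨x, hx⟩ ≠ 1) :
    ∃ (L : Type) (_ : Group L) (φ : H →* L), Amen L ∧ LeftOrd L ∧ φ x ≠ 1 := by
  have hnor : ∀ i, (drK g.ker i).Normal := drK_normal g.ker
  have hcone : ∀ i, ConeN (drK g.ker i) := by
    intro i
    induction i with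
    | zero =>
      obtain ⟨P, h1, h2, h3⟩ := hO
      refine ⟨{y | g y ∈ P}, fun a ha b hb => ?_, fun a ha hak => ?_, fun a ha => ?_, fun a ha n hn => ?_⟩
      · show g (a * b) ∈ P
        rw [map_mul]
        exact h1 _ ha _ hb
      · have h4 : g a = 1 := hak
        have h5 : g a ∈ P := ha
        rw [h4] at h5
        exact h2 h5
      · rcases h3 (g a) ha with h4 | h4
        · exact Or.inl h4
        · refine Or.inr ?_
          show g a⁻¹ ∈ P
          rw [map_inv]
          exact h4
      · have h4 : g n = 1 := hn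
        show g (a * n) ∈ P
        rw [map_mul, h4, mul_one]
        exact ha
    | succ i ih =>
      have h1 := hnor i
      exact ih.step (kq_le _) (fq (drK g.ker i)) (fun x => fq_eq_one _ x) (exists_cone _)
  have hfoel : ∀ i, Foel (H ⧸ drK g.ker i) := by
    intro i
    induction i with
    | zero => exact Foel.comap (QuotientGroup.kerLift g) (QuotientGroup.kerLift_injective g) hM
    | succ i ih =>
      have h1 := hnor i
      have h2 : (kq (drK g.ker i)).Normal := hnor (i + 1)
      exact foel_step (kq_le _) ih (fq (drK g.ker i)) (fun x => fq_eq_one _ x)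
  obtain ⟨i, hi⟩ : ∃ i, x ∉ drK g.ker i := by
    by_contra hcon
    push Not at hcon
    exact hφ (hL _ fun i => (drK_hom φ i x (hcon i)).2)
  exact ⟨H ⧸ drK g.ker i, inferInstance, QuotientGroup.mk' _, (hfoel i).amen, (hcone i).leftOrd,
    fun h1 => hi ((QuotientGroup.eq_one_iff x).1 h1)⟩

/-! ## Tools -/

theorem LeftOrd.prod {G K : Type} [Group G] [Group K] (hG : LeftOrd G) (hK : LeftOrd K) : LeftOrd (G × K) := by
  obtain ⟨P, p1, p2, p3⟩ := hG
  obtain ⟨C, c1, c2, c3⟩ := hK
  refine ⟨{z | z.1 ∈ P ∨ z.1 = 1 ∧ z.2 ∈ C}, ?_, ?_, ?_⟩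
  · rintro x (hx | ⟨hx, hx1⟩) y (hy | ⟨hy, hy1⟩)
    · exact Or.inl (p1 _ hx _ hy)
    · refine Or.inl ?_
      show x.1 * y.1 ∈ P
      rw [hy, mul_one]
      exact hx
    · refine Or.inl ?_
      show x.1 * y.1 ∈ P
      rw [hx, one_mul]
      exact hy
    · refine Or.inr ⟨?_, c1 _ hx1 _ hy1⟩
      show x.1 * y.1 = 1
      rw [hx, hy, one_mul]
  · rintro (h | ⟨_, h⟩)
    · exact p2 h
    · exact c2 h
  · rintro ⟨x, y⟩ hxy
    by_cases hx : x = 1
    · have hy : y ≠ 1 := fun hy => hxy (by rw [hx, hy]; rfl)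
      rcases c3 y hy with h | h
      · exact Or.inl (Or.inr ⟨hx, h⟩)
      · refine Or.inr (Or.inr ⟨?_, h⟩)
        show x⁻¹ = 1
        rw [hx, inv_one]
    · rcases p3 x hx with h | h
      · exact Or.inl (Or.inl h)
      · exact Or.inr (Or.inl h)

theorem leftOrd_unit : LeftOrd Unit :=
  ⟨∅, fun _ h => absurd h (Set.notMem_empty _), Set.notMem_empty _, fun _ hx => absurd rfl hx⟩

theorem Amen.prod {G K : Type} [Group G] [Group K] (hG : Amen G) (hK : Amen K) : Amen (G × K) :=
  (Foel.prod hG.foel hK.foel).amen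

/-- the topology given by the amenable left-orderable quotients: `f x` is not in `f C` -/
def ClA {A : Type} [Group A] (C : Subgroup A) : Prop :=
  ∀ x, x ∉ C → ∃ (L : Type) (_ : Group L) (f : A →* L), Amen L ∧ LeftOrd L ∧ ∀ v, f v = 1 → v * x ∉ C

/-! ## The semidirect products -/

theorem RAL.free_semi {A S : Type} [Group A] [MulAction A S] (hA : RAL A)
    (hS : ∀ x y : S, x ≠ y → ∃ (L : Type) (_ : Group L) (f : A →* L), Amen L ∧ LeftOrd L ∧ ∀ v, f v = 1 → v • x ≠ y) :
    RAL (FreeGroup S ⋊[af A S] A) := by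
  classical
  intro x hx
  by_cases hr : x.right = 1
  swap
  · obtain ⟨L, hL, φ, h1, h2, h3⟩ := hA x.right hr
    exact ⟨L, hL, φ.comp SemidirectProduct.rightHom, h1, h2, h3⟩
  have hl : x.left ≠ 1 := fun h0 => hx (SemidirectProduct.ext h0 hr)
  obtain ⟨s, hs, h2⟩ := free_supp x.left
  have key : ∀ P : Finset (S × S), ∃ (L : Type) (_ : Group L) (f : A →* L), Foel L ∧ LeftOrd L ∧
      ∀ p ∈ P, p.1 ≠ p.2 → ∀ v, f v = 1 → v • p.1 ≠ p.2 := by
    intro P
    induction P using Finset.induction_on with
    | empty => exact ⟨Unit, inferInstance, 1, foel_of_finite, leftOrd_unit, fun p hp => absurd hp (Finset.notMem_empty _)⟩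
    | insert p P _ ih =>
      obtain ⟨L, hL, f, f1, f2, f3⟩ := ih
      by_cases hp : p.1 = p.2
      · refine ⟨L, hL, f, f1, f2, fun p' hp' hne => ?_⟩
        rcases Finset.mem_insert.1 hp' with h | h
        · exact absurd (h ▸ hp) hne
        · exact f3 p' h hne
      · obtain ⟨L', hL', f', g1, g2, g3⟩ := hS p.1 p.2 hp
        refine ⟨L × L', inferInstance, f.prod f', Foel.prod f1 g1.foel, LeftOrd.prod f2 g2, fun p' hp' hne v hv => ?_⟩
        have hv1 : f v = 1 := congrArg Prod.fst hv
        have hv2 : f' v = 1 := congrArg Prod.snd hv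
        rcases Finset.mem_insert.1 hp' with h | h
        · rw [h]
          exact g3 v hv2
        · exact f3 p' h hne v hv1
  obtain ⟨L, hL, f, f1, f2, f3⟩ := key (hs.toFinset ×ˢ hs.toFinset)
  let V := f.ker
  let T := MulAction.orbitRel.Quotient V S
  let q : S → T := Quotient.mk''
  have hq : ∀ a : A, f a = 1 → ∀ w : FreeGroup S, FreeGroup.map q (af A S a w) = FreeGroup.map q w := by
    intro a ha w
    rw [af_apply, FreeGroup.map.comp]
    congr 1
    congr 1
    funext y
    exact Quotient.sound' ⟨⟨a, ha⟩, rfl⟩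
  let g : FreeGroup S ⋊[af A S] A →* L := f.comp SemidirectProduct.rightHom
  let φ : ↥g.ker →* FreeGroup T :=
    { toFun := fun y => FreeGroup.map q (y : FreeGroup S ⋊[af A S] A).left
      map_one' := by
        rw [Subgroup.coe_one, SemidirectProduct.one_left, map_one]
      map_mul' := fun y z => by
        rw [Subgroup.coe_mul, SemidirectProduct.mul_left, map_mul]
        congr 1
        exact hq _ y.2 _ }
  have hgx : g x = 1 := by
    show f x.right = 1
    rw [hr, map_one]
  refine ral_of_ker g f1 f2 x hgx (RUT.rrs (rut_free T)) φ fun h0 => ?_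
  have h5 : FreeGroup.map q x.left = 1 := h0
  refine hl (h2 T q ?_ h5)
  intro a ha b hb hab
  obtain ⟨v, hv⟩ := Quotient.exact' hab
  by_contra hne
  refine f3 (b, a) (Finset.mem_product.2 ⟨hs.mem_toFinset.2 hb, hs.mem_toFinset.2 ha⟩) (fun h => hne h.symm) v v.2 hv

/-- separation of cosets -/
theorem ClA.cosets {A : Type} [Group A] {C : Subgroup A} (hC : ClA C) (x y : A) (hxy : ((x : A) : A ⧸ C) ≠ (y : A)) :
    ∃ (L : Type) (_ : Group L) (f : A →* L), Amen L ∧ LeftOrd L ∧ ∀ v, f v = 1 → ((v * x : A) : A ⧸ C) ≠ (y : A) := by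
  have h1 : x⁻¹ * y ∉ C := fun h0 => hxy (QuotientGroup.eq.2 h0)
  have h2 : y⁻¹ * x ∉ C := fun h0 => h1 (by simpa using C.inv_mem h0)
  obtain ⟨L, hL, f, f1, f2, f3⟩ := hC _ h2
  refine ⟨L, hL, f, f1, f2, fun v hv h3 => ?_⟩
  rw [QuotientGroup.eq] at h3
  have h4 : y⁻¹ * v * y * (y⁻¹ * x) ∈ C := by
    have h5 := C.inv_mem h3
    have h6 : ((v * x)⁻¹ * y)⁻¹ = y⁻¹ * v * y * (y⁻¹ * x) := by group
    rwa [h6] at h5
  exact f3 _ (by rw [map_mul, map_mul, hv, mul_one, map_inv, inv_mul_cancel]) h4

/-- HNN extensions along the identity of a closed subgroup -/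
theorem RAL.hnnExt {A : Type} [Group A] (hA : RAL A) (C : Subgroup A) (hC : ClA C) :
    RAL (HNNExtension A C C (MulEquiv.refl C)) := by
  obtain ⟨f, hf⟩ := hnn_inj C
  refine RAL.comap hf (RAL.free_semi hA ?_)
  rintro ⟨x⟩ ⟨y⟩ hxy
  exact hC.cosets x y hxy

/-- amalgamated products -/
theorem RAL.pushout {ι A H : Type} {G : ι → Type} [∀ i, Group (G i)] [Group H] [Group A] (φ : ∀ i, H →* G i)
    (f : ∀ i, G i →* A) (hf : ∀ i, Function.Injective (f i)) (c : H →* A) (hci : Function.Injective c)
    (hc : ∀ i, (f i).comp (φ i) = c) (hA : RAL A) (hC : ClA c.range) : RAL (PushoutI φ) := by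
  refine RAL.comap (pto_inj hc hf hci) (RAL.free_semi hA ?_)
  rintro ⟨i, ⟨x⟩⟩ ⟨j, ⟨y⟩⟩ hxy
  by_cases hij : i = j
  · subst hij
    have h0 : ((x : A) : A ⧸ c.range) ≠ (y : A) := fun h => hxy (by
      show (⟨i, ((x : A) : A ⧸ c.range)⟩ : SP ι c) = ⟨i, ((y : A) : A ⧸ c.range)⟩
      rw [h])
    obtain ⟨L, hL, f, f1, f2, f3⟩ := hC.cosets x y h0
    refine ⟨L, hL, f, f1, f2, fun v hv h => f3 v hv ?_⟩
    have h4 := Sigma.mk.inj_iff.1 h
    exact eq_of_heq h4.2
  · exact ⟨Unit, inferInstance, 1, (foel_of_finite (Q := Unit)).amen, leftOrd_unit, fun v _ h => hij (congrArg Sigma.fst h)⟩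

/-- doubles, and multiple amalgams of copies of `A` along a closed subgroup -/
theorem RAL.double {A : Type} [Group A] (hA : RAL A) (C : Subgroup A) (hC : ClA C) (ι : Type) :
    RAL (PushoutI fun _ : ι => C.subtype) := by
  refine RAL.pushout (fun _ : ι => C.subtype) (fun _ => MonoidHom.id A) (fun _ => Function.injective_id) C.subtype
    C.subtype_injective (fun _ => rfl) hA ?_
  rw [Subgroup.range_subtype]
  exact hC

/-- retracts are closed -/
theorem RAL.closed_retract {A : Type} [Group A] (hA : RAL A) (r : A →* A) (hr : ∀ x, r (r x) = r x) : ClA r.range := by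
  intro x hx
  have h1 : r x * x⁻¹ ≠ 1 := fun h0 => hx ⟨x, (mul_inv_eq_one.1 h0)⟩
  obtain ⟨L, hL, φ, f1, f2, f3⟩ := hA _ h1
  refine ⟨L × L, inferInstance, φ.prod (φ.comp r), Amen.prod f1 f1, LeftOrd.prod f2 f2, ?_⟩
  rintro v hv ⟨y, hy⟩
  have hv1 : φ v = 1 := congrArg Prod.fst hv
  have hv2 : φ (r v) = 1 := congrArg Prod.snd hv
  have h2 : r v * r x = v * x := by
    rw [← map_mul, ← hy, hr]
  refine f3 ?_
  have h3 : r x * x⁻¹ = (r v)⁻¹ * v := by
    have h4 : r x = (r v)⁻¹ * (v * x) := by rw [← h2, inv_mul_cancel_left]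
    rw [h4]
    group
  rw [h3, map_mul, map_inv, hv1, hv2, inv_one, mul_one]

/-- amalgamated products of two groups along a common retract -/
theorem RAL.amalg_retract {H : Type} {G : Bool → Type} [∀ i, Group (G i)] [Group H] (φ : ∀ i, H →* G i)
    (ρ : ∀ i, G i →* H) (hρ : ∀ i h, ρ i (φ i h) = h) (hG : ∀ i, RAL (G i)) : RAL (PushoutI φ) := by
  classical
  -- the direct product
  have hA : RAL (∀ i, G i) := by
    refine RAL.comap (f := MonoidHom.prod (Pi.evalMonoidHom G true) (Pi.evalMonoidHom G false)) ?_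
      (RAL.prod (hG true) (hG false))
    intro x y hxy
    have h1 := congrArg Prod.fst hxy
    have h2 := congrArg Prod.snd hxy
    funext i
    cases i
    · exact h2
    · exact h1
  let f : ∀ i, G i →* (∀ i, G i) := fun i =>
    { toFun := fun g j => if h : i = j then h ▸ g else φ j (ρ i g)
      map_one' := by
        funext j
        by_cases h : i = j
        · subst h
          simp
        · simp [h]
      map_mul' := fun x y => by
        funext j
        by_cases h : i = j
        · subst h
          simp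
        · simp [h] }
  have hf : ∀ i (g : G i), f i g i = g := by
    intro i g
    show (if h : i = i then h ▸ g else φ i (ρ i g)) = g
    rw [dif_pos rfl]
  let c : H →* (∀ i, G i) := MonoidHom.mk' (fun h j => φ j h) fun x y => by
    funext j
    exact map_mul _ _ _
  have hr : ∀ x, (c.comp ((ρ true).comp (Pi.evalMonoidHom G true))) ((c.comp ((ρ true).comp (Pi.evalMonoidHom G true))) x) =
      (c.comp ((ρ true).comp (Pi.evalMonoidHom G true))) x := by
    intro x
    show c (ρ true (φ true (ρ true (x true)))) = c (ρ true (x true))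
    rw [hρ]
  have hcr : c.range = (c.comp ((ρ true).comp (Pi.evalMonoidHom G true))).range := by
    apply le_antisymm
    · rintro _ ⟨h, rfl⟩
      refine ⟨c h, ?_⟩
      show c (ρ true (φ true h)) = c h
      rw [hρ]
    · rintro _ ⟨x, rfl⟩
      exact ⟨_, rfl⟩
  refine RAL.pushout φ f (fun i x y hxy => ?_) c (fun x y hxy => ?_) (fun i => ?_) hA ?_
  · rw [← hf i x, ← hf i y, hxy]
  · have h1 : φ true x = φ true y := congrFun hxy true
    rw [← hρ true x, ← hρ true y, h1]
  · ext1 h
    funext j
    show (if h' : i = j then h' ▸ φ i h else φ j (ρ i (φ i h))) = φ j h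
    by_cases h' : i = j
    · subst h'
      rw [dif_pos rfl]
    · rw [dif_neg h', hρ]
  · rw [hcr]
    exact RAL.closed_retract hA _ hr

/-- free products of two groups -/
theorem RAL.coprod {G K : Type} [Group G] [Group K] (hG : RAL G) (hK : RAL K) : RAL (Monoid.Coprod G K) := by
  let X : Bool → Type := fun b => cond b G K
  let hX : ∀ b, Group (X b) := fun b =>
    match b with
    | true => (inferInstance : Group G)
    | false => (inferInstance : Group K)
  have h1 : RAL (PushoutI (fun b => (1 : Unit →* X b))) := by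
    refine RAL.amalg_retract (fun b => (1 : Unit →* X b)) (fun b => (1 : X b →* Unit)) (fun _ _ => rfl) ?_
    intro b
    cases b
    · exact hK
    · exact hG
  let f : Monoid.Coprod G K →* PushoutI (fun b => (1 : Unit →* X b)) :=
    Monoid.Coprod.lift (PushoutI.of (φ := fun b => (1 : Unit →* X b)) true : X true →* _)
      (PushoutI.of (φ := fun b => (1 : Unit →* X b)) false : X false →* _)
  let u : ∀ b, X b →* Monoid.Coprod G K := fun b =>
    match b with
    | true => (Monoid.Coprod.inl : G →* Monoid.Coprod G K)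
    | false => (Monoid.Coprod.inr : K →* Monoid.Coprod G K)
  let k : PushoutI (fun b => (1 : Unit →* X b)) →* Monoid.Coprod G K :=
    PushoutI.lift u 1 (by
      intro b
      ext1 x
      show u b 1 = 1
      exact map_one _)
  have hk : k.comp f = MonoidHom.id _ := by
    apply Monoid.Coprod.hom_ext
    · ext g
      show k (f (Monoid.Coprod.inl g)) = Monoid.Coprod.inl g
      rw [Monoid.Coprod.lift_apply_inl]
      exact PushoutI.lift_of (φ := fun b => (1 : Unit →* X b)) _ _ _ (i := true) g
    · ext g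
      show k (f (Monoid.Coprod.inr g)) = Monoid.Coprod.inr g
      rw [Monoid.Coprod.lift_apply_inr]
      exact PushoutI.lift_of (φ := fun b => (1 : Unit →* X b)) _ _ _ (i := false) g
  refine RAL.comap (f := f) (fun x y hxy => ?_) h1
  have h5 : k (f x) = k (f y) := by rw [hxy]
  rwa [← MonoidHom.comp_apply, ← MonoidHom.comp_apply, hk, MonoidHom.id_apply, MonoidHom.id_apply] at h5

end Pool.Agent.TW
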