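import Pool.Agent.TW.ExS
import Pool.Agent.TW.TC

/-!
# Project TW, examples: towers on subgroups of finite index

PROOFS.  `VTower.comap`: the preimage of a subgroup of finite index has finite index, `Tower.comap`.
`VTower.split`: `K = ker r` has a subgroup `K₀` of finite index with a tower, `C ≤ K₀` of finite index in `K`, preserved by all automorphisms
of `K` (`exists_char`), in particular normal in `G`; `Q₀ ≤ Q` of finite index with a tower; `V = {x | x * (s (r x))⁻¹ ∈ C}` and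
`W = V ⊓ Q₀.comap r` have finite index in `G`; the restriction of `r` to `W` is a split surjection to `Q₀` with kernel `C` (finitely generated,
with a tower as a subgroup of `K₀`); `Tower.split`.
-/

set_option autoImplicit false
set_option linter.unusedSectionVars false

namespace Pool.Agent.TW

/-- a subgroup of finite index has a tower -/
def VTower (G : Type) [Group G] : Prop := ∃ H : Subgroup G, H.FiniteIndex ∧ Tower (⊤ : Subgroup H)

/-- preimages of subgroups of finite index -/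
private theorem exv_comap {G G' : Type} [Group G] [Group G'] (f : G' →* G) (H : Subgroup G) (hH : H.FiniteIndex) :
    (H.comap f).FiniteIndex := by
  refine ⟨?_⟩
  rw [Subgroup.index_comap]
  exact (Subgroup.instFiniteIndex_subgroupOf H f.range).index_ne_zero

theorem Tower.vTower {G : Type} [Group G] (h : Tower (⊤ : Subgroup G)) : VTower G := by
  refine ⟨⊤, inferInstance, ?_⟩
  have h1 := Tower.comap (⊤ : Subgroup G).subtype Subtype.val_injective h
  rwa [Subgroup.comap_top] at h1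

theorem VTower.comap {G G' : Type} [Group G] [Group G'] (f : G' →* G) (hf : Function.Injective f) (h : VTower G) :
    VTower G' := by
  obtain ⟨H, hH, hT⟩ := h
  refine ⟨H.comap f, exv_comap f H hH, ?_⟩
  have hg : Function.Injective (f.subgroupComap H) := by
    intro x y hxy
    exact Subtype.ext (hf (congrArg Subtype.val hxy))
  have h1 := Tower.comap (f.subgroupComap H) hg hT
  rwa [Subgroup.comap_top] at h1

/-- groups with a subgroup of finite index of the class -/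
theorem VTower.of_finiteIndex {G : Type} [Group G] (H : Subgroup G) (hH : H.FiniteIndex) (h : VTower H) : VTower G := by
  obtain ⟨K, hK, hT⟩ := h
  have hinj : Function.Injective H.subtype := Subtype.val_injective
  refine ⟨K.map H.subtype, ⟨?_⟩, ?_⟩
  · rw [Subgroup.index_map_subtype]
    exact Nat.mul_ne_zero hK.index_ne_zero hH.index_ne_zero
  · have h1 := Tower.comap (K.equivMapOfInjective H.subtype hinj).symm.toMonoidHom
      (K.equivMapOfInjective H.subtype hinj).symm.injective hT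
    rwa [Subgroup.comap_top] at h1

/-- conjugation by elements of `G` on the kernel -/
private def exv_conj {G Q : Type} [Group G] [Group Q] (r : G →* Q) (h : G) : ↥r.ker ≃* ↥r.ker where
  toFun k := ⟨h * k * h⁻¹, r.normal_ker.conj_mem _ k.2 h⟩
  invFun k := ⟨h⁻¹ * k * h, by
    have h1 := r.normal_ker.conj_mem _ k.2 h⁻¹
    rwa [inv_inv] at h1⟩
  left_inv k := Subtype.ext (by
    show h⁻¹ * (h * (k : G) * h⁻¹) * h = k
    group)
  right_inv k := Subtype.ext (by
    show h * (h⁻¹ * (k : G) * h) * h⁻¹ = k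
    group)
  map_mul' k l := Subtype.ext (by
    show h * ((k : G) * l) * h⁻¹ = (h * k * h⁻¹) * (h * l * h⁻¹)
    group)

/-- **Split extensions with finitely generated kernel** -/
theorem VTower.split {G Q : Type} [Group G] [Group Q] (r : G →* Q) (s : Q →* G) (hrs : ∀ q, r (s q) = q)
    (hfg : Group.FG ↥r.ker) (h1 : VTower ↥r.ker) (h2 : VTower Q) : VTower G := by
  obtain ⟨K0, hK0, hT1⟩ := h1
  obtain ⟨Q0, hQ0, hT2⟩ := h2
  obtain ⟨C, hCf, hCK, hC⟩ := exists_char hfg K0 hK0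
  have hconj : ∀ (h : G) (c : ↥r.ker), c ∈ C → ∃ d : ↥r.ker, d ∈ C ∧ (d : G) = h * c * h⁻¹ :=
    fun h c hc => ⟨exv_conj r h c, hC (exv_conj r h) c hc, rfl⟩
  let V : Subgroup G :=
    { carrier := {x | ∃ c : ↥r.ker, c ∈ C ∧ (c : G) = x * (s (r x))⁻¹}
      mul_mem' := by
        rintro x y ⟨c, hc, hcx⟩ ⟨d, hd, hdy⟩
        obtain ⟨d', hd', hd'y⟩ := hconj x d hd
        refine ⟨d' * c, C.mul_mem hd' hc, ?_⟩
        rw [Subgroup.coe_mul, hd'y, hdy, hcx, map_mul, map_mul]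
        group
      one_mem' := ⟨1, C.one_mem, by rw [map_one, map_one, inv_one, mul_one]; rfl⟩
      inv_mem' := by
        rintro x ⟨c, hc, hcx⟩
        obtain ⟨d, hd, hdx⟩ := hconj x⁻¹ c⁻¹ (C.inv_mem hc)
        refine ⟨d, hd, ?_⟩
        rw [hdx, Subgroup.coe_inv, hcx, map_inv, map_inv]
        group }
  have hsV : ∀ q, s q ∈ V := fun q => ⟨1, C.one_mem, by
    rw [hrs, mul_inv_cancel]
    rfl⟩
  have hs1 : ∀ g : G, r g = 1 → (s (r g))⁻¹ = 1 := fun g hg => by
    rw [hg, map_one, inv_one]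
  have hCV' : ∀ c ∈ C, (c : G) ∈ V := fun c hc => ⟨c, hc, by rw [hs1 _ c.2, mul_one]⟩
  have hfin : Finite (G ⧸ V) := by
    refine Finite.of_surjective (fun q : ↥r.ker ⧸ C => (((Quotient.out q : ↥r.ker) : G) : G ⧸ V)) fun z => ?_
    obtain ⟨h, rfl⟩ := QuotientGroup.mk_surjective z
    have hk : h * (s (r h))⁻¹ ∈ r.ker := by
      rw [MonoidHom.mem_ker, map_mul, map_inv, hrs, mul_inv_cancel]
    refine ⟨((⟨h * (s (r h))⁻¹, hk⟩ : ↥r.ker) : ↥r.ker ⧸ C), ?_⟩
    obtain ⟨c, hc⟩ := QuotientGroup.mk_out_eq_mul C (⟨h * (s (r h))⁻¹, hk⟩ : ↥r.ker)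
    show ((((QuotientGroup.mk (⟨h * (s (r h))⁻¹, hk⟩ : ↥r.ker) : ↥r.ker ⧸ C).out : ↥r.ker) : G) : G ⧸ V) = h
    rw [hc, QuotientGroup.eq]
    have h2 : (((⟨h * (s (r h))⁻¹, hk⟩ : ↥r.ker) * (c : ↥r.ker) : ↥r.ker) : G)⁻¹ * h =
        ((c : ↥r.ker) : G)⁻¹ * s (r h) := by
      rw [Subgroup.coe_mul]
      show (h * (s (r h))⁻¹ * ((c : ↥r.ker) : G))⁻¹ * h = _
      group
    rw [h2]
    exact V.mul_mem (V.inv_mem (hCV' _ c.2)) (hsV _)
  have hVf : V.FiniteIndex := Subgroup.finiteIndex_of_finite_quotient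
  have hQf : (Q0.comap r).FiniteIndex := exv_comap r Q0 hQ0
  have hWf : (V ⊓ Q0.comap r).FiniteIndex := inferInstance
  refine ⟨V ⊓ Q0.comap r, hWf, ?_⟩
  -- the restrictions of `r` and `s`
  let r' : ↥(V ⊓ Q0.comap r) →* ↥Q0 := (r.comp (V ⊓ Q0.comap r).subtype).codRestrict Q0 (fun y => y.2.2)
  let s' : ↥Q0 →* ↥(V ⊓ Q0.comap r) := (s.comp Q0.subtype).codRestrict (V ⊓ Q0.comap r) (fun q => ⟨hsV _, by
    show r (s (q : Q)) ∈ Q0
    rw [hrs]
    exact q.2⟩)
  have hrs' : ∀ q, r' (s' q) = q := fun q => Subtype.ext (hrs (q : Q))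
  have hr1 : ∀ y : ↥r'.ker, r ((y : ↥(V ⊓ Q0.comap r)) : G) = 1 := fun y => congrArg Subtype.val y.2
  -- the kernel of `r'` is `C`
  have hyC : ∀ (y : ↥r'.ker) (hy : (((y : ↥(V ⊓ Q0.comap r)) : G) ∈ r.ker)), (⟨_, hy⟩ : ↥r.ker) ∈ C := by
    intro y hy
    obtain ⟨c, hc, hcy⟩ := (y : ↥(V ⊓ Q0.comap r)).2.1
    rw [hs1 _ (hr1 y), mul_one] at hcy
    have h3 : c = ⟨_, hy⟩ := Subtype.ext hcy
    rw [← h3]
    exact hc
  let e1 : ↥r'.ker →* ↥r.ker := ((V ⊓ Q0.comap r).subtype.comp r'.ker.subtype).codRestrict r.ker (fun y => hr1 y)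
  let e2 : ↥r'.ker →* ↥K0 := e1.codRestrict K0 (fun y => hCK (hyC y (hr1 y)))
  have he2 : Function.Injective e2 := by
    intro x y hxy
    exact Subtype.ext (Subtype.ext (congrArg (fun z : ↥K0 => ((z : ↥r.ker) : G)) hxy))
  have hker : Tower (⊤ : Subgroup ↥r'.ker) := by
    have h3 := Tower.comap e2 he2 hT1
    rwa [Subgroup.comap_top] at h3
  have hCfg : Group.FG ↥C := inferInstance
  have hcW : ∀ c : ↥C, ((c : ↥r.ker) : G) ∈ V ⊓ Q0.comap r := fun c => ⟨hCV' _ c.2, by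
    show r ((c : ↥r.ker) : G) ∈ Q0
    rw [(c : ↥r.ker).2]
    exact Q0.one_mem⟩
  let d1 : ↥C →* ↥(V ⊓ Q0.comap r) := (r.ker.subtype.comp C.subtype).codRestrict (V ⊓ Q0.comap r) hcW
  let d2 : ↥C →* ↥r'.ker := d1.codRestrict r'.ker (fun c => Subtype.ext (c : ↥r.ker).2)
  have hd2 : Function.Surjective d2 := by
    intro y
    exact ⟨⟨⟨_, hr1 y⟩, hyC y (hr1 y)⟩, Subtype.ext (Subtype.ext rfl)⟩
  have hfg' : Group.FG ↥r'.ker := Group.fg_of_surjective hd2
  exact Tower.split r' s' hrs' hfg' hker hT2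

end Pool.Agent.TW
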