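import Pool.Agent.TW.Defs
import Pool.Agent.H58.MN.Div

/-!
# Project TW: the series with coefficients in the components `E₀ u` are a division ring

`Gp E₀ u p v`: `v (p h) * u h⁻¹ ∈ E₀` for all `h`.
PROOFS.  `gp_iff`: by `surj`, `mem`: the condition for one `h` over `x` implies it for all (`p h = p h'` gives `u (h * h'⁻¹) ∈ E₀`).
`gp_mul`: the coefficient of `v * w` at `p h` is the finite sum of `v a * w (a⁻¹ * p h)`; for `a = p g`:
`v a * w (p (g⁻¹ * h)) * u h⁻¹ = (v a * u g⁻¹) * (u g * (w (p (g⁻¹ * h)) * u (g⁻¹ * h)⁻¹) * u g⁻¹)` is in `E₀` (`conj`);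
use `finsum_induction` style or `Subalgebra.sum_mem` after `finsum_eq_sum...`.
`exists_inv`: let `x₀` be the least element of the support (`v.wo.isWF.min`), `c = v x₀`; with `x₀ = p h` one has `c * u h⁻¹ ∈ E₀`,
nonzero, invertible in `E₀` (`hK.div`), so `c` is a unit of `E` with inverse `c'`.  As in `H58/MN/Div.lean` (there for fields):
`ξ := 1 - single x₀⁻¹ c' * v` has support in `{y | y ≠ 1 ∧ v (x₀ * y) ≠ 0}`, so in `{y | 1 < y}`; `Ser.geom ξ` is the inverse of `1 - ξ` on the right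
(`Ser.one_sub_mul_geom`); `w := geom ξ * single x₀⁻¹ c'`, `v = single x₀ c * (1 - ξ)`, `v * w = 1`.  For the left inverse: `w` satisfies
the same hypotheses (`Gp`: `geom ξ` has `Gp` because every `ξ ^ k` has it and its coefficients are finite sums of coefficients of the `ξ ^ k`;
`w ≠ 0`), so `w` has a right inverse `v'`, and `v' = v * w * v' = v`.  Support of `w`: `Ser.support_geom`.
-/

set_option autoImplicit false
set_option linter.unusedSectionVars false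

namespace Pool.Agent.TW

open Pool.Agent.S11
open Pool.Agent.H58.MN (Ser)

section

variable {J Q E : Type} [Group J] [Group Q] [BO Q] [Ring E] [Algebra (ZMod 2) E] {E₀ : Subalgebra (ZMod 2) E}
  {u : J →* E} {p : J →* Q}

theorem gp_zero : Gp E₀ u p (0 : Ser E Q) := by
  intro h
  rw [Ser.zero_apply, zero_mul]
  exact E₀.zero_mem

theorem gp_add {v w : Ser E Q} (hv : Gp E₀ u p v) (hw : Gp E₀ u p w) : Gp E₀ u p (v + w) := by
  intro h
  rw [Ser.add_apply, add_mul]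
  exact E₀.add_mem (hv h) (hw h)

theorem gp_neg {v : Ser E Q} (hv : Gp E₀ u p v) : Gp E₀ u p (-v) := by
  intro h
  rw [Ser.neg_apply, neg_mul]
  exact E₀.neg_mem (hv h)

private theorem sg_single_e (hK : KerH E₀ u p) {e : E} (he : e ∈ E₀) (g : J) : Gp E₀ u p (Ser.single (p g) (e * u g)) := by
  intro h
  by_cases hh : p h = p g
  · rw [hh, Ser.single_self, mul_assoc, ← map_mul]
    refine E₀.mul_mem he (hK.mem _ ?_)
    rw [map_mul, map_inv, hh, mul_inv_cancel]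
  · rw [Ser.single_ne hh, zero_mul]
    exact E₀.zero_mem

theorem gp_single (hK : KerH E₀ u p) (h : J) : Gp E₀ u p (Ser.single (p h) (u h)) := by
  have h1 := sg_single_e hK E₀.one_mem h
  rwa [one_mul] at h1

theorem gp_one (hK : KerH E₀ u p) : Gp E₀ u p (1 : Ser E Q) := by
  have h1 := gp_single hK (1 : J)
  rwa [map_one, map_one, ← Ser.one_def] at h1

theorem gp_mul (hK : KerH E₀ u p) {v w : Ser E Q} (hv : Gp E₀ u p v) (hw : Gp E₀ u p w) : Gp E₀ u p (v * w) := by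
  intro h
  rw [Ser.mul_apply]
  refine finsum_induction (p := fun x => x * u h⁻¹ ∈ E₀) ?_ ?_ ?_
  · show (0 : E) * u h⁻¹ ∈ E₀
    rw [zero_mul]
    exact E₀.zero_mem
  · intro x y hx hy
    show (x + y) * u h⁻¹ ∈ E₀
    rw [add_mul]
    exact E₀.add_mem hx hy
  · intro a
    obtain ⟨g, rfl⟩ := hK.surj a
    show v (p g) * w ((p g)⁻¹ * p h) * u h⁻¹ ∈ E₀
    have h1 : (p g)⁻¹ * p h = p (g⁻¹ * h) := by rw [map_mul, map_inv]
    have h2 := E₀.mul_mem (hv g) (hK.conj g _ (hw (g⁻¹ * h)))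
    have h3 : u g⁻¹ * u g = 1 := by rw [← map_mul, inv_mul_cancel, map_one]
    have h4 : u (g⁻¹ * h)⁻¹ * u g⁻¹ = u h⁻¹ := by
      rw [← map_mul]
      congr 1
      group
    have h5 : v (p g) * u g⁻¹ * (u g * (w (p (g⁻¹ * h)) * u (g⁻¹ * h)⁻¹) * u g⁻¹) = v (p g) * w (p (g⁻¹ * h)) * u h⁻¹ := by
      calc v (p g) * u g⁻¹ * (u g * (w (p (g⁻¹ * h)) * u (g⁻¹ * h)⁻¹) * u g⁻¹)
          = v (p g) * (u g⁻¹ * u g) * w (p (g⁻¹ * h)) * (u (g⁻¹ * h)⁻¹ * u g⁻¹) := by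
            simp only [mul_assoc]
        _ = _ := by rw [h3, h4, mul_one]
    rw [h1, ← h5]
    exact h2

private theorem sg_pow (hK : KerH E₀ u p) {v : Ser E Q} (hv : Gp E₀ u p v) (k : ℕ) : Gp E₀ u p (v ^ k) := by
  induction k with
  | zero =>
    rw [pow_zero]
    exact gp_one hK
  | succ k ih =>
    rw [pow_succ]
    exact gp_mul hK ih hv

private theorem sg_geom (hK : KerH E₀ u p) {v : Ser E Q} (hv : Gp E₀ u p v) (hpos : ∀ x ∈ Function.support v, 1 < x) :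
    Gp E₀ u p (Ser.geom v hpos) := by
  intro h
  rw [Ser.geom_apply]
  refine finsum_induction (p := fun x => x * u h⁻¹ ∈ E₀) ?_ ?_ ?_
  · show (0 : E) * u h⁻¹ ∈ E₀
    rw [zero_mul]
    exact E₀.zero_mem
  · intro x y hx hy
    show (x + y) * u h⁻¹ ∈ E₀
    rw [add_mul]
    exact E₀.add_mem hx hy
  · intro k
    exact sg_pow hK hv k h

private theorem sg_right (hK : KerH E₀ u p) {v : Ser E Q} (hv : Gp E₀ u p v) (h0 : v ≠ 0) :
    ∃ w : Ser E Q, Gp E₀ u p w ∧ v * w = 1 ∧ ∃ x₀, v x₀ ≠ 0 ∧ (∀ x, v x ≠ 0 → x₀ ≤ x) ∧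
      ∀ x, w x ≠ 0 → x * x₀ ∈ Submonoid.closure {y | y ≠ 1 ∧ v (x₀ * y) ≠ 0} := by
  have hne := Ser.ne_zero_iff.1 h0
  obtain ⟨x₀, hx₀, hmin⟩ : ∃ x₀, v x₀ ≠ 0 ∧ ∀ x, v x ≠ 0 → x₀ ≤ x :=
    ⟨v.wo.isWF.min hne, v.wo.isWF.min_mem hne, fun x hx => v.wo.isWF.min_le hne hx⟩
  obtain ⟨h, rfl⟩ := hK.surj x₀
  have uu : u h⁻¹ * u h = 1 := by rw [← map_mul, inv_mul_cancel, map_one]
  have he0 : v (p h) * u h⁻¹ ≠ 0 := by
    intro h1
    apply hx₀
    calc v (p h) = v (p h) * u h⁻¹ * u h := by rw [mul_assoc, uu, mul_one]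
      _ = 0 := by rw [h1, zero_mul]
  obtain ⟨b, hb, hb1, hb2⟩ := hK.div _ (hv h) he0
  set c : E := v (p h) with hc
  set c' : E := u h⁻¹ * b with hc'
  have cc : c * c' = 1 := by rw [hc', ← mul_assoc]; exact hb1
  have cc2 : c' * c = 1 := by
    calc c' * c = u h⁻¹ * b * (c * u h⁻¹ * u h) := by rw [mul_assoc c, uu, mul_one]
      _ = u h⁻¹ * (b * (c * u h⁻¹)) * u h := by simp only [mul_assoc]
      _ = 1 := by rw [hb2, mul_one, uu]
  set s : Ser E Q := Ser.single (p h)⁻¹ c' with hs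
  have gs : Gp E₀ u p s := by
    have h1 : u h⁻¹ * b * u (h⁻¹)⁻¹ ∈ E₀ := hK.conj h⁻¹ b hb
    have h2 := sg_single_e hK h1 h⁻¹
    rw [map_inv p, mul_assoc (u h⁻¹ * b), ← map_mul u, inv_mul_cancel, map_one, mul_one] at h2
    exact h2
  set ξ : Ser E Q := 1 - s * v with hξ
  have gξ : Gp E₀ u p ξ := by
    rw [hξ, sub_eq_add_neg]
    exact gp_add (gp_one hK) (gp_neg (gp_mul hK gs hv))
  have aξ : ∀ x, ξ x = (1 : Ser E Q) x - c' * v (p h * x) := by
    intro x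
    rw [hξ, Ser.sub_apply, hs, Ser.single_mul_apply, inv_inv]
  have sξ : ∀ x ∈ Function.support ξ, x ≠ 1 ∧ v (p h * x) ≠ 0 := by
    intro x hx
    rw [Function.mem_support, aξ] at hx
    constructor
    · rintro rfl
      apply hx
      rw [Ser.one_def, Ser.single_self, mul_one, ← hc, cc2, sub_self]
    · intro h1
      by_cases h2 : x = 1
      · subst h2
        apply hx
        rw [Ser.one_def, Ser.single_self, mul_one, ← hc, cc2, sub_self]
      · apply hx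
        rw [h1, mul_zero, sub_zero, Ser.one_def, Ser.single_ne h2]
  have hpos : ∀ x ∈ Function.support ξ, 1 < x := by
    intro x hx
    obtain ⟨h1, h2⟩ := sξ x hx
    refine lt_of_le_of_ne ?_ (Ne.symm h1)
    exact (le_mul_iff_one_le_right' _).1 (hmin _ h2)
  have hvξ : Ser.single (p h) c * (1 - ξ) = v := by
    rw [hξ, sub_sub_cancel, ← mul_assoc, hs, Ser.single_mul_single, mul_inv_cancel, cc, ← Ser.one_def, one_mul]
  refine ⟨Ser.geom ξ hpos * s, gp_mul hK (sg_geom hK gξ hpos) gs, ?_, p h, hx₀, hmin, ?_⟩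
  · nth_rewrite 1 [← hvξ]
    rw [mul_assoc, ← mul_assoc (1 - ξ), Ser.one_sub_mul_geom, one_mul, hs, Ser.single_mul_single, mul_inv_cancel, cc]
    rfl
  · intro x hx
    rw [hs, Ser.mul_single_apply, inv_inv] at hx
    have h1 : Ser.geom ξ hpos (x * p h) ≠ 0 := fun h2 => hx (by rw [h2, zero_mul])
    exact Submonoid.closure_mono (fun y hy => sξ y hy) (Ser.support_geom ξ hpos h1)

/-- **Inverses** -/
theorem exists_inv (hK : KerH E₀ u p) {v : Ser E Q} (hv : Gp E₀ u p v) (h0 : v ≠ 0) :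
    ∃ w : Ser E Q, Gp E₀ u p w ∧ v * w = 1 ∧ w * v = 1 ∧ ∃ x₀, v x₀ ≠ 0 ∧ (∀ x, v x ≠ 0 → x₀ ≤ x) ∧
      ∀ x, w x ≠ 0 → x * x₀ ∈ Submonoid.closure {y | y ≠ 1 ∧ v (x₀ * y) ≠ 0} := by
  obtain ⟨w, gw, hw, hx⟩ := sg_right hK hv h0
  have hw0 : w ≠ 0 := by
    intro h1
    rw [h1, mul_zero] at hw
    apply h0
    calc v = v * 1 := (mul_one v).symm
      _ = 0 := by rw [← hw, mul_zero]
  obtain ⟨v', -, hv', -⟩ := sg_right hK gw hw0
  have h2 : v' = v := by
    calc v' = v * w * v' := by rw [hw, one_mul]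
      _ = v := by rw [mul_assoc, hv', mul_one]
  rw [h2] at hv'
  exact ⟨w, gw, hw, hv', hx⟩

end

end Pool.Agent.TW
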