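import Pool.Agent.TW.Defs
import Pool.Agent.S14.E4

/-!
# Project TW: approximation by finite quotients (definition)
-/

set_option autoImplicit false
set_option linter.unusedSectionVars false

open Matrix Finset

namespace Pool.Agent.TW

open Pool.Agent.S14

/-- finitely many rows which are independent over `D` have almost full rank over suitable finite quotients, which are
injective on a given finite set -/
def FinAppr {H D : Type} [Group H] [DivisionRing D] (ι : MonoidAlgebra (ZMod 2) H →+* D) : Prop :=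
  ∀ (r c r' c' : ℕ) (A : Matrix (Fin r) (Fin c) (MonoidAlgebra (ZMod 2) H))
    (B : Matrix (Fin r') (Fin c') (MonoidAlgebra (ZMod 2) H)),
    (∀ v : Fin r → D, v ᵥ* (A.map ι) = 0 → v = 0) → (∀ v : Fin r' → D, v ᵥ* (B.map ι) = 0 → v = 0) →
    ∀ (T : Finset H) (ε : ℝ), 0 < ε → ∃ (Q : Type) (_ : Group Q) (_ : Fintype Q) (ψ : H →* Q), Set.InjOn ψ T ∧
      ((r : ℝ) - ε) * Fintype.card Q ≤
        ((cmp univ univ (A.map (MonoidAlgebra.mapDomainRingHom (ZMod 2) ψ))).rank : ℝ) ∧
      ((r' : ℝ) - ε) * Fintype.card Q ≤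
        ((cmp univ univ (B.map (MonoidAlgebra.mapDomainRingHom (ZMod 2) ψ))).rank : ℝ)

end Pool.Agent.TW
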