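import Pool.Agent.H58.MN.Ser

/-!
# Project TW: sets on which a homomorphism is finite-to-one with well-ordered image (copy of the first part of `H58/MN/Push.lean`)
-/

set_option autoImplicit false
set_option linter.unusedSectionVars false

open Set Pointwise Function

namespace Pool.Agent.TW

open Pool.Agent.H58.MN

section good

variable {G G' : Type*} [Group G] [Group G'] [LinearOrder G'] [MulLeftMono G'] [MulRightMono G'] (π : G →* G')

/-- `π` is finite to one on `S`, with well ordered image. -/
def Good (S : Set G) : Prop := (π '' S).IsPWO ∧ ∀ y, {x ∈ S | π x = y}.Finite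

variable {π} {S T : Set G}

theorem Good.mono (h : Good π T) (hST : S ⊆ T) : Good π S :=
  ⟨h.1.mono (image_mono hST), fun y => (h.2 y).subset fun _ hx => ⟨hST hx.1, hx.2⟩⟩

theorem good_finite (h : S.Finite) : Good π S := ⟨(h.image π).isPWO, fun _ => h.subset fun _ hx => hx.1⟩

theorem Good.union (hS : Good π S) (hT : Good π T) : Good π (S ∪ T) := by
  refine ⟨?_, fun y => ?_⟩
  · rw [image_union]
    exact IsPWO.union hS.1 hT.1
  · refine ((hS.2 y).union (hT.2 y)).subset ?_
    rintro x ⟨hx | hx, h⟩
    · exact Or.inl ⟨hx, h⟩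
    · exact Or.inr ⟨hx, h⟩

theorem Good.mul (hS : Good π S) (hT : Good π T) : Good π (S * T) := by
  refine ⟨?_, fun y => ?_⟩
  · rw [image_mul]
    exact isPWO_mul hS.1 hT.1
  · have h1 := finite_anti hS.1 hT.1 y
    refine (h1.biUnion fun p _ => ((hS.2 p.1).prod (hT.2 p.2)).image fun q : G × G => q.1 * q.2).subset ?_
    rintro x ⟨⟨a, ha, b, hb, rfl⟩, hx⟩
    rw [mem_iUnion₂]
    exact ⟨(π a, π b), ⟨⟨a, ha, rfl⟩, ⟨b, hb, rfl⟩, by rw [← map_mul]; exact hx⟩, (a, b), ⟨⟨ha, rfl⟩, ⟨hb, rfl⟩⟩, rfl⟩

theorem Good.mul_left (hS : Good π S) (g : G) : Good π ((fun y => g * y) '' S) := by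
  have := (good_finite (π := π) (finite_singleton g)).mul hS
  rwa [singleton_mul] at this

theorem Good.mul_right (hS : Good π S) (g : G) : Good π ((fun y => y * g) '' S) := by
  have := hS.mul (good_finite (π := π) (finite_singleton g))
  rwa [mul_singleton] at this

theorem finite_lists {α : Type*} {P : α → Prop} {β : Type*} {f : α → β} (h : ∀ y, {x | P x ∧ f x = y}.Finite) (l : List β) :
    {m : List α | (∀ x ∈ m, P x) ∧ m.map f = l}.Finite := by
  induction l with
  | nil =>
    refine (finite_singleton []).subset ?_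
    rintro m ⟨-, hm⟩
    exact List.map_eq_nil_iff.1 hm
  | cons b l ih =>
    refine ((h b).prod ih |>.image fun p : α × List α => p.1 :: p.2).subset ?_
    rintro m ⟨h1, h2⟩
    rcases m with _ | ⟨a, m⟩
    · simp at h2
    · rw [List.map_cons, List.cons.injEq] at h2
      exact ⟨(a, m), ⟨⟨h1 a (by simp), h2.1⟩, fun x hx => h1 x (List.mem_cons_of_mem _ hx), h2.2⟩, rfl⟩

/-- the monoid generated by a good set of elements with images `> 1` -/
theorem Good.closure (hS : Good π S) (hpos : ∀ x ∈ S, 1 < π x) : Good π (Submonoid.closure S : Set G) := by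
  have hpos' : ∀ y ∈ π '' S, 1 < y := by
    rintro _ ⟨x, hx, rfl⟩
    exact hpos x hx
  refine ⟨?_, fun y => ?_⟩
  · have h1 : π '' (Submonoid.closure S : Set G) = (Submonoid.closure (π '' S) : Set G') := by
      rw [← MonoidHom.map_mclosure]
      rfl
    rw [h1]
    exact isPWO_closure (fun x hx => (hpos' x hx).le) hS.1
  · have h1 := finite_words hpos' hS.1 y
    refine ((h1.biUnion fun l _ => finite_lists (P := fun x => x ∈ S) (f := π) hS.2 l).image List.prod).subset ?_
    rintro x ⟨hx, hy⟩
    obtain ⟨m, h2, h3⟩ := Submonoid.exists_list_of_mem_closure hx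
    refine ⟨m, ?_, h3⟩
    rw [mem_iUnion₂]
    refine ⟨m.map π, ⟨?_, ?_⟩, h2, rfl⟩
    · intro z hz
      obtain ⟨a, ha, rfl⟩ := List.mem_map.1 hz
      exact ⟨a, h2 a ha, rfl⟩
    · rw [← map_list_prod, h3, hy]

/-- elements of `S` with image `1` do not matter modulo a normal subgroup: the monoid generated by `φ '' S` is generated by the
nontrivial elements of `φ '' S` -/
theorem closure_sdiff_one {M : Type*} [Monoid M] (S : Set M) : Submonoid.closure (S \ {1}) = Submonoid.closure S := by
  refine le_antisymm (Submonoid.closure_mono sdiff_subset) ?_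
  rw [Submonoid.closure_le]
  intro x hx
  by_cases h : x = 1
  · rw [h]
    exact Submonoid.one_mem _
  · exact Submonoid.subset_closure ⟨hx, h⟩

end good

end Pool.Agent.TW
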