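import Pool.Agent.TW.Defs
import Pool.Agent.TW.Gd

/-!
# Project TW: series with finite fibres over the approximations

`Fn f v`: for all `y` finitely many `x` with `v x ≠ 0`, `f x = y`.  `Apx q`: `q j : Q →* Γ j` is weakly monotone (`pos`), the kernels
decrease (`dec`) and have trivial intersection (`sep`).
PROOFS.  `fn_good`: the image of the well-ordered support under the weakly monotone `q j` is well-ordered
(`Set.IsPWO.image_of_monotone`), so `Good (q j) (support v)` of `TW/Gd.lean`; `Good.mul`, `Good.union`, `good_finite`.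
`fn_mono`: the fibre over `y` of `q j` is contained in a fibre of `q i` (`dec`): if `x₁` is in it, `q j x = q j x₁` implies
`q i x = q i x₁`.  `fn_inv`: let `S = {x | v x ≠ 0}`; the set `A = {x ∈ S | q i x = q i x₀}` is finite; by `sep`, `dec` there is `j ≥ i` with
`q k x ≠ q k x₀` for all `k ≥ j`, `x ∈ A`, `x ≠ x₀`, so for all `x ∈ S`, `x ≠ x₀` (`dec`).  For `k ≥ j` all `y` with `y ≠ 1`, `v (x₀ * y) ≠ 0` have
`1 < y` and `1 < q k y` (`pos`, `≠`); the set `T` of these `y` is `Good (q k)` (`Good.mul_left`, `Good.mono`), so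
`Good (q k) (closure T)` (`Good.closure`), and the support of `w` is contained in a right translate (`Good.mul_right`).
-/

set_option autoImplicit false
set_option linter.unusedSectionVars false

namespace Pool.Agent.TW

open Pool.Agent.S11
open Pool.Agent.H58.MN (Ser)

section

variable {Q E : Type} [Group Q] [BO Q] [Ring E] {Γ : ℕ → Type} [∀ j, Group (Γ j)] [∀ j, BO (Γ j)]
  {q : ∀ j, Q →* Γ j}

theorem apx_mono (hA : Apx q) (j : ℕ) : Monotone (q j) := by
  intro a b hab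
  rcases hab.lt_or_eq with h | h
  · have h1 : 1 < a⁻¹ * b := by
      have h2 := mul_lt_l h a⁻¹
      rwa [inv_mul_cancel] at h2
    have h3 := mul_le_l (hA.pos j _ h1) (q j a)
    rwa [mul_one, ← map_mul, mul_inv_cancel_left] at h3
  · rw [h]

theorem fn_good (hA : Apx q) {j : ℕ} {v : Ser E Q} : Fn (q j) v ↔ Good (q j) (Function.support v) := by
  constructor
  · intro h
    exact ⟨v.wo.image_of_monotone (apx_mono hA j), fun y => h y⟩
  · intro h y
    exact h.2 y

theorem fn_zero (j : ℕ) : Fn (q j) (0 : Ser E Q) := by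
  intro y
  refine Set.finite_empty.subset ?_
  rintro x ⟨hx, -⟩
  exact hx (Ser.zero_apply x)

theorem fn_single (j : ℕ) (x : Q) (c : E) : Fn (q j) (Ser.single x c) := by
  intro y
  refine (Set.finite_singleton x).subset ?_
  rintro z ⟨hz, -⟩
  by_contra h
  exact hz (Ser.single_ne h c)

theorem fn_one (j : ℕ) : Fn (q j) (1 : Ser E Q) := by
  rw [Ser.one_def]
  exact fn_single j 1 1

theorem fn_add {j : ℕ} {v w : Ser E Q} (hv : Fn (q j) v) (hw : Fn (q j) w) : Fn (q j) (v + w) := by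
  intro y
  refine ((hv y).union (hw y)).subset ?_
  rintro x ⟨hx, hy⟩
  by_cases h : v x = 0
  · refine Or.inr ⟨fun h' => hx ?_, hy⟩
    rw [Ser.add_apply, h, h', add_zero]
  · exact Or.inl ⟨h, hy⟩

theorem fn_neg {j : ℕ} {v : Ser E Q} (hv : Fn (q j) v) : Fn (q j) (-v) := by
  intro y
  refine (hv y).subset ?_
  rintro x ⟨hx, hy⟩
  refine ⟨fun h => hx ?_, hy⟩
  rw [Ser.neg_apply, h, neg_zero]

theorem fn_mul (hA : Apx q) {j : ℕ} {v w : Ser E Q} (hv : Fn (q j) v) (hw : Fn (q j) w) : Fn (q j) (v * w) :=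
  (fn_good hA).2 ((((fn_good hA).1 hv).mul ((fn_good hA).1 hw)).mono (Ser.support_mul v w))

theorem fn_mono (hA : Apx q) {i j : ℕ} (hij : i ≤ j) {v : Ser E Q} (hv : Fn (q i) v) : Fn (q j) v := by
  intro y
  rcases Set.eq_empty_or_nonempty {x | v x ≠ 0 ∧ q j x = y} with h | ⟨x₁, h1, h2⟩
  · rw [h]
    exact Set.finite_empty
  · refine (hv (q i x₁)).subset ?_
    rintro x ⟨h3, h4⟩
    refine ⟨h3, ?_⟩
    have h5 : q j (x₁⁻¹ * x) = 1 := by
      rw [map_mul, map_inv, h2, h4, inv_mul_cancel]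
    have h6 := hA.dec i j hij _ h5
    rw [map_mul, map_inv, inv_mul_eq_one] at h6
    exact h6.symm

/-- **Inverses** -/
theorem fn_inv (hA : Apx q) {i : ℕ} {v w : Ser E Q} (hv : Fn (q i) v) {x₀ : Q} (h0 : v x₀ ≠ 0)
    (h1 : ∀ x, v x ≠ 0 → x₀ ≤ x) (h2 : ∀ x, w x ≠ 0 → x * x₀ ∈ Submonoid.closure {y | y ≠ 1 ∧ v (x₀ * y) ≠ 0}) :
    ∃ j, ∀ k, j ≤ k → Fn (q k) w := by
  classical
  have hs : ∀ y : Q, ∃ j, y ≠ 1 → q j y ≠ 1 := by
    intro y
    by_cases hy : y = 1
    · exact ⟨0, fun h => absurd hy h⟩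
    · obtain ⟨j, hj⟩ := hA.sep y hy
      exact ⟨j, fun _ => hj⟩
  choose n hn using hs
  refine ⟨max i ((hv (q i x₀)).toFinset.sup fun x => n (x₀⁻¹ * x)), fun k hk => ?_⟩
  have hik : i ≤ k := (le_max_left _ _).trans hk
  have hT : ∀ y, y ≠ 1 → v (x₀ * y) ≠ 0 → 1 < q k y := by
    intro y hy hvy
    have h3 : 1 < y := by
      have h4 := mul_le_l (h1 _ hvy) x₀⁻¹
      rw [inv_mul_cancel, inv_mul_cancel_left] at h4
      exact lt_of_le_of_ne h4 (Ne.symm hy)
    refine lt_of_le_of_ne (hA.pos k y h3) (Ne.symm ?_)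
    intro h5
    by_cases h6 : q i (x₀ * y) = q i x₀
    · have h7 : x₀ * y ∈ (hv (q i x₀)).toFinset := by
        rw [Set.Finite.mem_toFinset]
        exact ⟨hvy, h6⟩
      have h8 : n y ≤ k := by
        have h9 := Finset.le_sup (f := fun x => n (x₀⁻¹ * x)) h7
        simp only [inv_mul_cancel_left] at h9
        exact h9.trans ((le_max_right _ _).trans hk)
      exact hn y hy (hA.dec _ _ h8 y h5)
    · apply h6
      rw [map_mul, hA.dec i k hik y h5, mul_one]
  have hG : Good (q k) {y | y ≠ 1 ∧ v (x₀ * y) ≠ 0} := by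
    refine (((fn_good hA).1 (fn_mono hA hik hv)).mul_left x₀⁻¹).mono ?_
    rintro y ⟨-, hy⟩
    exact ⟨x₀ * y, hy, by simp⟩
  have hC := (hG.closure fun x hx => hT x hx.1 hx.2).mul_right x₀⁻¹
  refine (fn_good hA).2 (hC.mono ?_)
  intro x hx
  exact ⟨x * x₀, h2 x hx, by simp⟩

end

end Pool.Agent.TW
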