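import Pool.Agent.TW.JM
import Pool.Agent.TW.URs

/-!
# Project TW: boxes in the ultraproduct

`V` a normal subgroup of finite index of `H`, `X = H / V`.  The group `J` acts on `X` by right multiplication.  Choose representatives `x_o` of the
orbits (left cosets of the image of `J`), write `x = x_o h_x`, and put `π (x) = q (h_x)⁻¹ • c_o` with `c_o ∈ Γ / B`.  If `q (V ∩ J) ⊆ W`, `W` normal,
`W ≤ B`, then `π (x h) = q (h)⁻¹ • π (x)`.  Averaging over `c_o` one can choose `c_o` such that `π (x) ∈ D B` for at most `|D| / |Φ|` of the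
points of the orbit.  `P a` is the class of the diagonal matrices with entries `1` at the `x` with `π (x) = a B`.
-/

set_option autoImplicit false
set_option linter.unusedSectionVars false

open Finset

namespace Pool.Agent.TW

section

variable {H Γ : Type} [Group H] [Group Γ]

/-- the averaging argument on one orbit -/
private theorem HB_orbit {X Y : Type} [Fintype X] [Fintype Y] [DecidableEq Y] [MulAction Γ Y] (s : Finset X) (g : X → Γ) (T : Finset Y) [Nonempty Y] :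
    ∃ c : Y, (s.filter fun x => (g x)⁻¹ • c ∈ T).card * Fintype.card Y ≤ s.card * T.card := by
  classical
  by_contra hcon
  push Not at hcon
  have h1 : ∑ c : Y, s.card * T.card < ∑ c : Y, (s.filter fun x => (g x)⁻¹ • c ∈ T).card * Fintype.card Y :=
    Finset.sum_lt_sum_of_nonempty Finset.univ_nonempty fun c _ => hcon c
  have h2 : ∑ c : Y, (s.filter fun x => (g x)⁻¹ • c ∈ T).card = s.card * T.card := by
    have h3 : ∀ c : Y, (s.filter fun x => (g x)⁻¹ • c ∈ T).card = ∑ x ∈ s, if (g x)⁻¹ • c ∈ T then 1 else 0 := by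
      intro c
      rw [Finset.card_filter]
    rw [Finset.sum_congr rfl fun c _ => h3 c, Finset.sum_comm]
    have h4 : ∀ x ∈ s, ∑ c : Y, (if (g x)⁻¹ • c ∈ T then 1 else 0) = T.card := by
      intro x _
      rw [← Finset.card_filter]
      have h5 : (Finset.univ.filter fun c : Y => (g x)⁻¹ • c ∈ T) = T.image fun t => g x • t := by
        ext c
        simp only [Finset.mem_filter, Finset.mem_univ, true_and, Finset.mem_image]
        constructor
        · intro h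
          exact ⟨_, h, smul_inv_smul _ _⟩
        · rintro ⟨t, ht, rfl⟩
          rw [inv_smul_smul]
          exact ht
      rw [h5, Finset.card_image_of_injective _ (MulAction.injective (g x))]
    rw [Finset.sum_congr rfl h4, Finset.sum_const, smul_eq_mul]
  rw [Finset.sum_const, ← Finset.sum_mul, h2, smul_eq_mul, Finset.card_univ, mul_comm] at h1
  exact lt_irrefl _ h1

private theorem HB_pi (J : Subgroup H) (q : ↥J →* Γ) {W B : Subgroup Γ} (hW : W.Normal) (hWB : W ≤ B) {V₀ : Subgroup H}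
    (hV₀ : ∀ h : ↥J, (h : H) ∈ V₀ → q h ∈ W) [Fintype (Γ ⧸ B)] [DecidableEq (Γ ⧸ B)] (T : Finset (Γ ⧸ B)) (V : Idx H) (hV : V.1 ≤ V₀) :
    ∃ π : H ⧸ V.1 → Γ ⧸ B, (∀ (x : H ⧸ V.1) (h : ↥J), π (x * ((h : H) : H ⧸ V.1)) = (q h)⁻¹ • π x) ∧
      (Finset.univ.filter fun x => π x ∈ T).card * Fintype.card (Γ ⧸ B) ≤ Fintype.card (H ⧸ V.1) * T.card := by
  classical
  let Jb : Subgroup (H ⧸ V.1) := J.map (QuotientGroup.mk' V.1)
  -- the element `h_x`
  have hex : ∀ x : H ⧸ V.1, ∃ h : ↥J, x = ((x : (H ⧸ V.1) ⧸ Jb)).out * ((h : H) : H ⧸ V.1) := by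
    intro x
    have h1 : ((x : (H ⧸ V.1) ⧸ Jb)).out⁻¹ * x ∈ Jb := by
      rw [← QuotientGroup.eq, QuotientGroup.out_eq']
    obtain ⟨h, hhJ, hh⟩ := h1
    refine ⟨⟨h, hhJ⟩, ?_⟩
    have h2 : ((h : H) : H ⧸ V.1) = ((x : (H ⧸ V.1) ⧸ Jb)).out⁻¹ * x := hh
    rw [h2, mul_inv_cancel_left]
  choose k hk using hex
  -- independence of the choice
  have hind : ∀ (h h' : ↥J), ((h : H) : H ⧸ V.1) = ((h' : H) : H ⧸ V.1) → ∀ c : Γ ⧸ B, (q h)⁻¹ • c = (q h')⁻¹ • c := by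
    intro h h' hh c
    have h1 : (h : H)⁻¹ * (h' : H) ∈ V.1 := QuotientGroup.eq.1 hh
    have h2 : q (h⁻¹ * h') ∈ W := hV₀ _ (hV h1)
    obtain ⟨y, rfl⟩ := QuotientGroup.mk_surjective c
    rw [MulAction.Quotient.smul_mk, MulAction.Quotient.smul_mk, smul_eq_mul, smul_eq_mul, QuotientGroup.eq]
    have h3 : (((q h)⁻¹ * y)⁻¹ * ((q h')⁻¹ * y)) = y⁻¹ * (q h * (q h')⁻¹) * y := by group
    rw [h3]
    apply hWB
    have h4 : q h * (q h')⁻¹ ∈ W := by
      have h5 := hW.conj_mem _ (W.inv_mem h2) (q h)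
      rw [map_mul, map_inv] at h5
      have h6 : q h * ((q h)⁻¹ * q h')⁻¹ * (q h)⁻¹ = q h * (q h')⁻¹ := by group
      rwa [h6] at h5
    have h7 := hW.conj_mem _ h4 y⁻¹
    rwa [inv_inv] at h7
  have : Nonempty (Γ ⧸ B) := ⟨((1 : Γ) : Γ ⧸ B)⟩
  choose c hc using fun o : (H ⧸ V.1) ⧸ Jb =>
    HB_orbit (Γ := Γ) (Finset.univ.filter fun x : H ⧸ V.1 => (x : (H ⧸ V.1) ⧸ Jb) = o) (fun x => q (k x)) T
  refine ⟨fun x => (q (k x))⁻¹ • c (x : (H ⧸ V.1) ⧸ Jb), fun x h => ?_, ?_⟩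
  · have h1 : ((x * ((h : H) : H ⧸ V.1) : H ⧸ V.1) : (H ⧸ V.1) ⧸ Jb) = (x : (H ⧸ V.1) ⧸ Jb) := by
      rw [QuotientGroup.eq]
      have h2 : (x * ((h : H) : H ⧸ V.1))⁻¹ * x = (((h : H) : H ⧸ V.1))⁻¹ := by group
      rw [h2]
      exact Jb.inv_mem ⟨h, h.2, rfl⟩
    have h3 : ((k (x * ((h : H) : H ⧸ V.1)) : H) : H ⧸ V.1) = ((k x * h : ↥J) : H) := by
      have h4 := hk (x * ((h : H) : H ⧸ V.1))
      rw [h1] at h4
      have h5 : x * ((h : H) : H ⧸ V.1) = ((x : (H ⧸ V.1) ⧸ Jb)).out * ((k x : H) : H ⧸ V.1) * ((h : H) : H ⧸ V.1) := by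
        rw [← hk x]
      rw [h5, mul_assoc] at h4
      have h6 := mul_left_cancel h4
      change _ = (((k x : H) * (h : H) : H) : H ⧸ V.1)
      rw [QuotientGroup.mk_mul, h6]
      congr 3
      rw [← mul_assoc]
      exact h5
    change (q (k (x * ((h : H) : H ⧸ V.1))))⁻¹ • c ((x * ((h : H) : H ⧸ V.1) : H ⧸ V.1) : (H ⧸ V.1) ⧸ Jb) = _
    rw [h1, hind _ _ h3, map_mul, mul_inv_rev, mul_smul]
  · have h1 : (Finset.univ.filter fun x : H ⧸ V.1 => (q (k x))⁻¹ • c (x : (H ⧸ V.1) ⧸ Jb) ∈ T).card =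
        ∑ o : (H ⧸ V.1) ⧸ Jb, ((Finset.univ.filter fun x : H ⧸ V.1 => (x : (H ⧸ V.1) ⧸ Jb) = o).filter
          fun x => (q (k x))⁻¹ • c o ∈ T).card := by
      rw [Finset.card_eq_sum_card_fiberwise (f := fun x : H ⧸ V.1 => (x : (H ⧸ V.1) ⧸ Jb)) (t := Finset.univ)
        (fun _ _ => Finset.mem_coe.2 (Finset.mem_univ _))]
      refine Finset.sum_congr rfl fun o _ => ?_
      congr 1
      ext x
      simp only [Finset.mem_filter, Finset.mem_univ, true_and]
      constructor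
      · rintro ⟨h1, h2⟩
        exact ⟨h2, h2 ▸ h1⟩
      · rintro ⟨h1, h2⟩
        exact ⟨h1 ▸ h2, h1⟩
    have h2 : Fintype.card (H ⧸ V.1) = ∑ o : (H ⧸ V.1) ⧸ Jb, (Finset.univ.filter fun x : H ⧸ V.1 => (x : (H ⧸ V.1) ⧸ Jb) = o).card := by
      rw [← Finset.card_univ, Finset.card_eq_sum_card_fiberwise (f := fun x : H ⧸ V.1 => (x : (H ⧸ V.1) ⧸ Jb)) (t := Finset.univ)
        (fun _ _ => Finset.mem_coe.2 (Finset.mem_univ _))]
    rw [h1, h2, Finset.sum_mul, Finset.sum_mul]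
    exact Finset.sum_le_sum fun o _ => hc o

end

/-- **Boxes in the ultraproduct** -/
theorem hasBx_of_bxRF {H : Type} [Group H] (U : UR H) {R : RkR U.E} (hR : U.Lim R) (J : Subgroup H) {Γ : Type} [Group Γ] (q : ↥J →* Γ)
    (h : BxRF J q) : HasBx R (U.uJ J) q := by
  classical
  intro S ε hε
  obtain ⟨W, B, Φ, D, hW, hWB, ⟨V₀, hV₀i, hV₀⟩, hbij, hDΦ, hD, hDc⟩ := h (S.image q) ε hε
  -- `Φ` is a set of representatives of the cosets of `B`
  have hinj : ∀ a ∈ Φ, ∀ b ∈ Φ, (a : Γ ⧸ B) = (b : Γ ⧸ B) → a = b := by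
    intro a ha b hb hab
    have h1 : a⁻¹ * b ∈ B := QuotientGroup.eq.1 hab
    have h2 := hbij.1 (a₁ := (⟨a, ha⟩, ⟨a⁻¹ * b, h1⟩)) (a₂ := (⟨b, hb⟩, ⟨1, B.one_mem⟩)) (by
      change a * (a⁻¹ * b) = b * 1
      rw [mul_inv_cancel_left, mul_one])
    exact congrArg (fun z : Φ × B => (z.1 : Γ)) h2
  have hsurj : ∀ y : Γ ⧸ B, ∃ a ∈ Φ, (a : Γ ⧸ B) = y := by
    intro y
    obtain ⟨g, rfl⟩ := QuotientGroup.mk_surjective y
    obtain ⟨⟨a, b⟩, hab⟩ := hbij.2 g
    refine ⟨a, a.2, ?_⟩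
    rw [QuotientGroup.eq, ← (hab : (a : Γ) * b = g), inv_mul_cancel_left]
    exact b.2
  let e : Φ ≃ Γ ⧸ B := Equiv.ofBijective (fun a => ((a : Γ) : Γ ⧸ B))
    ⟨fun a b hab => Subtype.ext (hinj a a.2 b b.2 hab), fun y => by
      obtain ⟨a, ha, hay⟩ := hsurj y
      exact ⟨⟨a, ha⟩, hay⟩⟩
  let _ : Fintype (Γ ⧸ B) := Fintype.ofEquiv Φ e
  have hcard : Fintype.card (Γ ⧸ B) = Φ.card := by
    rw [← Fintype.card_congr e, Fintype.card_coe]
  let T : Finset (Γ ⧸ B) := D.image (fun a : Γ => (QuotientGroup.mk a : Γ ⧸ B))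
  have hex : ∀ V : Idx H, ∃ π : H ⧸ V.1 → Γ ⧸ B, V.1 ≤ V₀ →
      (∀ (x : H ⧸ V.1) (h : ↥J), π (x * ((h : H) : H ⧸ V.1)) = (q h)⁻¹ • π x) ∧
        (Finset.univ.filter fun x => π x ∈ T).card * Fintype.card (Γ ⧸ B) ≤ Fintype.card (H ⧸ V.1) * T.card := by
    intro V
    by_cases hV : V.1 ≤ V₀
    · obtain ⟨π, hπ⟩ := HB_pi J q hW hWB hV₀ T V hV
      exact ⟨π, fun _ => hπ⟩
    · exact ⟨fun _ => ((1 : Γ) : Γ ⧸ B), fun h => absurd h hV⟩
  choose π hπ using hex
  let χ : Γ → ∀ V : Idx H, (H ⧸ V.1) → ZMod 2 := fun a V x => if π V x = (a : Γ ⧸ B) then 1 else 0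
  let P : Γ → U.E := fun a => U.cls fun V => Matrix.diagonal (χ a V)
  have hsum : ∀ (s : Finset Γ) , ∑ a ∈ s, P a = U.cls fun V => Matrix.diagonal (fun x => ∑ a ∈ s, χ a V x) := by
    intro s
    rw [← map_sum]
    congr 1
    funext V
    rw [Finset.sum_apply]
    ext x y
    rw [Matrix.sum_apply]
    by_cases hxy : x = y
    · subst hxy
      simp only [Matrix.diagonal_apply_eq]
    · simp only [Matrix.diagonal_apply_ne _ hxy, Finset.sum_const_zero]
  have hone : ∀ (V : Idx H) (x : H ⧸ V.1), ∑ a ∈ Φ, χ a V x = 1 := by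
    intro V x
    obtain ⟨a, ha, hax⟩ := hsurj (π V x)
    rw [Finset.sum_eq_single a]
    · exact if_pos hax.symm
    · intro b hb hba
      refine if_neg fun hbx => hba ?_
      exact hinj b hb a ha (hbx.symm.trans hax.symm)
    · intro h
      exact absurd ha h
  refine ⟨⟨Φ, P, ?_, ?_, ?_, ?_⟩, D, hDΦ, ?_, ?_⟩
  · intro a _
    rw [← map_mul]
    congr 1
    funext V
    rw [Pi.mul_apply, Matrix.diagonal_mul_diagonal]
    congr 1
    funext x
    by_cases hx : π V x = (a : Γ ⧸ B)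
    · simp [χ, hx]
    · simp [χ, hx]
  · intro a ha b hb hab
    rw [← map_mul, ← map_zero U.cls]
    congr 1
    funext V
    rw [Pi.mul_apply, Matrix.diagonal_mul_diagonal, Pi.zero_apply, ← Matrix.diagonal_zero]
    congr 1
    funext x
    by_cases hx : π V x = (a : Γ ⧸ B)
    · have h1 : π V x ≠ (b : Γ ⧸ B) := fun h => hab (hinj a ha b hb (hx.symm.trans h))
      simp [χ, h1]
    · simp [χ, hx]
  · rw [hsum, ← map_one U.cls]
    congr 1
    funext V
    rw [Pi.one_apply, ← Matrix.diagonal_one]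
    congr 1
    funext x
    exact hone V x
  · intro k a
    rw [UR.uJ, MonoidHom.comp_apply, UR.u_apply, ← map_mul, ← map_mul]
    refine U.cls_eq ?_
    filter_upwards [U.small V₀ hV₀i] with V hV
    obtain ⟨h1, -⟩ := hπ V hV
    rw [Pi.mul_apply, Pi.mul_apply]
    ext x y
    rw [Matrix.mul_diagonal, Matrix.diagonal_mul]
    change (if y = x * ((k : H) : H ⧸ V.1) then (1 : ZMod 2) else 0) * χ a V y = χ (q k * a) V x * (if y = x * ((k : H) : H ⧸ V.1) then (1 : ZMod 2) else 0)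
    by_cases hxy : y = x * ((k : H) : H ⧸ V.1)
    · rw [if_pos hxy, one_mul, mul_one]
      subst hxy
      change (if π V (x * ((k : H) : H ⧸ V.1)) = (a : Γ ⧸ B) then (1 : ZMod 2) else 0) = if π V x = ((q k * a : Γ) : Γ ⧸ B) then 1 else 0
      have h2 : (π V (x * ((k : H) : H ⧸ V.1)) = (a : Γ ⧸ B)) ↔ (π V x = ((q k * a : Γ) : Γ ⧸ B)) := by
        rw [h1 x k, inv_smul_eq_iff]
        rfl
      simp only [h2]
    · rw [if_neg hxy, zero_mul, mul_zero]
  · intro a ha haD k hk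
    exact hD a ha haD _ (Finset.mem_image_of_mem _ hk)
  · change R.rk (∑ a ∈ D, P a) ≤ ε
    rw [hsum]
    refine hR.le _ ε ?_
    filter_upwards [U.small V₀ hV₀i] with V hV
    obtain ⟨-, h2⟩ := hπ V hV
    rw [Matrix.rank_diagonal]
    have h3 : Fintype.card {x : H ⧸ V.1 // ∑ a ∈ D, χ a V x ≠ 0} ≤ (Finset.univ.filter fun x => π V x ∈ T).card := by
      rw [Fintype.card_subtype]
      refine Finset.card_le_card fun x hx => ?_
      rw [Finset.mem_filter] at hx ⊢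
      refine ⟨Finset.mem_univ _, ?_⟩
      by_contra hcon
      apply hx.2
      refine Finset.sum_eq_zero fun a ha => if_neg fun h4 => hcon ?_
      rw [h4]
      exact Finset.mem_image_of_mem _ ha
    rw [hcard] at h2
    have h4 : T.card ≤ D.card := Finset.card_image_le
    have hΦ : 0 < Φ.card := by
      obtain ⟨a, ha, -⟩ := hsurj ((1 : Γ) : Γ ⧸ B)
      exact Finset.card_pos.2 ⟨a, ha⟩
    have h5 : ((Finset.univ.filter fun x => π V x ∈ T).card : ℝ) * Φ.card ≤ Fintype.card (H ⧸ V.1) * D.card := by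
      have h6 := h2.trans (Nat.mul_le_mul_left _ h4)
      exact_mod_cast h6
    have h7 : ((Finset.univ.filter fun x => π V x ∈ T).card : ℝ) * Φ.card ≤ (ε * Fintype.card (H ⧸ V.1)) * Φ.card := by
      calc ((Finset.univ.filter fun x => π V x ∈ T).card : ℝ) * Φ.card ≤ Fintype.card (H ⧸ V.1) * D.card := h5
        _ ≤ Fintype.card (H ⧸ V.1) * (ε * Φ.card) := by gcongr
        _ = _ := by ring
    have h8 : ((Finset.univ.filter fun x => π V x ∈ T).card : ℝ) ≤ ε * Fintype.card (H ⧸ V.1) :=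
      le_of_mul_le_mul_right h7 (by exact_mod_cast hΦ)
    exact le_trans (by exact_mod_cast h3) h8

end Pool.Agent.TW
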