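import Mathlib

/-!
# Project TW: equivariant maps from a finite set to the cosets

PROOF.  `J` acts on `X` through `σ`; choose a representative `r x` of every orbit (`MulAction.compHom` or the setoid
`x ~ y ↔ ∃ h, σ h x = y`), and `k x : J` with `σ (k x) (r x) = x`.  For `c : Γ` put `π c x = (q (k x) * c : Γ) ` in `Γ ⧸ B`.  It is equivariant:
`σ h x = σ (h * k x) (r x) = σ (k (σ h x)) (r x)` (`r (σ h x) = r x`), so `g = (h * k x)⁻¹ * k (σ h x)` fixes `r x`, `q g ∈ W`, and
`q (k (σ h x)) * c = q h * q (k x) * q g * c = q h * (q (k x) * c) * (c⁻¹ * q g * c)` with `c⁻¹ * q g * c ∈ W ≤ B` (`W` normal).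
For fixed `x`, `c ↦ q (k x) * c` induces a bijection of `Γ ⧸ B` (the class of `π c x` depends only on the class of `c`), so
`∑ over c ∈ Γ ⧸ B of card {x | π c x ∈ A} = card X * card A`; some `c` is at most the average (`Finset.exists_le_of_sum_le`; `Γ ⧸ B` is not empty).
-/

set_option autoImplicit false
set_option linter.unusedSectionVars false

namespace Pool.Agent.TW

/-- **Equivariant maps which avoid a small set** -/
theorem exists_jmap {J Γ X : Type} [Group J] [Group Γ] [Finite X] (σ : J →* Equiv.Perm X) (q : J →* Γ)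
    (W B : Subgroup Γ) (hW : W.Normal) (hWB : W ≤ B) [Finite (Γ ⧸ B)] (hst : ∀ (x : X) (h : J), σ h x = x → q h ∈ W)
    (A : Set (Γ ⧸ B)) :
    ∃ π : X → Γ ⧸ B, (∀ h x, π (σ h x) = q h • π x) ∧
      Nat.card {x // π x ∈ A} * Nat.card (Γ ⧸ B) ≤ Nat.card X * Nat.card A := by
  classical
  have : Fintype X := Fintype.ofFinite X
  have : Fintype (Γ ⧸ B) := Fintype.ofFinite _
  let S : Setoid X :=
    { r := fun x y => ∃ h, σ h x = y
      iseqv :=
        { refl := fun x => ⟨1, by simp⟩
          symm := by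
            rintro x y ⟨h, rfl⟩
            exact ⟨h⁻¹, by simp⟩
          trans := by
            rintro x y z ⟨h, rfl⟩ ⟨g, rfl⟩
            exact ⟨g * h, by simp⟩ } }
  have hr : ∀ x : X, ∃ h : J, σ h (Quotient.out (Quotient.mk S x)) = x := fun x => Quotient.exact (Quotient.out_eq (Quotient.mk S x))
  choose k hk using hr
  have hrr : ∀ (h : J) (x : X), Quotient.mk S (σ h x) = Quotient.mk S x := fun h x => Quotient.sound ⟨h⁻¹, by simp⟩
  have hW' : ∀ w ∈ W, ∀ u : Γ ⧸ B, w • u = u := by
    intro w hw u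
    induction u using QuotientGroup.induction_on with
    | H c =>
      rw [MulAction.Quotient.smul_coe, smul_eq_mul, ← QuotientGroup.mk_mul_of_mem c (hWB (hW.conj_mem w hw c⁻¹))]
      congr 1
      group
  have heq : ∀ (u : Γ ⧸ B) (h : J) (x : X), q (k (σ h x)) • u = q h • q (k x) • u := by
    intro u h x
    have h1 : σ (k (σ h x)) (Quotient.out (Quotient.mk S x)) = σ h x := by
      have h2 := hk (σ h x)
      rwa [hrr h x] at h2
    have h3 : σ ((h * k x)⁻¹ * k (σ h x)) (Quotient.out (Quotient.mk S x)) = Quotient.out (Quotient.mk S x) := by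
      rw [map_mul, Equiv.Perm.mul_apply, h1, map_inv, Equiv.Perm.inv_eq_iff_eq, map_mul, Equiv.Perm.mul_apply, hk x]
    have h4 := hW' _ (hst _ _ h3) u
    have h5 : q (k (σ h x)) = q h * q (k x) * q ((h * k x)⁻¹ * k (σ h x)) := by
      rw [← map_mul, ← map_mul, mul_inv_cancel_left]
    rw [h5, mul_smul, h4, mul_smul]
  have hsum : ∑ u : Γ ⧸ B, Nat.card {x // q (k x) • u ∈ A} = Nat.card X * Nat.card A := by
    have h1 : ∀ u : Γ ⧸ B, Nat.card {x // q (k x) • u ∈ A} = ∑ x : X, if q (k x) • u ∈ A then 1 else 0 := by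
      intro u
      rw [Nat.card_eq_fintype_card, Fintype.card_subtype, Finset.card_filter]
    have h2 : ∀ x : X, (∑ u : Γ ⧸ B, if q (k x) • u ∈ A then 1 else 0) = Nat.card A := by
      intro x
      have h3 := Equiv.sum_comp (MulAction.toPerm (q (k x)) : Equiv.Perm (Γ ⧸ B)) (fun u => if u ∈ A then 1 else 0)
      simp only [MulAction.toPerm_apply] at h3
      rw [h3, ← Finset.card_filter, ← Fintype.card_subtype]
      exact (Nat.card_eq_fintype_card (α := {u // u ∈ A})).symm
    rw [Finset.sum_congr rfl fun u _ => h1 u, Finset.sum_comm, Finset.sum_congr rfl fun x _ => h2 x, Finset.sum_const,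
      Finset.card_univ, Nat.card_eq_fintype_card (α := X), smul_eq_mul]
  obtain ⟨u, -, hu⟩ := Finset.exists_le_of_sum_le (s := (Finset.univ : Finset (Γ ⧸ B)))
    (f := fun u => Nat.card {x // q (k x) • u ∈ A} * Nat.card (Γ ⧸ B)) (g := fun _ => Nat.card X * Nat.card A)
    ⟨((1 : Γ) : Γ ⧸ B), Finset.mem_univ _⟩ (by
      rw [← Finset.sum_mul, hsum, Finset.sum_const, Finset.card_univ, smul_eq_mul, Nat.card_eq_fintype_card (α := Γ ⧸ B)]
      exact (Nat.mul_comm _ _).le)
  exact ⟨fun x => q (k x) • u, fun h x => heq u h x, hu⟩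

end Pool.Agent.TW
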