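import Pool.Agent.TW.BU
import Pool.Agent.S12.Appr1
import Pool.Agent.S14.ExRT

/-!
# Project TW: the order of the quotient of a step and its approximations

PROOF.  `Q = ↥J ⧸ N.subgroupOf J` (normal by `conj`), countable.  As in `S12.RUT.seq` (`S12/Appr1`) choose a sequence `φ i : ↥J →* Matrix ..` of the
homomorphisms of `h.sep` (for every `x ∉ N` one; enumerate `J`; the trivial homomorphism to `0 × 0` matrices for `x ∈ N`), they are unitriangular (`toUT`,
`S11/Cu`), trivial on `N`, jointly injective on `Q`, with the condition on the subgroups `V`.  Order and approximations: as in `S12.RUT.exists_appr` for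
the group `Q` with the induced `φ' i : Q →* UT ℤ (n i)`: the structure `Dat Q 1 (N01 Q)` of `S11/CuF` gives `BO Q` (`D.ord`), `Γ j` = the lexicographic product
and `q j = A.q j 1`, `A = D.appr`; `Apx`: `A.pos`, `A.dec`, `A.sep` (`N01 Q 1 = ⊥`).  (Or directly: `1 < x` iff the first nontrivial `φ' i x` is `> 1`;
`Γ j = ∀ i : Fin j, UT ℤ (n i)` with the lexicographic order.)  `Foel (Γ j)`: `amen_of_fbox (fbox_pi ..)` of `S14/ExRT`, `Amen.foel`.
`BxRF`: `bxRF_pi` (the composition `(q j).comp p` is a tuple of the `toUT (φ i)` up to the form of the index set; a factor which is the trivial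
homomorphism is fine), `φ i y ∈ Wt (n i) t` iff all entries above the diagonal are divisible by `2 ^ t` (`mem_Wt`).
-/

set_option autoImplicit false
set_option linter.unusedSectionVars false

namespace Pool.Agent.TW

open Pool.Agent.S11 Pool.Agent.S11.Cu

/-- an element of the product whose coordinates are trivial -/
private theorem fin_ext' {j : ℕ} {n : ℕ → ℕ} (x : ∀ i : Fin j, UT ℤ (n i))
    (h : ∀ i, Pi.evalMonoidHom (fun i : Fin j => UT ℤ (n i)) i x = 1) : x = 1 := funext h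

private theorem le_of_lt' {X : Type} [Group X] (B : BO X) (a b : X) (h : B.toLinearOrder.lt a b) : B.toLinearOrder.le a b :=
  le_of_lt h

private theorem le_of_eq' {X : Type} [Group X] (B : BO X) (a b : X) (h : a = b) : B.toLinearOrder.le a b := le_of_eq h

/-- one sequence of homomorphisms -/
private theorem StepT.seq {H : Type} [Group H] [Countable H] {J N : Subgroup H} (h : StepT J N) :
    ∃ (n : ℕ → ℕ) (φ : ∀ i, ↥J →* Matrix (Fin (n i)) (Fin (n i)) ℤ),
      (∀ i y, IsUT (φ i y)) ∧ (∀ (i) (y : ↥J), (y : H) ∈ N → φ i y = 1) ∧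
      (∀ x : ↥J, (∀ i, φ i x = 1) → (x : H) ∈ N) ∧
      ∀ i t, ∃ V : Subgroup H, V.FiniteIndex ∧ ∀ y : ↥J, (y : H) ∈ V → ∀ a b, a ≠ b → (2 : ℤ) ^ t ∣ φ i y a b := by
  classical
  obtain ⟨f, hf⟩ := exists_surjective_nat ↥J
  have h1 : ∀ i, ∃ (n : ℕ) (φ : ↥J →* Matrix (Fin n) (Fin n) ℤ), (∀ y, IsUT (φ y)) ∧
      (∀ y : ↥J, (y : H) ∈ N → φ y = 1) ∧ ((f i : H) ∉ N → φ (f i) ≠ 1) ∧
      ∀ t : ℕ, ∃ V : Subgroup H, V.FiniteIndex ∧ ∀ y : ↥J, (y : H) ∈ V → ∀ a b, a ≠ b → (2 : ℤ) ^ t ∣ φ y a b := by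
    intro i
    by_cases h' : (f i : H) ∈ N
    · refine ⟨0, 1, fun y => isUT_one, fun _ _ => rfl, fun h2 => absurd h' h2, fun t => ⟨⊤, inferInstance, ?_⟩⟩
      intro y _ a
      exact a.elim0
    · obtain ⟨n, φ, h2, h3, h4, h5⟩ := h.sep (f i) h'
      exact ⟨n, φ, h2, h3, fun _ => h4, h5⟩
  choose n φ h2 h3 h4 h5 using h1
  refine ⟨n, φ, h2, h3, fun x hx => ?_, h5⟩
  by_contra hcon
  obtain ⟨i, rfl⟩ := hf x
  exact h4 i hcon (hx i)

/-- the homomorphisms of the quotient -/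
private noncomputable def psi {H : Type} [Group H] {J N : Subgroup H} [(N.subgroupOf J).Normal] {n : ℕ}
    (φ : ↥J →* Matrix (Fin n) (Fin n) ℤ) (h1 : ∀ y, IsUT (φ y)) (h2 : ∀ y : ↥J, (y : H) ∈ N → φ y = 1) :
    (↥J ⧸ N.subgroupOf J) →* UT ℤ n :=
  QuotientGroup.lift (N.subgroupOf J) (toUT φ h1) fun y hy => (toUT_eq_one φ h1 y).2 (h2 y hy)

private theorem psi_mk {H : Type} [Group H] {J N : Subgroup H} [(N.subgroupOf J).Normal] {n : ℕ}
    (φ : ↥J →* Matrix (Fin n) (Fin n) ℤ) (h1 : ∀ y, IsUT (φ y)) (h2 : ∀ y : ↥J, (y : H) ∈ N → φ y = 1) (y : ↥J) :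
    psi φ h1 h2 (QuotientGroup.mk' (N.subgroupOf J) y) = toUT φ h1 y := rfl

/-- the approximations of the order by the first coordinate -/
private theorem apx_fam {Q : Type} [Group Q] {n : ℕ → ℕ} (ψ : ∀ i, Q →* UT ℤ (n i))
    (hψ : ∀ x, (∀ i, ψ i x = 1) → x = 1) :
    @Apx Q _ (famBO ψ hψ) (fun j => ∀ i : Fin j, UT ℤ (n i)) (fun _ => Pi.group)
      (fun j => famBO (fun i : Fin j => Pi.evalMonoidHom (fun i : Fin j => UT ℤ (n i)) i) fin_ext')
      (fun j => MonoidHom.pi fun i : Fin j => ψ i) := by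
  refine @Apx.mk Q _ (famBO ψ hψ) (fun j => ∀ i : Fin j, UT ℤ (n i)) (fun _ => Pi.group)
      (fun j => famBO (fun i : Fin j => Pi.evalMonoidHom (fun i : Fin j => UT ℤ (n i)) i) fin_ext')
      (fun j => MonoidHom.pi fun i : Fin j => ψ i) ?_ ?_ ?_
  · intro j x hx
    obtain ⟨p, h1, h2⟩ := (famBO_one_lt ψ hψ).1 hx
    rcases lt_or_ge p j with h | h
    · exact le_of_lt' _ _ _ ((famBO_one_lt (fun i : Fin j => Pi.evalMonoidHom (fun i : Fin j => UT ℤ (n i)) i) fin_ext').2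
        ⟨⟨p, h⟩, fun p' hp' => h1 p' hp', h2⟩)
    · refine le_of_eq' _ _ _ ?_
      funext i
      exact (h1 i (lt_of_lt_of_le i.2 h)).symm
  · intro i j hij x hx
    funext k
    have := congrFun hx ⟨k, lt_of_lt_of_le k.2 hij⟩
    exact this
  · intro x hx
    by_contra hcon
    push Not at hcon
    refine hx (hψ x fun i => ?_)
    have := congrFun (hcon (i + 1)) ⟨i, Nat.lt_succ_self i⟩
    exact this

/-- **The order and the approximations of a step** -/
theorem StepT.exists_apx {H : Type} [Group H] [Countable H] {J N : Subgroup H} (h : StepT J N) :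
    ∃ (Q : Type) (_ : Group Q) (_ : BO Q) (p : ↥J →* Q) (Γ : ℕ → Type) (_ : ∀ j, Group (Γ j)) (_ : ∀ j, BO (Γ j))
      (q : ∀ j, Q →* Γ j), Function.Surjective p ∧ (∀ x : ↥J, p x = 1 ↔ (x : H) ∈ N) ∧ Apx q ∧
      (∀ j, S14.Foel (Γ j)) ∧ ∀ j, BxRF J ((q j).comp p) := by
  obtain ⟨n, φ, h1, h2, h3, h4⟩ := h.seq
  have hN : (N.subgroupOf J).Normal := by
    refine ⟨fun x hx g => ?_⟩
    rw [Subgroup.mem_subgroupOf] at hx ⊢
    exact h.conj g g.2 x hx
  have hψ : ∀ x : ↥J ⧸ N.subgroupOf J, (∀ i, psi (φ i) (h1 i) (h2 i) x = 1) → x = 1 := by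
    intro x hx
    obtain ⟨y, rfl⟩ := QuotientGroup.mk'_surjective (N.subgroupOf J) x
    refine (QuotientGroup.eq_one_iff (N := N.subgroupOf J) y).2 ?_
    rw [Subgroup.mem_subgroupOf]
    refine h3 y fun i => ?_
    exact (toUT_eq_one (φ i) (h1 i) y).1 (hx i)
  refine ⟨↥J ⧸ N.subgroupOf J, inferInstance, famBO (fun i => psi (φ i) (h1 i) (h2 i)) hψ, QuotientGroup.mk' (N.subgroupOf J),
    fun j => ∀ i : Fin j, UT ℤ (n i), fun _ => Pi.group,
    fun j => famBO (fun i : Fin j => Pi.evalMonoidHom (fun i : Fin j => UT ℤ (n i)) i) fin_ext',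
    fun j => MonoidHom.pi fun i : Fin j => psi (φ i) (h1 i) (h2 i), QuotientGroup.mk'_surjective _, fun x => ?_, 
    apx_fam _ hψ, fun j => ?_, fun j => ?_⟩
  · exact (QuotientGroup.eq_one_iff (N := N.subgroupOf J) x).trans Subgroup.mem_subgroupOf
  · exact (S14.amen_of_fbox (fbox_pi (Q := fun i : Fin j => UT ℤ (n i)) fun i => fbox_UT)).foel
  · have h5 := bxRF_pi J (ι := Fin j) (fun i => n i) (fun i => toUT (φ i) (h1 i)) (by
      intro i t
      obtain ⟨V, hV, h6⟩ := h4 i t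
      refine ⟨V, hV, fun y hy => mem_Wt.2 fun m => ?_⟩
      have := h6 y hy m.1.1 m.1.2 m.2.ne
      rw [Nat.cast_pow]
      exact this)
    exact h5

end Pool.Agent.TW
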