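import Mathlib

/-!
# Project TW, examples: bases adapted to a chain of saturated submodules

`exists_unip_basis`: for a chain `M 0 = 0`, `M 1`, ..., `M c` of finitely generated saturated subgroups of an abelian group there is a basis of `M c` for
which all endomorphisms `T` with `(T - 1) (M (i + 1)) ≤ M i` for `i < c` are unitriangular.
-/

set_option autoImplicit false
set_option linter.unusedSectionVars false

open Finset

namespace Pool.Agent.TW

/-- **Bases adapted to a chain** -/
theorem exists_unip_basis {R W : Type} [CommRing R] [IsDomain R] [IsPrincipalIdealRing R] [AddCommGroup W] [Module R W]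
    (M : ℕ → Submodule R W) (h0 : M 0 = ⊥)
    (hm : ∀ c, M c ≤ M (c + 1)) (hs : ∀ (c : ℕ) (n : R) (w : W), n ≠ 0 → n • w ∈ M c → w ∈ M c)
    (hf : ∀ c, Module.Finite R (M c)) (c : ℕ) :
    ∃ (m : ℕ) (v : Fin m → W), LinearIndependent R v ∧ Submodule.span R (Set.range v) = M c ∧
      ∀ T : W →ₗ[R] W, (∀ i < c, ∀ w ∈ M (i + 1), T w - w ∈ M i) →
        ∀ j : Fin m, T (v j) - v j ∈ Submodule.span R (v '' {i | i < j}) := by
  induction c with
  | zero =>
    refine ⟨0, Fin.elim0, linearIndependent_empty_type, ?_, fun _ _ j => j.elim0⟩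
    rw [Set.range_eq_empty, Submodule.span_empty, h0]
  | succ c ih =>
    obtain ⟨m, v, hli, hsp, hT⟩ := ih
    let N : Submodule R (W ⧸ M c) := (M (c + 1)).map (M c).mkQ
    have hNf : Module.Finite R N := by
      have := hf (c + 1)
      exact Module.Finite.map (M (c + 1)) (M c).mkQ
    have hNt : Module.IsTorsionFree R N := by
      refine ⟨fun n hn x y hxy => ?_⟩
      have hn0 : n ≠ 0 := fun h => by
        rw [h] at hn
        exact not_isRegular_zero hn
      have h1 : n • (x - y) = 0 := by
        rw [smul_sub]
        exact sub_eq_zero.2 hxy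
      have h2 : n • ((x - y : N) : W ⧸ M c) = 0 := congrArg Subtype.val h1
      obtain ⟨w, hw, hwx⟩ := (x - y : N).2
      rw [← hwx, ← map_smul, Submodule.mkQ_apply, Submodule.Quotient.mk_eq_zero] at h2
      have h3 := hs c n w hn0 h2
      have h4 : ((x - y : N) : W ⧸ M c) = 0 := by
        rw [← hwx, Submodule.mkQ_apply, Submodule.Quotient.mk_eq_zero]
        exact h3
      exact sub_eq_zero.1 (Subtype.ext h4)
    have hNF : Module.Free R N := Module.free_of_finite_type_torsion_free'
    let b := Module.finBasis R N
    have hlift : ∀ j, ∃ w ∈ M (c + 1), (M c).mkQ w = ((b j : N) : W ⧸ M c) := fun j => (b j).2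
    choose w hwM hwb using hlift
    let f₁ : Fin m → M c := fun i => ⟨v i, by
      rw [← hsp]
      exact Submodule.subset_span ⟨i, rfl⟩⟩
    have hf₁ : LinearIndependent R f₁ := by
      refine LinearIndependent.of_comp (M c).subtype ?_
      exact hli
    have hw : LinearIndependent R (Submodule.Quotient.mk ∘ w : Fin _ → W ⧸ M c) := by
      have h1 : (Submodule.Quotient.mk ∘ w : Fin _ → W ⧸ M c) = N.subtype ∘ b := by
        funext j
        exact hwb j
      rw [h1]
      exact b.linearIndependent.map' N.subtype (LinearMap.ker_eq_bot.2 Subtype.val_injective)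
    have hli' : LinearIndependent R (Fin.append v w) := by
      rw [← linearIndependent_equiv finSumFinEquiv]
      have h1 : Fin.append v w ∘ finSumFinEquiv = Sum.elim (fun x => ((f₁ x : M c) : W)) w := by
        funext x
        rcases x with x | x
        · show Fin.append v w (finSumFinEquiv (Sum.inl x)) = v x
          rw [finSumFinEquiv_apply_left, Fin.append_left]
        · show Fin.append v w (finSumFinEquiv (Sum.inr x)) = w x
          rw [finSumFinEquiv_apply_right, Fin.append_right]
      rw [h1]
      exact LinearIndependent.sumElim_of_quotient hf₁ w hw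
    refine ⟨m + _, Fin.append v w, hli', ?_, ?_⟩
    · refine le_antisymm (Submodule.span_le.2 ?_) fun x hx => ?_
      · rintro _ ⟨j, rfl⟩
        refine Fin.addCases (fun i => ?_) (fun i => ?_) j
        · rw [Fin.append_left]
          exact hm c (f₁ i).2
        · rw [Fin.append_right]
          exact hwM i
      · have hxN : (M c).mkQ x ∈ N := ⟨x, hx, rfl⟩
        have h1 := b.sum_repr ⟨(M c).mkQ x, hxN⟩
        have h2 : ∑ j, b.repr ⟨(M c).mkQ x, hxN⟩ j • (M c).mkQ (w j) = (M c).mkQ x := by
          have h3 := congrArg N.subtype h1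
          rw [map_sum] at h3
          simp only [map_smul] at h3
          refine Eq.trans (Finset.sum_congr rfl fun j _ => ?_) h3
          exact congrArg (fun z => b.repr ⟨(M c).mkQ x, hxN⟩ j • z) (hwb j)
        simp only [← map_smul] at h2
        rw [← map_sum] at h2
        have h4 : x - ∑ j, b.repr ⟨(M c).mkQ x, hxN⟩ j • w j ∈ M c := by
          rw [← Submodule.Quotient.mk_eq_zero, ← Submodule.mkQ_apply, map_sub, h2, sub_self]
        have h4 := hsp.ge h4
        rw [← sub_add_cancel x (∑ j, b.repr ⟨(M c).mkQ x, hxN⟩ j • w j)]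
        refine Submodule.add_mem _ ?_ (Submodule.sum_mem _ fun j _ => Submodule.smul_mem _ _ ?_)
        · refine Submodule.span_mono ?_ h4
          rintro _ ⟨i, rfl⟩
          exact ⟨Fin.castAdd _ i, Fin.append_left _ _ _⟩
        · exact Submodule.subset_span ⟨Fin.natAdd _ j, Fin.append_right _ _ _⟩
    · intro T hTT j
      refine Fin.addCases (fun i => ?_) (fun i => ?_) j
      · rw [Fin.append_left]
        refine Submodule.span_mono ?_ (hT T (fun i' hi' => hTT i' (by omega)) i)
        rintro _ ⟨i', hi', rfl⟩
        refine ⟨Fin.castAdd _ i', ?_, Fin.append_left _ _ _⟩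
        exact hi'
      · rw [Fin.append_right]
        have h1 := hTT c (by omega) (w i) (hwM i)
        rw [← hsp] at h1
        refine Submodule.span_mono ?_ h1
        rintro _ ⟨i', rfl⟩
        refine ⟨Fin.castAdd _ i', ?_, Fin.append_left _ _ _⟩
        show (Fin.castAdd _ i' : Fin (m + _)) < Fin.natAdd m i
        rw [Fin.lt_def]
        show (i' : ℕ) < m + i
        have := i'.2
        omega

end Pool.Agent.TW
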