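import Pool.Agent.TW.PVE
import Pool.Agent.TW.ExV
import Pool.Agent.TW.ExC

/-!
# Project TW, examples: the closure properties of the class in one definition

`VT` = the smallest class of groups which contains the residually unitriangular groups and is closed under subgroups, overgroups of finite index, direct
products, split extensions with finitely generated kernel, and extensions whose kernel is finitely generated, has infinite conjugacy classes and a
residually unitriangular subgroup of finite index.  `VT.vTower`: all these groups have a subgroup of finite index with a tower.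
-/

set_option autoImplicit false
set_option linter.unusedSectionVars false

namespace Pool.Agent.TW

/-- products -/
theorem VTower.prod {G G' : Type} [Group G] [Group G'] (h : VTower G) (h' : VTower G') : VTower (G × G') := by
  obtain ⟨H, hH, hT⟩ := h
  obtain ⟨H', hH', hT'⟩ := h'
  have hfi : (H.comap (MonoidHom.fst G G') ⊓ H'.comap (MonoidHom.snd G G')).FiniteIndex := by
    have h1 : (H.comap (MonoidHom.fst G G')).FiniteIndex := exc_comap _ H hH
    have h2 : (H'.comap (MonoidHom.snd G G')).FiniteIndex := exc_comap _ H' hH'
    infer_instance
  refine ⟨_, hfi, ?_⟩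
  let f : ↥(H.comap (MonoidHom.fst G G') ⊓ H'.comap (MonoidHom.snd G G')) →* ↥H × ↥H' :=
    MonoidHom.prod
      (((MonoidHom.fst G G').subgroupComap H).comp (Subgroup.inclusion inf_le_left))
      (((MonoidHom.snd G G').subgroupComap H').comp (Subgroup.inclusion inf_le_right))
  have hf : Function.Injective f := by
    intro x y hxy
    have h1 := congrArg (fun z : ↥H × ↥H' => ((z.1 : G), (z.2 : G'))) hxy
    exact Subtype.ext h1
  have h1 := Tower.comap f hf (Tower.prod hT hT')
  rwa [Subgroup.comap_top] at h1

/-- extensions by finitely generated virtually residually unitriangular groups with infinite conjugacy classes -/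
theorem VTower.ext_vrut {H Q : Type} [Group H] [Group Q] (r : H →* Q) (hfg : Group.FG ↥r.ker)
    (K₀ : Subgroup ↥r.ker) (hK₀ : K₀.FiniteIndex) (hrut : S12.RUT ↥K₀)
    (hicc : ∀ x : ↥r.ker, x ≠ 1 → ¬ (Subgroup.centralizer {x}).FiniteIndex) (hQ : VTower Q) : VTower H := by
  obtain ⟨Q₀, hQ₀, hT⟩ := hQ
  exact Tower.ext_vrut r hfg K₀ hK₀ hrut hicc Q₀ hQ₀ hT

/-- **The class**: it contains the residually unitriangular groups and is closed under subgroups, overgroups of finite index, direct products, split
extensions with finitely generated kernel, and extensions whose kernel is finitely generated, has infinite conjugacy classes and a residually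
unitriangular subgroup of finite index -/
inductive VT : (G : Type) → Group G → Prop
  | rut (G : Type) (i : Group G) (h : S12.RUT G) : VT G i
  | sub (G G' : Type) (i : Group G) (i' : Group G') (f : G' →* G) (hf : Function.Injective f) (h : VT G i) : VT G' i'
  | fin (G : Type) (i : Group G) (H : Subgroup G) (hH : H.FiniteIndex) (h : VT ↥H inferInstance) : VT G i
  | prod (G G' : Type) (i : Group G) (i' : Group G') (h : VT G i) (h' : VT G' i') : VT (G × G') inferInstance
  | split (G Q : Type) (i : Group G) (j : Group Q) (r : G →* Q) (s : Q →* G) (hrs : ∀ q, r (s q) = q) (hfg : Group.FG ↥r.ker)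
      (h : VT ↥r.ker inferInstance) (h' : VT Q j) : VT G i
  | ext (G Q : Type) (i : Group G) (j : Group Q) (r : G →* Q) (hfg : Group.FG ↥r.ker) (K₀ : Subgroup ↥r.ker) (hK₀ : K₀.FiniteIndex)
      (hrut : S12.RUT ↥K₀) (hicc : ∀ x : ↥r.ker, x ≠ 1 → ¬ (Subgroup.centralizer {x}).FiniteIndex) (h : VT Q j) : VT G i

/-- **The groups of the class** have a subgroup of finite index with a tower -/
theorem VT.vTower {G : Type} {i : Group G} (h : VT G i) : VTower G := by
  induction h with
  | rut G i h => exact Tower.vTower (Tower.of_rut h)
  | sub G G' i i' f hf _ ih => exact VTower.comap f hf ih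
  | fin G i H hH _ ih => exact VTower.of_finiteIndex H hH ih
  | prod G G' i i' _ _ ih ih' => exact VTower.prod ih ih'
  | split G Q i j r s hrs hfg _ _ ih ih' => exact VTower.split r s hrs hfg ih ih'
  | ext G Q i j r hfg K₀ hK₀ hrut hicc _ ih => exact VTower.ext_vrut r hfg K₀ hK₀ hrut hicc ih

end Pool.Agent.TW
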