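import Mathlib

/-!
# Project TW, examples: integer valued polynomial functions on a group

`PM Λ c` = the integer valued polynomial functions of degree less than `c` on the group `Λ`: `PM Λ 0 = 0`, and `g` is in `PM Λ (c + 1)` if all
differences `g (x k) - g x` and `g (k x) - g x` are in `PM Λ c`.
-/

set_option autoImplicit false
set_option linter.unusedSectionVars false

open Finset

namespace Pool.Agent.TW

section

variable {Λ : Type} [Group Λ]

/-- right translations -/
def Rt (k : Λ) : (Λ → ℤ) →ₗ[ℤ] (Λ → ℤ) := LinearMap.funLeft ℤ ℤ fun x => x * k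

/-- left translations -/
def Lt (k : Λ) : (Λ → ℤ) →ₗ[ℤ] (Λ → ℤ) := LinearMap.funLeft ℤ ℤ fun x => k * x

theorem Rt_apply (k : Λ) (g : Λ → ℤ) (x : Λ) : Rt k g x = g (x * k) := rfl

theorem Lt_apply (k : Λ) (g : Λ → ℤ) (x : Λ) : Lt k g x = g (k * x) := rfl

variable (Λ) in
/-- the polynomial functions of degree less than `c` -/
def PM : ℕ → Submodule ℤ (Λ → ℤ)
  | 0 => ⊥
  | c + 1 => ⨅ k : Λ, (PM c).comap (Rt k - LinearMap.id) ⊓ (PM c).comap (Lt k - LinearMap.id)

theorem mem_PM_zero {g : Λ → ℤ} : g ∈ PM Λ 0 ↔ g = 0 := Submodule.mem_bot ℤ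

theorem mem_PM_succ {c : ℕ} {g : Λ → ℤ} : g ∈ PM Λ (c + 1) ↔ ∀ k, Rt k g - g ∈ PM Λ c ∧ Lt k g - g ∈ PM Λ c := by
  rw [PM, Submodule.mem_iInf]
  rfl

theorem PM_le_succ (c : ℕ) : PM Λ c ≤ PM Λ (c + 1) := by
  induction c with
  | zero =>
    intro g hg
    rw [mem_PM_zero] at hg
    rw [hg]
    exact Submodule.zero_mem _
  | succ c ih =>
    intro g hg
    rw [mem_PM_succ] at hg ⊢
    exact fun k => ⟨ih (hg k).1, ih (hg k).2⟩

theorem PM_mono {a b : ℕ} (h : a ≤ b) : PM Λ a ≤ PM Λ b := monotone_nat_of_le_succ PM_le_succ h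

theorem Rt_mem {c : ℕ} {g : Λ → ℤ} (hg : g ∈ PM Λ c) (k : Λ) : Rt k g ∈ PM Λ c := by
  cases c with
  | zero =>
    rw [mem_PM_zero] at hg
    rw [hg, map_zero]
    exact Submodule.zero_mem _
  | succ c =>
    have h := Submodule.add_mem _ (PM_le_succ c (mem_PM_succ.1 hg k).1) hg
    rwa [sub_add_cancel] at h

theorem Lt_mem {c : ℕ} {g : Λ → ℤ} (hg : g ∈ PM Λ c) (k : Λ) : Lt k g ∈ PM Λ c := by
  cases c with
  | zero =>
    rw [mem_PM_zero] at hg
    rw [hg, map_zero]
    exact Submodule.zero_mem _
  | succ c =>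
    have h := Submodule.add_mem _ (PM_le_succ c (mem_PM_succ.1 hg k).2) hg
    rwa [sub_add_cancel] at h

/-- invariance under automorphisms -/
theorem PM_aut (α : Λ ≃* Λ) {c : ℕ} : ∀ {g : Λ → ℤ}, g ∈ PM Λ c → (fun x => g (α x)) ∈ PM Λ c := by
  induction c with
  | zero =>
    intro g hg
    rw [mem_PM_zero] at hg ⊢
    rw [hg]
    rfl
  | succ c ih =>
    intro g hg
    rw [mem_PM_succ] at hg ⊢
    intro k
    have e1 : Rt k (fun x => g (α x)) - (fun x => g (α x)) = fun x => (Rt (α k) g - g) (α x) := by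
      funext x
      rw [Pi.sub_apply, Pi.sub_apply, Rt_apply, Rt_apply, map_mul]
    have e2 : Lt k (fun x => g (α x)) - (fun x => g (α x)) = fun x => (Lt (α k) g - g) (α x) := by
      funext x
      rw [Pi.sub_apply, Pi.sub_apply, Lt_apply, Lt_apply, map_mul]
    rw [e1, e2]
    exact ⟨ih (hg (α k)).1, ih (hg (α k)).2⟩

/-- the submodules are saturated -/
theorem PM_sat {c : ℕ} : ∀ {n : ℤ} {g : Λ → ℤ}, n ≠ 0 → n • g ∈ PM Λ c → g ∈ PM Λ c := by
  induction c with
  | zero =>
    intro n g hn hg
    rw [mem_PM_zero] at hg ⊢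
    exact (smul_eq_zero.1 hg).resolve_left hn
  | succ c ih =>
    intro n g hn hg
    rw [mem_PM_succ] at hg ⊢
    intro k
    have h := hg k
    rw [map_smul, map_smul, ← smul_sub, ← smul_sub] at h
    exact ⟨ih hn h.1, ih hn h.2⟩

/-- inner automorphisms act unipotently -/
theorem PM_conj {c : ℕ} {g : Λ → ℤ} (hg : g ∈ PM Λ (c + 1)) (k : Λ) : (fun x => g (k⁻¹ * x * k)) - g ∈ PM Λ c := by
  have e : (fun x => g (k⁻¹ * x * k)) - g = Lt k⁻¹ (Rt k g - g) + (Lt k⁻¹ g - g) := by
    funext x
    rw [map_sub]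
    simp only [Pi.sub_apply, Pi.add_apply, Lt_apply, Rt_apply]
    ring
  rw [e]
  exact Submodule.add_mem _ (Lt_mem (mem_PM_succ.1 hg k).1 _) (mem_PM_succ.1 hg k⁻¹).2

/-- a function which is invariant under a generating set is constant -/
private theorem const_of_inv {g : Λ → ℤ} {S : Set Λ} (hS : Subgroup.closure S = ⊤) (h : ∀ s ∈ S, Rt s g = g) (x : Λ) :
    g x = g 1 := by
  have key : ∀ y ∈ Subgroup.closure S, Rt y g = g := by
    intro y hy
    induction hy using Subgroup.closure_induction with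
    | mem y hy => exact h y hy
    | one =>
      funext x
      rw [Rt_apply, mul_one]
    | mul a b _ _ ha hb =>
      funext x
      have h1 := congrFun hb (x * a)
      have h2 := congrFun ha x
      rw [Rt_apply] at h1 h2
      rw [Rt_apply, ← mul_assoc, h1, h2]
    | inv a _ ha =>
      funext x
      have h1 := congrFun ha (x * a⁻¹)
      rw [Rt_apply, inv_mul_cancel_right] at h1
      rw [Rt_apply, h1]
  have h1 := congrFun (key x (by rw [hS]; exact Subgroup.mem_top x)) 1
  rw [Rt_apply, one_mul] at h1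
  exact h1

/-- finite generation -/
theorem PM_finite [hΛ : Group.FG Λ] (c : ℕ) : Module.Finite ℤ (PM Λ c) := by
  obtain ⟨S, hS⟩ := Group.fg_def.1 hΛ
  induction c with
  | zero =>
    have : Subsingleton (PM Λ 0) := by
      refine ⟨fun a b => Subtype.ext ?_⟩
      rw [mem_PM_zero.1 a.2, mem_PM_zero.1 b.2]
    infer_instance
  | succ c ih =>
    let f₁ : PM Λ (c + 1) →ₗ[ℤ] ℤ := LinearMap.proj (1 : Λ) ∘ₗ (PM Λ (c + 1)).subtype
    let f₂ : PM Λ (c + 1) →ₗ[ℤ] (S → PM Λ c) := LinearMap.pi fun s =>
      LinearMap.codRestrict (PM Λ c) ((Rt (s : Λ) - LinearMap.id) ∘ₗ (PM Λ (c + 1)).subtype)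
        fun g => (mem_PM_succ.1 g.2 s).1
    refine Module.Finite.of_injective (f₁.prod f₂) ?_
    rw [injective_iff_map_eq_zero]
    intro g hg
    have h1 : (g : Λ → ℤ) 1 = 0 := congrArg Prod.fst hg
    have h2 : ∀ s ∈ (S : Set Λ), Rt s (g : Λ → ℤ) = g := by
      intro s hs
      have h3 := congrArg Subtype.val (congrFun (congrArg Prod.snd hg) ⟨s, hs⟩)
      exact sub_eq_zero.1 h3
    refine Subtype.ext (funext fun x => ?_)
    rw [const_of_inv hS h2 x, h1]
    rfl

/-- the coefficients of unitriangular representations are polynomial functions -/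
theorem coeff_mem_PM {n : ℕ} (f : Λ →* Matrix (Fin n) (Fin n) ℤ)
    (hf : ∀ y, (∀ a, f y a a = 1) ∧ ∀ a b, b < a → f y a b = 0) (i j : Fin n) : (fun y => f y i j) ∈ PM Λ n := by
  have key : ∀ d : ℕ, ∀ i j : Fin n, (j : ℕ) < i + d → (fun y => f y i j) ∈ PM Λ d := by
    intro d
    induction d with
    | zero =>
      intro i j hij
      rw [mem_PM_zero]
      funext y
      exact (hf y).2 i j (by rw [Fin.lt_def]; omega)
    | succ d ih =>
      intro i j hij
      rw [mem_PM_succ]
      intro k
      constructor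
      · have e : Rt k (fun y => f y i j) - (fun y => f y i j) =
            ∑ l ∈ univ.filter (fun l => l < j), (f k l j) • (fun y => f y i l) := by
          funext x
          rw [Pi.sub_apply, Rt_apply, map_mul, Matrix.mul_apply, Finset.sum_apply]
          rw [← Finset.sum_filter_add_sum_filter_not univ (fun l : Fin n => l < j)]
          have h1 : ∑ l ∈ univ.filter (fun l : Fin n => ¬ l < j), f x i l * f k l j = f x i j := by
            rw [Finset.sum_eq_single j]
            · rw [(hf k).1, mul_one]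
            · intro l hl hlj
              rw [(hf k).2 l j (lt_of_le_of_ne (not_lt.1 (Finset.mem_filter.1 hl).2) (Ne.symm hlj)), mul_zero]
            · intro h
              exact absurd (Finset.mem_filter.2 ⟨Finset.mem_univ j, lt_irrefl j⟩) h
          rw [h1, add_sub_cancel_right]
          exact Finset.sum_congr rfl fun l _ => by rw [Pi.smul_apply, smul_eq_mul, mul_comm]
        rw [e]
        refine Submodule.sum_mem _ fun l hl => Submodule.smul_mem _ _ (ih i l ?_)
        have h2 := (Finset.mem_filter.1 hl).2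
        rw [Fin.lt_def] at h2
        omega
      · have e : Lt k (fun y => f y i j) - (fun y => f y i j) =
            ∑ l ∈ univ.filter (fun l => i < l), (f k i l) • (fun y => f y l j) := by
          funext x
          rw [Pi.sub_apply, Lt_apply, map_mul, Matrix.mul_apply, Finset.sum_apply]
          rw [← Finset.sum_filter_add_sum_filter_not univ (fun l : Fin n => i < l)]
          have h1 : ∑ l ∈ univ.filter (fun l : Fin n => ¬ i < l), f k i l * f x l j = f x i j := by
            rw [Finset.sum_eq_single i]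
            · rw [(hf k).1, one_mul]
            · intro l hl hli
              rw [(hf k).2 i l (lt_of_le_of_ne (not_lt.1 (Finset.mem_filter.1 hl).2) hli), zero_mul]
            · intro h
              exact absurd (Finset.mem_filter.2 ⟨Finset.mem_univ i, lt_irrefl i⟩) h
          rw [h1, add_sub_cancel_right]
          exact Finset.sum_congr rfl fun l _ => by rw [Pi.smul_apply, smul_eq_mul]
        rw [e]
        refine Submodule.sum_mem _ fun l hl => Submodule.smul_mem _ _ (ih l j ?_)
        have h2 := (Finset.mem_filter.1 hl).2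
        rw [Fin.lt_def] at h2
        omega
  exact key n i j (by have := j.2; omega)

end

end Pool.Agent.TW
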