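import Pool.Agent.TW.PX
import Pool.Agent.TW.ExV
import Pool.Agent.TW.ExG

/-!
# Project TW, examples: groups acting on trees

`StepT.of_ext`: a subgroup `K` of `G` is a step if its elements are separated by homomorphisms to residually unitriangular groups which extend to
subgroups of finite index of `G`.  `VTower.perm`: the semidirect product of the free group on a set `Ω` with a group `P` of the class which permutes
`Ω`, if the points of `Ω` are separated by subgroups of finite index of `P` (for a transitive action: the point stabilizers are closed in the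
profinite topology).  By this the class is closed under free products and graph products, doubles along separable subgroups and HNN extensions with
stable letter commuting with a separable subgroup.
-/

set_option autoImplicit false
set_option linter.unusedSectionVars false

open Finset

namespace Pool.Agent.TW

/-- finite index of the image of a subgroup of finite index -/
theorem pg_map {G : Type} [Group G] (U : Subgroup G) (hU : U.FiniteIndex) (V : Subgroup ↥U) (hV : V.FiniteIndex) :
    (V.map U.subtype).FiniteIndex := by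
  refine ⟨?_⟩
  rw [Subgroup.index_map_subtype]
  exact Nat.mul_ne_zero hV.index_ne_zero hU.index_ne_zero

/-- **Kernels whose unitriangular representations extend to subgroups of finite index** -/
theorem StepT.of_ext {G : Type} [Group G] (K W : Subgroup G)
    (h : ∀ x ∈ K, x ≠ 1 → ∃ U : Subgroup G, U.FiniteIndex ∧ K ≤ U ∧ ∃ (R : Type) (_ : Group R) (ψ : ↥U →* R), S12.RUT R ∧
      ∀ hx : x ∈ U, ψ ⟨x, hx⟩ ≠ 1) : StepT (K.subgroupOf W) ⊥ := by
  refine ⟨bot_le, ?_, ?_⟩
  · intro x _ y hy
    rw [Subgroup.mem_bot] at hy ⊢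
    rw [hy, mul_one, mul_inv_cancel]
  · intro x hx
    have hx1 : ((x : ↥W) : G) ≠ 1 := fun h => hx (Subgroup.mem_bot.2 (Subtype.ext h))
    have hxK : ((x : ↥W) : G) ∈ K := Subgroup.mem_subgroupOf.1 x.2
    obtain ⟨U, hU, hKU, R, iR, ψ, hR, hψ⟩ := h _ hxK hx1
    obtain ⟨n, f, hf, hfx⟩ := hR _ (hψ (hKU hxK))
    let i : ↥(K.subgroupOf W) →* ↥U :=
      { toFun := fun y => ⟨((y : ↥W) : G), hKU (Subgroup.mem_subgroupOf.1 y.2)⟩
        map_one' := rfl
        map_mul' := fun _ _ => rfl }
    refine ⟨n, (f.comp ψ).comp i, fun y => hf _, ?_, hfx, ?_⟩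
    · intro y hy
      rw [Subgroup.mem_bot] at hy
      have hy1 : y = 1 := Subtype.ext hy
      rw [hy1, map_one]
    · intro t
      obtain ⟨V, hV, h3⟩ := px_red (f.comp ψ) t
      have hV' := pg_map U hU V hV
      refine ⟨(V.map U.subtype).subgroupOf W, Subgroup.instFiniteIndex_subgroupOf _ W, fun y hy => ?_⟩
      obtain ⟨u, hu, huy⟩ := Subgroup.mem_subgroupOf.1 hy
      have h4 : i y = u := Subtype.ext huy.symm
      show ∀ a b, a ≠ b → (2 : ℤ) ^ t ∣ (f.comp ψ) (i y) a b
      rw [h4]
      exact h3 u hu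

/-- towers are residually finite -/
theorem Tower.rf {H : Type} [Group H] {T : Subgroup H} (hT : Tower T) :
    ∀ x ∈ T, x ≠ 1 → ∃ V : Subgroup H, V.FiniteIndex ∧ x ∉ V := by
  induction hT with
  | bot => exact fun x hx hx1 => absurd (Subgroup.mem_bot.1 hx) hx1
  | step J N hN h ih =>
    intro x hx hx1
    by_cases hxN : x ∈ N
    · exact ih x hxN hx1
    · obtain ⟨n, φ, h1, _, h3, h4⟩ := h.sep ⟨x, hx⟩ hxN
      obtain ⟨a, b, hab, hne⟩ : ∃ a b, a ≠ b ∧ φ ⟨x, hx⟩ a b ≠ 0 := by
        by_contra hcon
        push Not at hcon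
        apply h3
        ext a b
        by_cases hab : a = b
        · rw [hab, (h1 _).1, Matrix.one_apply_eq]
        · rw [hcon a b hab, Matrix.one_apply_ne hab]
      obtain ⟨t, ht⟩ : ∃ t : ℕ, (φ ⟨x, hx⟩ a b).natAbs < 2 ^ t := ⟨_, Nat.lt_two_pow_self⟩
      obtain ⟨V, hV, h5⟩ := h4 t
      refine ⟨V, hV, fun hxV => ?_⟩
      have h6 := Int.natAbs_dvd_natAbs.2 (h5 ⟨x, hx⟩ hxV a b hab)
      rw [Int.natAbs_pow] at h6
      have h7 := Nat.le_of_dvd (Int.natAbs_pos.2 hne) h6
      have h8 : (2 : ℤ).natAbs = 2 := rfl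
      rw [h8] at h7
      omega

theorem VTower.rf {G : Type} [Group G] (h : VTower G) (x : G) (hx : x ≠ 1) : ∃ V : Subgroup G, V.FiniteIndex ∧ x ∉ V := by
  obtain ⟨H, hH, hT⟩ := h
  by_cases hxH : x ∈ H
  · obtain ⟨V, hV, hxV⟩ := hT.rf ⟨x, hxH⟩ (Subgroup.mem_top _) fun h0 => hx (congrArg Subtype.val h0)
    refine ⟨V.map H.subtype, pg_map H hH V hV, ?_⟩
    rintro ⟨u, hu, hux⟩
    have h1 : u = ⟨x, hxH⟩ := Subtype.ext hux
    rw [h1] at hu
    exact hxV hu
  · exact ⟨H, hH, hxH⟩

/-! ## Free groups -/

theorem fr_eq_of_letters {α G : Type} [Group G] (f g : FreeGroup α →* G) (L : List (α × Bool))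
    (h : ∀ p ∈ L, f (FreeGroup.of p.1) = g (FreeGroup.of p.1)) : f (FreeGroup.mk L) = g (FreeGroup.mk L) := by
  induction L with
  | nil => exact (map_one f).trans (map_one g).symm
  | cons p L ih =>
    have e : FreeGroup.mk (p :: L) = FreeGroup.mk [p] * FreeGroup.mk L := by
      rw [FreeGroup.mul_mk]
      rfl
    have h1 : f (FreeGroup.mk [p]) = g (FreeGroup.mk [p]) := by
      have h2 := h p (List.mem_cons_self ..)
      rcases p with ⟨a, b⟩
      cases b with
      | true => exact h2
      | false =>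
        have h3 : (FreeGroup.mk [(a, false)] : FreeGroup α) = (FreeGroup.of a)⁻¹ := rfl
        rw [h3, map_inv, map_inv, h2]
    rw [e, map_mul, map_mul, h1, ih fun q hq => h q (List.mem_cons_of_mem _ hq)]

theorem fr_map_ne_one {α β : Type} [DecidableEq α] (π : α → β) (x : FreeGroup α) (hx : x ≠ 1)
    (hinj : Set.InjOn π {a | ∃ p ∈ x.toWord, p.1 = a}) : FreeGroup.map π x ≠ 1 := by
  intro h
  have hne : Nonempty α := by
    by_contra hcon
    rw [not_nonempty_iff] at hcon
    exact hx (Subsingleton.elim _ _)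
  let g : β → α := Function.invFunOn π {a | ∃ p ∈ x.toWord, p.1 = a}
  have hg := hinj.leftInvOn_invFunOn
  have h1 := fr_eq_of_letters ((FreeGroup.map g).comp (FreeGroup.map π)) (MonoidHom.id _) x.toWord (by
    intro p hp
    rw [MonoidHom.comp_apply, FreeGroup.map.of, FreeGroup.map.of, MonoidHom.id_apply]
    exact congrArg FreeGroup.of (hg ⟨p, hp, rfl⟩))
  rw [FreeGroup.mk_toWord, MonoidHom.comp_apply, h, map_one, MonoidHom.id_apply] at h1
  exact hx h1.symm

/-- free groups are residually unitriangular -/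
theorem rut_freeGroup (α : Type) : S12.RUT (FreeGroup α) := by
  classical
  intro x hx
  let S : Finset α := (x.toWord.map Prod.fst).toFinset
  obtain ⟨k, ⟨e⟩⟩ := Finite.exists_equiv_fin S
  let π : α → Fin (k + 1) := fun a => if h : a ∈ S then (e ⟨a, h⟩).castSucc else Fin.last k
  have hS : ∀ a, (∃ p ∈ x.toWord, p.1 = a) → a ∈ S := by
    rintro a ⟨p, hp, rfl⟩
    exact List.mem_toFinset.2 (List.mem_map.2 ⟨p, hp, rfl⟩)
  have h1 : FreeGroup.map π x ≠ 1 := by
    refine fr_map_ne_one π x hx ?_
    intro a ha b hb hab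
    have h2 : π a = (e ⟨a, hS a ha⟩).castSucc := dif_pos (hS a ha)
    have h3 : π b = (e ⟨b, hS b hb⟩).castSucc := dif_pos (hS b hb)
    rw [h2, h3] at hab
    exact congrArg Subtype.val (e.injective (Fin.castSucc_injective k hab))
  obtain ⟨n, φ, h4, h5⟩ := rut_free (k + 1) _ h1
  exact ⟨n, φ.comp (FreeGroup.map π), fun y => h4 _, h5⟩

/-! ## Permutations of a basis -/

section

variable (P Ω : Type) [Group P] [MulAction P Ω]

/-- the automorphisms of the free group given by the permutations of the basis -/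
def frPerm : P →* MulAut (FreeGroup Ω) where
  toFun g := FreeGroup.freeGroupCongr (MulAction.toPerm g)
  map_one' := by
    refine MulEquiv.ext fun x => ?_
    have h : (FreeGroup.freeGroupCongr (MulAction.toPerm (1 : P)) : FreeGroup Ω ≃* FreeGroup Ω).toMonoidHom =
        MonoidHom.id _ := by
      refine FreeGroup.ext_hom _ _ fun ω => ?_
      show FreeGroup.map (MulAction.toPerm (1 : P)) (FreeGroup.of ω) = FreeGroup.of ω
      rw [FreeGroup.map.of, MulAction.toPerm_apply, one_smul]
    exact congrArg (fun f : FreeGroup Ω →* FreeGroup Ω => f x) h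
  map_mul' a b := by
    refine MulEquiv.ext fun x => ?_
    have h : (FreeGroup.freeGroupCongr (MulAction.toPerm (a * b)) : FreeGroup Ω ≃* FreeGroup Ω).toMonoidHom =
        (FreeGroup.freeGroupCongr (MulAction.toPerm a) : FreeGroup Ω ≃* FreeGroup Ω).toMonoidHom.comp
          (FreeGroup.freeGroupCongr (MulAction.toPerm b) : FreeGroup Ω ≃* FreeGroup Ω).toMonoidHom := by
      refine FreeGroup.ext_hom _ _ fun ω => ?_
      show FreeGroup.map (MulAction.toPerm (a * b)) (FreeGroup.of ω) =
        FreeGroup.map (MulAction.toPerm a) (FreeGroup.map (MulAction.toPerm b) (FreeGroup.of ω))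
      rw [FreeGroup.map.of, FreeGroup.map.of, FreeGroup.map.of, MulAction.toPerm_apply, MulAction.toPerm_apply,
        MulAction.toPerm_apply, mul_smul]
    exact congrArg (fun f : FreeGroup Ω →* FreeGroup Ω => f x) h

theorem frPerm_apply (g : P) (x : FreeGroup Ω) : frPerm P Ω g x = FreeGroup.map (fun ω => g • ω) x := rfl

/-- the semidirect product of the free group on `Ω` with the group `P` which permutes `Ω` -/
abbrev FrP : Type := FreeGroup Ω ⋊[frPerm P Ω] P

/-- the points are separated by subgroups of finite index -/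
def SepAct : Prop := ∀ ω ω' : Ω, ω ≠ ω' → ∃ N : Subgroup P, N.FiniteIndex ∧ ∀ n ∈ N, n • ω ≠ ω'

variable {P Ω}

/-- finite sets of points are separated -/
theorem SepAct.finite (h : SepAct P Ω) (S : Set Ω) (hS : S.Finite) :
    ∃ N : Subgroup P, N.FiniteIndex ∧ ∀ a ∈ S, ∀ b ∈ S, ∀ n ∈ N, n • a = b → a = b := by
  classical
  have hc : ∀ a b : Ω, ∃ N : Subgroup P, N.FiniteIndex ∧ ∀ n ∈ N, n • a = b → a = b := by
    intro a b
    by_cases hab : a = b
    · exact ⟨⊤, inferInstance, fun _ _ _ => hab⟩
    · obtain ⟨N, hN, h1⟩ := h a b hab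
      exact ⟨N, hN, fun n hn hnab => absurd hnab (h1 n hn)⟩
  choose N hN hN' using hc
  have hfin : Finite (S × S) := by
    have : Finite S := hS
    infer_instance
  refine ⟨⨅ p : S × S, N p.1 p.2, Subgroup.finiteIndex_iInf fun p => hN _ _, fun a ha b hb n hn hnab => ?_⟩
  exact hN' a b n (Subgroup.mem_iInf.1 hn (⟨a, ha⟩, ⟨b, hb⟩)) hnab

/-- the homomorphism to the free group on the orbits of a subgroup -/
noncomputable def frOrb (N : Subgroup P) :
    ↥(N.comap (SemidirectProduct.rightHom : FrP P Ω →* P)) →* FreeGroup (MulAction.orbitRel.Quotient N Ω) where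
  toFun y := FreeGroup.map (fun ω => (Quotient.mk'' ω : MulAction.orbitRel.Quotient N Ω)) (y : FrP P Ω).left
  map_one' := map_one _
  map_mul' y z := by
    rw [Subgroup.coe_mul, SemidirectProduct.mul_left, map_mul]
    congr 1
    have hn : (y : FrP P Ω).right ∈ N := y.2
    have h : (FreeGroup.map (fun ω => (Quotient.mk'' ω : MulAction.orbitRel.Quotient N Ω))).comp
        (FreeGroup.map fun ω : Ω => (y : FrP P Ω).right • ω) =
        FreeGroup.map (fun ω => (Quotient.mk'' ω : MulAction.orbitRel.Quotient N Ω)) := by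
      refine FreeGroup.ext_hom _ _ fun ω => ?_
      rw [MonoidHom.comp_apply, FreeGroup.map.of, FreeGroup.map.of, FreeGroup.map.of]
      refine congrArg FreeGroup.of (Quotient.eq''.2 ?_)
      rw [MulAction.orbitRel_apply]
      exact ⟨⟨(y : FrP P Ω).right, hn⟩, rfl⟩
    exact congrArg (fun f : FreeGroup Ω →* FreeGroup (MulAction.orbitRel.Quotient N Ω) => f (z : FrP P Ω).left) h

/-- **Semidirect products of a free group with a group which permutes the basis** -/
theorem VTower.perm (hsep : SepAct P Ω) (h : VTower P) : VTower (FrP P Ω) := by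
  classical
  obtain ⟨H, hH, hT⟩ := h
  have hcom : ∀ N : Subgroup P, N.FiniteIndex → (N.comap (SemidirectProduct.rightHom : FrP P Ω →* P)).FiniteIndex := by
    intro N hN
    refine ⟨?_⟩
    rw [Subgroup.index_comap]
    exact (Subgroup.instFiniteIndex_subgroupOf N _).index_ne_zero
  refine ⟨H.comap (SemidirectProduct.rightHom : FrP P Ω →* P), hcom H hH, ?_⟩
  have hstep : StepT ((SemidirectProduct.rightHom : FrP P Ω →* P).ker.subgroupOf
      (H.comap (SemidirectProduct.rightHom : FrP P Ω →* P))) ⊥ := by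
    refine StepT.of_ext _ _ fun x hx hx1 => ?_
    have hr : x.right = 1 := hx
    have hl : x.left ≠ 1 := fun h0 => hx1 (SemidirectProduct.ext h0 hr)
    have hfin : {a | ∃ p ∈ x.left.toWord, p.1 = a}.Finite := by
      refine ((x.left.toWord.map Prod.fst).toFinset.finite_toSet).subset ?_
      rintro a ⟨p, hp, rfl⟩
      exact Finset.mem_coe.2 (List.mem_toFinset.2 (List.mem_map.2 ⟨p, hp, rfl⟩))
    obtain ⟨N, hN, hN'⟩ := hsep.finite _ hfin
    refine ⟨N.comap (SemidirectProduct.rightHom : FrP P Ω →* P), hcom N hN, ?_, _, inferInstance, frOrb N,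
      rut_freeGroup _, fun hxU => ?_⟩
    · intro y hy
      have hy' : SemidirectProduct.rightHom y = (1 : P) := hy
      rw [Subgroup.mem_comap, hy']
      exact N.one_mem
    · refine fr_map_ne_one _ _ hl ?_
      intro a ha b hb hab
      have h1 := Quotient.eq''.1 hab
      rw [MulAction.orbitRel_apply] at h1
      obtain ⟨n, hn⟩ := h1
      exact (hN' b hb a ha n n.2 hn).symm
  let r : ↥(H.comap (SemidirectProduct.rightHom : FrP P Ω →* P)) →* ↥H :=
    (SemidirectProduct.rightHom : FrP P Ω →* P).subgroupComap H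
  have hker : r.ker = (SemidirectProduct.rightHom : FrP P Ω →* P).ker.subgroupOf
      (H.comap (SemidirectProduct.rightHom : FrP P Ω →* P)) := by
    ext y
    rw [MonoidHom.mem_ker, Subgroup.mem_subgroupOf, MonoidHom.mem_ker]
    constructor
    · intro h
      exact congrArg Subtype.val h
    · intro h
      exact Subtype.ext h
  have hK : Tower r.ker := by
    rw [hker]
    exact Tower.step _ _ Tower.bot hstep
  have h1 := Tower.comap_of_ker r hK hT
  rwa [Subgroup.comap_top] at h1

end

end Pool.Agent.TW
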