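import Pool.Agent.TW.PG
import Pool.Agent.TW.PC

/-!
# Project TW, examples: free products

`A * B` is the semidirect product of the free product of the copies of `B` indexed by `A` with `A`, and embeds in the semidirect product of the free
group on `A × B` with `A × B` by `a ↦ (a, 1)`, `b ↦ t (1, b) t⁻¹`, `t` the basis element of `1`.
-/

set_option autoImplicit false
set_option linter.unusedSectionVars false

namespace Pool.Agent.TW.PH

open Monoid

section

variable (S N : Type) [Group N]

/-- the free product of copies of `N` -/
abbrev KK : Type := CoprodI (fun _ : S => N)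

variable {S N}

/-- the copy of `N` at `s` -/
def lt (s : S) : N →* KK S N := CoprodI.of (M := fun _ : S => N) (i := s)

/-- functoriality -/
def kmap {S' : Type} (f : S → S') : KK S N →* KK S' N := CoprodI.lift fun s => lt (f s)

theorem kmap_lt {S' : Type} (f : S → S') (s : S) (n : N) : kmap f (lt s n) = lt (f s) n := by
  unfold kmap lt
  rw [CoprodI.lift_of]

theorem khom_ext {G : Type} [Group G] {f g : KK S N →* G} (h : ∀ s n, f (lt s n) = g (lt s n)) : f = g := by
  refine CoprodI.ext_hom _ _ fun s => ?_
  exact MonoidHom.ext fun n => h s n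

variable (N)

/-- the automorphisms given by the permutations of the index set -/
def kperm (T S : Type) [Group T] [MulAction T S] : T →* MulAut (KK S N) where
  toFun t :=
    { toFun := kmap fun s => t • s
      invFun := kmap fun s => t⁻¹ • s
      left_inv := fun x => by
        have h : (kmap fun s : S => t⁻¹ • s).comp (kmap fun s : S => t • s) = MonoidHom.id (KK S N) :=
          khom_ext fun s n => by rw [MonoidHom.comp_apply, kmap_lt, kmap_lt, inv_smul_smul, MonoidHom.id_apply]
        exact congrArg (fun f : KK S N →* KK S N => f x) h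
      right_inv := fun x => by
        have h : (kmap fun s : S => t • s).comp (kmap fun s : S => t⁻¹ • s) = MonoidHom.id (KK S N) :=
          khom_ext fun s n => by rw [MonoidHom.comp_apply, kmap_lt, kmap_lt, smul_inv_smul, MonoidHom.id_apply]
        exact congrArg (fun f : KK S N →* KK S N => f x) h
      map_mul' := map_mul _ }
  map_one' := by
    refine MulEquiv.ext fun x => ?_
    have h : (kmap fun s : S => (1 : T) • s) = MonoidHom.id (KK S N) :=
      khom_ext fun s n => by rw [kmap_lt, one_smul, MonoidHom.id_apply]
    exact congrArg (fun f : KK S N →* KK S N => f x) h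
  map_mul' a b := by
    refine MulEquiv.ext fun x => ?_
    have h : (kmap fun s : S => (a * b) • s) = (kmap fun s : S => a • s).comp (kmap (N := N) fun s : S => b • s) :=
      khom_ext fun s n => by rw [MonoidHom.comp_apply, kmap_lt, kmap_lt, kmap_lt, mul_smul]
    exact congrArg (fun f : KK S N →* KK S N => f x) h

theorem kperm_lt {T S : Type} [Group T] [MulAction T S] (t : T) (s : S) (n : N) :
    kperm N T S t (lt s n) = lt (t • s) n := kmap_lt _ s n

end

/-! ## The free product of copies in a semidirect product with a free group -/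

section

variable (S N : Type) [Group N]

/-- the action of `N` on `S × N` -/
instance ac : MulAction N (S × N) where
  smul n p := (p.1, n * p.2)
  one_smul p := Prod.ext rfl (one_mul p.2)
  mul_smul a b p := Prod.ext rfl (mul_assoc a b p.2)

theorem ac_smul (n : N) (p : S × N) : n • p = (p.1, n * p.2) := rfl

/-- the map `κ` -/
noncomputable def ka : KK S N →* FrP N (S × N) :=
  CoprodI.lift fun s => (MulAut.conj (SemidirectProduct.inl (FreeGroup.of (s, (1 : N))))).toMonoidHom.comp
    SemidirectProduct.inr

theorem ka_lt (s : S) (n : N) : ka S N (lt s n) =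
    SemidirectProduct.inl (FreeGroup.of (s, (1 : N))) * SemidirectProduct.inr n *
      (SemidirectProduct.inl (FreeGroup.of (s, (1 : N))))⁻¹ := by
  unfold ka lt
  rw [CoprodI.lift_of]
  rfl

/-- the free group permutes the copies -/
abbrev BG : Type := KK (FreeGroup S) N ⋊[kperm N (FreeGroup S) (FreeGroup S)] FreeGroup S

section generic

variable {S N} {H : Type} [Group H] (α : N →* H) (b : S → H)

/-- the free part of a map of the semidirect product -/
noncomputable def gF : FreeGroup (S × N) →* H := FreeGroup.lift fun p => α p.2 * b p.1 * (α p.2)⁻¹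

theorem gF_of (p : S × N) : gF α b (FreeGroup.of p) = α p.2 * b p.1 * (α p.2)⁻¹ := by
  unfold gF
  rw [FreeGroup.lift_apply_of]

theorem gF_compat (n : N) : (gF α b).comp (frPerm N (S × N) n).toMonoidHom =
    (MulAut.conj (α n)).toMonoidHom.comp (gF α b) := by
  refine FreeGroup.ext_hom _ _ fun p => ?_
  have h1 : (frPerm N (S × N) n).toMonoidHom (FreeGroup.of p) = FreeGroup.of (n • p) := FreeGroup.map.of
  rw [MonoidHom.comp_apply, MonoidHom.comp_apply, h1, gF_of, gF_of]
  show α (n * p.2) * b p.1 * (α (n * p.2))⁻¹ = α n * (α p.2 * b p.1 * (α p.2)⁻¹) * (α n)⁻¹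
  rw [map_mul]
  group

/-- a map of the semidirect product -/
noncomputable def gth : FrP N (S × N) →* H := SemidirectProduct.lift (gF α b) α (gF_compat α b)

theorem gth_inl (p : S × N) : gth α b (SemidirectProduct.inl (FreeGroup.of p)) = α p.2 * b p.1 * (α p.2)⁻¹ := by
  unfold gth
  rw [SemidirectProduct.lift_inl, gF_of]

theorem gth_inr (n : N) : gth α b (SemidirectProduct.inr n) = α n := by
  unfold gth
  rw [SemidirectProduct.lift_inr]

end generic

/-- the map `θ` -/
noncomputable def th : FrP N (S × N) →* BG S N :=
  gth (SemidirectProduct.inl.comp (lt 1)) fun s => SemidirectProduct.inr (FreeGroup.of s)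

theorem th_ka (x : KK S N) : th S N (ka S N x) = SemidirectProduct.inl (kmap (fun s => FreeGroup.of s) x) := by
  have h : (th S N).comp (ka S N) = SemidirectProduct.inl.comp (kmap fun s => FreeGroup.of s) := by
    refine khom_ext fun s n => ?_
    have h1 : th S N (SemidirectProduct.inl (FreeGroup.of (s, (1 : N)))) = SemidirectProduct.inr (FreeGroup.of s) := by
      unfold th
      rw [gth_inl]
      simp only [map_one, one_mul, inv_one, mul_one]
    have h2 : th S N (SemidirectProduct.inr n) = SemidirectProduct.inl (lt 1 n) := by
      unfold th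
      rw [gth_inr]
      rfl
    rw [MonoidHom.comp_apply, MonoidHom.comp_apply, ka_lt, kmap_lt, map_mul, map_mul, map_inv, h1, h2,
      ← map_inv SemidirectProduct.inr, ← SemidirectProduct.inl_aut, kperm_lt, smul_eq_mul, mul_one]
  exact congrArg (fun f : KK S N →* BG S N => f x) h

theorem kmap_injective {S' : Type} (f : S → S') (hf : Function.Injective f) : Function.Injective (kmap (N := N) f) := by
  classical
  let ρ : KK S' N →* KK S N := CoprodI.lift fun s' => if h : ∃ s, f s = s' then lt h.choose else 1
  have h : ρ.comp (kmap f) = MonoidHom.id _ := by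
    refine khom_ext fun s n => ?_
    rw [MonoidHom.comp_apply, kmap_lt, MonoidHom.id_apply]
    have h1 : ∃ s₀, f s₀ = f s := ⟨s, rfl⟩
    have h2 : ρ (lt (f s) n) = lt h1.choose n := by
      show CoprodI.lift _ (CoprodI.of (M := fun _ : S' => N) (i := f s) n) = _
      rw [CoprodI.lift_of, dif_pos h1]
    rw [h2, hf h1.choose_spec]
  intro x y hxy
  have h1 : ρ (kmap f x) = x := congrArg (fun g : KK S N →* KK S N => g x) h
  have h2 : ρ (kmap f y) = y := congrArg (fun g : KK S N →* KK S N => g y) h
  rw [← h1, hxy, h2]

theorem ka_injective : Function.Injective (ka S N) := by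
  intro x y hxy
  have h1 := congrArg (th S N) hxy
  rw [th_ka, th_ka] at h1
  exact kmap_injective S N _ FreeGroup.of_injective (SemidirectProduct.inl_injective h1)

end

/-! ## Free products -/

section

variable (A B : Type) [Group A] [Group B]

/-- the free product in the semidirect product of the copies of `B` with `A` -/
noncomputable def c1 : Coprod A B →* KK A B ⋊[kperm B A A] A :=
  Coprod.lift SemidirectProduct.inr (SemidirectProduct.inl.comp (lt (1 : A)))

/-- the inverse on the copies -/
noncomputable def c2K : KK A B →* Coprod A B :=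
  CoprodI.lift fun s => (MulAut.conj (Coprod.inl s)).toMonoidHom.comp Coprod.inr

theorem c2K_lt (s : A) (n : B) : c2K A B (lt s n) = Coprod.inl s * Coprod.inr n * (Coprod.inl s)⁻¹ := by
  unfold c2K lt
  rw [CoprodI.lift_of]
  rfl

/-- the inverse -/
noncomputable def c2 : KK A B ⋊[kperm B A A] A →* Coprod A B :=
  SemidirectProduct.lift (c2K A B) Coprod.inl (by
    intro t
    refine khom_ext fun s n => ?_
    show c2K A B (kperm B A A t (lt s n)) = Coprod.inl t * c2K A B (lt s n) * (Coprod.inl t)⁻¹
    rw [kperm_lt, c2K_lt, c2K_lt, smul_eq_mul, map_mul]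
    group)

theorem c1_injective : Function.Injective (c1 A B) := by
  have h : (c2 A B).comp (c1 A B) = MonoidHom.id _ := by
    apply Coprod.hom_ext
    · apply MonoidHom.ext
      intro t
      show c2 A B (c1 A B (Coprod.inl t)) = Coprod.inl t
      unfold c1 c2
      rw [Coprod.lift_apply_inl, SemidirectProduct.lift_inr]
    · apply MonoidHom.ext
      intro n
      show c2 A B (c1 A B (Coprod.inr n)) = Coprod.inr n
      unfold c1 c2
      rw [Coprod.lift_apply_inr, MonoidHom.comp_apply, SemidirectProduct.lift_inl, c2K_lt, map_one, one_mul, inv_one,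
        mul_one]
  intro x y hxy
  have h1 : c2 A B (c1 A B x) = x := congrArg (fun f : Coprod A B →* Coprod A B => f x) h
  have h2 : c2 A B (c1 A B y) = y := congrArg (fun f : Coprod A B →* Coprod A B => f y) h
  rw [← h1, hxy, h2]

/-- the action of `B` in the semidirect product -/
noncomputable def jj : FrP B (A × B) →* FrP (A × B) (A × B) :=
  SemidirectProduct.lift SemidirectProduct.inl (SemidirectProduct.inr.comp (MonoidHom.inr A B)) (by
    intro n
    refine FreeGroup.ext_hom _ _ fun p => ?_
    show SemidirectProduct.inl (frPerm B (A × B) n (FreeGroup.of p)) =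
      SemidirectProduct.inr ((1 : A), n) * SemidirectProduct.inl (FreeGroup.of p) * (SemidirectProduct.inr ((1 : A), n))⁻¹
    rw [← map_inv SemidirectProduct.inr, ← SemidirectProduct.inl_aut, frPerm_apply, frPerm_apply, FreeGroup.map.of,
      FreeGroup.map.of]
    congr 2
    show (p.1, n * p.2) = (1 * p.1, n * p.2)
    rw [one_mul])

theorem jj_left (x : FrP B (A × B)) : (jj A B x).left = x.left := by
  have h : jj A B x = SemidirectProduct.inl x.left * SemidirectProduct.inr ((1 : A), x.right) := rfl
  rw [h, SemidirectProduct.mul_left, SemidirectProduct.left_inl, SemidirectProduct.right_inl, map_one,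
    SemidirectProduct.left_inr, map_one, mul_one]

theorem jj_right (x : FrP B (A × B)) : (jj A B x).right = ((1 : A), x.right) := by
  have h : jj A B x = SemidirectProduct.inl x.left * SemidirectProduct.inr ((1 : A), x.right) := rfl
  rw [h, SemidirectProduct.mul_right, SemidirectProduct.right_inl, SemidirectProduct.right_inr, one_mul]

/-- the embedding -/
noncomputable def em : KK A B ⋊[kperm B A A] A →* FrP (A × B) (A × B) :=
  SemidirectProduct.lift ((jj A B).comp (ka A B)) (SemidirectProduct.inr.comp (MonoidHom.inl A B)) (by
    intro t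
    refine khom_ext fun s n => ?_
    show jj A B (ka A B (kperm B A A t (lt s n))) =
      SemidirectProduct.inr (t, (1 : B)) * jj A B (ka A B (lt s n)) * (SemidirectProduct.inr (t, (1 : B)))⁻¹
    have h0 : ∀ (s : A), jj A B (ka A B (lt s n)) = SemidirectProduct.inl (FreeGroup.of (s, (1 : B))) *
        SemidirectProduct.inr ((1 : A), n) * (SemidirectProduct.inl (FreeGroup.of (s, (1 : B))))⁻¹ := by
      intro s
      rw [ka_lt, map_mul, map_mul, map_inv]
      unfold jj
      rw [SemidirectProduct.lift_inl, SemidirectProduct.lift_inr]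
      rfl
    have h1 : (SemidirectProduct.inl (FreeGroup.of (t • s, (1 : B))) : FrP (A × B) (A × B)) =
        SemidirectProduct.inr (t, (1 : B)) * SemidirectProduct.inl (FreeGroup.of (s, (1 : B))) *
          (SemidirectProduct.inr (t, (1 : B)))⁻¹ := by
      rw [← map_inv SemidirectProduct.inr, ← SemidirectProduct.inl_aut, frPerm_apply, FreeGroup.map.of]
      congr 2
      show (t * s, (1 : B)) = (t * s, 1 * 1)
      rw [one_mul]
    have h2 : (SemidirectProduct.inr ((1 : A), n) : FrP (A × B) (A × B)) =
        SemidirectProduct.inr (t, (1 : B)) * SemidirectProduct.inr ((1 : A), n) *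
          (SemidirectProduct.inr (t, (1 : B)))⁻¹ := by
      rw [← map_inv SemidirectProduct.inr, ← map_mul, ← map_mul]
      congr 1
      show ((1 : A), n) = (t * 1 * t⁻¹, 1 * n * 1⁻¹)
      rw [mul_one, mul_inv_cancel, one_mul, inv_one, mul_one]
    rw [kperm_lt, h0, h0, h1]
    conv_lhs => rw [h2]
    group)

theorem em_injective : Function.Injective (em A B) := by
  rw [injective_iff_map_eq_one]
  intro x hx
  have h : em A B x = jj A B (ka A B x.left) * SemidirectProduct.inr (x.right, (1 : B)) := rfl
  rw [h] at hx
  have h1 := congrArg (fun z : FrP (A × B) (A × B) => z.right.1) hx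
  have h2 : x.right = 1 := by
    have h3 : ((jj A B (ka A B x.left) * SemidirectProduct.inr (x.right, (1 : B)) : FrP (A × B) (A × B))).right.1 =
        1 * x.right := by
      rw [SemidirectProduct.mul_right, jj_right, SemidirectProduct.right_inr]
      rfl
    rw [one_mul] at h3
    exact h3.symm.trans h1
  rw [h2] at hx
  have h4 : (SemidirectProduct.inr ((1 : A), (1 : B)) : FrP (A × B) (A × B)) = 1 := map_one SemidirectProduct.inr
  rw [h4, mul_one] at hx
  have h5 : ka A B x.left = 1 := by
    refine SemidirectProduct.ext ?_ ?_
    · rw [← jj_left, hx]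
      rfl
    · have h6 := congrArg (fun z : FrP (A × B) (A × B) => z.right.2) hx
      have h7 : ((jj A B (ka A B x.left) : FrP (A × B) (A × B))).right.2 = (ka A B x.left).right := by
        rw [jj_right]
      exact h7.symm.trans h6
  have h8 : x.left = 1 := ka_injective A B (h5.trans (map_one _).symm)
  exact SemidirectProduct.ext h8 h2

end

end Pool.Agent.TW.PH

namespace Pool.Agent.TW

/-- **Free products** -/
theorem VTower.coprod {A B : Type} [Group A] [Group B] (hA : VTower A) (hB : VTower B) : VTower (Monoid.Coprod A B) := by
  have hP : VTower (A × B) := VTower.prod hA hB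
  refine VTower.comap ((PH.em A B).comp (PH.c1 A B)) ((PH.em_injective A B).comp (PH.c1_injective A B))
    (VTower.perm ?_ hP)
  intro ω ω' hne
  obtain ⟨N, hN, hN'⟩ := VTower.rf hP (ω' * ω⁻¹) fun h => hne (mul_inv_eq_one.1 h).symm
  refine ⟨N, hN, fun n hn h => hN' ?_⟩
  rw [← h, smul_eq_mul, mul_inv_cancel_right]
  exact hn

end Pool.Agent.TW
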