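import Pool.Agent.TW.Defs

/-!
# Project TW: the push forward of series, as a function

`psh f v y = ∑ᶠ (x) (_ : f x = y), v x`.
PROOFS.  `finsum_mem` lemmas (`psh f v y = ∑ᶠ x ∈ {x | f x = y}, v x` by definition up to `Set.mem_setOf_eq`), or convert to
`∑ᶠ x, if f x = y then v x else 0` as in `TW/Gd.lean` (`finsum_add_distrib` with the finite supports).
`psh_single_mul`: `(single x c * v) z = c * v (x⁻¹ * z)` (`Ser.single_mul_apply`), substitute `z = x * z'`.
-/

set_option autoImplicit false
set_option linter.unusedSectionVars false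

namespace Pool.Agent.TW

open Pool.Agent.S11
open Pool.Agent.H58.MN (Ser)

section

variable {Q Γ E : Type} [Group Q] [BO Q] [Group Γ] [Ring E] (f : Q →* Γ)

open Classical in
private theorem psh_eq (v : Q → E) (y : Γ) : psh f v y = ∑ᶠ x : Q, if f x = y then v x else 0 := by
  unfold psh
  exact finsum_congr fun x => finsum_eq_if

open Classical in
private theorem fin_ite {v : Ser E Q} (hv : Fn f v) (y : Γ) :
    (Function.support fun x : Q => if f x = y then v x else 0).Finite := by
  refine (hv y).subset ?_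
  intro x hx
  rw [Function.mem_support] at hx
  by_cases h : f x = y
  · rw [if_pos h] at hx
    exact ⟨hx, h⟩
  · rw [if_neg h] at hx
    exact absurd rfl hx

theorem psh_zero (y : Γ) : psh f (0 : Ser E Q) y = 0 := by
  classical
  rw [psh_eq]
  have h : ∀ x : Q, (if f x = y then (0 : Ser E Q) x else 0) = 0 := by
    intro x
    rw [Pool.Agent.H58.MN.Ser.zero_apply, ite_self]
  rw [finsum_congr h, finsum_zero]

theorem psh_one [DecidableEq Γ] (y : Γ) : psh f (1 : Ser E Q) y = if y = 1 then 1 else 0 := by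
  classical
  rw [psh_eq, Pool.Agent.H58.MN.Ser.one_def, finsum_eq_single _ (1 : Q),
    Pool.Agent.H58.MN.Ser.single_self, map_one]
  · by_cases h : y = 1
    · rw [if_pos h, if_pos h.symm]
    · rw [if_neg h, if_neg (Ne.symm h)]
  · intro x hx
    rw [Pool.Agent.H58.MN.Ser.single_ne hx, ite_self]

theorem psh_add {v w : Ser E Q} (hv : Fn f v) (hw : Fn f w) (y : Γ) :
    psh f (v + w : Ser E Q) y = psh f v y + psh f w y := by
  classical
  rw [psh_eq, psh_eq, psh_eq, ← finsum_add_distrib (fin_ite f hv y) (fin_ite f hw y)]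
  refine finsum_congr fun x => ?_
  rw [Pool.Agent.H58.MN.Ser.add_apply]
  by_cases h : f x = y
  · rw [if_pos h, if_pos h, if_pos h]
  · rw [if_neg h, if_neg h, if_neg h, add_zero]

theorem psh_neg (v : Ser E Q) (y : Γ) : psh f (-v : Ser E Q) y = -psh f v y := by
  classical
  rw [psh_eq, psh_eq, ← finsum_neg_distrib]
  refine finsum_congr fun x => ?_
  rw [Pool.Agent.H58.MN.Ser.neg_apply]
  by_cases h : f x = y
  · rw [if_pos h, if_pos h]
  · rw [if_neg h, if_neg h, neg_zero]

theorem psh_single_mul {v : Ser E Q} (hv : Fn f v) (x : Q) (c : E) (y : Γ) :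
    psh f (Ser.single x c * v : Ser E Q) y = c * psh f v ((f x)⁻¹ * y) := by
  classical
  rw [psh_eq, psh_eq, mul_finsum' _ _ (fin_ite f hv _)]
  rw [← finsum_comp_equiv (Equiv.mulLeft x)]
  refine finsum_congr fun z => ?_
  rw [Equiv.coe_mulLeft, Pool.Agent.H58.MN.Ser.single_mul_apply, inv_mul_cancel_left, map_mul]
  by_cases h : f z = (f x)⁻¹ * y
  · rw [if_pos h, if_pos (by rw [h, mul_inv_cancel_left])]
  · rw [if_neg h, if_neg (fun h' => h (by rw [← h', inv_mul_cancel_left])), mul_zero]

end

end Pool.Agent.TW
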