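import Pool.Agent.TW.PX

/-!
# Project TW, examples: elements which act trivially in degree one act unipotently; torsion modulo four

`UnE.of_two`: if `h` fixes the polynomial functions of degree at most one, then `h` acts unipotently on all polynomial functions.
`mink`: an integer matrix of finite order which is the identity modulo four is the identity.
-/

set_option autoImplicit false
set_option linter.unusedSectionVars false

open Finset

namespace Pool.Agent.TW

/-- linear functionals separate a submodule from a saturated submodule -/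
theorem exists_functional {R W : Type} [CommRing R] [IsDomain R] [IsPrincipalIdealRing R] [AddCommGroup W] [Module R W]
    (M M' : Submodule R W) (hs : ∀ (n : R) (w : W), n ≠ 0 → n • w ∈ M' → w ∈ M') (hf : Module.Finite R M)
    {x : W} (hx : x ∈ M) (hx' : x ∉ M') :
    ∃ l : M →ₗ[R] R, (∀ y : M, (y : W) ∈ M' → l y = 0) ∧ l ⟨x, hx⟩ ≠ 0 := by
  let N : Submodule R (W ⧸ M') := M.map M'.mkQ
  have hNf : Module.Finite R N := Module.Finite.map M M'.mkQ
  have hNt : Module.IsTorsionFree R N := by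
    refine ⟨fun n hn x y hxy => ?_⟩
    have hn0 : n ≠ 0 := fun h => by
      rw [h] at hn
      exact not_isRegular_zero hn
    have h1 : n • (x - y) = 0 := by
      rw [smul_sub]
      exact sub_eq_zero.2 hxy
    have h2 : n • ((x - y : N) : W ⧸ M') = 0 := congrArg Subtype.val h1
    obtain ⟨w, hw, hwx⟩ := (x - y : N).2
    rw [← hwx, ← map_smul, Submodule.mkQ_apply, Submodule.Quotient.mk_eq_zero] at h2
    have h3 := hs n w hn0 h2
    have h4 : ((x - y : N) : W ⧸ M') = 0 := by
      rw [← hwx, Submodule.mkQ_apply, Submodule.Quotient.mk_eq_zero]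
      exact h3
    exact sub_eq_zero.1 (Subtype.ext h4)
  have hNF : Module.Free R N := Module.free_of_finite_type_torsion_free'
  let b := Module.finBasis R N
  let p : M →ₗ[R] N := (M'.mkQ ∘ₗ M.subtype).codRestrict N fun y => ⟨y, y.2, rfl⟩
  have hp : p ⟨x, hx⟩ ≠ 0 := by
    intro h
    have h1 : M'.mkQ x = 0 := congrArg Subtype.val h
    rw [Submodule.mkQ_apply, Submodule.Quotient.mk_eq_zero] at h1
    exact hx' h1
  obtain ⟨j, hj⟩ : ∃ j, b.repr (p ⟨x, hx⟩) j ≠ 0 := by
    by_contra hcon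
    push Not at hcon
    apply hp
    rw [← b.repr.map_eq_zero_iff]
    exact Finsupp.ext hcon
  refine ⟨b.coord j ∘ₗ p, fun y hy => ?_, hj⟩
  have h1 : p y = 0 := by
    refine Subtype.ext ?_
    show M'.mkQ (y : W) = 0
    rw [Submodule.mkQ_apply, Submodule.Quotient.mk_eq_zero]
    exact hy
  rw [LinearMap.comp_apply, h1, map_zero]

section

variable {Λ : Type} [Group Λ]

theorem mem_PM_one {g : Λ → ℤ} : g ∈ PM Λ 1 ↔ ∀ x, g x = g 1 := by
  rw [mem_PM_succ]
  constructor
  · intro h x
    have h1 := congrFun (mem_PM_zero.1 (h x).1) 1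
    rw [Pi.sub_apply, Rt_apply, one_mul, Pi.zero_apply, sub_eq_zero] at h1
    exact h1
  · intro h k
    rw [mem_PM_zero, mem_PM_zero]
    constructor
    · funext x
      rw [Pi.sub_apply, Rt_apply, h (x * k), h x, sub_self]
      rfl
    · funext x
      rw [Pi.sub_apply, Lt_apply, h (k * x), h x, sub_self]
      rfl

theorem PM_two_of_add {w : Λ → ℤ} (hw : ∀ x y, w (x * y) = w x + w y) : w ∈ PM Λ 2 := by
  rw [mem_PM_succ]
  intro k
  rw [mem_PM_one, mem_PM_one]
  constructor
  · intro x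
    rw [Pi.sub_apply, Pi.sub_apply, Rt_apply, Rt_apply, hw, hw]
    ring
  · intro x
    rw [Pi.sub_apply, Pi.sub_apply, Lt_apply, Lt_apply, hw, hw]
    ring

/-- inner automorphisms fix the functions of degree at most one -/
theorem PM_two_conj {g : Λ → ℤ} (hg : g ∈ PM Λ 2) (k x : Λ) : g (k⁻¹ * x * k) = g x := by
  rw [mem_PM_succ] at hg
  have h1 := mem_PM_one.1 (hg k).1
  have h2 := mem_PM_one.1 (hg k⁻¹).2
  simp only [Pi.sub_apply, Rt_apply, Lt_apply, one_mul, mul_one] at h1 h2
  have h3 := h1 (k⁻¹ * x)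
  have h4 := h1 k⁻¹
  have h5 := h2 x
  rw [inv_mul_cancel] at h4
  linarith

/-- elements on which the functions of degree at most one are trivial act two degrees down, right translations -/
theorem Rt_sub_mem [Group.FG Λ] {c : ℕ} {g : Λ → ℤ} (hg : g ∈ PM Λ (c + 2)) {u : Λ} (hu : ∀ w ∈ PM Λ 2, w u = w 1) :
    Rt u g - g ∈ PM Λ c := by
  by_contra hcon
  obtain ⟨l, hl, hlu⟩ := exists_functional (PM Λ (c + 1)) (PM Λ c) (fun n w hn hw => PM_sat hn hw) (PM_finite (c + 1))
    (mem_PM_succ.1 hg u).1 hcon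
  let w : Λ → ℤ := fun k => l ⟨Rt k g - g, (mem_PM_succ.1 hg k).1⟩
  have hadd : ∀ x y, w (x * y) = w x + w y := by
    intro x y
    have hm : Rt x (Rt y g - g) - (Rt y g - g) ∈ PM Λ (c + 1) :=
      Submodule.sub_mem _ (Rt_mem (mem_PM_succ.1 hg y).1 x) (mem_PM_succ.1 hg y).1
    have h1 := hl ⟨Rt x (Rt y g - g) - (Rt y g - g), hm⟩ (mem_PM_succ.1 (mem_PM_succ.1 hg y).1 x).1
    have h2 : (⟨Rt (x * y) g - g, (mem_PM_succ.1 hg (x * y)).1⟩ : PM Λ (c + 1)) =
        ⟨Rt x (Rt y g - g) - (Rt y g - g), hm⟩ + ⟨Rt x g - g, (mem_PM_succ.1 hg x).1⟩ +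
          ⟨Rt y g - g, (mem_PM_succ.1 hg y).1⟩ := by
      refine Subtype.ext (funext fun z => ?_)
      simp only [Submodule.coe_add, Pi.add_apply, Pi.sub_apply, map_sub, Rt_apply, mul_assoc]
      ring
    show l _ = l _ + l _
    rw [h2, map_add, map_add, h1, zero_add]
  have h3 := hu w (PM_two_of_add hadd)
  have h4 : w 1 = 0 := by
    have h5 := hadd 1 1
    rw [mul_one] at h5
    linarith
  exact hlu (h3.trans h4)

/-- elements on which the functions of degree at most one are trivial act two degrees down, left translations -/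
theorem Lt_sub_mem [Group.FG Λ] {c : ℕ} {g : Λ → ℤ} (hg : g ∈ PM Λ (c + 2)) {u : Λ} (hu : ∀ w ∈ PM Λ 2, w u = w 1) :
    Lt u g - g ∈ PM Λ c := by
  by_contra hcon
  obtain ⟨l, hl, hlu⟩ := exists_functional (PM Λ (c + 1)) (PM Λ c) (fun n w hn hw => PM_sat hn hw) (PM_finite (c + 1))
    (mem_PM_succ.1 hg u).2 hcon
  let w : Λ → ℤ := fun k => l ⟨Lt k g - g, (mem_PM_succ.1 hg k).2⟩
  have hadd : ∀ x y, w (x * y) = w x + w y := by
    intro x y
    have hm : Lt y (Lt x g - g) - (Lt x g - g) ∈ PM Λ (c + 1) :=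
      Submodule.sub_mem _ (Lt_mem (mem_PM_succ.1 hg x).2 y) (mem_PM_succ.1 hg x).2
    have h1 := hl ⟨Lt y (Lt x g - g) - (Lt x g - g), hm⟩ (mem_PM_succ.1 (mem_PM_succ.1 hg x).2 y).2
    have h2 : (⟨Lt (x * y) g - g, (mem_PM_succ.1 hg (x * y)).2⟩ : PM Λ (c + 1)) =
        ⟨Lt y (Lt x g - g) - (Lt x g - g), hm⟩ + ⟨Lt x g - g, (mem_PM_succ.1 hg x).2⟩ +
          ⟨Lt y g - g, (mem_PM_succ.1 hg y).2⟩ := by
      refine Subtype.ext (funext fun z => ?_)
      simp only [Submodule.coe_add, Pi.add_apply, Pi.sub_apply, map_sub, Lt_apply, mul_assoc]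
      ring
    show l _ = l _ + l _
    rw [h2, map_add, map_add, h1, zero_add]
  have h3 := hu w (PM_two_of_add hadd)
  have h4 : w 1 = 0 := by
    have h5 := hadd 1 1
    rw [mul_one] at h5
    linarith
  exact hlu (h3.trans h4)

end

section

variable {H Λ : Type} [Group H] [Group Λ] (α : H →* MulAut Λ)

/-- **elements which act trivially in degree one act unipotently** -/
theorem UnE.of_two [Group.FG Λ] {h : H} (hh : ∀ w ∈ PM Λ 2, actE α h w = w) (n : ℕ) : UnE α n h := by
  have key : ∀ c : ℕ, ∀ g ∈ PM Λ (c + 1), actE α h g - g ∈ PM Λ c := by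
    intro c
    induction c with
    | zero =>
      intro g hg
      rw [hh g (PM_le_succ 1 hg), sub_self]
      exact Submodule.zero_mem _
    | succ c ih =>
      intro g hg
      rw [mem_PM_succ]
      intro k
      constructor
      · have hu : ∀ w ∈ PM Λ 2, w (k⁻¹ * α h⁻¹ k) = w 1 := by
          intro w hw
          have h1 := congrFun (hh _ (Lt_mem hw k⁻¹)) k
          rw [actE_apply, Lt_apply, Lt_apply, inv_mul_cancel] at h1
          exact h1
        have e : Rt k (actE α h g - g) - (actE α h g - g) =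
            (actE α h (Rt (α h⁻¹ k) g - g) - (Rt (α h⁻¹ k) g - g)) + Rt k (Rt (k⁻¹ * α h⁻¹ k) g - g) := by
          funext x
          simp only [Pi.add_apply, Pi.sub_apply, map_sub, Rt_apply, actE_apply, map_mul, mul_assoc, mul_inv_cancel_left]
          ring
        rw [e]
        exact Submodule.add_mem _ (ih _ (mem_PM_succ.1 hg _).1) (Rt_mem (Rt_sub_mem hg hu) k)
      · have hu : ∀ w ∈ PM Λ 2, w (α h⁻¹ k * k⁻¹) = w 1 := by
          intro w hw
          have h1 := congrFun (hh _ (Rt_mem hw k⁻¹)) k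
          rw [actE_apply, Rt_apply, Rt_apply, mul_inv_cancel] at h1
          exact h1
        have e : Lt k (actE α h g - g) - (actE α h g - g) =
            (actE α h (Lt (α h⁻¹ k) g - g) - (Lt (α h⁻¹ k) g - g)) + Lt k (Lt (α h⁻¹ k * k⁻¹) g - g) := by
          funext x
          simp only [Pi.add_apply, Pi.sub_apply, map_sub, Lt_apply, actE_apply, map_mul, mul_assoc, inv_mul_cancel_left]
          ring
        rw [e]
        exact Submodule.add_mem _ (ih _ (mem_PM_succ.1 hg _).2) (Lt_mem (Lt_sub_mem hg hu) k)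
  exact fun i _ w hw => key i w hw

/-- inner automorphisms act trivially in degree one -/
theorem actE_two_inner {h : H} (k : Λ) (hk : ∀ x, α h x = k * x * k⁻¹) {w : Λ → ℤ} (hw : w ∈ PM Λ 2) : actE α h w = w := by
  funext x
  rw [actE_apply]
  have h1 : α h (k⁻¹ * x * k) = x := by
    rw [hk]
    group
  have h2 : α h⁻¹ (α h (k⁻¹ * x * k)) = k⁻¹ * x * k := by
    rw [← MulAut.mul_apply, ← map_mul, inv_mul_cancel, map_one, MulAut.one_apply]
  rw [h1] at h2
  rw [h2]
  exact PM_two_conj hw k x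

end

/-- **torsion which is trivial modulo four is trivial** -/
theorem mink {E : Type} [Ring E] (h2 : ∀ a : E, 2 * a = 0 → a = 0) (hsep : ∀ a : E, (∀ k : ℕ, ∃ b, a = 2 ^ k * b) → a = 0)
    (N : ℕ) : 0 < N → ∀ T : E, (∃ S, T = 1 + 4 * S) → T ^ N = 1 → T = 1 := by
  have c2 : ∀ a : E, Commute (2 : E) a := fun a => by
    have := Nat.cast_commute 2 a
    exact_mod_cast this
  -- elements `y` with `y = 2 * z * y` vanish
  have hdiv : ∀ y z : E, y = 2 * z * y → y = 0 := by
    intro y z hy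
    apply hsep
    intro k
    refine ⟨z ^ k * y, ?_⟩
    induction k with
    | zero => rw [pow_zero, pow_zero, one_mul, one_mul]
    | succ k ih =>
      have h3 : (2 : E) ^ (k + 1) * (z ^ (k + 1) * y) = 2 ^ k * (z ^ k * (2 * z * y)) := by
        rw [pow_succ, pow_succ]
        have h4 : z ^ k * 2 = 2 * z ^ k := (c2 (z ^ k)).eq.symm
        calc (2 : E) ^ k * 2 * (z ^ k * z * y) = 2 ^ k * ((2 * z ^ k) * z * y) := by noncomm_ring
          _ = 2 ^ k * ((z ^ k * 2) * z * y) := by rw [h4]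
          _ = 2 ^ k * (z ^ k * (2 * z * y)) := by noncomm_ring
      rw [h3, ← hy]
      exact ih
  induction N using Nat.strong_induction_on with
  | _ N ih =>
    intro hN T hT hTN
    have hpow : ∀ i : ℕ, ∃ S, T ^ i = 1 + 4 * S := by
      obtain ⟨S, hS⟩ := hT
      intro i
      induction i with
      | zero => exact ⟨0, by rw [pow_zero, mul_zero, add_zero]⟩
      | succ i ih' =>
        obtain ⟨S', hS'⟩ := ih'
        refine ⟨S' * (1 + 4 * S) + S, ?_⟩
        rw [pow_succ, hS', hS]
        noncomm_ring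
    rcases Nat.even_or_odd' N with ⟨M, hM | hM⟩
    · -- even
      have hM0 : 0 < M := by omega
      obtain ⟨S, hS⟩ := hpow M
      have h3 : T ^ M * T ^ M = 1 := by
        rw [← pow_add, ← two_mul, ← hM]
        exact hTN
      have h4 : (4 : E) * S = 2 * (2 * S) := by noncomm_ring
      have h5 : 2 * ((1 + 2 * S) * (4 * S)) = 0 := by
        have h6 : (1 + 4 * S) * (1 + 4 * S) = 1 := by rw [← hS]; exact h3
        have h7 : (1 + 4 * S) * (1 + 4 * S) - 1 = 2 * ((1 + 2 * S) * (4 * S)) := by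
          have h8 : S * 2 = 2 * S := (c2 S).eq.symm
          noncomm_ring
        rw [← h7, h6, sub_self]
      have h9 := h2 _ h5
      have h10 : 4 * S = 2 * (-S) * (4 * S) := by
        have h11 : (1 + 2 * S) * (4 * S) = 4 * S - 2 * (-S) * (4 * S) := by noncomm_ring
        rw [h11, sub_eq_zero] at h9
        exact h9
      have h12 : 4 * S = 0 := hdiv _ _ h10
      have h13 : T ^ M = 1 := by rw [hS, h12, add_zero]
      exact ih M (by omega) hM0 T hT h13
    · -- odd
      have hsum : ∀ i : ℕ, ∃ Z, ∑ j ∈ range i, T ^ j = (i : E) + 2 * Z := by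
        intro i
        induction i with
        | zero => exact ⟨0, by rw [range_zero, sum_empty, Nat.cast_zero, mul_zero, add_zero]⟩
        | succ i ih' =>
          obtain ⟨Z, hZ⟩ := ih'
          obtain ⟨S, hS⟩ := hpow i
          refine ⟨Z + 2 * S, ?_⟩
          rw [sum_range_succ, hZ, hS, Nat.cast_succ]
          noncomm_ring
      obtain ⟨Z, hZ⟩ := hsum N
      have h3 : (∑ j ∈ range N, T ^ j) * (T - 1) = 0 := by
        rw [geom_sum_mul, hTN, sub_self]
      have h4 : (N : E) = 1 + 2 * (M : E) := by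
        rw [hM]
        push_cast
        noncomm_ring
      have h5 : T - 1 = 2 * (-(M + Z)) * (T - 1) := by
        rw [hZ, h4] at h3
        have h6 : (1 + 2 * (M : E) + 2 * Z) * (T - 1) = (T - 1) - 2 * (-(M + Z)) * (T - 1) := by noncomm_ring
        rw [h6, sub_eq_zero] at h3
        exact h3
      exact sub_eq_zero.1 (hdiv _ _ h5)

/-- integer matrices of finite order which are the identity modulo four -/
theorem mink_matrix {m N : ℕ} (hN : 0 < N) (T : Matrix (Fin m) (Fin m) ℤ) (hT : ∀ a b, (4 : ℤ) ∣ (T - 1) a b)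
    (hTN : T ^ N = 1) : T = 1 := by
  refine mink ?_ ?_ N hN T ?_ hTN
  · intro a ha
    ext i j
    have h1 := congrFun (congrFun ha i) j
    have h2 : ((2 : Matrix (Fin m) (Fin m) ℤ) * a) i j = 2 * a i j := by
      rw [show (2 : Matrix (Fin m) (Fin m) ℤ) * a = (2 : ℤ) • a by rw [two_mul, two_smul]]
      rfl
    rw [h2] at h1
    have h3 : (2 : ℤ) * a i j = 0 := h1
    show a i j = 0
    omega
  · intro a ha
    ext i j
    show a i j = 0
    by_contra hne
    obtain ⟨k, hk⟩ : ∃ k : ℕ, (a i j).natAbs < 2 ^ k := ⟨_, Nat.lt_two_pow_self⟩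
    obtain ⟨b, hb⟩ := ha k
    have h2 : a i j = 2 ^ k * b i j := by
      rw [hb]
      rw [show (2 : Matrix (Fin m) (Fin m) ℤ) ^ k * b = ((2 : ℤ) ^ k) • b by
        rw [show (2 : Matrix (Fin m) (Fin m) ℤ) ^ k = (((2 : ℤ) ^ k : ℤ) : Matrix (Fin m) (Fin m) ℤ) by push_cast; rfl]
        rw [← zsmul_eq_mul]]
      rfl
    have h3 : (2 : ℤ) ^ k ∣ a i j := ⟨_, h2⟩
    have h4 := Int.natAbs_dvd_natAbs.2 h3
    rw [Int.natAbs_pow] at h4
    have h5 := Nat.le_of_dvd (Int.natAbs_pos.2 hne) h4
    have h6 : (2 : ℤ).natAbs = 2 := rfl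
    rw [h6] at h5
    omega
  · choose S hS using hT
    refine ⟨Matrix.of S, ?_⟩
    have h1 : (4 : Matrix (Fin m) (Fin m) ℤ) * Matrix.of S = (4 : ℤ) • Matrix.of S := by
      rw [show (4 : Matrix (Fin m) (Fin m) ℤ) = ((4 : ℤ) : Matrix (Fin m) (Fin m) ℤ) by push_cast; rfl, ← zsmul_eq_mul]
    rw [h1]
    ext i j
    have h2 := hS i j
    rw [Matrix.sub_apply] at h2
    rw [Matrix.add_apply, Matrix.smul_apply, Matrix.of_apply, smul_eq_mul]
    linarith

end Pool.Agent.TW
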