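import Pool.Agent.TW.PV
import Pool.Agent.TW.ExS
import Pool.Agent.S12.Appr1

/-!
# Project TW, examples: extensions by finitely generated groups with infinite conjugacy classes which are virtually residually unitriangular

`Tower.ext_vrut`: if the kernel of `r : H →* Q` is finitely generated, has infinite conjugacy classes and has a residually unitriangular subgroup of
finite index, and a subgroup of finite index of `Q` is a tower, then a subgroup of finite index of `H` is a tower.  No hypothesis on the profinite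
topology of `H`.
-/

set_option autoImplicit false
set_option linter.unusedSectionVars false

open Finset

namespace Pool.Agent.TW

/-- reduction modulo `2 ^ t` -/
theorem px_red_one {H : Type} [Group H] {n : ℕ} (φ : H →* Matrix (Fin n) (Fin n) ℤ) (t : ℕ) :
    ∃ V : Subgroup H, V.FiniteIndex ∧ ∀ y ∈ V, ∀ a b, (2 : ℤ) ^ t ∣ (φ y - 1) a b := by
  have hne : NeZero (2 ^ t) := ⟨by positivity⟩
  have hfin : Finite (Matrix (Fin n) (Fin n) (ZMod (2 ^ t))) := by
    unfold Matrix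
    infer_instance
  let ψ : H →* Matrix (Fin n) (Fin n) (ZMod (2 ^ t)) := ((Int.castRingHom (ZMod (2 ^ t))).mapMatrix :
    Matrix (Fin n) (Fin n) ℤ →+* Matrix (Fin n) (Fin n) (ZMod (2 ^ t))).toMonoidHom.comp φ
  have h1 : Finite ψ.toHomUnits.range := inferInstance
  refine ⟨ψ.toHomUnits.ker, Subgroup.finiteIndex_ker _, fun y hy a b => ?_⟩
  have h2 : ψ y = 1 := by
    have h3 : ψ.toHomUnits y = 1 := hy
    rw [← MonoidHom.coe_toHomUnits, h3, Units.val_one]
  have h4 : (Int.castRingHom (ZMod (2 ^ t))).mapMatrix (φ y - 1) = 0 := by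
    rw [map_sub, map_one, sub_eq_zero]
    exact h2
  have h5 : (((φ y - 1) a b : ℤ) : ZMod (2 ^ t)) = 0 := congrFun (congrFun h4 a) b
  have h6 := (ZMod.intCast_zmod_eq_zero_iff_dvd _ _).1 h5
  push_cast at h6
  exact h6

/-- **Normal subgroups which are virtually residually unitriangular** -/
theorem StepT.of_vrut {H : Type} [Group H] (K C : Subgroup H) (hC : C.Normal)
    (hfi : ∀ x ∈ K, ∃ N, 0 < N ∧ x ^ N ∈ C) (hfg : Group.FG ↥C) (hrut : S12.RUT ↥C)
    (hicc : ∀ x ∈ K, x ≠ 1 → ∃ y ∈ C, x * y ≠ y * x) :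
    ∃ H₁ : Subgroup H, H₁.FiniteIndex ∧ ∀ H₀ ≤ H₁, StepT (K.subgroupOf H₀) ⊥ := by
  have hinner : ∀ (k : ↥C) (z : ↥C), MulAut.conjNormal (k : H) z = k * z * k⁻¹ := fun k z => Subtype.ext (by
    rw [MulAut.conjNormal_apply]
    rfl)
  obtain ⟨m₂, Ψ₂, -, h₂⟩ := exists_rep (MulAut.conjNormal : H →* MulAut ↥C) 2
  obtain ⟨H₁, hH₁, hred⟩ := px_red_one Ψ₂ 2
  have hun : ∀ x ∈ K, x ∈ H₁ → ∀ n, UnE (MulAut.conjNormal : H →* MulAut ↥C) n x := by
    intro x hxK hxH n
    obtain ⟨N, hN, hxN⟩ := hfi x hxK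
    have h1 : Ψ₂ x ^ N = 1 := by
      rw [← map_pow, h₂]
      exact fun g hg => actE_two_inner _ ⟨x ^ N, hxN⟩ (hinner ⟨x ^ N, hxN⟩) hg
    have h2 : Ψ₂ x = 1 := mink_matrix hN _ (fun a b => by
      have h3 := hred x hxH a b
      norm_num at h3
      exact h3) h1
    exact UnE.of_two _ ((h₂ x).1 h2) n
  refine ⟨H₁, hH₁, fun H₀ hH₀ => ⟨bot_le, ?_, ?_⟩⟩
  · intro x _ y hy
    rw [Subgroup.mem_bot] at hy ⊢
    rw [hy, mul_one, mul_inv_cancel]
  · intro x hx
    have hx1 : ((x : ↥H₀) : H) ≠ 1 := fun h => hx (Subgroup.mem_bot.2 (Subtype.ext h))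
    have hxK : ((x : ↥H₀) : H) ∈ K := Subgroup.mem_subgroupOf.1 x.2
    obtain ⟨y, hyC, hy⟩ := hicc _ hxK hx1
    let y' : ↥C := ⟨y, hyC⟩
    have hxy : MulAut.conjNormal ((x : ↥H₀) : H) y' * y'⁻¹ ≠ 1 := by
      intro h
      rw [mul_inv_eq_one] at h
      have h1 := congrArg Subtype.val h
      rw [MulAut.conjNormal_apply, mul_inv_eq_iff_eq_mul] at h1
      exact hy h1
    obtain ⟨n, f, hf, hfx⟩ := hrut _ hxy
    obtain ⟨m, Ψ, h1, h2⟩ := exists_rep (MulAut.conjNormal : H →* MulAut ↥C) n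
    refine ⟨m, (Ψ.comp H₀.subtype).comp (K.subgroupOf H₀).subtype, fun k => h1 _ ?_, ?_, ?_, ?_⟩
    · exact hun _ (Subgroup.mem_subgroupOf.1 k.2) (hH₀ (k : ↥H₀).2) n
    · intro k hk
      rw [Subgroup.mem_bot] at hk
      show Ψ ((k : ↥H₀) : H) = 1
      rw [hk, Subgroup.coe_one, map_one]
    · intro hΨ
      have hΨ' : Ψ (((x : ↥H₀) : H)⁻¹) = 1 := by
        have h3 : Ψ ((x : ↥H₀) : H) = 1 := hΨ
        have h4 : Ψ (((x : ↥H₀) : H)⁻¹) * Ψ ((x : ↥H₀) : H) = 1 := by rw [← map_mul, inv_mul_cancel, map_one]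
        rwa [h3, mul_one] at h4
      apply hfx
      have h5 : f (MulAut.conjNormal ((x : ↥H₀) : H) y') = f y' := by
        ext i j
        have h6 := congrFun ((h2 _).1 hΨ' _ (coeff_mem_PM f hf i j)) y'
        rw [actE_apply, inv_inv] at h6
        exact h6
      rw [map_mul, h5, ← map_mul, mul_inv_cancel, map_one]
    · intro t
      obtain ⟨V, hV, h3⟩ := px_red Ψ t
      exact ⟨V.subgroupOf H₀, Subgroup.instFiniteIndex_subgroupOf V H₀, fun k hk => h3 _ (Subgroup.mem_subgroupOf.1 hk)⟩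

/-- **Extensions by finitely generated virtually residually unitriangular groups with infinite conjugacy classes** -/
theorem Tower.ext_vrut {H Q : Type} [Group H] [Group Q] (r : H →* Q) (hfg : Group.FG ↥r.ker)
    (K₀ : Subgroup ↥r.ker) (hK₀ : K₀.FiniteIndex) (hrut : S12.RUT ↥K₀)
    (hicc : ∀ x : ↥r.ker, x ≠ 1 → ¬ (Subgroup.centralizer {x}).FiniteIndex)
    (Q₀ : Subgroup Q) (hQ₀ : Q₀.FiniteIndex) (hT : Tower (⊤ : Subgroup ↥Q₀)) :
    ∃ H₀ : Subgroup H, H₀.FiniteIndex ∧ Tower (⊤ : Subgroup ↥H₀) := by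
  obtain ⟨C₀, hC₀, hCV, hchar⟩ := exists_char hfg K₀ hK₀
  have hinj : Function.Injective r.ker.subtype := r.ker.subtype_injective
  have hCn : (C₀.map r.ker.subtype).Normal := by
    refine ⟨?_⟩
    rintro _ ⟨c, hc, rfl⟩ h
    exact ⟨MulAut.conjNormal h c, hchar (MulAut.conjNormal h) c hc, MulAut.conjNormal_apply h c⟩
  have hfg0 : Group.FG ↥C₀ := Subgroup.fg_of_index_ne_zero C₀
  have hfgC : Group.FG ↥(C₀.map r.ker.subtype) :=
    Group.fg_of_surjective (f := (C₀.equivMapOfInjective r.ker.subtype hinj).toMonoidHom)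
      (C₀.equivMapOfInjective r.ker.subtype hinj).surjective
  have hrutC : S12.RUT ↥(C₀.map r.ker.subtype) :=
    S12.RUT.comap (f := (Subgroup.inclusion hCV).comp (C₀.equivMapOfInjective r.ker.subtype hinj).symm.toMonoidHom)
      ((Subgroup.inclusion_injective hCV).comp (C₀.equivMapOfInjective r.ker.subtype hinj).symm.injective) hrut
  obtain ⟨H₁, hH₁, hstep⟩ := StepT.of_vrut r.ker (C₀.map r.ker.subtype) hCn (by
    intro x hx
    obtain ⟨N, hN, hN', hxN⟩ := Subgroup.exists_pow_mem_of_index_ne_zero hC₀.index_ne_zero (⟨x, hx⟩ : ↥r.ker)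
    exact ⟨N, hN, ⟨_, hxN, rfl⟩⟩) hfgC hrutC (by
    intro x hx hx1
    by_contra hcon
    push Not at hcon
    apply hicc ⟨x, hx⟩ fun h => hx1 (congrArg Subtype.val h)
    have hle : C₀ ≤ Subgroup.centralizer {(⟨x, hx⟩ : ↥r.ker)} := by
      intro c hc
      rw [Subgroup.mem_centralizer_singleton_iff]
      have h1 := hcon (c : H) ⟨c, hc, rfl⟩
      first
        | exact Subtype.ext h1
        | exact Subtype.ext h1.symm
    exact Subgroup.finiteIndex_of_le hle)
  have hfi2 : (Q₀.comap r).FiniteIndex := by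
    refine ⟨?_⟩
    rw [Subgroup.index_comap]
    exact (Subgroup.instFiniteIndex_subgroupOf Q₀ r.range).index_ne_zero
  refine ⟨H₁ ⊓ Q₀.comap r, inferInstance, ?_⟩
  let r₀ : ↥(H₁ ⊓ Q₀.comap r) →* ↥Q₀ := (r.subgroupComap Q₀).comp (Subgroup.inclusion inf_le_right)
  have hker : r₀.ker = r.ker.subgroupOf (H₁ ⊓ Q₀.comap r) := by
    ext x
    rw [MonoidHom.mem_ker, Subgroup.mem_subgroupOf, MonoidHom.mem_ker]
    constructor
    · intro h
      exact congrArg Subtype.val h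
    · intro h
      exact Subtype.ext h
  have hK : Tower r₀.ker := by
    rw [hker]
    exact Tower.step _ _ Tower.bot (hstep _ inf_le_left)
  have h := Tower.comap_of_ker r₀ hK hT
  rwa [Subgroup.comap_top] at h

end Pool.Agent.TW
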