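import Pool.Agent.TW.PF
import Pool.Agent.TW.PB
import Pool.Agent.TW.Defs
import Pool.Agent.S12.Ex

/-!
# Project TW, examples: extensions by finitely generated centreless residually unitriangular groups

A group `H` which acts on a finitely generated group `Λ` by automorphisms acts on the finitely generated free abelian groups `PM Λ n` of polynomial
functions, and the elements of `H` which act by inner automorphisms are unitriangular for a suitable basis.  For a normal subgroup `K` of `H` which is
finitely generated, residually unitriangular and without centre, the homomorphisms `H → GL (PM K n)` separate the elements of `K`, are unitriangular on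
`K`, and their reductions modulo `2 ^ t` have kernels of finite index in `H`: so `K` is a step of a tower, without any hypothesis on the profinite
topology of `H` (`StepT.of_rut`), and preimages of towers are towers (`Tower.ext_rut`).
-/

set_option autoImplicit false
set_option linter.unusedSectionVars false

open Finset

namespace Pool.Agent.TW

section

variable {H Λ : Type} [Group H] [Group Λ] (α : H →* MulAut Λ)

/-- the action on functions -/
def actE : H →* Module.End ℤ (Λ → ℤ) where
  toFun h := LinearMap.funLeft ℤ ℤ fun x => α h⁻¹ x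
  map_one' := by
    refine LinearMap.ext fun g => funext fun x => ?_
    show g (α 1⁻¹ x) = g x
    rw [inv_one, map_one, MulAut.one_apply]
  map_mul' a b := by
    refine LinearMap.ext fun g => funext fun x => ?_
    show g (α (a * b)⁻¹ x) = g (α b⁻¹ (α a⁻¹ x))
    rw [mul_inv_rev, map_mul, MulAut.mul_apply]

theorem actE_apply (h : H) (g : Λ → ℤ) (x : Λ) : actE α h g x = g (α h⁻¹ x) := rfl

theorem actE_mem {c : ℕ} {g : Λ → ℤ} (hg : g ∈ PM Λ c) (h : H) : actE α h g ∈ PM Λ c := PM_aut (α h⁻¹) hg

/-- `h` acts unipotently -/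
def UnE (n : ℕ) (h : H) : Prop := ∀ i < n, ∀ w ∈ PM Λ (i + 1), actE α h w - w ∈ PM Λ i

/-- inner automorphisms act unipotently -/
theorem UnE.inner (n : ℕ) {h : H} (k : Λ) (hk : ∀ x, α h x = k * x * k⁻¹) : UnE α n h := by
  intro i _ w hw
  have e : actE α h w = fun x => w (k⁻¹ * x * k) := by
    funext x
    rw [actE_apply]
    have h1 : α h (k⁻¹ * x * k) = x := by
      rw [hk]
      group
    have h2 : α h⁻¹ (α h (k⁻¹ * x * k)) = k⁻¹ * x * k := by
      rw [← MulAut.mul_apply, ← map_mul, inv_mul_cancel, map_one, MulAut.one_apply]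
    rw [h1] at h2
    rw [h2]
  rw [e]
  exact PM_conj hw k

/-- the action on the polynomial functions of degree less than `n` -/
def repE (n : ℕ) : H →* Module.End ℤ (PM Λ n) where
  toFun h := (actE α h).restrict fun g hg => actE_mem α hg h
  map_one' := by
    refine LinearMap.ext fun g => Subtype.ext ?_
    rw [LinearMap.restrict_apply]
    show actE α 1 (g : Λ → ℤ) = g
    rw [map_one]
    rfl
  map_mul' a b := by
    refine LinearMap.ext fun g => Subtype.ext ?_
    rw [LinearMap.restrict_apply]
    show actE α (a * b) (g : Λ → ℤ) = actE α a (actE α b g)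
    rw [map_mul]
    rfl

theorem repE_apply (n : ℕ) (h : H) (g : PM Λ n) : ((repE α n h g : PM Λ n) : Λ → ℤ) = actE α h g := rfl

/-- **The representation by matrices** -/
theorem exists_rep [Group.FG Λ] (n : ℕ) : ∃ (m : ℕ) (Ψ : H →* Matrix (Fin m) (Fin m) ℤ), (∀ h, UnE α n h → UTri (Ψ h)) ∧
    ∀ h, Ψ h = 1 ↔ ∀ g ∈ PM Λ n, actE α h g = g := by
  obtain ⟨m, v, hli, hsp, hT⟩ := exists_unip_basis (R := ℤ) (fun c => PM Λ c) rfl PM_le_succ
    (fun c n w hn hw => PM_sat hn hw) (fun c => PM_finite c) n
  let B : Module.Basis (Fin m) ℤ (PM Λ n) := (Module.Basis.span hli).map (LinearEquiv.ofEq _ _ hsp)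
  have hB : ∀ j, ((B j : PM Λ n) : Λ → ℤ) = v j := by
    intro j
    rw [Module.Basis.map_apply, LinearEquiv.coe_ofEq_apply, Module.Basis.span_apply]
  refine ⟨m, ((LinearMap.toMatrixAlgEquiv B : _ ≃ₐ[ℤ] _) : _ →* _).comp (repE α n), ?_, ?_⟩
  · intro h hh
    have key : ∀ a b : Fin m, ¬ a < b → B.repr (repE α n h (B b)) a = B.repr (B b) a := by
      intro a b hab
      have h1 := hT (actE α h) hh b
      have h2 : repE α n h (B b) - B b ∈ Submodule.span ℤ (B '' {i | i < b}) := by
        have h3 : v '' {i | i < b} = (PM Λ n).subtype '' (B '' {i | i < b}) := by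
          rw [Set.image_image]
          exact Set.image_congr fun i _ => (hB i).symm
        rw [h3, Submodule.span_image] at h1
        obtain ⟨z, hz, hz'⟩ := h1
        have h4 : z = repE α n h (B b) - B b := by
          refine Subtype.ext ?_
          rw [Submodule.coe_sub, repE_apply, hB]
          exact hz'
        rw [← h4]
        exact hz
      rw [Module.Basis.mem_span_image, Finsupp.support_subset_iff] at h2
      have h5 := h2 a hab
      rw [map_sub, Finsupp.sub_apply, sub_eq_zero] at h5
      exact h5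
    constructor
    · intro a
      show LinearMap.toMatrixAlgEquiv B (repE α n h) a a = 1
      rw [LinearMap.toMatrixAlgEquiv_apply, key a a (lt_irrefl a), Module.Basis.repr_self, Finsupp.single_eq_same]
    · intro a b hab
      show LinearMap.toMatrixAlgEquiv B (repE α n h) a b = 0
      rw [LinearMap.toMatrixAlgEquiv_apply, key a b (not_lt.2 hab.le), Module.Basis.repr_self,
        Finsupp.single_eq_of_ne (ne_of_gt hab)]
  · intro h
    have h0 : (LinearMap.toMatrixAlgEquiv B (repE α n h) = 1) ↔ repE α n h = 1 :=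
      map_eq_one_iff _ (LinearMap.toMatrixAlgEquiv B).injective
    refine h0.trans ?_
    constructor
    · intro h1 g hg
      exact congrArg (fun T : Module.End ℤ (PM Λ n) => ((T ⟨g, hg⟩ : PM Λ n) : Λ → ℤ)) h1
    · intro h1
      exact LinearMap.ext fun g => Subtype.ext (h1 g g.2)

end

/-- homomorphisms to finite monoids are trivial on subgroups of finite index -/
private theorem px_fin {H M : Type} [Group H] [Monoid M] [Finite M] (ψ : H →* M) :
    ∃ V : Subgroup H, V.FiniteIndex ∧ ∀ y ∈ V, ψ y = 1 := by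
  have h1 : Finite ψ.toHomUnits.range := inferInstance
  refine ⟨ψ.toHomUnits.ker, Subgroup.finiteIndex_ker _, fun y hy => ?_⟩
  have h2 : ψ.toHomUnits y = 1 := hy
  rw [← MonoidHom.coe_toHomUnits, h2, Units.val_one]

/-- reduction modulo `2 ^ t` -/
theorem px_red {H : Type} [Group H] {n : ℕ} (φ : H →* Matrix (Fin n) (Fin n) ℤ) (t : ℕ) :
    ∃ V : Subgroup H, V.FiniteIndex ∧ ∀ y ∈ V, ∀ a b, a ≠ b → (2 : ℤ) ^ t ∣ φ y a b := by
  have hne : NeZero (2 ^ t) := ⟨by positivity⟩
  have hfin : Finite (Matrix (Fin n) (Fin n) (ZMod (2 ^ t))) := by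
    unfold Matrix
    infer_instance
  obtain ⟨V, hV, h1⟩ := px_fin (((Int.castRingHom (ZMod (2 ^ t))).mapMatrix :
    Matrix (Fin n) (Fin n) ℤ →+* Matrix (Fin n) (Fin n) (ZMod (2 ^ t))).toMonoidHom.comp φ)
  refine ⟨V, hV, fun y hy a b hab => ?_⟩
  have h2 : ((Int.castRingHom (ZMod (2 ^ t))).mapMatrix (φ y)) a b =
      (1 : Matrix (Fin n) (Fin n) (ZMod (2 ^ t))) a b := congrFun (congrFun (h1 y hy) a) b
  rw [Matrix.one_apply_ne hab] at h2
  have h3 : ((φ y a b : ℤ) : ZMod (2 ^ t)) = 0 := h2
  have h4 := (ZMod.intCast_zmod_eq_zero_iff_dvd _ _).1 h3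
  push_cast at h4
  exact h4

/-- **Normal subgroups which are finitely generated, residually unitriangular and without centre are steps of towers** -/
theorem StepT.of_rut {H : Type} [Group H] (K : Subgroup H) (hK : K.Normal) (hfg : Group.FG ↥K) (hrut : S12.RUT ↥K)
    (hc : ∀ z : ↥K, (∀ y : ↥K, z * y = y * z) → z = 1) : StepT K ⊥ := by
  refine ⟨bot_le, ?_, ?_⟩
  · intro x _ y hy
    rw [Subgroup.mem_bot] at hy ⊢
    rw [hy, mul_one, mul_inv_cancel]
  · intro x hx
    have hx1 : x ≠ 1 := fun h => hx (by rw [h]; exact Subgroup.mem_bot.2 rfl)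
    obtain ⟨y, hy⟩ : ∃ y : ↥K, x * y ≠ y * x := by
      by_contra hcon
      push Not at hcon
      exact hx1 (hc x hcon)
    have hxy : x * y * x⁻¹ * y⁻¹ ≠ 1 := by
      intro h
      apply hy
      rw [mul_inv_eq_one, mul_inv_eq_iff_eq_mul] at h
      exact h
    obtain ⟨n, f, hf, hfx⟩ := hrut _ hxy
    obtain ⟨m, Ψ, h1, h2⟩ := exists_rep (MulAut.conjNormal : H →* MulAut ↥K) n
    have hinner : ∀ (k : ↥K) (z : ↥K), MulAut.conjNormal (k : H) z = k * z * k⁻¹ := fun k z => Subtype.ext (by
      rw [MulAut.conjNormal_apply]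
      rfl)
    refine ⟨m, Ψ.comp K.subtype, fun k => h1 _ (UnE.inner _ n k (hinner k)), ?_, ?_, ?_⟩
    · intro k hk
      rw [Subgroup.mem_bot] at hk
      show Ψ (k : H) = 1
      rw [hk, map_one]
    · intro hΨ
      have hΨ' : Ψ ((x : H)⁻¹) = 1 := by
        have h3 : Ψ (x : H) = 1 := hΨ
        have h4 : Ψ ((x : H)⁻¹) * Ψ (x : H) = 1 := by rw [← map_mul, inv_mul_cancel, map_one]
        rwa [h3, mul_one] at h4
      apply hfx
      have h5 : f (x * y * x⁻¹) = f y := by
        ext i j
        have h6 := congrFun ((h2 _).1 hΨ' _ (coeff_mem_PM f hf i j)) y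
        rw [actE_apply, inv_inv, hinner] at h6
        exact h6
      rw [map_mul, h5, ← map_mul, mul_inv_cancel, map_one]
    · intro t
      obtain ⟨V, hV, h3⟩ := px_red Ψ t
      exact ⟨V, hV, fun k hk => h3 (k : H) hk⟩

section

variable {H Q : Type} [Group H] [Group Q] (r : H →* Q)

/-- preimages of towers are towers if the kernel is the top of a tower -/
theorem Tower.comap_of_ker (hK : Tower r.ker) {T : Subgroup Q} (hT : Tower T) : Tower (T.comap r) := by
  induction hT with
  | bot =>
    rw [MonoidHom.comap_bot]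
    exact hK
  | step J N hN h ih =>
    refine Tower.step _ _ ih ⟨Subgroup.comap_mono h.le, ?_, ?_⟩
    · intro a ha b hb
      rw [Subgroup.mem_comap] at ha hb ⊢
      rw [map_mul, map_mul, map_inv]
      exact h.conj _ ha _ hb
    · intro x hx
      have hx' : ((r.subgroupComap J x : ↥J) : Q) ∉ N := hx
      obtain ⟨n, φ, h2, h3, h4, h5⟩ := h.sep _ hx'
      refine ⟨n, φ.comp (r.subgroupComap J), fun y => h2 _, fun y hy => h3 _ hy, h4, fun t => ?_⟩
      obtain ⟨V, hV, h6⟩ := h5 t
      refine ⟨V.comap r, ?_, fun y hy a b hab => h6 (r.subgroupComap J y) hy a b hab⟩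
      have hfi : V.FiniteIndex := hV
      refine ⟨?_⟩
      rw [Subgroup.index_comap]
      exact (Subgroup.instFiniteIndex_subgroupOf V r.range).index_ne_zero

/-- **Extensions by finitely generated centreless residually unitriangular groups** -/
theorem Tower.ext_rut (hfg : Group.FG ↥r.ker) (hrut : S12.RUT ↥r.ker)
    (hc : ∀ z : ↥r.ker, (∀ y : ↥r.ker, z * y = y * z) → z = 1) {T : Subgroup Q} (hT : Tower T) : Tower (T.comap r) :=
  Tower.comap_of_ker r (Tower.step _ _ Tower.bot (StepT.of_rut r.ker inferInstance hfg hrut hc)) hT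

/-- **Extensions by finitely generated centreless residually unitriangular groups**, the whole group -/
theorem Tower.ext_rut_top (hfg : Group.FG ↥r.ker) (hrut : S12.RUT ↥r.ker)
    (hc : ∀ z : ↥r.ker, (∀ y : ↥r.ker, z * y = y * z) → z = 1) (hT : Tower (⊤ : Subgroup Q)) : Tower (⊤ : Subgroup H) := by
  have h := Tower.ext_rut r hfg hrut hc hT
  rwa [Subgroup.comap_top] at h

end

end Pool.Agent.TW
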