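import Pool.Agent.TW.Defs

/-!
# Project TW: the compression of a series to a box

`b.th w = ∑ a ∈ Φ, ∑ c ∈ Φ, P a * w (a * c⁻¹) * P c`.
PROOF of `th_shift` (`h ∈ S`, `g = q h`, `D` as in `Good`, `x = u h * b.th w`, `y = b.th (fun γ => u h * w (g⁻¹ * γ))`).
`x = ∑ a c, P (g * a) * u h * w (a * c⁻¹) * P c` (`comm`), `y = ∑ a c, P a * (u h * w (g⁻¹ * a * c⁻¹)) * P c`.
The terms of `x` with `a ∉ D` (so `g * a ∈ Φ`) are the terms of `y` for `g * a`.  So `x - y = x₁ - y₁`, where `x₁` is the sum over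
`a ∈ D`: `x₁ = u h * (∑ a ∈ D, P a) * b.th w` (orthogonality `self`, `ne`: `P a * P a' * ... `), rank `≤ ε`; and `y₁` is the sum over
`a ∈ Φ`, `g⁻¹ * a ∉ Φ \ D`: `y₁ = Q₁ * y` with `Q₁ = ∑ a ∈ Φ, g⁻¹ * a ∉ Φ \ D, P a = 1 - ∑ a ∈ Φ \ D, P (g * a) =
u h * (∑ a ∈ D, P a) * u h⁻¹` (`comm`, `sum`), rank `≤ ε`.
A convenient way: `A₀ = ∑ a ∈ Φ \ D, P (g * a)`, `A₁ = 1 - A₀ = u h * (∑ a ∈ D, P a) * u h⁻¹`; then `A₀ * x = A₀ * y` (both are the sum of the
common terms, by orthogonality for the elements of `Φ`), so `x - y = A₁ * x - A₁ * y`, rank `≤ 2 ε`.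
-/

set_option autoImplicit false
set_option linter.unusedSectionVars false

open Finset

namespace Pool.Agent.TW

section

variable {J Γ E : Type} [Group J] [Group Γ] [Ring E] {u : J →* E} {q : J →* Γ} (b : Bx u q)

theorem Bx.th_zero : b.th (fun _ => 0) = 0 := by
  rw [Bx.th]
  exact sum_eq_zero fun a _ => sum_eq_zero fun c _ => by rw [mul_zero, zero_mul]

theorem Bx.th_add (w w' : Γ → E) : b.th (fun γ => w γ + w' γ) = b.th w + b.th w' := by
  rw [Bx.th, Bx.th, Bx.th, ← sum_add_distrib]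
  refine sum_congr rfl fun a _ => ?_
  rw [← sum_add_distrib]
  refine sum_congr rfl fun c _ => ?_
  rw [mul_add, add_mul]

theorem Bx.th_neg (w : Γ → E) : b.th (fun γ => -w γ) = -b.th w := by
  rw [Bx.th, Bx.th, ← sum_neg_distrib]
  refine sum_congr rfl fun a _ => ?_
  rw [← sum_neg_distrib]
  refine sum_congr rfl fun c _ => ?_
  rw [mul_neg, neg_mul]

theorem Bx.th_one [DecidableEq Γ] : b.th (fun γ => if γ = 1 then 1 else 0) = 1 := by
  rw [Bx.th]
  refine Eq.trans (sum_congr rfl fun a ha => ?_) b.sum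
  rw [sum_eq_single a]
  · rw [if_pos (mul_inv_cancel a), mul_one, b.self a ha]
  · intro c _ hc
    rw [if_neg fun h => hc (mul_inv_eq_one.1 h).symm, mul_zero, zero_mul]
  · intro h
    exact absurd ha h

/-- one row of the compression -/
private theorem P_mul_th {a : Γ} (ha : a ∈ b.Φ) (w : Γ → E) :
    b.P a * b.th w = ∑ c ∈ b.Φ, b.P a * w (a * c⁻¹) * b.P c := by
  rw [Bx.th, mul_sum, sum_eq_single a]
  · rw [mul_sum]
    refine sum_congr rfl fun c _ => ?_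
    rw [← mul_assoc, ← mul_assoc, b.self a ha]
  · intro a' ha' hne
    rw [mul_sum]
    refine sum_eq_zero fun c _ => ?_
    rw [← mul_assoc, ← mul_assoc, b.ne a ha a' ha' (Ne.symm hne), zero_mul, zero_mul]
  · intro h
    exact absurd ha h

/-- **The shift estimate** -/
theorem Bx.th_shift (R : RkR E) {S : Finset J} {ε : ℝ} (hb : b.Good R S ε) {h : J} (hh : h ∈ S) (w : Γ → E) :
    R.rk (u h * b.th w - b.th (fun γ => u h * w ((q h)⁻¹ * γ))) ≤ 2 * ε := by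
  classical
  obtain ⟨D, hD, hgood, hrk⟩ := hb
  have hu : u h * u h⁻¹ = 1 := by rw [← map_mul, mul_inv_cancel, map_one]
  have hP : ∀ a, b.P (q h * a) = u h * b.P a * u h⁻¹ := fun a => by
    rw [b.comm, mul_assoc, hu, mul_one]
  -- the common terms
  have h0 : (∑ a ∈ b.Φ \ D, b.P (q h * a)) * (u h * b.th w) =
      (∑ a ∈ b.Φ \ D, b.P (q h * a)) * b.th (fun γ => u h * w ((q h)⁻¹ * γ)) := by
    rw [sum_mul, sum_mul]
    refine sum_congr rfl fun a ha => ?_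
    obtain ⟨ha1, ha2⟩ := mem_sdiff.1 ha
    rw [P_mul_th b (hgood a ha1 ha2 h hh), ← mul_assoc, ← b.comm, mul_assoc, P_mul_th b ha1, mul_sum]
    refine sum_congr rfl fun c _ => ?_
    rw [show (q h)⁻¹ * (q h * a * c⁻¹) = a * c⁻¹ by group, ← mul_assoc (b.P (q h * a)), ← b.comm]
    simp only [mul_assoc]
  have h1 : (∑ a ∈ b.Φ \ D, b.P (q h * a)) + u h * (∑ a ∈ D, b.P a) * u h⁻¹ = 1 := by
    rw [sum_congr rfl fun a _ => hP a, ← sum_mul, ← mul_sum, ← add_mul, ← mul_add, sum_sdiff hD, b.sum,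
      mul_one, hu]
  have h2 : u h * b.th w - b.th (fun γ => u h * w ((q h)⁻¹ * γ)) =
      u h * (∑ a ∈ D, b.P a) * (u h⁻¹ * (u h * b.th w - b.th (fun γ => u h * w ((q h)⁻¹ * γ)))) := by
    rw [← mul_assoc]
    conv_lhs => rw [← one_mul (u h * b.th w - b.th (fun γ => u h * w ((q h)⁻¹ * γ))), ← h1]
    rw [add_mul, mul_sub (∑ a ∈ b.Φ \ D, b.P (q h * a)), h0, sub_self, zero_add]
  have h3 : R.rk (u h * b.th w - b.th (fun γ => u h * w ((q h)⁻¹ * γ))) ≤ R.rk (∑ a ∈ D, b.P a) := by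
    rw [h2]
    exact (R.mul_l _ _).trans (R.mul_r _ _)
  have h4 := R.nonneg (∑ a ∈ D, b.P a)
  linarith

end

end Pool.Agent.TW
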