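import Pool.Agent.S11.FL.Defs

/-!
# Project TW: transport of flatness along isomorphisms of the group and of the ring

PROOF.  Let `ρ' , ρ` be representations of `G'` and `i` equivariant and injective, `m ∈ MM K V' X'` with `mapX V' i m ∈ II j' ρ ⊤`.  The
representations `ρ'.comp e`, `ρ.comp e` of `G`; the linear equivalence `Θ = κ.symm ⊗ (id ⊗ κ.symm) : MM K V' X → MM K V X` satisfies
`Θ (act j' ρ (e g) m) = act j (ρ ∘ e) g (Θ m)` (pure tensors, `MM_ext`), so it maps `II j' ρ ⊤` into `II j (ρ ∘ e) ⊤` (`II_le`), and its inverse conversely;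
it commutes with `mapX`.  Apply `hF` to `Θ m`.
-/

set_option autoImplicit false
set_option linter.unusedSectionVars false

open TensorProduct

namespace Pool.Agent.TW

open Pool.Agent.S11.FL

section

variable {K G G' V V' : Type*} [Field K] [Group G] [Group G'] [Ring V] [Algebra K V] [Ring V']
  [Algebra K V']

/-- the map `MM K V' X → MM K V X` -/
private noncomputable def trTh (κ : V ≃ₐ[K] V') (X : Type*) [AddCommGroup X] [Module K X] :
    MM K V' X →ₗ[K] MM K V X :=
  TensorProduct.map κ.symm.toLinearMap (TensorProduct.map LinearMap.id κ.symm.toLinearMap)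

/-- the map `MM K V X → MM K V' X` -/
private noncomputable def trIn (κ : V ≃ₐ[K] V') (X : Type*) [AddCommGroup X] [Module K X] :
    MM K V X →ₗ[K] MM K V' X :=
  TensorProduct.map κ.toLinearMap (TensorProduct.map LinearMap.id κ.toLinearMap)

private theorem trTh_tmul (κ : V ≃ₐ[K] V') {X : Type*} [AddCommGroup X] [Module K X] (a : V') (x : X)
    (b : V') : trTh κ X (a ⊗ₜ[K] (x ⊗ₜ[K] b)) = κ.symm a ⊗ₜ[K] (x ⊗ₜ[K] κ.symm b) := rfl

private theorem trIn_tmul (κ : V ≃ₐ[K] V') {X : Type*} [AddCommGroup X] [Module K X] (a : V) (x : X)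
    (b : V) : trIn κ X (a ⊗ₜ[K] (x ⊗ₜ[K] b)) = κ a ⊗ₜ[K] (x ⊗ₜ[K] κ b) := rfl

private theorem trIn_trTh (κ : V ≃ₐ[K] V') {X : Type*} [AddCommGroup X] [Module K X]
    (m : MM K V' X) : trIn κ X (trTh κ X m) = m := by
  have h1 : trIn κ X ∘ₗ trTh κ X = LinearMap.id := MM_ext fun a x b => by
    rw [LinearMap.comp_apply, trTh_tmul, trIn_tmul, κ.apply_symm_apply, κ.apply_symm_apply]
    rfl
  exact LinearMap.congr_fun h1 m

private theorem trTh_mapX (κ : V ≃ₐ[K] V') {X' X : Type*} [AddCommGroup X'] [Module K X']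
    [AddCommGroup X] [Module K X] (i : X' →ₗ[K] X) (m : MM K V' X') :
    trTh κ X (mapX V' i m) = mapX V i (trTh κ X' m) := by
  have h1 : trTh κ X ∘ₗ mapX V' i = mapX V i ∘ₗ trTh κ X' := MM_ext fun a x b => by
    rw [LinearMap.comp_apply, LinearMap.comp_apply, mapX_tmul, trTh_tmul, trTh_tmul, mapX_tmul]
  exact LinearMap.congr_fun h1 m

private theorem trTh_act (j : G →* V) (j' : G' →* V') (e : G ≃* G') (κ : V ≃ₐ[K] V')
    (h : ∀ g, κ (j g) = j' (e g)) {X : Type*} [AddCommGroup X] [Module K X]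
    (ρ : Representation K G' X) (σ : Representation K G X) (hσ : ∀ g x, σ g x = ρ (e g) x) (g : G)
    (m : MM K V' X) : trTh κ X (act j' ρ (e g) m) = act j σ g (trTh κ X m) := by
  have hs : ∀ g, κ.symm (j' (e g)) = j g := fun g => by rw [← h, κ.symm_apply_apply]
  have h1 : trTh κ X ∘ₗ act j' ρ (e g) = act j σ g ∘ₗ trTh κ X := MM_ext fun a x b => by
    rw [LinearMap.comp_apply, LinearMap.comp_apply, act_tmul, trTh_tmul, trTh_tmul, act_tmul,
      map_mul, map_mul, ← map_inv e g, hs, hs, hσ]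
  exact LinearMap.congr_fun h1 m

private theorem trIn_act (j : G →* V) (j' : G' →* V') (e : G ≃* G') (κ : V ≃ₐ[K] V')
    (h : ∀ g, κ (j g) = j' (e g)) {X : Type*} [AddCommGroup X] [Module K X]
    (ρ : Representation K G' X) (σ : Representation K G X) (hσ : ∀ g x, σ g x = ρ (e g) x) (g : G)
    (m : MM K V X) : trIn κ X (act j σ g m) = act j' ρ (e g) (trIn κ X m) := by
  have h1 : trIn κ X ∘ₗ act j σ g = act j' ρ (e g) ∘ₗ trIn κ X := MM_ext fun a x b => by
    rw [LinearMap.comp_apply, LinearMap.comp_apply, act_tmul, trIn_tmul, trIn_tmul, act_tmul,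
      map_mul, map_mul, h, h, map_inv, hσ]
  exact LinearMap.congr_fun h1 m

private theorem trTh_II (j : G →* V) (j' : G' →* V') (e : G ≃* G') (κ : V ≃ₐ[K] V')
    (h : ∀ g, κ (j g) = j' (e g)) {X : Type*} [AddCommGroup X] [Module K X]
    (ρ : Representation K G' X) (σ : Representation K G X) (hσ : ∀ g x, σ g x = ρ (e g) x)
    {m : MM K V' X} (hm : m ∈ II j' ρ (⊤ : Subgroup G')) : trTh κ X m ∈ II j σ (⊤ : Subgroup G) := by
  have h1 : II j' ρ (⊤ : Subgroup G') ≤ (II j σ (⊤ : Subgroup G) : Submodule K (MM K V X)).comap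
      (trTh κ X) := by
    refine II_le j' ρ fun g _ m => ?_
    rw [Submodule.mem_comap, map_sub]
    have h2 := trTh_act j j' e κ h ρ σ hσ (e.symm g) m
    rw [e.apply_symm_apply] at h2
    rw [h2]
    exact act_sub_mem j σ (Subgroup.mem_top _) _
  exact h1 hm

private theorem trIn_II (j : G →* V) (j' : G' →* V') (e : G ≃* G') (κ : V ≃ₐ[K] V')
    (h : ∀ g, κ (j g) = j' (e g)) {X : Type*} [AddCommGroup X] [Module K X]
    (ρ : Representation K G' X) (σ : Representation K G X) (hσ : ∀ g x, σ g x = ρ (e g) x)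
    {m : MM K V X} (hm : m ∈ II j σ (⊤ : Subgroup G)) : trIn κ X m ∈ II j' ρ (⊤ : Subgroup G') := by
  have h1 : II j σ (⊤ : Subgroup G) ≤ (II j' ρ (⊤ : Subgroup G') : Submodule K (MM K V' X)).comap
      (trIn κ X) := by
    refine II_le j σ fun g _ m => ?_
    rw [Submodule.mem_comap, map_sub, trIn_act j j' e κ h ρ σ hσ]
    exact act_sub_mem j' ρ (Subgroup.mem_top _) _
  exact h1 hm

end

/-- **Transport** -/
theorem flatOn_transport {K G G' V V' : Type} [Field K] [Group G] [Group G'] [Ring V] [Algebra K V] [Ring V']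
    [Algebra K V'] (j : G →* V) (j' : G' →* V') (e : G ≃* G') (κ : V ≃ₐ[K] V') (h : ∀ g, κ (j g) = j' (e g))
    (hF : FlatOn.{0} (K := K) j (⊤ : Subgroup G)) : FlatOn.{0} (K := K) j' (⊤ : Subgroup G') := by
  intro X' X _ _ _ _ ρ' ρ i hi heq m hm
  have h1 := trTh_II j j' e κ h ρ (MonoidHom.comp ρ (e : G →* G')) (fun _ _ => rfl) hm
  rw [trTh_mapX] at h1
  have h2 := hF X' X (MonoidHom.comp ρ' (e : G →* G')) (MonoidHom.comp ρ (e : G →* G')) i hi
    (fun g x => heq (e g) x) (trTh κ X' m) h1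
  have h3 := trIn_II j j' e κ h ρ' (MonoidHom.comp ρ' (e : G →* G')) (fun _ _ => rfl) h2
  rw [trIn_trTh] at h3
  exact h3

end Pool.Agent.TW
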