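import Pool.Agent.TW.CPM
import Pool.Agent.TW.HB
import Pool.Agent.TW.OR
import Pool.Agent.TW.F.Fin

/-!
# Project TW: the step of the induction
-/

set_option autoImplicit false
set_option linter.unusedSectionVars false

namespace Pool.Agent.TW

open Pool.Agent.S11 Pool.Agent.S11.FL
open Pool.Agent.H58.MN (Ser)

/-- **The step** -/
theorem ok_step {H : Type} [Group H] [Countable H] (U : UR H) {R : RkR U.E} (hR : U.Lim R) {J N : Subgroup H}
    (h : StepT J N) (hN : U.Ok N) : U.Ok J := by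
  obtain ⟨Q, gQ, boQ, p, Γ, gΓ, boΓ, q, hp, hker, hA, hF, hB⟩ := h.exists_apx
  have hA0 : dcl (U.uJ J '' (p.ker : Set ↥J)) = U.D N := by
    unfold UR.D
    congr 1
    ext e
    constructor
    · rintro ⟨x, hx, rfl⟩
      have hx' : p x = 1 := hx
      exact ⟨⟨x, (hker x).1 hx'⟩, rfl⟩
    · rintro ⟨n, rfl⟩
      exact ⟨⟨n, h.le n.2⟩, (hker _).2 n.2, rfl⟩
  have hK : KerH (dcl (U.uJ J '' (p.ker : Set ↥J))) (U.uJ J) p := by
    refine ⟨hp, fun n hn => subset_dcl _ ⟨n, hn, rfl⟩, ?_, ?_⟩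
    · intro g
      refine conj_dcl ?_ ?_ ?_
      · rw [← map_mul, mul_inv_cancel, map_one]
      · rw [← map_mul, inv_mul_cancel, map_one]
      · rintro _ ⟨n, hn, rfl⟩
        rw [← map_mul, ← map_mul]
        refine subset_dcl _ ⟨_, ?_, rfl⟩
        exact p.normal_ker.conj_mem n hn g
    · rw [hA0]
      exact hN.div
  obtain ⟨hdiv, ι, hinj, hG, hfine, hι, -⟩ := cp_main R (U.uJ J) p hK q hA fun j => hasBx_of_bxRF U hR J _ (hB j)
  have hD : U.D J = dcl (Set.range (U.uJ J)) := rfl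
  refine ⟨hdiv, ?_⟩
  rw [hA0] at hK hG
  refine flat_step (E₀ := U.D N) (u := U.uJ J) (p := p) hK (Subgroup.inclusion h.le) ?_ (U.w N) (fun n => rfl) hN.flat hA
    (fun j => (S14.Foel.comap (Subgroup.subtype _) Subtype.val_injective (hF j)).fol) hD hdiv (U.w J) (fun x => rfl) ι hG
    hfine fun x => hι x _
  ext x
  constructor
  · rintro ⟨n, rfl⟩
    exact (hker _).2 n.2
  · intro hx
    exact ⟨⟨x, (hker x).1 hx⟩, rfl⟩

end Pool.Agent.TW
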