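import Pool.Agent.TW.DefsI

/-!
# Project TW, block I: the truncation to a box

MAP.  `v q * P y = P (π q * y) * v q`, hence `pushFun π v g * P y = P (g * y) * pushFun π v g` and
`th v = ∑ x ∈ Φ, ∑ y ∈ Φ, P x * pushFun π v (x y⁻¹) * P y`; `f * P x = P (π q x) * f`; the difference `f * th v - th (single q f * v)` is
a sum over `x ∈ Φ` with `π q x ∉ Φ` (rank at most `bd1`, since the `P (π q x)`, `x ∈ Φ`, are orthogonal idempotents: conjugate the
`P x` by `u h`, `p h = q`) minus a sum over `x ∈ Φ` with `(π q)⁻¹ x ∉ Φ` (rank at most `bd2`).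
-/

set_option autoImplicit false
set_option linter.unusedSectionVars false

open Function

namespace Pool.Agent.TW.I

open Pool.Agent.H58.MN Pool.Agent.H58.MN.Ser Pool.Agent.S11

section rank

variable {A : Type} [Ring A] [RkR A]

theorem rk_nonneg (a : A) : 0 ≤ rk a := by
  have h1 := RkR.rk_mul_le_left a 0
  rwa [mul_zero, RkR.rk_zero] at h1

theorem rk_le_one (a : A) : rk a ≤ 1 := by
  have h1 := RkR.rk_mul_le_left 1 a
  rwa [one_mul, RkR.rk_one] at h1

theorem rk_sub (a b : A) : rk (a - b) ≤ rk a + rk b := by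
  rw [sub_eq_add_neg]
  exact (RkR.rk_add _ _).trans (by rw [RkR.rk_neg])

end rank

section push

variable {K G G' : Type*} [Ring K] [Group G] [LinearOrder G] [MulLeftMono G] [MulRightMono G]
  [Group G'] [LinearOrder G'] [MulLeftMono G'] [MulRightMono G'] (π : G →* G')

theorem pushFun_add {f g : Ser K G} (hf : Good π (support f)) (hg : Good π (support g)) (y : G') :
    pushFun π (f + g) y = pushFun π f y + pushFun π g y := by
  have h1 := map_add (push π) (⟨f, hf⟩ : goodSub π K) ⟨g, hg⟩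
  exact congrArg (fun s : Ser K G' => s y) h1

theorem pushFun_neg (f : Ser K G) (y : G') : pushFun π (-f) y = -pushFun π f y := by
  rw [pushFun, pushFun, ← finsum_neg_distrib]
  refine finsum_congr fun x => ?_
  split_ifs
  · rfl
  · rw [neg_zero]

theorem pushFun_zero (y : G') : pushFun π (0 : Ser K G) y = 0 := by
  rw [pushFun, finsum_congr (g := fun _ => 0), finsum_zero]
  intro x
  rw [Ser.zero_apply, ite_self]

theorem pushFun_one (y : G') : pushFun π (1 : Ser K G) y = if y = 1 then 1 else 0 := by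
  have h1 := congrArg (fun s : Ser K G' => s y) (map_one (push (K := K) π))
  have h2 : pushFun π (1 : Ser K G) y = (1 : Ser K G') y := h1
  rw [h2, one_def]
  split_ifs with h
  · subst h
    exact single_self _ _
  · exact single_ne h _

theorem pushFun_single_mul {f : Ser K G} (hf : Good π (support f)) (q : G) (c : K) (y : G') :
    pushFun π (single q c * f) y = c * pushFun π f ((π q)⁻¹ * y) := by
  rw [pushFun_mul π (single_mem_goodSub π q c) hf, finsum_eq_single _ (π q)]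
  · have h1 := congrArg (fun s : Ser K G' => s (π q)) (push_single (K := K) π q c)
    have h2 : pushFun π (single q c : Ser K G) (π q) = c := h1.trans (single_self _ _)
    rw [h2]
  · intro b hb
    have h1 := congrArg (fun s : Ser K G' => s b) (push_single (K := K) π q c)
    have h2 : pushFun π (single q c : Ser K G) b = 0 := h1.trans (single_ne hb _)
    rw [h2, zero_mul]

end push

namespace Step

variable {A J Q : Type} [Ring A] [RkR A] [Group J] [Group Q] {S : Step A J Q} [BO Q] {G : Type} [Group G] [BO G]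
  {π : Q →* G} {F : Finset Q} {δ : ℝ} (B : S.Box π F δ)

theorem Box.th_add {v w : Ser A Q} (hv : Good π (support v)) (hw : Good π (support w)) :
    B.th (v + w) = B.th v + B.th w := by
  rw [Box.th, Box.th, Box.th, ← Finset.sum_add_distrib]
  refine Finset.sum_congr rfl fun x _ => ?_
  rw [← Finset.sum_add_distrib]
  refine Finset.sum_congr rfl fun y _ => ?_
  rw [pushFun_add π hv hw, mul_add, add_mul]

theorem Box.th_neg (v : Ser A Q) : B.th (-v) = -B.th v := by
  rw [Box.th, Box.th, ← Finset.sum_neg_distrib]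
  refine Finset.sum_congr rfl fun x _ => ?_
  rw [← Finset.sum_neg_distrib]
  refine Finset.sum_congr rfl fun y _ => ?_
  rw [pushFun_neg, mul_neg, neg_mul]

theorem Box.th_one : B.th 1 = 1 := by
  rw [Box.th, ← B.sum]
  refine Finset.sum_congr rfl fun x hx => ?_
  rw [Finset.sum_eq_single_of_mem x hx]
  · rw [pushFun_one, if_pos (mul_inv_cancel x), mul_one, B.idem x hx]
  · intro y _ hy
    rw [pushFun_one, if_neg, mul_zero, zero_mul]
    intro h
    exact hy (mul_inv_eq_one.1 h).symm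

theorem Box.th_zero : B.th 0 = 0 := by
  rw [Box.th]
  refine Finset.sum_eq_zero fun x _ => Finset.sum_eq_zero fun y _ => ?_
  rw [pushFun_zero, mul_zero, zero_mul]

theorem Box.transl (h : J) (z : G) :
    B.P (π (S.p h) * z) = ((S.u h : Aˣ) : A) * B.P z * (((S.u h)⁻¹ : Aˣ) : A) := by
  rw [B.comm _ _ (S.u_mem_comp h), mul_assoc, ← Units.val_mul, mul_inv_cancel, Units.val_one, mul_one]

theorem Box.transl_mul (h : J) (x y : G) : B.P (π (S.p h) * x) * B.P (π (S.p h) * y) =
    ((S.u h : Aˣ) : A) * (B.P x * B.P y) * (((S.u h)⁻¹ : Aˣ) : A) := by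
  rw [B.transl, B.transl]
  calc ((S.u h : Aˣ) : A) * B.P x * (((S.u h)⁻¹ : Aˣ) : A) * (((S.u h : Aˣ) : A) * B.P y * (((S.u h)⁻¹ : Aˣ) : A))
      = ((S.u h : Aˣ) : A) * B.P x * ((((S.u h)⁻¹ : Aˣ) : A) * ((S.u h : Aˣ) : A)) * B.P y * (((S.u h)⁻¹ : Aˣ) : A) := by
        noncomm_ring
    _ = ((S.u h : Aˣ) : A) * (B.P x * B.P y) * (((S.u h)⁻¹ : Aˣ) : A) := by
        rw [← Units.val_mul, inv_mul_cancel, Units.val_one]
        noncomm_ring

/-- the translates of the idempotents of the box are orthogonal -/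
theorem Box.orth' (q : Q) {x y : G} (hx : x ∈ B.Φ) (hy : y ∈ B.Φ) (hxy : x ≠ y) :
    B.P (π q * x) * B.P (π q * y) = 0 := by
  obtain ⟨h, rfl⟩ := S.surj q
  rw [B.transl_mul, B.orth x hx y hy hxy, mul_zero, zero_mul]

theorem Box.idem' (q : Q) {x : G} (hx : x ∈ B.Φ) : B.P (π q * x) * B.P (π q * x) = B.P (π q * x) := by
  obtain ⟨h, rfl⟩ := S.surj q
  rw [B.transl_mul, B.idem x hx, B.transl]

theorem rk_sum_idem {ι : Type} (s : Finset ι) (P c : ι → A) (hi : ∀ x ∈ s, P x * P x = P x)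
    (ho : ∀ x ∈ s, ∀ y ∈ s, x ≠ y → P x * P y = 0) : rk (∑ x ∈ s, P x * c x) ≤ rk (∑ x ∈ s, P x) := by
  have h1 : ∑ x ∈ s, P x * c x = (∑ x ∈ s, P x) * ∑ x ∈ s, P x * c x := by
    rw [Finset.sum_mul]
    refine Finset.sum_congr rfl fun x hx => ?_
    rw [Finset.mul_sum, Finset.sum_eq_single_of_mem x hx]
    · rw [← mul_assoc, hi x hx]
    · intro y hy hyx
      rw [← mul_assoc, ho x hx y hy (Ne.symm hyx), zero_mul]
  rw [h1]
  exact RkR.rk_mul_le_left _ _

theorem filter_inst {α : Type} (p : α → Prop) (i j : DecidablePred p) (s : Finset α) :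
    @Finset.filter α p i s = @Finset.filter α p j s := by
  rw [Subsingleton.elim i j]

open Classical in
/-- the estimate -/
theorem Box.th_single {q : Q} (hq : q ∈ F) {f : A} (hf : f ∈ S.comp q) {v : Ser A Q}
    (hg : Good π (support v)) : rk (f * B.th v - B.th (single q f * v)) ≤ 2 * δ := by
  set c : G → A := fun x => ∑ y ∈ B.Φ, f * pushFun π v (x * y⁻¹) * B.P y with hc
  have h1 : f * B.th v = ∑ x ∈ B.Φ, B.P (π q * x) * c x := by
    rw [Box.th, Finset.mul_sum]
    refine Finset.sum_congr rfl fun x _ => ?_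
    rw [hc, Finset.mul_sum, Finset.mul_sum]
    refine Finset.sum_congr rfl fun y _ => ?_
    rw [← mul_assoc, ← mul_assoc, B.comm q f hf x]
    noncomm_ring
  have h2 : B.th (single q f * v) = ∑ x ∈ B.Φ, B.P x * c ((π q)⁻¹ * x) := by
    rw [Box.th]
    refine Finset.sum_congr rfl fun x _ => ?_
    rw [hc, Finset.mul_sum]
    refine Finset.sum_congr rfl fun y _ => ?_
    rw [pushFun_single_mul π hg, mul_assoc (π q)⁻¹ x y⁻¹]
    noncomm_ring
  have h3 : ∑ x ∈ B.Φ, B.P (π q * x) * c x = ∑ x ∈ B.Φ.filter (fun x => π q * x ∈ B.Φ), B.P (π q * x) * c x +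
      ∑ x ∈ B.Φ.filter (fun x => π q * x ∉ B.Φ), B.P (π q * x) * c x :=
    (Finset.sum_filter_add_sum_filter_not _ _ _).symm
  have h4 : ∑ x ∈ B.Φ, B.P x * c ((π q)⁻¹ * x) = ∑ x ∈ B.Φ.filter (fun x => (π q)⁻¹ * x ∈ B.Φ), B.P x * c ((π q)⁻¹ * x) +
      ∑ x ∈ B.Φ.filter (fun x => (π q)⁻¹ * x ∉ B.Φ), B.P x * c ((π q)⁻¹ * x) :=
    (Finset.sum_filter_add_sum_filter_not _ _ _).symm
  have h5 : ∑ x ∈ B.Φ.filter (fun x => π q * x ∈ B.Φ), B.P (π q * x) * c x =
      ∑ x ∈ B.Φ.filter (fun x => (π q)⁻¹ * x ∈ B.Φ), B.P x * c ((π q)⁻¹ * x) := by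
    refine Finset.sum_bij' (fun x _ => π q * x) (fun x _ => (π q)⁻¹ * x) ?_ ?_ ?_ ?_ ?_
    · intro x hx
      rw [Finset.mem_filter] at hx ⊢
      exact ⟨hx.2, by rw [inv_mul_cancel_left]; exact hx.1⟩
    · intro x hx
      rw [Finset.mem_filter] at hx ⊢
      exact ⟨hx.2, by rw [mul_inv_cancel_left]; exact hx.1⟩
    · intro x _
      exact inv_mul_cancel_left _ _
    · intro x _
      exact mul_inv_cancel_left _ _
    · intro x _
      rw [inv_mul_cancel_left]
  rw [h1, h2, h3, h4, h5, add_sub_add_left_eq_sub]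
  have e1 : rk (∑ x ∈ B.Φ.filter (fun x => π q * x ∉ B.Φ), B.P (π q * x)) ≤ δ := by
    refine le_trans (le_of_eq (congrArg rk (Finset.sum_congr ?_ fun _ _ => rfl))) (B.bd1 q hq)
    exact filter_inst _ _ _ _
  have e2 : rk (∑ x ∈ B.Φ.filter (fun x => (π q)⁻¹ * x ∉ B.Φ), B.P x) ≤ δ := by
    refine le_trans (le_of_eq (congrArg rk (Finset.sum_congr ?_ fun _ _ => rfl))) (B.bd2 q hq)
    exact filter_inst _ _ _ _
  have h6 : rk (∑ x ∈ B.Φ.filter (fun x => π q * x ∉ B.Φ), B.P (π q * x) * c x) ≤ δ := by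
    refine (rk_sum_idem (B.Φ.filter (fun x => π q * x ∉ B.Φ)) (fun x => B.P (π q * x)) c
      (fun x hx => B.idem' q (Finset.mem_filter.1 hx).1) ?_).trans e1
    intro x hx y hy hxy
    exact B.orth' q (Finset.mem_filter.1 hx).1 (Finset.mem_filter.1 hy).1 hxy
  have h7 : rk (∑ x ∈ B.Φ.filter (fun x => (π q)⁻¹ * x ∉ B.Φ), B.P x * c ((π q)⁻¹ * x)) ≤ δ := by
    refine (rk_sum_idem (B.Φ.filter (fun x => (π q)⁻¹ * x ∉ B.Φ)) B.P (fun x => c ((π q)⁻¹ * x))
      (fun x hx => B.idem x (Finset.mem_filter.1 hx).1) ?_).trans e2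
    intro x hx y hy hxy
    exact B.orth x (Finset.mem_filter.1 hx).1 y (Finset.mem_filter.1 hy).1 hxy
  have h8 := rk_sub (∑ x ∈ B.Φ.filter (fun x => π q * x ∉ B.Φ), B.P (π q * x) * c x)
    (∑ x ∈ B.Φ.filter (fun x => (π q)⁻¹ * x ∉ B.Φ), B.P x * c ((π q)⁻¹ * x))
  linarith

end Step

end Pool.Agent.TW.I
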